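import Mathlib

/- Quadratic L-functions over F_q[t] and the main term of the ratios conjecture. -/

set_option autoImplicit false

namespace Pool.Agent.MP_dd7250_nt

open Polynomial

variable {F : Type*} [Field F]

open Classical in
/-- The Legendre symbol `(D / P)` for an irreducible `P`. -/
noncomputable def leg (D P : F[X]) : ℂ :=
  if P ∣ D then 0 else if ∃ y : F[X], P ∣ y ^ 2 - D then 1 else -1

open Classical in
/-- The Jacobi symbol `(D / f)`: the product of `(D / P)` over the monic irreducible factors `P`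
of `f`, with multiplicity. -/
noncomputable def jac (D f : F[X]) : ℂ :=
  ((UniqueFactorizationMonoid.normalizedFactors f).map (leg D)).prod

variable [Fintype F]

/-- `L(s, χ_D)`, the sum of `(D / f) |f| ^ (-s)` over monic `f`, grouped by the degree of `f`. -/
noncomputable def Lf (D : F[X]) (s : ℂ) : ℂ :=
  ∑' n : ℕ, (∑ᶠ (f : F[X]) (_ : f.Monic ∧ f.natDegree = n), jac D f) *
    ((Fintype.card F : ℂ) ^ n) ^ (-s)

/-- The average over monic squarefree `D` of degree `2 g + 1`. -/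
noncomputable def avg (g : ℕ) (Φ : F[X] → ℂ) : ℂ :=
  (∑ᶠ (D : F[X]) (_ : D.Monic ∧ Squarefree D ∧ D.natDegree = 2 * g + 1), Φ D) /
    (Nat.card {D : F[X] // D.Monic ∧ Squarefree D ∧ D.natDegree = 2 * g + 1} : ℂ)

/-- The factor of `A(α, β, γ, δ)` at a prime of norm `p`. -/
noncomputable def locA (p α β γ δ : ℂ) : ℂ :=
  (1 + 1 / p)⁻¹ * ((1 - p ^ (-1 - α - β)) * (1 - p ^ (-1 - γ - δ)) /
    ((1 - p ^ (-1 - α - γ)) * (1 - p ^ (-1 - α - δ)) * (1 - p ^ (-1 - β - γ)) *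
      (1 - p ^ (-1 - β - δ)))) *
    (1 + p⁻¹ + p ^ (-1 - α - β) + p ^ (-1 - γ - δ) -
      (p ^ (-1 - α - γ) + p ^ (-1 - α - δ) + p ^ (-1 - β - γ) + p ^ (-1 - β - δ)) -
      (p ^ (-2 - 2 * α) + p ^ (-2 - 2 * β)) + p ^ (-2 - α - β - γ - δ) +
      p ^ (-3 - 2 * α - 2 * β))

variable (F)

/-- `ζ_q(s)`. -/
noncomputable def zeta (s : ℂ) : ℂ := (1 - (Fintype.card F : ℂ) ^ (1 - s))⁻¹

/-- The Euler product `A(α, β, γ, δ)` over monic irreducible `P`. -/
noncomputable def AA4 (α β γ δ : ℂ) : ℂ :=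
  ∏' P : {P : F[X] // P.Monic ∧ Irreducible P},
    locA ((Fintype.card F : ℂ) ^ P.1.natDegree) α β γ δ

/-- `G(α, β, γ, δ)`. -/
noncomputable def GG (α β γ δ : ℂ) : ℂ :=
  AA4 F α β γ δ * (zeta F (1 + α + β) * zeta F (1 + γ + δ) * zeta F (1 + 2 * α) *
    zeta F (1 + 2 * β)) /
    (zeta F (1 + α + γ) * zeta F (1 + α + δ) * zeta F (1 + β + γ) * zeta F (1 + β + δ))

end Pool.Agent.MP_dd7250_nt
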