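import Mathlib
import Pool.Agent.MP_d232b3_nt.RH
import Pool.Agent.MP_dd7250_nt.Defs

/- Working definitions for the two over two ratio. -/

set_option autoImplicit false

namespace Pool.Agent.MP_dd7250_nt

open Polynomial Finset Pool.Agent.MP_d232b3_nt
open scoped Classical

/-- The size of the field. -/
abbrev Q (F : Type*) [Fintype F] : ℕ := Fintype.card F

section Sets

variable (F : Type*) [Field F] [Fintype F]

/-- Monic polynomials of degree at most `R`. -/
noncomputable def monLe (R : ℕ) : Finset F[X] := (range (R + 1)).biUnion (monF F)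

/-- Monic irreducible polynomials of degree at most `M`. -/
noncomputable def pr (M : ℕ) : Finset F[X] := (monLe F M).filter Irreducible

/-- Monic irreducible polynomials of degree `d`. -/
noncomputable def prD (d : ℕ) : Finset F[X] := (monF F d).filter Irreducible

/-- Monic squarefree polynomials of degree `N`. -/
noncomputable def sqF (N : ℕ) : Finset F[X] := (monF F N).filter Squarefree

/-- The quadratic character of the constant field. -/
noncomputable def eta (a : F) : ℂ := ((quadraticChar F a : ℤ) : ℂ)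

/-- The square root of `q`. -/
noncomputable def sq : ℂ := ((Real.sqrt (Q F) : ℝ) : ℂ)

/-- Real powers of `q`. -/
noncomputable def qp (x : ℝ) : ℝ := (Q F : ℝ) ^ x

variable {F}

theorem mem_monLe {R : ℕ} {f : F[X]} : f ∈ monLe F R ↔ f.Monic ∧ f.natDegree ≤ R := by
  simp only [monLe, mem_biUnion, mem_range, mem_monF]
  exact ⟨fun ⟨d, h1, h2, h3⟩ => ⟨h2, by omega⟩, fun ⟨h1, h2⟩ => ⟨_, by omega, h1, rfl⟩⟩

theorem mem_pr {M : ℕ} {P : F[X]} :
    P ∈ pr F M ↔ P.Monic ∧ Irreducible P ∧ P.natDegree ≤ M := by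
  rw [pr, mem_filter, mem_monLe]; tauto

theorem mem_prD {d : ℕ} {P : F[X]} :
    P ∈ prD F d ↔ P.Monic ∧ Irreducible P ∧ P.natDegree = d := by
  rw [prD, mem_filter, mem_monF]; tauto

theorem mem_sqF {N : ℕ} {D : F[X]} :
    D ∈ sqF F N ↔ D.Monic ∧ Squarefree D ∧ D.natDegree = N := by
  rw [sqF, mem_filter, mem_monF]; tauto

theorem sum_monLe {B : Type*} [AddCommMonoid B] (R : ℕ) (φ : F[X] → B) :
    ∑ f ∈ monLe F R, φ f = ∑ d ∈ range (R + 1), ∑ f ∈ monF F d, φ f := by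
  refine sum_biUnion fun a _ b _ hab => disjoint_left.2 fun f h1 h2 => hab ?_
  rw [← (mem_monF.1 h1).2, ← (mem_monF.1 h2).2]

theorem sum_pr {B : Type*} [AddCommMonoid B] (M : ℕ) (φ : F[X] → B) :
    ∑ P ∈ pr F M, φ P = ∑ d ∈ range (M + 1), ∑ P ∈ prD F d, φ P := by
  rw [pr, sum_filter, sum_monLe]
  simp only [prD, sum_filter]

theorem pr_mono {M I : ℕ} (h : M ≤ I) : pr F M ⊆ pr F I := fun _ hP =>
  mem_pr.2 ⟨(mem_pr.1 hP).1, (mem_pr.1 hP).2.1, (mem_pr.1 hP).2.2.trans h⟩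

theorem card_prD_le (d : ℕ) : (prD F d).card ≤ Q F ^ d :=
  (card_filter_le _ _).trans_eq (card_monF d)

theorem card_sqF_le (N : ℕ) : (sqF F N).card ≤ Q F ^ N :=
  (card_filter_le _ _).trans_eq (card_monF N)

omit [Fintype F] in
theorem deg_pos {P : F[X]} (h : Irreducible P) : 0 < P.natDegree := h.natDegree_pos

theorem one_lt_Q : (1 : ℝ) < Q F := by exact_mod_cast Fintype.one_lt_card

theorem Q_ne : (Q F : ℂ) ≠ 0 := Nat.cast_ne_zero.2 Fintype.card_ne_zero

theorem sq_sq : sq F ^ 2 = Q F := by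
  rw [sq, ← Complex.ofReal_pow, Real.sq_sqrt (Nat.cast_nonneg _), Complex.ofReal_natCast]

theorem qp_pos (x : ℝ) : 0 < qp F x := Real.rpow_pos_of_pos (zero_lt_one.trans one_lt_Q) x

theorem qp_add (x y : ℝ) : qp F (x + y) = qp F x * qp F y :=
  Real.rpow_add (zero_lt_one.trans one_lt_Q) x y

theorem qp_mono {x y : ℝ} (h : x ≤ y) : qp F x ≤ qp F y :=
  Real.rpow_le_rpow_of_exponent_le one_lt_Q.le h

theorem qp_pow (x : ℝ) (n : ℕ) : qp F x ^ n = qp F (x * n) :=
  (Real.rpow_mul_natCast (Nat.cast_nonneg _) x n).symm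

theorem qp_nat (n : ℕ) : qp F n = (Q F : ℝ) ^ n := Real.rpow_natCast _ n

theorem qp_zero : qp F 0 = 1 := Real.rpow_zero _

theorem qp_one : qp F 1 = Q F := Real.rpow_one _

theorem qp_neg (x : ℝ) : qp F (-x) = (qp F x)⁻¹ := Real.rpow_neg (Nat.cast_nonneg _) x

theorem qp_lt_one {x : ℝ} (h : x < 0) : qp F x < 1 :=
  Real.rpow_lt_one_of_one_lt_of_neg one_lt_Q h

theorem qp_le_one {x : ℝ} (h : x ≤ 0) : qp F x ≤ 1 := (qp_mono h).trans_eq qp_zero

theorem norm_sq : ‖sq F‖ = qp F (1 / 2) := by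
  rw [sq, Complex.norm_real, Real.norm_of_nonneg (Real.sqrt_nonneg _), Real.sqrt_eq_rpow, qp]

/-- Completely multiplicative on monic polynomials. -/
structure CM (χ : F[X] → ℂ) : Prop where
  one : χ 1 = 1
  mul : ∀ f g : F[X], f.Monic → g.Monic → χ (f * g) = χ f * χ g

/-- Square root cancellation in sums over primes of each degree. -/
def Small (x : F[X] → ℂ) (n : ℝ) : Prop :=
  (∀ P, ‖x P‖ ≤ 1) ∧ ∀ d : ℕ, ‖∑ P ∈ prD F d, x P‖ ≤ n * qp F (d / 2)

/-- The coefficients of the inverse of the L-series. -/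
noncomputable def ainv (χ : F[X] → ℂ) (k : ℕ) : ℂ :=
  PowerSeries.coeff k (PowerSeries.mk (AA χ))⁻¹

/-- The coefficients of `1 / (L(v₁ t) L(v₂ t))`. -/
noncomputable def beta (v₁ v₂ : ℂ) (k : ℕ) (D : F[X]) : ℂ :=
  ∑ p ∈ antidiagonal k, ainv (jac D) p.1 * v₁ ^ p.1 * (ainv (jac D) p.2 * v₂ ^ p.2)

variable (F) in
/-- The range of the shifts: `u 0, u 1` above, `u 2, u 3` below. -/
structure Rng (ε c a₀ a₁ : ℝ) (u : Fin 4 → ℂ) : Prop where
  hc : c ≤ 1 / 2
  ha : |a₀| + |a₁| + ε ≤ c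
  h0 : ‖u 0‖ = qp F (-(1 / 2 + a₀))
  h1 : ‖u 1‖ = qp F (-(1 / 2 + a₁))
  h2 : ‖u 2‖ ≤ qp F (-(1 / 2 + c))
  h3 : ‖u 3‖ ≤ qp F (-(1 / 2 + c))

/-- The growth exponent of the error term. -/
noncomputable def ex (c a₀ a₁ : ℝ) : ℝ := 2 - 2 * c + 2 * max 0 (-a₀) + 2 * max 0 (-a₁)

variable (F) in
/-- The monic irreducible polynomials. -/
abbrev Prm := {P : F[X] // P.Monic ∧ Irreducible P}

theorem three_le_Q (hF : ringChar F ≠ 2) : (3 : ℝ) ≤ Q F := by
  have h1 : Q F % 2 = 1 := FiniteField.odd_card_of_char_ne_two hF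
  have h2 : 1 < Q F := Fintype.one_lt_card
  exact_mod_cast (by omega : 3 ≤ Q F)

end Sets

/-- The series converges absolutely at `z`. -/
def Sm (z : ℂ) (f : PowerSeries ℂ) : Prop := Summable fun n => ‖PowerSeries.coeff n f * z ^ n‖

/-- The value of a power series at `z`. -/
noncomputable def evs (z : ℂ) (f : PowerSeries ℂ) : ℂ := ∑' n, PowerSeries.coeff n f * z ^ n

section Gen

variable {F : Type*} [Field F] [Fintype F] {A : Type*} [CommRing A] [Algebra ℂ A]

/-- A truncated geometric series. -/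
def gam (I : ℕ) (z : A) : A := ∑ l ∈ range (I + 1), z ^ l

/-- The truncated L-series. -/
noncomputable def Lt (χ : F[X] → ℂ) (I : ℕ) (z : A) : A :=
  ∑ n ∈ range (I + 1), algebraMap ℂ A (AA χ n) * z ^ n

/-- The truncated inverse L-series. -/
noncomputable def Li (χ : F[X] → ℂ) (I : ℕ) (z : A) : A :=
  ∑ n ∈ range (I + 1), algebraMap ℂ A (ainv χ n) * z ^ n

/-- Powers of the four variables. -/
def pw (U : Fin 4 → A) (d : ℕ) : Fin 4 → A := fun i => U i ^ d

/-- The even part of the local factor, minus one. -/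
def Ev (M : ℕ) (a : Fin 4 → A) : A :=
  gam M (a 0 ^ 2) * gam M (a 1 ^ 2) *
    (1 + a 0 * a 1 + a 2 * a 3 - (a 0 + a 1) * (a 2 + a 3) + a 0 * a 1 * (a 2 * a 3)) - 1

/-- The odd part of the local factor. -/
def Od (M : ℕ) (a : Fin 4 → A) : A :=
  gam M (a 0 ^ 2) * gam M (a 1 ^ 2) *
    (a 0 + a 1 - (a 2 + a 3) - a 0 * a 1 * (a 2 + a 3) + a 2 * a 3 * (a 0 + a 1))

/-- The factor from the squarefree sieve. -/
def rho (I : ℕ) (y : A) (d : ℕ) : A := gam I ((y ^ d) ^ 2)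

variable (F)

/-- `q` in the algebra. -/
abbrev qA (A : Type*) [CommRing A] : A := (Q F : A)

/-- The generating function over squarefree `D`. -/
noncomputable def Zs (I : ℕ) (U : Fin 4 → A) (y : A) : A :=
  ∑ N ∈ range (I + 1), y ^ N * ∑ D ∈ sqF F N,
    Lt (jac D) I (U 0) * Lt (jac D) I (U 1) * (Li (jac D) I (U 2) * Li (jac D) I (U 3))

/-- The parity weights in the functional equation. -/
noncomputable def kap (σ : ℂ) (y : A) : A :=
  algebraMap ℂ A (1 / 2) * (-(1 - y) + algebraMap ℂ A (σ / sq F) * (1 - qA F A * y))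

/-- The dual variable. -/
noncomputable def dy (σ : ℂ) (y : A) : A := algebraMap ℂ A (σ * sq F) * y

/-- The weight of the dual polynomial `V`. -/
noncomputable def wV (M : ℕ) (y : A) (V : F[X]) : A :=
  algebraMap ℂ A ((Q F : ℂ) ^ V.natDegree)⁻¹ * y ^ (M - V.natDegree)

variable {F}

/-- The factor at a prime of the sieving set. -/
def lE (M I : ℕ) (U : Fin 4 → A) (y : A) (d : ℕ) : A :=
  -(Ev M (pw U d) * rho I y d * y ^ d)

/-- The factor at a prime outside the sieving set. -/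
noncomputable def lO (M I : ℕ) (U : Fin 4 → A) (y : A) (σ : ℂ) (W P : F[X]) : A :=
  1 + Ev M (pw U P.natDegree) * rho I y P.natDegree + algebraMap ℂ A (jac W P) *
    (Od M (pw U P.natDegree) * rho I y P.natDegree * dy F σ y ^ P.natDegree)

variable (F)

/-- The correction making the Euler product of a square converge. -/
noncomputable def om (M : ℕ) (U : Fin 4 → A) (y : A) (σ : ℂ) (d : ℕ) : A :=
  (1 - (dy F σ y * U 0) ^ d) * (1 - (dy F σ y * U 1) ^ d) *
    (gam M ((dy F σ y * U 2) ^ d) * gam M ((dy F σ y * U 3) ^ d))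

/-- The dual terms with a nonsquare. -/
noncomputable def Pr (M I : ℕ) (U : Fin 4 → A) (y : A) : A :=
  ∑ σ ∈ ({1, -1} : Finset ℂ), kap F σ y * ∑ V ∈ monLe F M,
    ∑ e ∈ (pr F M).powerset with ¬ IsSquare (V * ∏ P ∈ e, P), wV F M y V *
      ((∏ P ∈ e, lE M I U y P.natDegree) * ∏ P ∈ pr F M \ e, lO M I U y σ (V * ∏ P ∈ e, P) P)

/-- The dual terms with a square, with the poles removed. -/
noncomputable def Ps (M I : ℕ) (U : Fin 4 → A) (y : A) : A :=
  ∑ σ ∈ ({1, -1} : Finset ℂ), kap F σ y *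
    ((1 + qA F A * (dy F σ y * U 0)) * (1 + qA F A * (dy F σ y * U 1)) *
      ((1 - qA F A * (dy F σ y * U 2)) * (1 - qA F A * (dy F σ y * U 3)))) *
    ∑ V ∈ monLe F M, ∑ e ∈ (pr F M).powerset with IsSquare (V * ∏ P ∈ e, P), wV F M y V *
      ((∏ P ∈ e, om F M U y σ P.natDegree * lE M I U y P.natDegree) *
        ∏ P ∈ pr F M \ e, om F M U y σ P.natDegree * lO M I U y σ (V * ∏ P ∈ e, P) P)

/-- The diagonal correction. -/
noncomputable def Pd (M I : ℕ) (U : Fin 4 → A) (y : A) : A :=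
  ∏ P ∈ pr F M, (1 + Ev M (pw U P.natDegree) * rho I y P.natDegree * (1 - y ^ P.natDegree))

/-- The four polar factors, in the variable `Y = y ^ 2`. -/
noncomputable def Ph (U₀ U₁ Y : A) : A :=
  (1 - qA F A ^ 2 * Y) * (1 - qA F A ^ 3 * U₀ ^ 2 * Y) * (1 - qA F A ^ 3 * U₁ ^ 2 * Y) *
    (1 - qA F A ^ 4 * U₀ ^ 2 * U₁ ^ 2 * Y)

/-- The common prefactor of the three pieces. -/
noncomputable def pre (U : Fin 4 → A) (y : A) : A :=
  (1 - qA F A * y ^ 2) * (1 + qA F A * y) * (1 - qA F A ^ 4 * U 0 ^ 2 * U 1 ^ 2 * y ^ 2)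

/-- The two polar factors cancelled in the square terms. -/
noncomputable def mid (U : Fin 4 → A) (y : A) : A :=
  (1 - qA F A ^ 3 * U 0 ^ 2 * y ^ 2) * (1 - qA F A ^ 3 * U 1 ^ 2 * y ^ 2)

variable {F}

/-- The weighted second moment. -/
noncomputable def TW (w : F[X] → ℂ) (U₀ U₁ : A) (g : ℕ) : A :=
  ∑ D ∈ sqF F (2 * g + 1),
    algebraMap ℂ A (w D) * (Lt (jac D) (2 * g) U₀ * Lt (jac D) (2 * g) U₁)

/-- The weighted second moment after removing the four main terms by a recurrence in `g`. -/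
noncomputable def HW (w : F[X] → ℂ) (U₀ U₁ : A) (g : ℕ) : A :=
  PowerSeries.coeff g (Ph F (PowerSeries.C U₀) (PowerSeries.C U₁) PowerSeries.X *
    PowerSeries.mk (TW w U₀ U₁))

variable (F)

/-- The homogeneous parts of `HW` for the ratio; `u 0, u 1` above and `u 2, u 3` below. -/
noncomputable def ff (u : Fin 4 → ℂ) (n k g : ℕ) : ℂ :=
  (HW (F := F) (beta (u 2) (u 3) k) (C (u 0) * X : ℂ[X]) (C (u 1) * X) g).coeff n

/-- The local factor of the main term, with the poles removed. -/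
noncomputable def BP (d : ℕ) (a : Fin 4 → A) : A :=
  algebraMap ℂ A (1 + ((Q F : ℂ) ^ d)⁻¹)⁻¹ *
    (1 + a 0 * a 1 + a 2 * a 3 - (a 0 + a 1) * (a 2 + a 3) + a 0 * a 1 * (a 2 * a 3) +
      algebraMap ℂ A ((Q F : ℂ) ^ d)⁻¹ * ((1 - a 0 ^ 2) * (1 - a 1 ^ 2))) * (1 - a 0 * a 1)

variable {F}

/-- The weight `1 / (L(v₁) L(v₂))`. -/
noncomputable def wt (v₁ v₂ : ℂ) (D : F[X]) : ℂ :=
  (Lt (jac D) D.natDegree v₁ * Lt (jac D) D.natDegree v₂)⁻¹

section Map

variable {B : Type*} [CommRing B] [Algebra ℂ B] (φ : A →ₐ[ℂ] B)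

theorem map_gam (I : ℕ) (z : A) : φ (gam I z) = gam I (φ z) := by simp [gam]

theorem map_Lt (χ : F[X] → ℂ) (I : ℕ) (z : A) : φ (Lt χ I z) = Lt χ I (φ z) := by simp [Lt]

theorem map_Li (χ : F[X] → ℂ) (I : ℕ) (z : A) : φ (Li χ I z) = Li χ I (φ z) := by simp [Li]

theorem map_Ev (M d : ℕ) (U : Fin 4 → A) : φ (Ev M (pw U d)) = Ev M (pw (φ ∘ U) d) := by
  simp [Ev, pw, map_gam]

theorem map_Od (M d : ℕ) (U : Fin 4 → A) : φ (Od M (pw U d)) = Od M (pw (φ ∘ U) d) := by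
  simp [Od, pw, map_gam]

theorem map_rho (I d : ℕ) (y : A) : φ (rho I y d) = rho I (φ y) d := by simp [rho, map_gam]

theorem map_dy (σ : ℂ) (y : A) : φ (dy F σ y) = dy F σ (φ y) := by
  rw [dy, dy, map_mul, AlgHom.commutes]

theorem map_kap (σ : ℂ) (y : A) : φ (kap F σ y) = kap F σ (φ y) := by
  simp only [kap, map_mul, AlgHom.commutes, map_add, map_neg, map_sub, map_one, map_natCast]

theorem map_wV (M : ℕ) (y : A) (V : F[X]) : φ (wV F M y V) = wV F M (φ y) V := by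
  rw [wV, wV, map_mul, AlgHom.commutes, map_pow φ]

theorem map_lE (M I d : ℕ) (U : Fin 4 → A) (y : A) :
    φ (lE M I U y d) = lE M I (φ ∘ U) (φ y) d := by
  simp only [lE, map_neg, map_mul, map_Ev, map_rho, map_pow]

theorem map_lO (M I : ℕ) (U : Fin 4 → A) (y : A) (σ : ℂ) (W P : F[X]) :
    φ (lO M I U y σ W P) = lO M I (φ ∘ U) (φ y) σ W P := by
  simp only [lO, map_add, map_one, map_mul, map_Ev, map_Od, map_rho, map_pow, map_dy,
    AlgHom.commutes]

theorem map_om (M d : ℕ) (U : Fin 4 → A) (y : A) (σ : ℂ) :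
    φ (om F M U y σ d) = om F M (φ ∘ U) (φ y) σ d := by
  simp only [om, map_sub, map_one, map_mul, map_gam, map_pow, map_dy, Function.comp]

theorem map_Zs (I : ℕ) (U : Fin 4 → A) (y : A) : φ (Zs F I U y) = Zs F I (φ ∘ U) (φ y) := by
  simp only [Zs, map_sum, map_mul, map_pow, map_Lt, map_Li, Function.comp]

theorem map_Pr (M I : ℕ) (U : Fin 4 → A) (y : A) :
    φ (Pr F M I U y) = Pr F M I (φ ∘ U) (φ y) := by
  simp only [Pr, map_sum, map_mul, map_prod, map_kap, map_wV, map_lE, map_lO]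

theorem map_Ps (M I : ℕ) (U : Fin 4 → A) (y : A) :
    φ (Ps F M I U y) = Ps F M I (φ ∘ U) (φ y) := by
  simp only [Ps, map_sum, map_mul, map_prod, map_kap, map_wV, map_lE, map_lO, map_om, map_add,
    map_sub, map_one, map_dy, map_natCast, Function.comp]

theorem map_Pd (M I : ℕ) (U : Fin 4 → A) (y : A) :
    φ (Pd F M I U y) = Pd F M I (φ ∘ U) (φ y) := by
  simp only [Pd, map_mul, map_prod, map_add, map_sub, map_one, map_Ev, map_rho, map_pow]

theorem map_Ph (U₀ U₁ Y : A) : φ (Ph F U₀ U₁ Y) = Ph F (φ U₀) (φ U₁) (φ Y) := by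
  simp only [Ph, map_mul, map_sub, map_one, map_pow, map_natCast]

theorem map_pre (U : Fin 4 → A) (y : A) : φ (pre F U y) = pre F (φ ∘ U) (φ y) := by
  simp only [pre, map_mul, map_sub, map_add, map_one, map_pow, map_natCast, Function.comp]

theorem map_mid (U : Fin 4 → A) (y : A) : φ (mid F U y) = mid F (φ ∘ U) (φ y) := by
  simp only [mid, map_mul, map_sub, map_one, map_pow, map_natCast, Function.comp]

theorem map_BP (d e : ℕ) (U : Fin 4 → A) : φ (BP F d (pw U e)) = BP F d (pw (φ ∘ U) e) := by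
  simp only [BP, pw, map_mul, map_sub, map_add, map_one, map_pow, AlgHom.commutes, Function.comp]

theorem map_TW (w : F[X] → ℂ) (U₀ U₁ : A) (g : ℕ) :
    φ (TW w U₀ U₁ g) = TW w (φ U₀) (φ U₁) g := by
  simp only [TW, map_sum, map_mul, map_Lt, AlgHom.commutes]

theorem map_HW (w : F[X] → ℂ) (U₀ U₁ : A) (g : ℕ) :
    φ (HW w U₀ U₁ g) = HW w (φ U₀) (φ U₁) g := by
  have h : PowerSeries.map (φ : A →+* B) (PowerSeries.mk (TW w U₀ U₁)) =
      PowerSeries.mk (TW w (φ U₀) (φ U₁)) := by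
    ext n
    simp [map_TW]
  rw [HW, HW, ← h]
  change (φ : A →+* B) _ = _
  rw [← PowerSeries.coeff_map, map_mul]
  simp [Ph]

end Map

end Gen

end Pool.Agent.MP_dd7250_nt
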