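import Mathlib
import Pool.Agent.MP_dd7250_nt.Core

/- The Jacobi symbol and quadratic reciprocity. -/

set_option autoImplicit false

namespace Pool.Agent.MP_dd7250_nt

open Polynomial Finset Pool.Agent.MP_d232b3_nt
open scoped Classical

variable {F : Type*} [Field F] [Fintype F]

omit [Fintype F] in
theorem jac_ind {p : F[X] → Prop} (h1 : p 1)
    (hm : ∀ P g : F[X], P.Monic → Irreducible P → g.Monic → p g → p (P * g)) {f : F[X]}
    (hf : f.Monic) : p f := by
  generalize hn : f.natDegree = n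
  induction n using Nat.strong_induction_on generalizing f with
  | _ n ih =>
    by_cases hu : IsUnit f
    · rw [hf.isUnit_iff.1 hu]; exact h1
    obtain ⟨P, hP, hi, g, rfl⟩ := exists_monic_irreducible_factor f hu
    have hg : g.Monic := hP.of_mul_monic_left hf
    refine hm P g hP hi hg (ih _ ?_ hg rfl)
    have := hi.natDegree_pos
    rw [← hn, hP.natDegree_mul hg]
    omega

omit [Fintype F] in
theorem jac_leg_tri (D P : F[X]) : leg D P = 0 ∨ leg D P = 1 ∨ leg D P = -1 := by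
  unfold leg
  split_ifs <;> simp

theorem jac_eta_mul (a b : F) : eta F (a * b) = eta F a * eta F b := by
  simp only [eta, map_mul, Int.cast_mul]

theorem jac_eta_one : eta F 1 = 1 := by
  simp only [eta, map_one, Int.cast_one]

theorem jac_eta_pow (a : F) (n : ℕ) : eta F (a ^ n) = eta F a ^ n := by
  simp only [eta, map_pow, Int.cast_pow]

theorem jac_eta_cases (hF : ringChar F ≠ 2) (r : F) :
    (r = 0 ∧ eta F r = 0) ∨ (r ^ (Q F / 2) = 1 ∧ eta F r = 1) ∨
      (r ^ (Q F / 2) = -1 ∧ eta F r = -1) := by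
  by_cases h : r = 0
  · left
    refine ⟨h, ?_⟩
    rw [eta, h, MulChar.map_zero, Int.cast_zero]
  right
  rw [eta, quadraticChar_eq_pow_of_char_ne_two hF h]
  by_cases h1 : r ^ (Fintype.card F / 2) = 1
  · left
    rw [if_pos h1]
    exact ⟨h1, Int.cast_one⟩
  · right
    rw [if_neg h1]
    exact ⟨(FiniteField.pow_dichotomy hF h).resolve_left h1, by simp⟩

theorem jac_res {x : KK F} {j : ℕ} (hx : x ^ Q F ^ j = x) (D : F[X]) :
    algebraMap F (KK F) (resultant (cc x j) D) = aeval x D ^ ∑ i ∈ range j, Q F ^ i := by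
  have h1 : ((cc x j).map (algebraMap F (KK F))).natDegree = (cc x j).natDegree := natDegree_map _
  rw [← resultant_map_map, ← h1, resultant_eq_prod_eval _ _ _ natDegree_map_le
    (IsAlgClosed.splits _), ((monic_cc x j).map _).leadingCoeff, one_pow, one_mul, map_cc hx,
    roots_multiset_prod_X_sub_C, orb, Multiset.map_map, ← prod_pow_eq_pow_sum,
    prod_eq_multiset_prod, range_val]
  refine congrArg _ (Multiset.map_congr rfl fun i _ => ?_)
  rw [Function.comp_apply, eval_map_algebraMap, aeval_pow]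

theorem jac_exp (hF : ringChar F ≠ 2) (j : ℕ) :
    (∑ i ∈ range j, Q F ^ i) * (Q F / 2) = (Q F ^ j - 1) / 2 := by
  have h1 : Q F % 2 = 1 := FiniteField.odd_card_of_char_ne_two hF
  obtain ⟨k, hk⟩ : ∃ k, Q F = 2 * k + 1 := ⟨Q F / 2, by omega⟩
  have h2 := geom_sum_mul_add (2 * k) j
  rw [hk, ← h2, Nat.add_sub_cancel, mul_left_comm, Nat.mul_div_cancel_left _ two_pos]
  congr 1
  omega

theorem jac_res_pow (hF : ringChar F ≠ 2) {x : KK F} {j : ℕ} (hx : x ^ Q F ^ j = x) (D : F[X]) :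
    algebraMap F (KK F) (resultant (cc x j) D ^ (Q F / 2)) =
      aeval x D ^ ((Q F ^ j - 1) / 2) := by
  rw [map_pow, jac_res hx, ← pow_mul, jac_exp hF]

theorem jac_sq_iff (hF : ringChar F ≠ 2) (x : KK F) {D : F[X]} (hD : ¬ minpoly F x ∣ D) :
    (∃ y : F[X], minpoly F x ∣ y ^ 2 - D) ↔
      aeval x D ^ ((Q F ^ (minpoly F x).natDegree - 1) / 2) = 1 := by
  set P := minpoly F x with hP
  have hm : P.Monic := minpoly.monic (integral x)
  haveI : Fact (Irreducible P) := ⟨minpoly.irreducible (integral x)⟩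
  let pb := AdjoinRoot.powerBasis' hm
  haveI : Module.Finite F (AdjoinRoot P) := pb.finite
  haveI : Finite (AdjoinRoot P) := Module.finite_of_finite F
  letI : Fintype (AdjoinRoot P) := Fintype.ofFinite _
  have hc : Fintype.card (AdjoinRoot P) = Q F ^ P.natDegree := by
    rw [Module.card_eq_pow_finrank (K := F), pb.finrank]
    rfl
  have hL : ringChar (AdjoinRoot P) ≠ 2 := by rwa [← Algebra.ringChar_eq F (AdjoinRoot P)]
  have h0 : AdjoinRoot.mk P D ≠ 0 := fun h => hD (AdjoinRoot.mk_eq_zero.1 h)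
  have hodd := FiniteField.odd_card_of_char_ne_two hL
  have he : (Q F ^ P.natDegree - 1) / 2 = Fintype.card (AdjoinRoot P) / 2 := by
    rw [← hc]; omega
  have hx : P.eval₂ (algebraMap F (KK F)) x = 0 := by
    rw [← aeval_def]; exact minpoly.aeval F x
  let φ := AdjoinRoot.lift (algebraMap F (KK F)) x hx
  have hφ : φ (AdjoinRoot.mk P D) = aeval x D := by
    rw [aeval_def]; exact AdjoinRoot.lift_mk hx D
  rw [he, ← hφ, ← map_pow, ← map_one φ, φ.injective.eq_iff, ← FiniteField.isSquare_iff hL h0]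
  constructor
  · rintro ⟨y, hy⟩
    refine ⟨AdjoinRoot.mk P y, ?_⟩
    rw [← map_mul, ← pow_two]
    exact (AdjoinRoot.mk_eq_mk.2 hy).symm
  · rintro ⟨z, hz⟩
    obtain ⟨y, rfl⟩ := AdjoinRoot.mk_surjective z
    refine ⟨y, AdjoinRoot.mk_eq_mk.1 ?_⟩
    rw [pow_two, map_mul, hz]

theorem jac_leg_eta (hF : ringChar F ≠ 2) (D : F[X]) {P : F[X]} (hm : P.Monic)
    (hi : Irreducible P) : leg D P = eta F (resultant P D) := by
  obtain ⟨x, hx⟩ := IsAlgClosed.exists_aeval_eq_zero (KK F) P (degree_pos_of_irreducible hi).ne'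
  obtain rfl := minpoly.eq_of_irreducible_of_monic hi hx hm
  have hd := minpoly.natDegree_pos (integral x)
  have hfix := (fix_iff x _).2 (dvd_refl (minpoly F x).natDegree)
  have hcc : cc x (minpoly F x).natDegree = minpoly F x := by
    rw [cc, Nat.div_self hd, pow_one]
  have h1 := jac_res hfix D
  have h2 := jac_res_pow hF hfix D
  rw [hcc] at h1 h2
  have hK : (-1 : KK F) ≠ 1 :=
    Ring.neg_one_ne_one_of_char_ne_two (by rwa [← Algebra.ringChar_eq F (KK F)])
  have hS : ∑ i ∈ range (minpoly F x).natDegree, Q F ^ i ≠ 0 :=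
    (sum_pos (fun i _ => pow_pos Fintype.card_pos i) (nonempty_range_iff.2 hd.ne')).ne'
  have hq : Q F / 2 ≠ 0 := (Nat.div_pos Fintype.one_lt_card two_pos).ne'
  by_cases hD : minpoly F x ∣ D
  · rw [minpoly.dvd_iff.1 hD, zero_pow hS, map_eq_zero] at h1
    rw [leg, if_pos hD, h1, eta, MulChar.map_zero, Int.cast_zero]
  rw [leg, if_neg hD]
  have h3 := jac_sq_iff hF x hD
  rcases jac_eta_cases hF (resultant (minpoly F x) D) with ⟨h4, -⟩ | ⟨h4, h5⟩ | ⟨h4, h5⟩
  · rw [h4, map_zero] at h1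
    exact absurd (minpoly.dvd_iff.2 (pow_eq_zero_iff hS |>.1 h1.symm)) hD
  · rw [h4, map_one] at h2
    rw [h5, if_pos (h3.2 h2.symm)]
  · rw [h4, map_neg, map_one] at h2
    rw [h5, if_neg fun h => hK (h2.trans (h3.1 h))]

theorem CM.prod {χ : F[X] → ℂ} (h : CM χ) (S : Finset F[X]) (hS : ∀ P ∈ S, P.Monic) :
    χ (∏ P ∈ S, P) = ∏ P ∈ S, χ P := by
  induction S using Finset.induction_on with
  | empty => simpa using h.one
  | insert a s ha ih =>
    have hs : ∀ P ∈ s, P.Monic := fun P hP => hS P (mem_insert_of_mem hP)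
    rw [prod_insert ha, prod_insert ha, h.mul _ _ (hS a (mem_insert_self a s))
      (monic_prod_of_monic s _ hs), ih hs]

theorem jac_cm (D : F[X]) : CM (jac D) := by
  refine ⟨?_, fun f g hf hg => ?_⟩
  · rw [jac, UniqueFactorizationMonoid.normalizedFactors_one, Multiset.map_zero,
      Multiset.prod_zero]
  · rw [jac, jac, jac, UniqueFactorizationMonoid.normalizedFactors_mul hf.ne_zero hg.ne_zero,
      Multiset.map_add, Multiset.prod_add]

theorem jac_prime (D : F[X]) {P : F[X]} (hm : P.Monic) (hi : Irreducible P) :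
    jac D P = leg D P := by
  rw [jac, UniqueFactorizationMonoid.normalizedFactors_irreducible hi, hm.normalize_eq_self,
    Multiset.map_singleton, Multiset.prod_singleton]

theorem jac_tri (D f : F[X]) : jac D f = 0 ∨ jac D f = 1 ∨ jac D f = -1 := by
  rw [jac]
  refine Multiset.prod_induction (fun z : ℂ => z = 0 ∨ z = 1 ∨ z = -1) _ ?_ (by simp) ?_
  · rintro a b (rfl | rfl | rfl) (rfl | rfl | rfl) <;> simp
  · intro a ha
    obtain ⟨P, -, rfl⟩ := Multiset.mem_map.1 ha
    exact jac_leg_tri D P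

theorem norm_jac_le (D f : F[X]) : ‖jac D f‖ ≤ 1 := by
  rcases jac_tri D f with h | h | h <;> simp [h]

theorem jac_congr {D E f : F[X]} (hf : f.Monic) (h : f ∣ D - E) : jac D f = jac E f := by
  rw [jac, jac]
  refine congrArg _ (Multiset.map_congr rfl fun P hP => ?_)
  have hP := (UniqueFactorizationMonoid.dvd_of_mem_normalizedFactors hP).trans h
  have h1 : P ∣ D ↔ P ∣ E := dvd_iff_dvd_of_dvd_sub hP
  have h2 : ∀ y : F[X], P ∣ y ^ 2 - D ↔ P ∣ y ^ 2 - E := fun y =>
    dvd_iff_dvd_of_dvd_sub (by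
      rw [show y ^ 2 - D - (y ^ 2 - E) = -(D - E) by ring]
      exact hP.neg_right)
  simp only [leg, h1, h2]

theorem jac_sq_prime (D : F[X]) {P : F[X]} (hm : P.Monic) (hi : Irreducible P) :
    jac D P ^ 2 = if P ∣ D then 0 else 1 := by
  rw [jac_prime D hm hi, leg]
  split_ifs <;> simp

theorem jac_of_isSquare {W P : F[X]} (hW : IsSquare W) (hm : P.Monic) (hi : Irreducible P) :
    jac W P = if P ∣ W then 0 else 1 := by
  obtain ⟨y, rfl⟩ := hW
  rw [jac_prime _ hm hi, leg, if_pos (⟨y, by simp [pow_two]⟩ : ∃ z : F[X], P ∣ z ^ 2 - y * y)]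

theorem jac_one_left {f : F[X]} (hf : f.Monic) : jac 1 f = 1 := by
  refine jac_ind (p := fun f => jac 1 f = 1) (jac_cm 1).one (fun P g hP hi hg h => ?_) hf
  rw [(jac_cm 1).mul P g hP hg, h, jac_of_isSquare IsSquare.one hP hi,
    if_neg fun h => hi.not_isUnit (isUnit_of_dvd_one h), one_mul]

theorem jac_eq_eta (hF : ringChar F ≠ 2) (D : F[X]) {f : F[X]} (hf : f.Monic) :
    jac D f = eta F (resultant f D) := by
  refine jac_ind (p := fun f => jac D f = eta F (resultant f D)) ?_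
    (fun P g hP hi hg h => ?_) hf
  · rw [(jac_cm D).one, resultant_one_left, natDegree_one, zero_mul, pow_zero, pow_zero, one_mul,
      jac_eta_one]
  · rw [(jac_cm D).mul P g hP hg, h, jac_prime D hP hi, jac_leg_eta hF D hP hi,
      hP.natDegree_mul hg, resultant_mul_left _ _ _ _ le_rfl, jac_eta_mul]

theorem jac_mul_left (hF : ringChar F ≠ 2) (D E : F[X]) {f : F[X]} (hf : f.Monic) :
    jac (D * E) f = jac D f * jac E f := by
  obtain ⟨k, hk⟩ := le_iff_exists_add.1 (natDegree_mul_le (p := D) (q := E))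
  have h := resultant_mul_right f D E f.natDegree le_rfl
  rw [hk, resultant_add_right_deg _ _ _ _ _ le_rfl, hf.coeff_natDegree, one_pow, one_mul] at h
  rw [jac_eq_eta hF _ hf, jac_eq_eta hF _ hf, jac_eq_eta hF _ hf, h, jac_eta_mul]

theorem jac_cm_left (hF : ringChar F ≠ 2) {m : F[X]} (hm : m.Monic) : CM fun f => jac f m :=
  ⟨jac_one_left hm, fun f g _ _ => jac_mul_left hF f g hm⟩

theorem jac_C (hF : ringChar F ≠ 2) (c : F) {f : F[X]} (hf : f.Monic) :
    jac (C c) f = eta F c ^ f.natDegree := by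
  rw [jac_eq_eta hF _ hf, resultant_C_right, hf.coeff_natDegree, one_pow, one_mul, jac_eta_pow]

theorem eta_neg_one_sq : eta F (-1) ^ 2 = 1 := by
  rw [← jac_eta_pow, neg_one_sq, jac_eta_one]

theorem jac_recip (hF : ringChar F ≠ 2) {D f : F[X]} (hD : D.Monic) (hf : f.Monic) :
    jac D f = eta F (-1) ^ (D.natDegree * f.natDegree) * jac f D := by
  rw [jac_eq_eta hF _ hf, jac_eq_eta hF _ hD, resultant_comm, jac_eta_mul, jac_eta_pow,
    mul_comm f.natDegree]

theorem jac_cc (hF : ringChar F ≠ 2) (D : F[X]) {x : KK F} {j : ℕ}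
    (hx : x ^ Q F ^ j = x) (hj : j ≠ 0) :
    (jac D (cc x j) = 1 → aeval x D ^ ((Q F ^ j - 1) / 2) = 1) ∧
    (jac D (cc x j) = -1 → aeval x D ^ ((Q F ^ j - 1) / 2) = -1) ∧
    (jac D (cc x j) = 0 → aeval x D = 0) := by
  have h1 := jac_res hx D
  have h2 := jac_res_pow hF hx D
  rw [jac_eq_eta hF D (monic_cc x j)]
  rcases jac_eta_cases hF (resultant (cc x j) D) with ⟨h4, h5⟩ | ⟨h4, h5⟩ | ⟨h4, h5⟩
  · rw [h4, map_zero] at h1
    rw [h5]
    exact ⟨fun h => absurd h (by norm_num), fun h => absurd h (by norm_num),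
      fun _ => eq_zero_of_pow_eq_zero h1.symm⟩
  · rw [h4, map_one] at h2
    rw [h5]
    exact ⟨fun _ => h2.symm, fun h => absurd h (by norm_num), fun h => absurd h (by norm_num)⟩
  · rw [h4, map_neg, map_one] at h2
    rw [h5]
    exact ⟨fun h => absurd h (by norm_num), fun _ => h2.symm, fun h => absurd h (by norm_num)⟩

end Pool.Agent.MP_dd7250_nt
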