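import Mathlib
import Pool.Agent.MP_dd7250_nt.Jac

/- Truncated Euler products. -/

set_option autoImplicit false

namespace Pool.Agent.MP_dd7250_nt

open Polynomial Finset Pool.Agent.MP_d232b3_nt
open scoped Classical

variable {F : Type*} [Field F] [Fintype F]
variable {A : Type*} [CommRing A] [Algebra ℂ A]

/-- The sum over monic polynomials of degree at most `M`. -/
noncomputable def eulerT (χ : F[X] → ℂ) (M : ℕ) (z : A) : A :=
  ∑ f ∈ monLe F M, algebraMap ℂ A (χ f) * z ^ f.natDegree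

/-- The restriction of `χ` to polynomials prime to the elements of `S`. -/
noncomputable def eulerR (χ : F[X] → ℂ) (S : Finset F[X]) (f : F[X]) : ℂ :=
  if ∀ P ∈ S, ¬ P ∣ f then χ f else 0

omit [Algebra ℂ A] in
theorem euler_pow_zero {M n : ℕ} {z : A} (hz : z ^ (M + 1) = 0) (hn : M < n) : z ^ n = 0 :=
  pow_eq_zero_of_le hn hz

theorem euler_Lt (χ : F[X] → ℂ) {M I : ℕ} (hI : M ≤ I) {z : A} (hz : z ^ (M + 1) = 0) :
    Lt χ I z = eulerT χ M z := by
  rw [eulerT, sum_monLe, Lt]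
  symm
  refine sum_subset_zero_on_sdiff (range_subset_range.2 (by omega)) (fun n hn => ?_) fun n _ => ?_
  · rw [mem_sdiff, mem_range, mem_range] at hn
    rw [euler_pow_zero hz (by omega), mul_zero]
  · rw [AA, map_sum, sum_mul]
    exact sum_congr rfl fun f hf => by rw [(mem_monF.1 hf).2]

theorem euler_dvd {χ : F[X] → ℂ} (h : CM χ) {M : ℕ} {z : A} (hz : z ^ (M + 1) = 0) {c : F[X]}
    (hc : c.Monic) :
    eulerT χ M z * (algebraMap ℂ A (χ c) * z ^ c.natDegree) =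
      ∑ f ∈ monLe F M with c ∣ f, algebraMap ℂ A (χ f) * z ^ f.natDegree := by
  rw [eulerT, sum_mul, ← sum_filter_of_ne (p := fun g => c.natDegree + g.natDegree ≤ M)]
  · refine sum_nbij (fun g => c * g) ?_ ?_ ?_ ?_
    · intro g hg
      rw [mem_filter, mem_monLe] at hg
      rw [mem_filter, mem_monLe, hc.natDegree_mul hg.1.1]
      exact ⟨⟨hc.mul hg.1.1, hg.2⟩, dvd_mul_right _ _⟩
    · intro a _ b _ hab
      exact mul_left_cancel₀ hc.ne_zero hab
    · intro f hf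
      rw [mem_coe, mem_filter, mem_monLe] at hf
      obtain ⟨⟨h1, h2⟩, g, rfl⟩ := hf
      have hg := hc.of_mul_monic_left h1
      rw [hc.natDegree_mul hg] at h2
      refine ⟨g, ?_, rfl⟩
      rw [mem_coe, mem_filter, mem_monLe]
      exact ⟨⟨hg, by omega⟩, h2⟩
    · intro g hg
      rw [mem_filter, mem_monLe] at hg
      rw [h.mul _ _ hc hg.1.1, hc.natDegree_mul hg.1.1, map_mul, pow_add]
      ring
  · intro g _ hne
    by_contra hlt
    apply hne
    have h0 : z ^ (c.natDegree + g.natDegree) = 0 := euler_pow_zero hz (by omega)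
    rw [pow_add] at h0
    linear_combination (algebraMap ℂ A (χ g) * algebraMap ℂ A (χ c)) * h0

omit [Fintype F] in
theorem euler_cm {χ : F[X] → ℂ} (h : CM χ) {S : Finset F[X]} (hS : ∀ P ∈ S, Irreducible P) :
    CM (eulerR χ S) := by
  refine ⟨?_, fun f g hf hg => ?_⟩
  · rw [eulerR, if_pos fun P hP => (hS P hP).not_dvd_one, h.one]
  · unfold eulerR
    by_cases h1 : ∀ P ∈ S, ¬ P ∣ f
    · by_cases h2 : ∀ P ∈ S, ¬ P ∣ g
      · rw [if_pos h1, if_pos h2, if_pos, h.mul _ _ hf hg]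
        intro P hP hd
        rcases (hS P hP).prime.dvd_or_dvd hd with h3 | h3
        exacts [h1 P hP h3, h2 P hP h3]
      · rw [if_neg h2, mul_zero, if_neg]
        exact fun h3 => h2 fun P hP hd => h3 P hP (hd.mul_left f)
    · rw [if_neg h1, zero_mul, if_neg]
      exact fun h3 => h1 fun P hP hd => h3 P hP (hd.mul_right g)

omit [Fintype F] in
theorem euler_eq_of_dvd {P R : F[X]} (hP : P.Monic) (hR : R.Monic) (iP : Irreducible P)
    (iR : Irreducible R) (h : P ∣ R) : P = R :=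
  eq_of_monic_of_associated hP hR (iP.associated_of_dvd iR h)

theorem euler_sift {χ : F[X] → ℂ} (h : CM χ) {M : ℕ} {z : A} (hz : z ^ (M + 1) = 0)
    (S : Finset F[X]) (hS : ∀ P ∈ S, P.Monic ∧ Irreducible P) :
    eulerT χ M z * ∏ P ∈ S, (1 - algebraMap ℂ A (χ P) * z ^ P.natDegree) =
      eulerT (eulerR χ S) M z := by
  induction S using Finset.induction_on with
  | empty => simp [eulerT, eulerR]
  | insert P S hP ih =>
    have hS' : ∀ R ∈ S, R.Monic ∧ Irreducible R := fun R hR => hS R (mem_insert_of_mem hR)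
    have hP' := hS P (mem_insert_self _ _)
    have h1 : eulerR χ S P = χ P := by
      rw [eulerR, if_pos]
      intro R hR hd
      exact hP (euler_eq_of_dvd (hS' R hR).1 hP'.1 (hS' R hR).2 hP'.2 hd ▸ hR)
    rw [prod_insert hP, mul_comm (1 - _), ← mul_assoc, ih hS', mul_sub, mul_one, ← h1,
      euler_dvd (euler_cm h fun R hR => (hS' R hR).2) hz hP'.1, sum_filter, eulerT, eulerT,
      ← sum_sub_distrib]
    refine sum_congr rfl fun f _ => ?_
    by_cases hd : P ∣ f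
    · rw [if_pos hd, sub_self, eulerR, if_neg fun h3 => h3 P (mem_insert_self _ _) hd, map_zero,
        zero_mul]
    · rw [if_neg hd, sub_zero, eulerR, eulerR]
      simp only [forall_mem_insert, hd, not_false_eq_true, true_and]

theorem euler_AA_zero {χ : F[X] → ℂ} (h : CM χ) : AA χ 0 = 1 := by
  have : monF F 0 = {1} := by
    ext f
    rw [mem_monF, mem_singleton]
    exact ⟨fun ⟨h1, h2⟩ => h1.natDegree_eq_zero.1 h2, fun h => by simp [h]⟩
  rw [AA, this, sum_singleton, h.one]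

theorem euler_trunc (φ : PowerSeries ℂ) (I : ℕ) (z : A) :
    aeval z (PowerSeries.trunc (I + 1) φ) =
      ∑ n ∈ range (I + 1), algebraMap ℂ A (PowerSeries.coeff n φ) * z ^ n := by
  rw [aeval_def, PowerSeries.eval₂_trunc_eq_sum_range]

theorem euler_Lt_Li {χ : F[X] → ℂ} (h : CM χ) {I : ℕ} {z : A} (hz : z ^ (I + 1) = 0) :
    Lt χ I z * Li χ I z = 1 := by
  set φ := PowerSeries.mk (AA χ) with hφ
  have h1 : Lt χ I z = aeval z (PowerSeries.trunc (I + 1) φ) := by
    rw [euler_trunc, Lt]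
    simp only [hφ, PowerSeries.coeff_mk]
  have h2 : Li χ I z = aeval z (PowerSeries.trunc (I + 1) φ⁻¹) := by
    rw [euler_trunc, Li]
    rfl
  have h3 : φ * φ⁻¹ = 1 := PowerSeries.mul_inv_cancel _ (by
    rw [← PowerSeries.coeff_zero_eq_constantCoeff_apply, hφ, PowerSeries.coeff_mk,
      euler_AA_zero h]
    exact one_ne_zero)
  have h4 : (X : ℂ[X]) ^ (I + 1) ∣
      PowerSeries.trunc (I + 1) φ * PowerSeries.trunc (I + 1) φ⁻¹ - 1 := by
    rw [X_pow_dvd_iff]
    intro d hd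
    rw [coeff_sub, ← Polynomial.coeff_coe, Polynomial.coe_mul,
      ← PowerSeries.coeff_mul_eq_coeff_trunc_mul_trunc _ _ hd, h3, PowerSeries.coeff_one,
      Polynomial.coeff_one, sub_self]
  obtain ⟨r, hr⟩ := h4
  have h5 := congrArg (aeval z) hr
  rw [map_sub, map_mul, map_mul, map_pow, aeval_X, hz, zero_mul, map_one, sub_eq_zero] at h5
  rw [h1, h2, h5]

theorem gam_mul {I : ℕ} {z : A} (hz : z ^ (I + 1) = 0) : gam I z * (1 - z) = 1 := by
  rw [gam, geom_sum_mul_neg, hz, sub_zero]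

theorem Lt_mul_prod {χ : F[X] → ℂ} (h : CM χ) {M I : ℕ} (hI : M ≤ I) {z : A}
    (hz : z ^ (M + 1) = 0) :
    Lt χ I z * ∏ P ∈ pr F M, (1 - algebraMap ℂ A (χ P) * z ^ P.natDegree) = 1 := by
  rw [euler_Lt χ hI hz, euler_sift h hz _ fun P hP => ⟨(mem_pr.1 hP).1, (mem_pr.1 hP).2.1⟩,
    eulerT, sum_eq_single_of_mem 1 (mem_monLe.2 ⟨monic_one, by simp⟩)]
  · rw [(euler_cm h fun P hP => (mem_pr.1 hP).2.1).one]
    simp
  · intro f hf hne
    obtain ⟨h1, h2⟩ := mem_monLe.1 hf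
    obtain ⟨P, hP, iP, hd⟩ := exists_monic_irreducible_factor f fun hu => hne (h1.isUnit_iff.1 hu)
    rw [eulerR, if_neg, map_zero, zero_mul]
    exact fun h3 => h3 P (mem_pr.2 ⟨hP, iP, (natDegree_le_of_dvd hd h1.ne_zero).trans h2⟩) hd

theorem Li_eq_prod {χ : F[X] → ℂ} (h : CM χ) {M I : ℕ} (hI : M ≤ I) {z : A}
    (hz : z ^ (M + 1) = 0) :
    Li χ I z = ∏ P ∈ pr F M, (1 - algebraMap ℂ A (χ P) * z ^ P.natDegree) := by
  have h1 := Lt_mul_prod h hI hz
  have h2 := euler_Lt_Li h (I := I) (euler_pow_zero hz (by omega))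
  linear_combination (-Li χ I z) * h1 +
    (∏ P ∈ pr F M, (1 - algebraMap ℂ A (χ P) * z ^ P.natDegree)) * h2

theorem euler_Lt_one {I : ℕ} {z : A} (hz : z ^ (I + 1) = 0) :
    (1 - qA F A * z) * Lt (fun _ : F[X] => 1) I z = 1 := by
  have h1 : Lt (fun _ : F[X] => 1) I z = gam I (qA F A * z) := by
    rw [Lt, gam]
    refine sum_congr rfl fun n _ => ?_
    rw [AA, sum_const, card_monF, mul_pow]
    simp
  rw [h1, mul_comm, gam_mul]
  rw [mul_pow, hz, mul_zero]

theorem prod_zeta {M : ℕ} {z : A} (hz : z ^ (M + 1) = 0) :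
    ∏ P ∈ pr F M, (1 - z ^ P.natDegree) = 1 - qA F A * z := by
  have h1 := Lt_mul_prod (F := F) (χ := fun _ => 1) ⟨rfl, fun _ _ _ _ => (mul_one _).symm⟩
    le_rfl hz
  have h2 := euler_Lt_one (F := F) hz
  simp only [map_one, one_mul] at h1
  linear_combination (1 - qA F A * z) * h1 - (∏ P ∈ pr F M, (1 - z ^ P.natDegree)) * h2

theorem Lt_one {I : ℕ} {z : A} (hz : z ^ (I + 1) = 0) :
    (1 - qA F A * z) * Lt (fun _ : F[X] => 1) I z = 1 := euler_Lt_one hz

omit [Fintype F] in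
theorem euler_dvd_prod {S : Finset F[X]} (hS : ∀ P ∈ S, P.Monic ∧ Irreducible P) {R : F[X]}
    (hR : R.Monic) (iR : Irreducible R) : R ∣ ∏ P ∈ S, P ↔ R ∈ S := by
  refine ⟨fun hd => ?_, fun h => dvd_prod_of_mem _ h⟩
  obtain ⟨P, hP, hd⟩ := (iR.prime.dvd_finsetProd_iff _).1 hd
  exact euler_eq_of_dvd hR (hS P hP).1 iR (hS P hP).2 hd ▸ hP

theorem euler_sqfree {M : ℕ} {S : Finset F[X]} (hS : S ⊆ pr F M) :
    (∏ P ∈ S, P).Monic ∧ Squarefree (∏ P ∈ S, P) ∧
      (∏ P ∈ S, P).natDegree = ∑ P ∈ S, P.natDegree ∧ ((∏ P ∈ S, P) = 1 ↔ S = ∅) := by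
  have hS' : ∀ P ∈ S, P.Monic ∧ Irreducible P := fun P hP =>
    ⟨(mem_pr.1 (hS hP)).1, (mem_pr.1 (hS hP)).2.1⟩
  refine ⟨monic_prod_of_monic _ _ fun P hP => (hS' P hP).1, ?_,
    natDegree_prod_of_monic _ _ fun P hP => (hS' P hP).1, fun h => ?_, fun h => by simp [h]⟩
  · refine Finset.squarefree_prod_of_pairwise_isCoprime (fun P hP R hR hne => ?_)
      fun P hP => (hS' P hP).2.squarefree
    refine (hS' P hP).2.isRelPrime_iff_not_dvd.2 fun hd => hne ?_
    exact euler_eq_of_dvd (hS' P hP).1 (hS' R hR).1 (hS' P hP).2 (hS' R hR).2 hd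
  · refine eq_empty_of_forall_notMem fun P hP => (hS' P hP).2.not_dvd_one ?_
    exact h ▸ dvd_prod_of_mem _ hP

theorem sqF_gen {χ : F[X] → ℂ} (h : CM χ) {I : ℕ} {y : A} (hy : y ^ (I + 1) = 0) :
    ∑ N ∈ range (I + 1), y ^ N * algebraMap ℂ A (∑ D ∈ sqF F N, χ D) =
      ∏ P ∈ pr F I, (1 + algebraMap ℂ A (χ P) * y ^ P.natDegree) := by
  have h1 : ∑ N ∈ range (I + 1), y ^ N * algebraMap ℂ A (∑ D ∈ sqF F N, χ D) =
      ∑ D ∈ monLe F I with Squarefree D, algebraMap ℂ A (χ D) * y ^ D.natDegree := by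
    rw [sum_filter, sum_monLe]
    refine sum_congr rfl fun N _ => ?_
    rw [← sum_filter, map_sum, mul_sum]
    exact sum_congr rfl fun D hD => by rw [(mem_sqF.1 hD).2.2, mul_comm]
  have h2 : ∀ S ∈ (pr F I).powerset, ∏ P ∈ S, algebraMap ℂ A (χ P) * y ^ P.natDegree =
      algebraMap ℂ A (χ (∏ P ∈ S, P)) * y ^ (∏ P ∈ S, P).natDegree := by
    intro S hS
    rw [mem_powerset] at hS
    rw [(euler_sqfree hS).2.2.1, h.prod S fun P hP => (mem_pr.1 (hS hP)).1, prod_mul_distrib,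
      map_prod, prod_pow_eq_pow_sum]
  rw [h1, prod_one_add, sum_congr rfl h2,
    ← sum_filter_of_ne (s := (pr F I).powerset) (p := fun S => (∏ P ∈ S, P).natDegree ≤ I)]
  · symm
    refine sum_nbij (fun S => ∏ P ∈ S, P) ?_ ?_ ?_ fun _ _ => rfl
    · intro S hS
      rw [mem_filter, mem_powerset] at hS
      rw [mem_filter, mem_monLe]
      exact ⟨⟨(euler_sqfree hS.1).1, hS.2⟩, (euler_sqfree hS.1).2.1⟩
    · intro S hS T hT hST
      rw [mem_coe, mem_filter, mem_powerset] at hS hT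
      have hS' : ∀ P ∈ S, P.Monic ∧ Irreducible P := fun P hP =>
        ⟨(mem_pr.1 (hS.1 hP)).1, (mem_pr.1 (hS.1 hP)).2.1⟩
      have hT' : ∀ P ∈ T, P.Monic ∧ Irreducible P := fun P hP =>
        ⟨(mem_pr.1 (hT.1 hP)).1, (mem_pr.1 (hT.1 hP)).2.1⟩
      simp only at hST
      ext R
      constructor
      · intro hR
        rw [← euler_dvd_prod hT' (hS' R hR).1 (hS' R hR).2, ← hST]
        exact dvd_prod_of_mem _ hR
      · intro hR
        rw [← euler_dvd_prod hS' (hT' R hR).1 (hT' R hR).2, hST]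
        exact dvd_prod_of_mem _ hR
    · intro D hD
      rw [mem_coe, mem_filter, mem_monLe] at hD
      obtain ⟨⟨hm, hd⟩, hs⟩ := hD
      have h3 : ∏ P ∈ (UniqueFactorizationMonoid.normalizedFactors D).toFinset, P = D := by
        have h4 := (UniqueFactorizationMonoid.squarefree_iff_nodup_normalizedFactors
          hm.ne_zero).1 hs
        rw [Finset.prod, Multiset.toFinset_val, h4.dedup, Multiset.map_id',
          UniqueFactorizationMonoid.prod_normalizedFactors_eq hm.ne_zero, hm.normalize_eq_self]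
      refine ⟨_, ?_, h3⟩
      rw [mem_coe, mem_filter, mem_powerset, h3]
      refine ⟨fun P hP => ?_, hd⟩
      rw [Multiset.mem_toFinset, Polynomial.mem_normalizedFactors_iff hm.ne_zero] at hP
      exact mem_pr.2 ⟨hP.2.1, hP.1, (natDegree_le_of_dvd hP.2.2 hm.ne_zero).trans hd⟩
  · intro S _ hne
    by_contra hlt
    exact hne (by rw [euler_pow_zero hy (by omega), mul_zero])

theorem monic_sqfree_prod {M : ℕ} {S : Finset F[X]} (hS : S ⊆ pr F M) :
    (∏ P ∈ S, P).Monic ∧ Squarefree (∏ P ∈ S, P) ∧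
      (∏ P ∈ S, P).natDegree = ∑ P ∈ S, P.natDegree ∧ ((∏ P ∈ S, P) = 1 ↔ S = ∅) :=
  euler_sqfree hS

end Pool.Agent.MP_dd7250_nt
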