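import Mathlib
import Pool.Agent.MP_dd7250_nt.Jac

/- Gauss sums and the functional equation for the character modulo a squarefree D. -/

set_option autoImplicit false
set_option maxHeartbeats 400000

namespace Pool.Agent.MP_dd7250_nt

open Polynomial Finset Pool.Agent.MP_d232b3_nt
open scoped Classical

variable {F : Type*} [Field F] [Fintype F]

variable (F) in
/-- Polynomials of degree less than `n`. -/
noncomputable def gaussV (n : ℕ) : Finset F[X] :=
  univ.map (Function.Embedding.subtype (· ∈ degreeLT F n))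

theorem gauss_mem {n : ℕ} {x : F[X]} : x ∈ gaussV F n ↔ x.degree < n := by
  simp [gaussV, mem_degreeLT]

theorem gauss_card (n : ℕ) : (gaussV F n).card = Q F ^ n := by
  rw [gaussV, card_map, card_univ]
  exact (Fintype.card_congr (degreeLTEquiv F n).toEquiv).trans (by simp)

theorem gauss_mem' {n : ℕ} {x : F[X]} : x ∈ gaussV F n ↔ x = 0 ∨ x.natDegree < n := by
  rw [gauss_mem]
  by_cases h : x = 0
  · simp [h]
  · simp [h, natDegree_lt_iff_degree_lt h]

theorem gauss_add {n : ℕ} {x y : F[X]} (hx : x ∈ gaussV F n) (hy : y ∈ gaussV F n) :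
    x + y ∈ gaussV F n :=
  gauss_mem.2 ((degree_add_le _ _).trans_lt (max_lt (gauss_mem.1 hx) (gauss_mem.1 hy)))

theorem gauss_neg {n : ℕ} {x : F[X]} (hx : x ∈ gaussV F n) : -x ∈ gaussV F n :=
  gauss_mem.2 (by rw [degree_neg]; exact gauss_mem.1 hx)

theorem gauss_sub {n : ℕ} {x y : F[X]} (hx : x ∈ gaussV F n) (hy : y ∈ gaussV F n) :
    x - y ∈ gaussV F n := sub_eq_add_neg x y ▸ gauss_add hx (gauss_neg hy)

theorem gauss_mono {n m : ℕ} (h : n ≤ m) : gaussV F n ⊆ gaussV F m := fun _ hx =>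
  gauss_mem.2 ((gauss_mem.1 hx).trans_le (by exact_mod_cast h))

theorem gauss_Cmul {n : ℕ} (c : F) {x : F[X]} (hx : x ∈ gaussV F n) : C c * x ∈ gaussV F n :=
  gauss_mem.2 (lt_of_le_of_lt (by rw [← smul_eq_C_mul]; exact degree_smul_le c x) (gauss_mem.1 hx))

theorem gauss_mod {D : F[X]} (hD : D.Monic) (x : F[X]) : x %ₘ D ∈ gaussV F D.natDegree :=
  gauss_mem.2 ((degree_modByMonic_lt x hD).trans_eq (degree_eq_natDegree hD.ne_zero))

theorem gauss_eq_zero {D x : F[X]} (hx : x ∈ gaussV F D.natDegree) (h : D ∣ x) : x = 0 :=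
  (gauss_mem'.1 hx).elim id (eq_zero_of_dvd_of_natDegree_lt h)

theorem gauss_mul {n m : ℕ} {x g : F[X]} (hx : x ∈ gaussV F n) (hg : g.natDegree ≤ m) :
    x * g ∈ gaussV F (n + m) := by
  rcases gauss_mem'.1 hx with rfl | h
  · exact gauss_mem'.2 (Or.inl (zero_mul _))
  · exact gauss_mem'.2 (Or.inr (natDegree_mul_le.trans_lt (by omega)))

theorem gauss_shift {n : ℕ} {v : F[X]} (hv : v ∈ gaussV F n) (φ : F[X] → ℂ) :
    ∑ x ∈ gaussV F n, φ (x + v) = ∑ x ∈ gaussV F n, φ x :=
  sum_nbij' (· + v) (· - v) (fun _ h => gauss_add h hv) (fun _ h => gauss_sub h hv)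
    (fun _ _ => by simp) (fun _ _ => by simp) fun _ _ => rfl

theorem gauss_V_zero : gaussV F 0 = {0} := by
  ext x; simp [gauss_mem']

theorem gauss_coeff {n : ℕ} {v : F[X]} (hv : v ∈ gaussV F n) (c : F) :
    (C c * X ^ n + v).coeff n = c := by
  rw [coeff_add, coeff_C_mul_X_pow, if_pos rfl, coeff_eq_zero_of_degree_lt (gauss_mem.1 hv),
    add_zero]

theorem gauss_sum_succ (n : ℕ) (φ : F[X] → ℂ) :
    ∑ y ∈ gaussV F (n + 1), φ y = ∑ c : F, ∑ v ∈ gaussV F n, φ (C c * X ^ n + v) := by
  rw [← sum_product']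
  refine (sum_nbij' (fun p => C p.1 * X ^ n + p.2)
    (fun y => (y.coeff n, y - C (y.coeff n) * X ^ n)) (fun p hp => ?_) (fun y hy => ?_)
    (fun p hp => ?_) (fun y _ => by simp) fun _ _ => rfl).symm
  · refine gauss_add (gauss_mem.2 ((degree_C_mul_X_pow_le n _).trans_lt ?_))
      (gauss_mono n.le_succ (mem_product.1 hp).2)
    exact_mod_cast n.lt_succ_self
  · refine mem_product.2 ⟨mem_univ _, gauss_mem.2 ((degree_lt_iff_coeff_zero _ _).2 fun m hm => ?_)⟩
    rw [coeff_sub, coeff_C_mul_X_pow]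
    split_ifs with h
    · rw [h, sub_self]
    · rw [sub_zero]
      exact (degree_lt_iff_coeff_zero _ _).1 (gauss_mem.1 hy) m (by omega)
  · simp only [gauss_coeff (mem_product.1 hp).2, add_sub_cancel_left]

theorem gauss_sum_mon {c : F} (hc : c ≠ 0) (n : ℕ) (φ : F[X] → ℂ) :
    ∑ v ∈ gaussV F n, φ (C c * X ^ n + v) = ∑ g ∈ monF F n, φ (C c * g) := by
  have e : monF F n = (gaussV F n).map
      ⟨fun y : F[X] => X ^ n + y, fun _ _ h => add_left_cancel h⟩ := by
    rw [gaussV, Finset.map_map]; rfl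
  have h1 : C c * C c⁻¹ = (1 : F[X]) := by rw [← C_mul, mul_inv_cancel₀ hc, C_1]
  rw [e, sum_map]
  refine sum_nbij' (C c⁻¹ * ·) (C c * ·) (fun _ h => gauss_Cmul _ h) (fun _ h => gauss_Cmul _ h)
    (fun x _ => by rw [← mul_assoc, h1, one_mul])
    (fun x _ => by rw [← mul_assoc, mul_comm (C c⁻¹), h1, one_mul]) fun x _ => ?_
  simp only [Function.Embedding.coeFn_mk]
  rw [mul_add, ← mul_assoc, h1, one_mul]

variable (F) in
/-- A primitive additive character. -/
noncomputable def gaussE : AddChar F ℂ := AddChar.FiniteField.primitiveChar_to_Complex F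

variable (F) in
/-- The quadratic Gauss sum of the constant field. -/
noncomputable def gaussG : ℂ := ∑ c : F, eta F c * gaussE F c

theorem gauss_prim : (gaussE F).IsPrimitive :=
  AddChar.FiniteField.primitiveChar_to_Complex_isPrimitive F

theorem gauss_exists : ∃ a : F, gaussE F a ≠ 1 := by
  have := gauss_prim (F := F) one_ne_zero
  rw [AddChar.mulShift_one] at this
  exact AddChar.ne_one_iff.1 this

theorem gaussG_sq (hF : ringChar F ≠ 2) : gaussG F ^ 2 = eta F (-1) * Q F :=
  gaussSum_sq (χ := (quadraticChar F).ringHomComp (Int.castRingHom ℂ))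
    ((MulChar.ringHomComp_ne_one_iff Int.cast_injective).2 (quadraticChar_ne_one hF))
    ((quadraticChar_isQuadratic F).comp _) gauss_prim

theorem gauss_sum_sq_const (hF : ringChar F ≠ 2) : ∑ c : F, gaussE F (c ^ 2) = gaussG F := by
  have h0 : ∑ c : F, gaussE F c = 0 :=
    AddChar.sum_eq_zero_of_ne_one (AddChar.ne_one_iff.2 gauss_exists)
  rw [← sum_fiberwise_of_maps_to (t := univ) (g := fun c : F => c ^ 2) fun _ _ => mem_univ _,
    ← add_zero (gaussG F), ← h0, gaussG, ← sum_add_distrib]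
  refine sum_congr rfl fun a _ => ?_
  rw [sum_congr rfl (g := fun _ => gaussE F a) fun c hc => by rw [(mem_filter.1 hc).2], sum_const,
    nsmul_eq_mul, ← add_one_mul]
  congr 1
  have := congrArg (Int.cast : ℤ → ℂ) (quadraticChar_card_sqrts hF a)
  rw [Set.toFinset_ofPred] at this
  simpa [eta] using this

theorem gauss_eta_sq {c : F} (hc : c ≠ 0) : eta F c ^ 2 = 1 := by
  rw [eta, ← Int.cast_pow, quadraticChar_sq_one hc, Int.cast_one]

theorem gauss_eta_zero : eta F 0 = 0 := by simp [eta]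

theorem gauss_eta_sum (hF : ringChar F ≠ 2) : ∑ c : F, eta F c = 0 := by
  simp only [eta]
  rw [← Int.cast_sum, quadraticChar_sum_zero hF, Int.cast_zero]

/-- The additive character modulo `D`. -/
noncomputable def gaussPsi (D x : F[X]) : ℂ := gaussE F ((x %ₘ D).coeff (D.natDegree - 1))

theorem gauss_psi_add (D x y : F[X]) : gaussPsi D (x + y) = gaussPsi D x * gaussPsi D y := by
  rw [gaussPsi, add_modByMonic, coeff_add, AddChar.map_add_eq_mul, gaussPsi, gaussPsi]

theorem gauss_psi_congr {D x y : F[X]} (hD : D.Monic) (h : D ∣ x - y) :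
    gaussPsi D x = gaussPsi D y := by
  rw [gaussPsi, gaussPsi, modByMonic_eq_of_dvd_sub hD h]

theorem gauss_psi_small {D x : F[X]} (hD : D.Monic) (hx : x ∈ gaussV F D.natDegree) :
    gaussPsi D x = gaussE F (x.coeff (D.natDegree - 1)) := by
  rw [gaussPsi, (modByMonic_eq_self_iff hD).2
    ((gauss_mem.1 hx).trans_eq (degree_eq_natDegree hD.ne_zero).symm)]

theorem gauss_psi_one {D x : F[X]} (hD : D.Monic) (hx : x ∈ gaussV F (D.natDegree - 1)) :
    gaussPsi D x = 1 := by
  rw [gauss_psi_small hD (gauss_mono (Nat.sub_le _ _) hx),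
    coeff_eq_zero_of_degree_lt (gauss_mem.1 hx), AddChar.map_zero_eq_one]

theorem gauss_mul_mem {n m k : ℕ} {x v : F[X]} (hx : x ∈ gaussV F n) (hv : v ∈ gaussV F m)
    (h : n + m ≤ k) : x * v ∈ gaussV F (k - 1) := by
  rcases gauss_mem'.1 hx with rfl | h1
  · exact gauss_mem'.2 (Or.inl (zero_mul _))
  rcases gauss_mem'.1 hv with rfl | h2
  · exact gauss_mem'.2 (Or.inl (mul_zero _))
  exact gauss_mem'.2 (Or.inr (natDegree_mul_le.trans_lt (by omega)))

theorem gauss_orth {D x : F[X]} (hD : D.Monic) (hx : x ∈ gaussV F D.natDegree) {n : ℕ}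
    (hn : n ≤ D.natDegree) : ∑ v ∈ gaussV F n, gaussPsi D (x * v) =
      if x ∈ gaussV F (D.natDegree - n) then (Q F : ℂ) ^ n else 0 := by
  split_ifs with h
  · rw [sum_congr rfl fun v hv => gauss_psi_one hD (gauss_mul_mem h hv (by omega)), sum_const,
      gauss_card, nsmul_eq_mul, mul_one, Nat.cast_pow]
  · rw [gauss_mem', not_or, not_lt] at h
    have h1 := (gauss_mem'.1 hx).resolve_left h.1
    obtain ⟨a, ha⟩ := gauss_exists (F := F)
    obtain ⟨m, hm⟩ : ∃ m, D.natDegree = x.natDegree + m + 1 := ⟨D.natDegree - x.natDegree - 1, by omega⟩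
    have hv : C (a / x.leadingCoeff) * X ^ m ∈ gaussV F n :=
      gauss_mem.2 ((degree_C_mul_X_pow_le m _).trans_lt (by exact_mod_cast (by omega : m < n)))
    have h2 : gaussPsi D (x * (C (a / x.leadingCoeff) * X ^ m)) = gaussE F a := by
      have h3 : x ∈ gaussV F (x.natDegree + 1) := gauss_mem'.2 (Or.inr (Nat.lt_succ_self _))
      rw [gauss_psi_small hD (gauss_mono (by omega) (gauss_mul h3 (natDegree_C_mul_X_pow_le _ m))),
        hm, Nat.add_sub_cancel, ← mul_assoc, coeff_mul_X_pow, coeff_mul_C, coeff_natDegree,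
        mul_div_cancel₀ _ (leadingCoeff_ne_zero.2 h.1)]
    have h4 := gauss_shift hv fun v => gaussPsi D (x * v)
    simp only [mul_add, gauss_psi_add, h2, ← sum_mul] at h4
    exact by_contra fun h5 => ha ((mul_eq_left₀ h5).1 h4)

variable (F) in
/-- The value of the Gauss sum modulo a squarefree polynomial of degree `d`. -/
noncomputable def gaussTau (d : ℕ) : ℂ := (Q F : ℂ) ^ (d / 2) * gaussG F ^ (d % 2)

theorem gauss_tau_add (hF : ringChar F ≠ 2) (a b : ℕ) :
    eta F (-1) ^ (a * b) * (gaussTau F a * gaussTau F b) = gaussTau F (a + b) := by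
  have h1 := eta_neg_one_sq (F := F)
  have h2 := gaussG_sq hF
  have h3 : ∀ m, eta F (-1) ^ (2 * m) = 1 := fun m => by rw [pow_mul, h1, one_pow]
  unfold gaussTau
  obtain ⟨i, rfl | rfl⟩ := Nat.even_or_odd' a <;> obtain ⟨j, rfl | rfl⟩ := Nat.even_or_odd' b
  · rw [mul_assoc 2, h3, show (2 * i + 2 * j) / 2 = i + j by omega,
      show (2 * i + 2 * j) % 2 = 0 by omega, show 2 * i / 2 = i by omega,
      show 2 * j / 2 = j by omega, show 2 * i % 2 = 0 by omega, show 2 * j % 2 = 0 by omega]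
    ring
  · rw [mul_assoc 2, h3, show (2 * i + (2 * j + 1)) / 2 = i + j by omega,
      show (2 * i + (2 * j + 1)) % 2 = 1 by omega, show 2 * i / 2 = i by omega,
      show (2 * j + 1) / 2 = j by omega, show 2 * i % 2 = 0 by omega,
      show (2 * j + 1) % 2 = 1 by omega]
    ring
  · rw [mul_comm (2 * i + 1), mul_assoc 2, h3, show (2 * i + 1 + 2 * j) / 2 = i + j by omega,
      show (2 * i + 1 + 2 * j) % 2 = 1 by omega, show (2 * i + 1) / 2 = i by omega,
      show 2 * j / 2 = j by omega, show (2 * i + 1) % 2 = 1 by omega, show 2 * j % 2 = 0 by omega]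
    ring
  · rw [show (2 * i + 1) * (2 * j + 1) = 2 * (2 * i * j + i + j) + 1 by ring, pow_succ, h3,
      show (2 * i + 1 + (2 * j + 1)) / 2 = i + j + 1 by omega,
      show (2 * i + 1 + (2 * j + 1)) % 2 = 0 by omega, show (2 * i + 1) / 2 = i by omega,
      show (2 * j + 1) / 2 = j by omega, show (2 * i + 1) % 2 = 1 by omega,
      show (2 * j + 1) % 2 = 1 by omega]
    linear_combination (eta F (-1) * (Q F : ℂ) ^ (i + j)) * h2 + (Q F : ℂ) ^ (i + j + 1) * h1

theorem gauss_two_ne (hF : ringChar F ≠ 2) : (2 : F) ≠ 0 := Ring.two_ne_zero hF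

theorem gauss_sum_psi_sq (hF : ringChar F ≠ 2) {D : F[X]} (hD : D.Monic) :
    ∑ y ∈ gaussV F D.natDegree, gaussPsi D (y ^ 2) = gaussTau F D.natDegree := by
  have hq : (Q F : ℂ) ^ (D.natDegree / 2) ≠ 0 := pow_ne_zero _ Q_ne
  have h1 : ∑ y ∈ gaussV F D.natDegree, gaussPsi D (y ^ 2) =
      ∑ y ∈ gaussV F (D.natDegree - D.natDegree / 2), gaussPsi D (y ^ 2) := by
    refine mul_left_cancel₀ hq ?_
    calc _ = ∑ v ∈ gaussV F (D.natDegree / 2), ∑ y ∈ gaussV F D.natDegree,
          gaussPsi D ((y + v) ^ 2) := by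
          rw [sum_congr rfl fun v hv => gauss_shift (gauss_mono (Nat.div_le_self _ _) hv)
            fun y => gaussPsi D (y ^ 2), sum_const, gauss_card, nsmul_eq_mul, Nat.cast_pow]
      _ = ∑ y ∈ gaussV F D.natDegree, gaussPsi D (y ^ 2) *
          ∑ v ∈ gaussV F (D.natDegree / 2), gaussPsi D (C 2 * y * v) := by
          rw [sum_comm]
          refine sum_congr rfl fun y _ => ?_
          rw [mul_sum]
          refine sum_congr rfl fun v hv => ?_
          rw [show (y + v) ^ 2 = y ^ 2 + C 2 * y * v + v * v by rw [map_ofNat]; ring,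
            gauss_psi_add, gauss_psi_add, gauss_psi_one hD (gauss_mul_mem hv hv (by omega)),
            mul_one]
      _ = ∑ y ∈ gaussV F D.natDegree, if y ∈ gaussV F (D.natDegree - D.natDegree / 2) then
          (Q F : ℂ) ^ (D.natDegree / 2) * gaussPsi D (y ^ 2) else 0 := by
          refine sum_congr rfl fun y hy => ?_
          rw [gauss_orth hD (gauss_Cmul _ hy) (Nat.div_le_self _ _)]
          simp only [gauss_mem, degree_C_mul (gauss_two_ne hF)]
          split_ifs
          · exact mul_comm _ _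
          · exact mul_zero _
      _ = _ := by
          rw [sum_ite_mem, inter_eq_right.2 (gauss_mono (Nat.sub_le _ _)), mul_sum]
  rw [h1, gaussTau]
  obtain ⟨k, hk | hk⟩ := Nat.even_or_odd' D.natDegree
  · rw [sum_congr rfl fun y hy => by
      rw [pow_two, gauss_psi_one hD (gauss_mul_mem hy hy (by omega))], sum_const, gauss_card, hk,
      show 2 * k - 2 * k / 2 = k by omega, show 2 * k / 2 = k by omega,
      show 2 * k % 2 = 0 by omega]
    simp
  · rw [show D.natDegree - D.natDegree / 2 = k + 1 by omega, show D.natDegree / 2 = k by omega,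
      show D.natDegree % 2 = 1 by omega, pow_one, ← gauss_sum_sq_const hF, mul_sum,
      sum_congr rfl (g := fun y => gaussE F (y.coeff k ^ 2)) fun y hy => ?_, gauss_sum_succ]
    · refine sum_congr rfl fun c _ => ?_
      rw [sum_congr rfl fun v hv => by rw [gauss_coeff hv], sum_const, gauss_card, nsmul_eq_mul,
        Nat.cast_pow]
    · have h2 : y.natDegree ≤ k := by
        rcases gauss_mem'.1 hy with rfl | h
        · simp
        · omega
      rw [pow_two, gauss_psi_small hD (gauss_mono (by omega) (gauss_mul hy h2)),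
        show D.natDegree - 1 = k + k by omega, coeff_mul_add_eq_of_natDegree_le h2 h2, pow_two]

theorem gauss_count (hF : ringChar F ≠ 2) {P : F[X]} (hm : P.Monic) (hi : Irreducible P)
    (x : F[X]) :
    (((gaussV F P.natDegree).filter fun y => P ∣ y ^ 2 - x).card : ℂ) = 1 + jac x P := by
  rw [jac_prime x hm hi, leg]
  split_ifs with h1 h2
  · have : ((gaussV F P.natDegree).filter fun y => P ∣ y ^ 2 - x) = {0} := by
      ext y
      rw [mem_filter, mem_singleton]
      refine ⟨fun h => gauss_eq_zero h.1 (hi.prime.dvd_of_dvd_pow (n := 2) ?_), fun h => ?_⟩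
      · simpa using dvd_add h.2 h1
      · rw [h]; exact ⟨gauss_mem'.2 (Or.inl rfl), by simpa using h1⟩
    rw [this]; simp
  · obtain ⟨z, hz⟩ := h2
    have h3 := gauss_mod hm z
    have h4 : P ∣ (z %ₘ P) ^ 2 - x := by
      obtain ⟨t, ht⟩ := dvd_modByMonic_sub z P
      obtain ⟨u, hu⟩ := hz
      exact ⟨u + t * (z %ₘ P + z), by linear_combination hu + (z %ₘ P + z) * ht⟩
    generalize z %ₘ P = w at h3 h4
    have : ((gaussV F P.natDegree).filter fun y => P ∣ y ^ 2 - x) = {w, -w} := by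
      ext y
      rw [mem_filter, mem_insert, mem_singleton]
      refine ⟨fun h => ?_, ?_⟩
      · have h5 : P ∣ (y - w) * (y + w) := by
          rw [show (y - w) * (y + w) = y ^ 2 - x - (w ^ 2 - x) by ring]
          exact dvd_sub h.2 h4
        exact (hi.prime.dvd_or_dvd h5).imp
          (fun h6 => sub_eq_zero.1 (gauss_eq_zero (gauss_sub h.1 h3) h6))
          fun h6 => eq_neg_of_add_eq_zero_left (gauss_eq_zero (gauss_add h.1 h3) h6)
      · rintro (rfl | rfl)
        · exact ⟨h3, h4⟩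
        · exact ⟨gauss_neg h3, by rwa [neg_sq]⟩
    rw [this, card_pair]
    · norm_num
    · intro h
      have h5 : C (2 : F) * w = 0 := by rw [map_ofNat]; linear_combination h
      rw [(mul_eq_zero.1 h5).resolve_left (C_ne_zero.2 (gauss_two_ne hF))] at h4
      exact h1 (by simpa using h4)
  · rw [filter_eq_empty_iff.2 fun y _ h => h2 ⟨y, h⟩]
    simp

theorem gauss_sum_sq (hF : ringChar F ≠ 2) {P : F[X]} (hm : P.Monic) (hi : Irreducible P)
    {φ : F[X] → ℂ} (hφ : ∀ x y, P ∣ x - y → φ x = φ y) :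
    ∑ y ∈ gaussV F P.natDegree, φ (y ^ 2) =
      ∑ x ∈ gaussV F P.natDegree, φ x + ∑ x ∈ gaussV F P.natDegree, jac x P * φ x := by
  rw [← sum_fiberwise_of_maps_to (t := gaussV F P.natDegree) (g := fun y => y ^ 2 %ₘ P)
    fun y _ => gauss_mod hm _, ← sum_add_distrib]
  refine sum_congr rfl fun x hx => ?_
  have : ∀ y : F[X], y ^ 2 %ₘ P = x ↔ P ∣ y ^ 2 - x := fun y =>
    ⟨fun h => by rw [← h, ← neg_sub, dvd_neg]; exact dvd_modByMonic_sub _ _, fun h => by
      rw [modByMonic_eq_of_dvd_sub hm h, (modByMonic_eq_self_iff hm).2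
        ((gauss_mem.1 hx).trans_eq (degree_eq_natDegree hm.ne_zero).symm)]⟩
  simp only [this]
  rw [sum_congr rfl (g := fun _ => φ x) fun y hy => hφ _ _ (mem_filter.1 hy).2, sum_const,
    nsmul_eq_mul, gauss_count hF hm hi]
  ring

/-- The Gauss sum modulo `D`. -/
noncomputable def gaussS (D f : F[X]) : ℂ :=
  ∑ x ∈ gaussV F D.natDegree, jac x D * gaussPsi D (x * f)

theorem gauss_prime (hF : ringChar F ≠ 2) {P : F[X]} (hm : P.Monic) (hi : Irreducible P)
    (f : F[X]) : gaussS P f = jac f P * gaussTau F P.natDegree := by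
  have h0 := hi.natDegree_pos
  have hsq := jac_sq_prime f hm hi
  by_cases hf : P ∣ f
  · rw [if_pos hf] at hsq
    have h1 := gauss_sum_sq hF hm hi (φ := fun _ => 1) fun _ _ _ => rfl
    rw [pow_eq_zero_iff two_ne_zero |>.1 hsq, zero_mul, gaussS, left_eq_add.1 h1 |>.symm]
    refine sum_congr rfl fun x _ => ?_
    rw [gauss_psi_congr (y := 0) hm (by simpa using hf.mul_left x),
      gauss_psi_one hm (gauss_mem'.2 (Or.inl rfl))]
  rw [if_neg hf] at hsq
  have h1 := gauss_sum_sq hF hm hi (φ := gaussPsi P) fun _ _ h => gauss_psi_congr hm h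
  have h2 := gauss_orth hm (x := 1) (gauss_mem'.2 (Or.inr (by simpa using h0))) le_rfl
  rw [if_neg (by simp [gauss_V_zero])] at h2
  simp only [one_mul] at h2
  rw [gauss_sum_psi_sq hF hm, h2, zero_add] at h1
  have hinj : Set.InjOn (fun x => x * f %ₘ P) (gaussV F P.natDegree) := fun x hx y hy h => by
    have h3 : P ∣ (x - y) * f := by
      have h4 := dvd_sub (dvd_modByMonic_sub (y * f) P) (dvd_modByMonic_sub (x * f) P)
      rw [show x * f %ₘ P = y * f %ₘ P from h] at h4
      convert h4 using 1; ring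
    exact sub_eq_zero.1 (gauss_eq_zero (gauss_sub hx hy) ((hi.prime.dvd_or_dvd h3).resolve_right hf))
  have him : (gaussV F P.natDegree).image (fun x => x * f %ₘ P) = gaussV F P.natDegree :=
    eq_of_subset_of_card_le (image_subset_iff.2 fun x _ => gauss_mod hm _)
      (card_image_of_injOn hinj).ge
  rw [h1, ← him, sum_image hinj, gaussS, mul_sum]
  refine sum_congr rfl fun x _ => ?_
  rw [jac_congr hm (dvd_modByMonic_sub _ _), gauss_psi_congr hm (dvd_modByMonic_sub _ _),
    jac_mul_left hF _ _ hm]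
  linear_combination (-(jac x P * gaussPsi P (x * f))) * hsq

theorem gauss_psi_mul {A B : F[X]} (hA : A.Monic) (hB : B.Monic) (h0 : 0 < A.natDegree)
    (x : F[X]) : gaussPsi (A * B) (x * B) = gaussPsi A x := by
  have h1 := gauss_mod hA x
  have h2 : (x %ₘ A).natDegree ≤ A.natDegree - 1 := by
    rcases gauss_mem'.1 h1 with h | h
    · rw [h]; simp
    · omega
  rw [gauss_psi_congr (y := x %ₘ A * B) (hA.mul hB) (by
      rw [← sub_mul, ← neg_sub, neg_mul, dvd_neg]
      exact mul_dvd_mul_right (dvd_modByMonic_sub _ _) B),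
    gauss_psi_small (hA.mul hB) (by rw [hA.natDegree_mul hB]; exact gauss_mul h1 le_rfl),
    hA.natDegree_mul hB, show A.natDegree + B.natDegree - 1 = A.natDegree - 1 + B.natDegree by omega,
    coeff_mul_add_eq_of_natDegree_le h2 le_rfl, hB.coeff_natDegree, mul_one, gaussPsi]

theorem gauss_prod (hF : ringChar F ≠ 2) {A B : F[X]} (hA : A.Monic) (hB : B.Monic)
    (h0 : 0 < A.natDegree) (h1 : 0 < B.natDegree) (hc : IsCoprime A B) (f : F[X]) :
    gaussS (A * B) f = jac B A * jac A B * (gaussS A f * gaussS B f) := by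
  have hinj : Set.InjOn (fun p : F[X] × F[X] => p.1 * B + p.2 * A)
      (gaussV F A.natDegree ×ˢ gaussV F B.natDegree : Finset _) := fun p hp r hr h => by
    obtain ⟨h2, h3⟩ := mem_product.1 (mem_coe.1 hp)
    obtain ⟨h4, h5⟩ := mem_product.1 (mem_coe.1 hr)
    have h6 : p.1 * B + p.2 * A = r.1 * B + r.2 * A := h
    exact Prod.ext
      (sub_eq_zero.1 (gauss_eq_zero (gauss_sub h2 h4) (hc.dvd_of_dvd_mul_right
        ⟨r.2 - p.2, by linear_combination h6⟩)))
      (sub_eq_zero.1 (gauss_eq_zero (gauss_sub h3 h5) (hc.symm.dvd_of_dvd_mul_right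
        ⟨r.1 - p.1, by linear_combination h6⟩)))
  have him : (gaussV F A.natDegree ×ˢ gaussV F B.natDegree).image
      (fun p : F[X] × F[X] => p.1 * B + p.2 * A) = gaussV F (A * B).natDegree := by
    rw [hA.natDegree_mul hB]
    refine eq_of_subset_of_card_le (image_subset_iff.2 fun p hp => gauss_add
      (gauss_mul (mem_product.1 hp).1 le_rfl)
      (add_comm B.natDegree _ ▸ gauss_mul (mem_product.1 hp).2 le_rfl)) ?_
    rw [card_image_of_injOn hinj, card_product, gauss_card, gauss_card, gauss_card, pow_add]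
  rw [gaussS, ← him, sum_image hinj, sum_product, gaussS, gaussS, sum_mul_sum, mul_sum]
  refine sum_congr rfl fun x _ => ?_
  rw [mul_sum]
  refine sum_congr rfl fun y _ => ?_
  rw [(jac_cm _).mul _ _ hA hB, jac_congr (E := x * B) hA ⟨y, by ring⟩,
    jac_congr (D := x * B + y * A) (E := y * A) hB ⟨x, by ring⟩, jac_mul_left hF _ _ hA,
    jac_mul_left hF _ _ hB, show (x * B + y * A) * f = x * f * B + y * f * A by ring,
    gauss_psi_add, gauss_psi_mul hA hB h0, mul_comm A B, gauss_psi_mul hB hA h1]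
  ring

theorem gauss_eval (hF : ringChar F ≠ 2) {D : F[X]} (hD : D.Monic) (hs : Squarefree D)
    (h0 : 0 < D.natDegree) (f : F[X]) : gaussS D f = jac f D * gaussTau F D.natDegree := by
  induction hn : D.natDegree using Nat.strong_induction_on generalizing D with
  | _ n ih =>
    obtain ⟨P, h1, h2, B, rfl⟩ := exists_monic_irreducible_factor D
      (not_isUnit_of_natDegree_pos D h0)
    have hB : B.Monic := h1.of_mul_monic_left hD
    rcases Nat.eq_zero_or_pos B.natDegree with h3 | h3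
    · obtain rfl := hB.natDegree_eq_zero.1 h3
      rw [mul_one] at hn ⊢
      rw [← hn, gauss_prime hF h1 h2]
    have h4 : ¬ P ∣ B := fun h => h2.not_isUnit (hs P (mul_dvd_mul_left P h))
    have h5 := h2.natDegree_pos
    have h6 := jac_sq_prime B h1 h2
    rw [if_neg h4] at h6
    rw [h1.natDegree_mul hB] at hn
    rw [gauss_prod hF h1 hB h5 h3 (h2.coprime_iff_not_dvd.2 h4), gauss_prime hF h1 h2,
      ih B.natDegree (by omega) hB hs.of_mul_right h3 rfl, (jac_cm f).mul _ _ h1 hB,
      jac_recip hF h1 hB, ← hn, ← gauss_tau_add hF]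
    linear_combination (eta F (-1) ^ (P.natDegree * B.natDegree) * (jac f P * jac f B) *
      (gaussTau F P.natDegree * gaussTau F B.natDegree)) * h6

theorem gauss_jac_zero {D : F[X]} (hD : D.Monic) (h0 : 0 < D.natDegree) : jac 0 D = 0 := by
  obtain ⟨P, h1, h2, B, rfl⟩ := exists_monic_irreducible_factor D
    (not_isUnit_of_natDegree_pos D h0)
  rw [(jac_cm 0).mul _ _ h1 (h1.of_mul_monic_left hD), jac_prime 0 h1 h2, leg,
    if_pos (dvd_zero P), zero_mul]

theorem gauss_fiber (hF : ringChar F ≠ 2) {D : F[X]} (hD : D.Monic) {c : F} (hc : c ≠ 0) (n : ℕ) :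
    ∑ v ∈ gaussV F n, jac (C c * X ^ n + v) D =
      eta F c ^ D.natDegree * AA (fun f => jac f D) n := by
  rw [gauss_sum_mon hc n fun f => jac f D, AA, mul_sum]
  exact sum_congr rfl fun g _ => by rw [jac_mul_left hF _ _ hD, jac_C hF _ hD]

theorem gauss_sum_V (hF : ringChar F ≠ 2) {D : F[X]} (hD : D.Monic) (h0 : 0 < D.natDegree)
    (n : ℕ) : ∑ v ∈ gaussV F n, jac v D =
      (∑ c : F, eta F c ^ D.natDegree) * ∑ j ∈ range n, AA (fun f => jac f D) j := by
  induction n with
  | zero => simp [gauss_V_zero, gauss_jac_zero hD h0]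
  | succ n ih =>
    rw [gauss_sum_succ, sum_range_succ, mul_add, ← ih, ← add_sum_erase _ _ (mem_univ 0),
      ← add_sum_erase _ _ (mem_univ (0 : F)), gauss_eta_zero, zero_pow h0.ne', zero_add, sum_mul,
      sum_congr rfl fun c hc => gauss_fiber hF hD (ne_of_mem_erase hc) n]
    simp

theorem gauss_dual (hF : ringChar F ≠ 2) {D : F[X]} (hD : D.Monic) (hs : Squarefree D)
    (h0 : 0 < D.natDegree) {n : ℕ} (hn : n ≤ D.natDegree) {a : F[X]}
    (ha : a ∈ gaussV F D.natDegree) :
    gaussTau F D.natDegree * ∑ f ∈ gaussV F n, jac f D * gaussPsi D (a * f) =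
      (Q F : ℂ) ^ n * ∑ x ∈ gaussV F (D.natDegree - n), jac (x - a) D := by
  calc _ = ∑ f ∈ gaussV F n, ∑ x ∈ gaussV F D.natDegree,
        jac x D * gaussPsi D ((x + a) * f) := by
        rw [mul_sum]
        refine sum_congr rfl fun f _ => ?_
        rw [← mul_assoc, mul_comm (gaussTau F _), ← gauss_eval hF hD hs h0, gaussS, sum_mul]
        exact sum_congr rfl fun x _ => by rw [add_mul, gauss_psi_add, mul_assoc]
    _ = ∑ x ∈ gaussV F D.natDegree, jac (x + a - a) D *
        if x + a ∈ gaussV F (D.natDegree - n) then (Q F : ℂ) ^ n else 0 := by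
        rw [sum_comm]
        exact sum_congr rfl fun x hx => by
          rw [← mul_sum, gauss_orth hD (gauss_add hx ha) hn, add_sub_cancel_right]
    _ = _ := by
        rw [gauss_shift ha fun x => jac (x - a) D *
          if x ∈ gaussV F (D.natDegree - n) then (Q F : ℂ) ^ n else 0]
        simp only [mul_ite, mul_zero]
        rw [sum_ite_mem, inter_eq_right.2 (gauss_mono (Nat.sub_le _ _)), mul_comm, sum_mul]

theorem AA_vanish (hF : ringChar F ≠ 2) {D : F[X]} (hD : D.Monic) (hs : Squarefree D)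
    (h0 : 0 < D.natDegree) {n : ℕ} (hn : D.natDegree ≤ n) : AA (fun f => jac f D) n = 0 := by
  have h1 : ∑ x ∈ gaussV F D.natDegree, jac x D = 0 := by
    have := gauss_eval hF hD hs h0 0
    rw [gauss_jac_zero hD h0, zero_mul, gaussS] at this
    rw [← this]
    exact sum_congr rfl fun x _ => by
      rw [mul_zero, gauss_psi_one hD (gauss_mem'.2 (Or.inl rfl)), mul_one]
  have h2 : ∀ f : F[X], ∑ v ∈ gaussV F D.natDegree, jac (f + v) D = 0 := fun f => by
    rw [← h1, ← gauss_shift (gauss_mod hD f) fun x => jac x D]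
    refine sum_congr rfl fun v _ => jac_congr hD ?_
    rw [show f + v - (v + f %ₘ D) = -(f %ₘ D - f) by ring, dvd_neg]
    exact dvd_modByMonic_sub _ _
  have h3 := gauss_fiber hF hD one_ne_zero n
  have h4 : eta F 1 = 1 := by simp [eta]
  rw [h4, one_pow, one_mul] at h3
  refine mul_left_cancel₀ (pow_ne_zero D.natDegree (Q_ne (F := F))) ?_
  rw [mul_zero, ← h3, ← Nat.cast_pow, ← gauss_card, ← nsmul_eq_mul, ← sum_const,
    sum_congr rfl fun v hv => (gauss_shift (gauss_mono hn hv)
      fun x => jac (C 1 * X ^ n + x) D).symm, sum_comm]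
  refine sum_eq_zero fun x _ => ?_
  rw [← h2 (C 1 * X ^ n + x)]
  exact sum_congr rfl fun v _ => by rw [add_assoc]

theorem fe_odd (hF : ringChar F ≠ 2) {D : F[X]} (hD : D.Monic) (hs : Squarefree D) {k n : ℕ}
    (hd : D.natDegree = 2 * k + 1) (hn : n ≤ 2 * k) :
    (Q F : ℂ) ^ k * AA (fun f => jac f D) n =
      (Q F : ℂ) ^ n * AA (fun f => jac f D) (2 * k - n) := by
  have h0 : 0 < D.natDegree := by omega
  have hodd : ∀ c : F, eta F c ^ D.natDegree = eta F c := fun c => by
    by_cases hc : c = 0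
    · rw [hc, gauss_eta_zero, zero_pow h0.ne']
    · rw [hd, pow_succ, pow_mul, gauss_eta_sq hc, one_pow, one_mul]
  obtain ⟨m, hm⟩ : ∃ m, 2 * k = n + m := ⟨2 * k - n, by omega⟩
  have hX : (X ^ m : F[X]) ∈ gaussV F D.natDegree :=
    gauss_mem'.2 (Or.inr (by rw [natDegree_X_pow]; omega))
  have h1 := gauss_dual hF hD hs h0 (n := n + 1) (by omega) hX
  have h2 : ∑ f ∈ gaussV F (n + 1), jac f D * gaussPsi D (X ^ m * f) =
      gaussG F * AA (fun f => jac f D) n := by
    rw [sum_congr rfl (g := fun f => jac f D * gaussE F (f.coeff n)) fun f hf => by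
      rw [mul_comm (X ^ m), gauss_psi_small hD (gauss_mono (by omega)
        (gauss_mul hf (natDegree_X_pow_le m))), show D.natDegree - 1 = n + m by omega,
        coeff_mul_X_pow], gauss_sum_succ, gaussG, sum_mul]
    refine sum_congr rfl fun c _ => ?_
    rw [sum_congr rfl fun v hv => by rw [gauss_coeff hv], ← sum_mul]
    by_cases hc : c = 0
    · simp only [hc, map_zero, zero_mul, zero_add, gauss_sum_V hF hD h0, hodd, gauss_eta_sum hF,
        gauss_eta_zero]
    · rw [gauss_fiber hF hD hc, hodd]; ring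
  have h3 : ∑ x ∈ gaussV F m, jac (x - X ^ m) D = eta F (-1) * AA (fun f => jac f D) m := by
    rw [← hodd, ← gauss_fiber hF hD (neg_ne_zero.2 one_ne_zero)]
    exact sum_congr rfl fun x _ => by rw [C_neg, C_1, neg_one_mul, neg_add_eq_sub]
  rw [h2, show D.natDegree - (n + 1) = m by omega, h3, gaussTau,
    show D.natDegree / 2 = k by omega, show D.natDegree % 2 = 1 by omega] at h1
  rw [show 2 * k - n = m by omega]
  refine mul_left_cancel₀ (Q_ne (F := F)) ?_
  linear_combination eta F (-1) * h1 -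
    (eta F (-1) * (Q F : ℂ) ^ k * AA (fun f => jac f D) n) * gaussG_sq hF +
    ((Q F : ℂ) ^ (n + 1) * AA (fun f => jac f D) m -
      (Q F : ℂ) ^ (k + 1) * AA (fun f => jac f D) n) * eta_neg_one_sq (F := F)

theorem fe_even (hF : ringChar F ≠ 2) {D : F[X]} (hD : D.Monic) (hs : Squarefree D) {k n : ℕ}
    (hd : D.natDegree = 2 * k) (hk : 0 < k) (hn : n ≤ 2 * k) :
    (Q F : ℂ) ^ k * ∑ j ∈ range n, AA (fun f => jac f D) j =
      (Q F : ℂ) ^ n * ∑ j ∈ range (2 * k - n), AA (fun f => jac f D) j := by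
  have h0 : 0 < D.natDegree := by omega
  have h1 := gauss_dual hF hD hs h0 (n := n) (by omega) (a := 0) (gauss_mem'.2 (Or.inl rfl))
  have h2 : ∑ c : F, eta F c ^ D.natDegree = Q F - 1 := by
    rw [← add_sum_erase _ _ (mem_univ (0 : F)), gauss_eta_zero, zero_pow h0.ne', zero_add,
      sum_congr rfl (g := fun _ => 1) fun c hc => by
        rw [hd, pow_mul, gauss_eta_sq (ne_of_mem_erase hc), one_pow],
      sum_const, card_erase_of_mem (mem_univ _), card_univ, nsmul_eq_mul, mul_one,
      Nat.cast_pred Fintype.card_pos]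
  have h3 : (Q F : ℂ) - 1 ≠ 0 := sub_ne_zero.2 (by exact_mod_cast Fintype.one_lt_card.ne')
  simp only [zero_mul, gauss_psi_one hD (gauss_mem'.2 (Or.inl rfl)), mul_one, sub_zero,
    gauss_sum_V hF hD h0, h2] at h1
  rw [gaussTau, hd, show 2 * k / 2 = k by omega, show 2 * k % 2 = 0 by omega] at h1
  refine mul_left_cancel₀ h3 ?_
  linear_combination h1

end Pool.Agent.MP_dd7250_nt
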