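import Mathlib
import Pool.Agent.MP_dd7250_nt.Gauss
import Pool.Agent.MP_dd7250_nt.Euler

/- The functional equations in the form used later. -/

set_option autoImplicit false

namespace Pool.Agent.MP_dd7250_nt

open Polynomial Finset Pool.Agent.MP_d232b3_nt
open scoped Classical

variable {F : Type*} [Field F] [Fintype F]
variable {A : Type*} [CommRing A] [Algebra ℂ A]

theorem fe_W (χ : F[X] → ℂ) (M : ℕ) (y : A) :
    ∑ V ∈ monLe F M, wV F M y V * algebraMap ℂ A (χ V) =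
      ∑ j ∈ range (M + 1), algebraMap ℂ A (((Q F : ℂ) ^ j)⁻¹ * AA χ j) * y ^ (M - j) := by
  rw [sum_monLe]
  refine sum_congr rfl fun j _ => ?_
  rw [AA, map_mul, map_sum, mul_sum, sum_mul]
  refine sum_congr rfl fun V hV => ?_
  rw [wV, (mem_monF.1 hV).2]
  ring

theorem fe_cut (c : ℕ → ℂ) (z : ℕ → A) {d n : ℕ} (hd : d ≤ n) (hc : ∀ j, d ≤ j → c j = 0) :
    ∑ j ∈ range n, algebraMap ℂ A (c j) * z j = ∑ j ∈ range d, algebraMap ℂ A (c j) * z j := by
  symm
  refine sum_subset (range_subset_range.2 hd) fun j _ hj => ?_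
  rw [hc j (by simpa using hj), map_zero, zero_mul]

theorem fe_sq_ne : sq F ≠ 0 := fun h => Q_ne (F := F) (by rw [← sq_sq, h]; simp)

theorem fe_dy_pow {σ : ℂ} (hσ : σ ^ 2 = 1) (k : ℕ) (y : A) :
    dy F σ y ^ (2 * k) = algebraMap ℂ A ((Q F : ℂ) ^ k) * y ^ (2 * k) := by
  rw [dy, mul_pow, ← map_pow, pow_mul (σ * sq F), mul_pow, hσ, sq_sq, one_mul]

theorem fe_half : algebraMap ℂ A (1 / 2) * 2 = 1 := by
  rw [← map_ofNat (algebraMap ℂ A) 2, ← map_mul]
  simp

theorem fe_K_even (k : ℕ) (y W : A) :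
    ∑ σ ∈ ({1, -1} : Finset ℂ), kap F σ y * (dy F σ y ^ (2 * k) * W) =
      -(1 - y) * (algebraMap ℂ A ((Q F : ℂ) ^ k) * y ^ (2 * k) * W) := by
  rw [sum_pair (by norm_num), fe_dy_pow (by norm_num), fe_dy_pow (by norm_num), kap, kap, neg_div,
    map_neg]
  linear_combination (-(1 - y) * (algebraMap ℂ A ((Q F : ℂ) ^ k) * y ^ (2 * k) * W)) *
    fe_half (A := A)

theorem fe_K_odd (k : ℕ) (y W : A) :
    ∑ σ ∈ ({1, -1} : Finset ℂ), kap F σ y * (dy F σ y ^ (2 * k + 1) * W) =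
      (1 - qA F A * y) * (algebraMap ℂ A ((Q F : ℂ) ^ k) * y ^ (2 * k + 1) * W) := by
  have hs : algebraMap ℂ A (1 / sq F) * algebraMap ℂ A (sq F) = 1 := by
    rw [← map_mul, one_div, inv_mul_cancel₀ fe_sq_ne, map_one]
  rw [sum_pair (by norm_num), pow_succ (dy F 1 y), pow_succ (dy F (-1) y), fe_dy_pow (by norm_num),
    fe_dy_pow (by norm_num), kap, kap, dy, dy, neg_div, map_neg, neg_mul (1 : ℂ), map_neg,
    one_mul]
  linear_combination ((1 - qA F A * y) * (algebraMap ℂ A ((Q F : ℂ) ^ k) * y ^ (2 * k + 1) * W)) *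
    (algebraMap ℂ A (1 / sq F) * algebraMap ℂ A (sq F) * fe_half (A := A) + hs)

theorem fe_odd' (hF : ringChar F ≠ 2) {D : F[X]} (hD : D.Monic) (hs : Squarefree D) {k n j : ℕ}
    (hd : D.natDegree = 2 * k + 1) (hn : n + j = 2 * k) :
    (Q F : ℂ) ^ k * (((Q F : ℂ) ^ j)⁻¹ * AA (fun f => jac f D) j) = AA (fun f => jac f D) n := by
  have h := fe_odd hF hD hs (n := j) hd (by omega)
  rw [show 2 * k - j = n by omega] at h
  rw [mul_left_comm, h, inv_mul_cancel_left₀ (pow_ne_zero _ Q_ne)]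

theorem fe_even' (hF : ringChar F ≠ 2) {D : F[X]} (hD : D.Monic) (hs : Squarefree D) {k n j : ℕ}
    (hd : D.natDegree = 2 * k) (hn : n + j + 1 = 2 * k) :
    (Q F : ℂ) ^ k * (((Q F : ℂ) ^ j)⁻¹ * AA (fun f => jac f D) j) =
      Q F * ∑ i ∈ range n, AA (fun f => jac f D) i -
        ∑ i ∈ range (n + 1), AA (fun f => jac f D) i := by
  have h1 := fe_even hF hD hs (n := j) hd (by omega) (by omega)
  have h2 := fe_even hF hD hs (n := j + 1) hd (by omega) (by omega)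
  rw [show 2 * k - j = n + 1 by omega] at h1
  rw [show 2 * k - (j + 1) = n by omega, sum_range_succ] at h2
  have h3 : ((Q F : ℂ) ^ j)⁻¹ * (Q F : ℂ) ^ j = 1 := inv_mul_cancel₀ (pow_ne_zero _ Q_ne)
  linear_combination ((Q F : ℂ) ^ j)⁻¹ * (h2 - h1) +
    (Q F * ∑ i ∈ range n, AA (fun f => jac f D) i -
      ∑ i ∈ range (n + 1), AA (fun f => jac f D) i) * h3

theorem lam_eq (hF : ringChar F ≠ 2) {m : F[X]} (hm : m.Monic) (hs : Squarefree m) {M I : ℕ}
    (hM : m.natDegree ≤ M) (hI : M ≤ I) (y : A) (hy : y ^ (I + 1) = 0) :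
    y ^ (M + 1) * ((1 - qA F A * y) * Lt (fun f => jac f m) I y) =
      (∑ σ ∈ ({1, -1} : Finset ℂ), kap F σ y * (dy F σ y ^ m.natDegree *
        ∑ V ∈ monLe F M, wV F M y V * algebraMap ℂ A (jac V m))) + if m = 1 then 1 else 0 := by
  rw [fe_W (fun f => jac f m)]
  by_cases h1 : m = 1
  · subst h1
    have e : (fun f : F[X] => jac f 1) = fun _ => 1 := funext fun f => (jac_cm f).one
    have e2 : ∑ j ∈ range (M + 1), algebraMap ℂ A (((Q F : ℂ) ^ j)⁻¹ *
        AA (fun _ : F[X] => 1) j) * y ^ (M - j) = ∑ j ∈ range (M + 1), y ^ j := by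
      rw [← sum_range_reflect fun j => y ^ j]
      refine sum_congr rfl fun j _ => ?_
      rw [AA, sum_const, card_monF, nsmul_eq_mul, mul_one, Nat.cast_pow,
        inv_mul_cancel₀ (pow_ne_zero _ Q_ne), map_one, one_mul, Nat.add_sub_cancel]
    have e3 := fe_K_even (F := F) 0 y (∑ j ∈ range (M + 1), y ^ j)
    rw [mul_zero] at e3
    rw [e, Lt_one hy, if_pos rfl, natDegree_one, e2, e3, pow_zero, pow_zero, map_one]
    linear_combination geom_sum_mul_neg y (M + 1)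
  have h0 : 0 < m.natDegree := Nat.pos_of_ne_zero fun h => h1 (hm.natDegree_eq_zero.1 h)
  rw [if_neg h1, add_zero, Lt, fe_cut _ _ (show m.natDegree ≤ I + 1 by omega)
    fun j hj => AA_vanish hF hm hs h0 hj, fe_cut _ _ (show m.natDegree ≤ M + 1 by omega)
    fun j hj => by rw [AA_vanish hF hm hs h0 hj, mul_zero],
    ← sum_range_reflect fun j => algebraMap ℂ A (((Q F : ℂ) ^ j)⁻¹ * AA (fun f => jac f m) j) *
      y ^ (M - j)]
  obtain ⟨k, hk | hk⟩ := Nat.even_or_odd' m.natDegree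
  · set S : ℕ → A := fun n => algebraMap ℂ A (∑ i ∈ range n, AA (fun f => jac f m) i) with hS
    have hT : ∑ n ∈ range (2 * k), S (n + 1) * y ^ (n + 1) = ∑ n ∈ range (2 * k), S n * y ^ n := by
      have s0 : S 0 = 0 := by simp [hS]
      have s1 : S (2 * k) = 0 := by
        have h := fe_even hF hm hs (n := 0) hk (by omega) (by omega)
        rw [range_zero, sum_empty, mul_zero, pow_zero, one_mul, Nat.sub_zero] at h
        simp only [hS, ← h, map_zero]
      have t1 := sum_range_succ (fun n => S n * y ^ n) (2 * k)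
      have t2 := sum_range_succ' (fun n => S n * y ^ n) (2 * k)
      simp only [s0, s1, zero_mul, add_zero] at t1 t2
      rw [← t1, t2]
    have hL : y * ∑ n ∈ range (2 * k), algebraMap ℂ A (AA (fun f => jac f m) n) * y ^ n =
        ∑ n ∈ range (2 * k), S (n + 1) * y ^ (n + 1) - y * ∑ n ∈ range (2 * k), S n * y ^ n := by
      rw [mul_sum, mul_sum, ← sum_sub_distrib]
      refine sum_congr rfl fun n _ => ?_
      simp only [hS, sum_range_succ, map_add]
      ring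
    have hR : algebraMap ℂ A ((Q F : ℂ) ^ k) * y ^ (2 * k) * ∑ n ∈ range (2 * k),
        algebraMap ℂ A (((Q F : ℂ) ^ (2 * k - 1 - n))⁻¹ * AA (fun f => jac f m) (2 * k - 1 - n)) *
          y ^ (M - (2 * k - 1 - n)) = y ^ M * (qA F A * y * ∑ n ∈ range (2 * k), S n * y ^ n -
            ∑ n ∈ range (2 * k), S (n + 1) * y ^ (n + 1)) := by
      rw [mul_sum, mul_sum, ← sum_sub_distrib, mul_sum]
      refine sum_congr rfl fun n hn => ?_
      rw [mem_range] at hn
      rw [mul_mul_mul_comm, ← map_mul, fe_even' hF hm hs (n := n) hk (by omega), ← pow_add,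
        show 2 * k + (M - (2 * k - 1 - n)) = M + n + 1 by omega, map_sub, map_mul, map_natCast]
      simp only [hS]
      ring
    rw [hk, fe_K_even, hR]
    linear_combination (y ^ M * (1 - qA F A * y)) * hL + (y ^ M * (y - qA F A * y)) * hT
  · rw [hk, fe_K_odd, mul_left_comm (y ^ (M + 1))]
    congr 1
    rw [mul_sum, mul_sum]
    refine sum_congr rfl fun n hn => ?_
    rw [mem_range] at hn
    rw [mul_mul_mul_comm, ← map_mul, fe_odd' hF hm hs (n := n) hk (by omega), ← pow_add,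
      show 2 * k + 1 + (M - (2 * k + 1 - 1 - n)) = M + 1 + n by omega]
    ring

theorem fe_AA_recip (hF : ringChar F ≠ 2) {D : F[X]} (hD : D.Monic) (n : ℕ) :
    AA (jac D) n = eta F (-1) ^ (D.natDegree * n) * AA (fun f => jac f D) n := by
  rw [AA, AA, mul_sum]
  refine sum_congr rfl fun f hf => ?_
  rw [jac_recip hF hD (mem_monF.1 hf).1, (mem_monF.1 hf).2]

theorem AA_jac_vanish (hF : ringChar F ≠ 2) {D : F[X]} (hD : D.Monic) (hs : Squarefree D)
    (h0 : 0 < D.natDegree) {n : ℕ} (hn : D.natDegree ≤ n) : AA (jac D) n = 0 := by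
  rw [fe_AA_recip hF hD, AA_vanish hF hD hs h0 hn, mul_zero]

theorem Lt_trunc (hF : ringChar F ≠ 2) {D : F[X]} {g I : ℕ} (hD : D ∈ sqF F (2 * g + 1))
    (hI : 2 * g ≤ I) (z : A) : Lt (jac D) I z = Lt (jac D) (2 * g) z := by
  obtain ⟨h1, h2, h3⟩ := mem_sqF.1 hD
  exact fe_cut _ _ (by omega) fun j hj => AA_jac_vanish hF h1 h2 (by omega) (by omega)

theorem Lt_symm (hF : ringChar F ≠ 2) {D : F[X]} {g : ℕ} (hD : D ∈ sqF F (2 * g + 1))
    {u : ℂ} (hu : u ≠ 0) :
    Lt (jac D) (2 * g) u = (Q F * u ^ 2) ^ g * Lt (jac D) (2 * g) (Q F * u)⁻¹ := by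
  obtain ⟨h1, h2, h3⟩ := mem_sqF.1 hD
  rw [Lt, Lt, ← sum_range_reflect fun j => algebraMap ℂ ℂ (AA (jac D) j) * (Q F * u)⁻¹ ^ j,
    mul_sum]
  refine sum_congr rfl fun n hn => ?_
  rw [mem_range] at hn
  obtain ⟨j, hj⟩ : ∃ j, n + j = 2 * g := ⟨2 * g - n, by omega⟩
  have he : eta F (-1) ^ (D.natDegree * j) = eta F (-1) ^ (D.natDegree * n) := by
    have e1 : eta F (-1) ^ (D.natDegree * j) * (eta F (-1) ^ 2) ^ (D.natDegree * n) =
        eta F (-1) ^ (D.natDegree * n) * (eta F (-1) ^ 2) ^ (D.natDegree * g) := by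
      rw [← pow_mul, ← pow_mul, ← pow_add, ← pow_add]
      congr 1
      linear_combination D.natDegree * hj
    simpa only [eta_neg_one_sq, one_pow, mul_one] using e1
  have hp : (u ^ 2) ^ g = u ^ n * u ^ j := by rw [← pow_mul, ← pow_add, hj]
  have hj' : (u ^ j)⁻¹ * u ^ j = 1 := inv_mul_cancel₀ (pow_ne_zero _ hu)
  rw [show 2 * g + 1 - 1 - n = j by omega, fe_AA_recip hF h1, fe_AA_recip hF h1, he,
    ← fe_odd' hF h1 h2 h3 hj, mul_pow, hp, inv_pow, mul_pow, mul_inv]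
  simp only [Algebra.algebraMap_self, RingHom.id_apply]
  linear_combination (-(eta F (-1) ^ (D.natDegree * n) * (Q F : ℂ) ^ g * ((Q F : ℂ) ^ j)⁻¹ *
    AA (fun f => jac f D) j * u ^ n)) * hj'

theorem not_isSquare_of_mem {D : F[X]} {g : ℕ} (hD : D ∈ sqF F (2 * g + 1)) :
    ¬ IsSquare D := by
  obtain ⟨h1, -, h3⟩ := mem_sqF.1 hD
  rintro ⟨r, rfl⟩
  have hr : r ≠ 0 := left_ne_zero_of_mul h1.ne_zero
  rw [natDegree_mul hr hr] at h3
  omega

end Pool.Agent.MP_dd7250_nt
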