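import Mathlib
import Pool.Agent.MP_dd7250_nt.Jac

/- The method of Stepanov for hyperelliptic curves. -/

set_option autoImplicit false

namespace Pool.Agent.MP_dd7250_nt

open Polynomial Finset Pool.Agent.MP_d232b3_nt
open scoped Classical

section Aux

variable {K : Type*} [Field K]

theorem step_ne {ι : Type*} [Fintype ι] (g : ι → K[X]) (hg0 : ∀ i, g i ≠ 0) (θ : K)
    (hinj : Function.Injective fun i => rootMultiplicity θ (g i)) {e : ι → K} (he0 : e ≠ 0) :
    ∑ t, C (e t) * g t ≠ 0 := by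
  intro h0
  obtain ⟨t0, ht0⟩ := Function.ne_iff.1 he0
  obtain ⟨t, ht, hmin⟩ := exists_min_image (univ.filter fun i => e i ≠ 0)
    (fun i => rootMultiplicity θ (g i)) ⟨t0, mem_filter.2 ⟨mem_univ _, ht0⟩⟩
  have het : e t ≠ 0 := (mem_filter.1 ht).2
  rw [← add_sum_erase _ _ (mem_univ t), add_eq_zero_iff_eq_neg] at h0
  have h1 : (X - C θ) ^ (rootMultiplicity θ (g t) + 1) ∣ C (e t) * g t := by
    rw [h0, dvd_neg]
    refine dvd_sum fun i hi => ?_
    by_cases c : e i = 0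
    · simp [c]
    · refine Dvd.dvd.mul_left ((le_rootMultiplicity_iff (hg0 i)).1 ?_) _
      have h2 := hmin i (mem_filter.2 ⟨mem_univ _, c⟩)
      have h3 : rootMultiplicity θ (g i) ≠ rootMultiplicity θ (g t) :=
        fun h => ne_of_mem_erase hi (hinj h)
      omega
  rw [(isUnit_C.2 het.isUnit).dvd_mul_left] at h1
  have := (le_rootMultiplicity_iff (hg0 t)).2 h1
  omega

theorem step_aux {ι : Type*} [Fintype ι] (g : ι → K[X])
    (hne : ∀ e : ι → K, e ≠ 0 → ∑ t, C (e t) * g t ≠ 0) (Φ : ι → K[X][X]) {D M Dg : ℕ}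
    (hΦ : ∀ i, (Φ i).natDegree ≤ D) (hcard : (D + 1) * M < Fintype.card ι)
    (hDg : ∀ i, (g i).natDegree ≤ Dg) (Z : Finset K)
    (hZ : ∀ x ∈ Z, ∀ i, (X - C x) ^ M ∣ g i - ev x (Φ i)) : Z.card * M ≤ Dg := by
  let T : (ι → K) →ₗ[K] (Fin (D + 1) × Fin M → K) :=
    { toFun := fun e p => ∑ t, e t * ((Φ t).coeff p.1).coeff p.2
      map_add' := fun a b => by ext p; simp [add_mul, sum_add_distrib]
      map_smul' := fun c a => by ext p; simp [mul_sum, mul_assoc] }
  have hker : LinearMap.ker T ≠ ⊥ := LinearMap.ker_ne_bot_of_finrank_lt (by simpa using hcard)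
  obtain ⟨e, he, he0⟩ := Submodule.exists_mem_ne_zero_of_ne_bot hker
  rw [LinearMap.mem_ker] at he
  set R : K[X] := ∑ t, C (e t) * g t with hR
  have hR0 : R ≠ 0 := hne e he0
  have hRd : R.natDegree ≤ Dg :=
    natDegree_sum_le_of_forall_le _ _ fun t _ => (natDegree_C_mul_le _ _).trans (hDg t)
  set Ψ : K[X][X] := ∑ t, C (C (e t)) * Φ t with hΨ
  have hΨc : ∀ i, X ^ M ∣ Ψ.coeff i := by
    intro i
    rw [X_pow_dvd_iff]
    intro m hm
    simp only [hΨ, finsetSum_coeff, coeff_C_mul]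
    by_cases hi : i < D + 1
    · exact congr_fun he (⟨i, hi⟩, ⟨m, hm⟩)
    · refine sum_eq_zero fun t _ => ?_
      rw [coeff_eq_zero_of_natDegree_lt (p := Φ t) (by have := hΦ t; omega)]
      simp
  have hdiv : ∀ x ∈ Z, (X - C x) ^ M ∣ R := by
    intro x hx
    have h1 : (X - C x) ^ M ∣ ev x Ψ := by
      rw [ev, coe_eval₂RingHom, eval₂_eq_sum_range]
      refine dvd_sum fun i _ => Dvd.dvd.mul_right ?_ _
      obtain ⟨r, hr⟩ := hΨc i
      rw [hr]
      simp
    have h2 : R = ev x Ψ + ∑ t, C (e t) * (g t - ev x (Φ t)) := by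
      rw [hΨ, map_sum, ← sum_add_distrib]
      refine sum_congr rfl fun t _ => ?_
      rw [map_mul, ev_C_C]
      ring
    rw [h2]
    exact dvd_add h1 (dvd_sum fun t _ => (hZ x hx t).mul_left _)
  have hle : M • Z.val ≤ R.roots := by
    rw [Multiset.le_iff_count]
    intro x
    rw [Multiset.count_nsmul, count_roots]
    by_cases hx : x ∈ Z
    · rw [Multiset.count_eq_one_of_mem Z.nodup hx, mul_one]
      exact (le_rootMultiplicity_iff hR0).2 (hdiv x hx)
    · rw [Multiset.count_eq_zero_of_notMem hx]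
      simp
  have := (Multiset.card_le_card hle).trans ((card_roots' R).trans hRd)
  simpa [mul_comm] using this

theorem step_ev_map (x : K) (W : K[X]) : ev x (W.map C) = C (eval x W) := by
  induction W using Polynomial.induction_on' with
  | add a b ha hb => rw [Polynomial.map_add, map_add, ha, hb, eval_add, C_add]
  | monomial n a =>
    rw [← C_mul_X_pow_eq_monomial, Polynomial.map_mul, Polynomial.map_pow, map_C, map_X, map_mul,
      map_pow, ev_C_C, ev_X, eval_mul, eval_C, eval_pow, eval_X, C_mul, C_pow]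

theorem step_rm_pow (θ : K) {W : K[X]} (hW : W ≠ 0) (n : ℕ) :
    rootMultiplicity θ (W ^ n) = n * rootMultiplicity θ W := by
  induction n with
  | zero => simp
  | succ n ih => rw [pow_succ, rootMultiplicity_mul (mul_ne_zero (pow_ne_zero _ hW) hW), ih]; ring

theorem step_count {p : ℕ} [Fact p.Prime] [CharP K p] {n m : ℕ} (hm : p ^ n = 2 * m + 1)
    (hm2 : 2 ≤ m) {W : K[X]} (hW : W ≠ 0) {θ : K} (hθ : rootMultiplicity θ W = 1) (e : K)
    (Z : Finset K) (hZ : ∀ x ∈ Z, x ^ ((2 * m + 1) * (2 * m + 1)) = x ∧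
      eval x W ^ (2 * m * (m + 1)) = e) :
    2 * Z.card ≤ (2 * m + 1) * (2 * m + 1) + (4 * W.natDegree + 2) * (2 * m + 1) := by
  obtain ⟨d, hd⟩ : ∃ d, d = W.natDegree := ⟨_, rfl⟩
  obtain ⟨q0, hq0⟩ : ∃ t, t = 2 * m + 1 := ⟨_, rfl⟩
  rw [← hq0] at hm hZ
  have hX : (X - C θ : K[X]) ≠ 0 := X_sub_C_ne_zero θ
  let g : Fin (q0 * m) × Fin 2 × Fin (m + d + 1 + 1) → K[X] := fun i =>
    (X - C θ) ^ (i.1 : ℕ) * (W ^ (q0 * (m + 1))) ^ (i.2.1 : ℕ) *
      ((X - C θ) ^ (q0 * q0)) ^ (i.2.2 : ℕ)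
  let Φ : Fin (q0 * m) × Fin 2 × Fin (m + d + 1 + 1) → K[X][X] := fun i =>
    (X + C X - C (C θ)) ^ (i.1 : ℕ) * (C (C e) * (W.map C) ^ (m + 1)) ^ (i.2.1 : ℕ) *
      (X - C (C (θ ^ (q0 * q0)))) ^ (i.2.2 : ℕ)
  have hg1 : ∀ i : Fin (q0 * m) × Fin 2 × Fin (m + d + 1 + 1),
      (X - C θ) ^ (i.1 : ℕ) * (W ^ (q0 * (m + 1))) ^ (i.2.1 : ℕ) ≠ 0 := fun i =>
    mul_ne_zero (pow_ne_zero _ hX) (pow_ne_zero _ (pow_ne_zero _ hW))
  have hg0 : ∀ i, g i ≠ 0 := fun i => mul_ne_zero (hg1 i) (pow_ne_zero _ (pow_ne_zero _ hX))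
  have hrm : ∀ i, rootMultiplicity θ (g i) =
      i.1 + q0 * (m + 1) * i.2.1 + q0 * q0 * i.2.2 := fun i => by
    rw [rootMultiplicity_mul (hg0 i), rootMultiplicity_mul (hg1 i), ← pow_mul, ← pow_mul,
      rootMultiplicity_X_sub_C_pow, rootMultiplicity_X_sub_C_pow, step_rm_pow θ hW, hθ, mul_one]
  have key := step_aux g (fun e he => step_ne g hg0 θ ?_ he) Φ
    (D := q0 * m + d * (m + 1) + (m + d + 1)) (M := q0)
    (Dg := q0 * m + q0 * (m + 1) * d + q0 * q0 * (m + d + 1)) ?_ ?_ ?_ Z ?_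
  · have h1 : Z.card ≤ m + (m + 1) * d + q0 * (m + d + 1) := by
      refine Nat.le_of_mul_le_mul_right (key.trans_eq ?_) (by omega : 0 < q0)
      ring
    rw [← hd]
    rw [hq0] at h1
    nlinarith [Nat.zero_le (m * d)]
  · intro i i' h
    simp only [hrm] at h
    have e0 : q0 * q0 = q0 * m + q0 * (m + 1) := by rw [hq0]; ring
    have e1 : q0 * m ≤ q0 * (m + 1) := Nat.mul_le_mul_left _ (by omega)
    have lt : ∀ i : Fin (q0 * m) × Fin 2 × Fin (m + d + 1 + 1),
        (i.1 : ℕ) + q0 * (m + 1) * i.2.1 < q0 * q0 := fun i => by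
      have a1 := i.1.2
      have a2 : q0 * (m + 1) * (i.2.1 : ℕ) ≤ q0 * (m + 1) * 1 :=
        Nat.mul_le_mul_left _ (Nat.le_of_lt_succ i.2.1.2)
      omega
    have h1 : (i.1 : ℕ) + q0 * (m + 1) * i.2.1 = i'.1 + q0 * (m + 1) * i'.2.1 := by
      have := congrArg (· % (q0 * q0)) h
      simpa only [Nat.add_mul_mod_self_left, Nat.mod_eq_of_lt (lt i), Nat.mod_eq_of_lt (lt i')]
        using this
    have h2 : (i.1 : ℕ) = i'.1 := by
      have := congrArg (· % (q0 * (m + 1))) h1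
      simpa only [Nat.add_mul_mod_self_left, Nat.mod_eq_of_lt (i.1.2.trans_le e1),
        Nat.mod_eq_of_lt (i'.1.2.trans_le e1)] using this
    have hq : 0 < q0 := by omega
    rw [h1, add_right_inj, Nat.mul_right_inj (by positivity)] at h
    rw [h2, add_right_inj, Nat.mul_right_inj (by positivity)] at h1
    exact Prod.ext (Fin.ext h2) (Prod.ext (Fin.ext h1) (Fin.ext h))
  · intro i
    refine natDegree_mul_le.trans (add_le_add (natDegree_mul_le.trans (add_le_add ?_ ?_)) ?_)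
    · refine natDegree_pow_le.trans ?_
      rw [add_sub_assoc, ← C_sub, natDegree_X_add_C, mul_one]
      exact i.1.2.le
    · refine natDegree_pow_le.trans ?_
      have a1 : (C (C e) * (W.map C) ^ (m + 1) : K[X][X]).natDegree ≤ d * (m + 1) := by
        refine (natDegree_C_mul_le _ _).trans (natDegree_pow_le.trans ?_)
        rw [mul_comm, hd]
        exact Nat.mul_le_mul_right _ natDegree_map_le
      exact (Nat.mul_le_mul (Nat.le_of_lt_succ i.2.1.2) a1).trans_eq (one_mul _)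
    · refine natDegree_pow_le.trans ?_
      rw [natDegree_X_sub_C, mul_one]
      exact Nat.le_of_lt_succ i.2.2.2
  · simp only [Fintype.card_prod, Fintype.card_fin]
    calc _ < m * (2 * (m + d + 1 + 1)) * q0 := by
          refine Nat.mul_lt_mul_of_pos_right ?_ (by omega)
          rw [hq0]
          nlinarith [Nat.mul_le_mul_right d hm2]
      _ = _ := by ring
  · intro i
    refine natDegree_mul_le.trans (add_le_add (natDegree_mul_le.trans (add_le_add ?_ ?_)) ?_)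
    · rw [natDegree_pow, natDegree_X_sub_C, mul_one]
      exact i.1.2.le
    · rw [natDegree_pow, natDegree_pow, ← hd]
      exact (Nat.mul_le_mul_right _ (Nat.le_of_lt_succ i.2.1.2)).trans_eq (one_mul _)
    · rw [natDegree_pow, natDegree_pow, natDegree_X_sub_C, mul_one, mul_comm]
      exact Nat.mul_le_mul_left _ (Nat.le_of_lt_succ i.2.2.2)
  · intro x hx i
    obtain ⟨h1, h2⟩ := hZ x hx
    rw [← Ideal.mem_span_singleton, ← Ideal.Quotient.eq]
    obtain ⟨π, hπ⟩ : ∃ t, t = Ideal.Quotient.mk (Ideal.span {(X - C x) ^ q0}) := ⟨_, rfl⟩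
    rw [← hπ]
    have h4 : ∀ P : K[X], π (P ^ q0) = π (C (eval x P ^ q0)) := fun P => by
      rw [hπ, Ideal.Quotient.eq, Ideal.mem_span_singleton, C_pow, ← hm, ← sub_pow_char_pow]
      exact pow_dvd_pow_of_dvd (X_sub_C_dvd_sub_C_eval) _
    have h5 : π (W ^ (q0 * (m + 1))) = π (C e * C (eval x W) ^ (m + 1)) := by
      rw [pow_mul, map_pow, h4, ← map_pow, ← C_pow, ← C_pow, ← C_mul, ← h2, ← pow_mul, ← pow_add]
      congr 3
      rw [hq0]; ring
    have h6 : π ((X - C θ) ^ (q0 * q0)) = π (C x - C (θ ^ (q0 * q0))) := by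
      rw [pow_mul, pow_right_comm, map_pow, h4, ← map_pow, ← C_pow, ← C_sub, ← pow_mul, eval_sub,
        eval_X, eval_C]
      congr 2
      rw [← h1, ← hm, ← pow_add, sub_pow_char_pow, pow_add, hm, h1, h1]
    simp only [g, Φ, map_mul π, map_pow π _ (i.1 : ℕ), map_pow π _ (i.2.1 : ℕ),
      map_pow π _ (i.2.2 : ℕ), h5, h6, map_mul (ev x), map_pow (ev x), map_sub (ev x),
      map_add (ev x), ev_X, ev_C_X, ev_C_C, step_ev_map, add_sub_cancel]

end Aux

variable {F : Type*} [Field F] [Fintype F]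

theorem norm_SS_jac (hF : ringChar F ≠ 2) {W : F[X]} (hW : W.Monic) (hs : Squarefree W)
    (h0 : 0 < W.natDegree) :
    ∃ (c : ℝ) (s0 : ℕ), ∀ s ≥ s0, ‖SS (jac W) (2 * s)‖ ≤ c * (Q F : ℝ) ^ s := by
  obtain ⟨p, hp⟩ := CharP.exists F
  obtain ⟨e, hpp, he⟩ := FiniteField.card F p
  have : Fact p.Prime := ⟨hpp⟩
  have : CharP (KK F) p := charP_of_injective_algebraMap (algebraMap F (KK F)).injective p
  obtain ⟨W', hW'⟩ : ∃ t, t = W.map (algebraMap F (KK F)) := ⟨_, rfl⟩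
  have hm' : W'.Monic := hW' ▸ hW.map _
  have hd' : W'.natDegree = W.natDegree := by rw [hW', hW.natDegree_map]
  have hsep : W'.Separable := hW' ▸ (PerfectField.separable_iff_squarefree.2 hs).map
  obtain ⟨θ, hθ⟩ := IsAlgClosed.exists_root W'
    (natDegree_pos_iff_degree_pos.1 (hd' ▸ h0)).ne'
  have hθ1 : rootMultiplicity θ W' = 1 :=
    le_antisymm (rootMultiplicity_le_one_of_separable hsep θ)
      ((rootMultiplicity_pos hm'.ne_zero).2 hθ)
  have hev : ∀ x : KK F, eval x W' = aeval x W := fun x => by rw [hW', eval_map_algebraMap]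
  refine ⟨5 * W.natDegree + 2, 2, fun s hs2 => ?_⟩
  have hodd : Q F % 2 = 1 := FiniteField.odd_card_of_char_ne_two hF
  have hq1 : 1 < Q F := Fintype.one_lt_card
  obtain ⟨m, hm⟩ : Odd (Q F ^ s) := (Nat.odd_iff.2 hodd).pow
  have hm2 : 2 ≤ m := by
    have h1 : 3 ^ 2 ≤ Q F ^ 2 := Nat.pow_le_pow_left (by omega) 2
    have h2 : Q F ^ 2 ≤ Q F ^ s := Nat.pow_le_pow_right (by omega) hs2
    omega
  have hs0 : 2 * s ≠ 0 := by omega
  have hQQ : Q F ^ (2 * s) = (2 * m + 1) * (2 * m + 1) := by rw [two_mul s, pow_add, hm]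
  have hhalf : (Q F ^ (2 * s) - 1) / 2 = 2 * m * (m + 1) := by
    rw [hQQ, show (2 * m + 1) * (2 * m + 1) = 2 * (2 * m * (m + 1)) + 1 by ring]
    omega
  have hpm : p ^ ((e : ℕ) * s) = 2 * m + 1 := by rw [pow_mul, ← he, ← hm]
  have cnt : ∀ (ε : KK F) (Z : Finset (KK F)), Z ⊆ VV F (2 * s) →
      (∀ x ∈ Z, aeval x W ^ ((Q F ^ (2 * s) - 1) / 2) = ε) →
      2 * Z.card ≤ (2 * m + 1) * (2 * m + 1) + (4 * W.natDegree + 2) * (2 * m + 1) := by
    intro ε Z hZ h
    rw [← hd']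
    refine step_count hpm hm2 hm'.ne_zero hθ1 ε Z fun x hx => ⟨?_, ?_⟩
    · rw [← hQQ]; exact (mem_VV hs0).1 (hZ hx)
    · rw [hev, ← hhalf]; exact h x hx
  obtain ⟨V, hV⟩ : ∃ t, t = VV F (2 * s) := ⟨_, rfl⟩
  have hVc : V.card = (2 * m + 1) * (2 * m + 1) := by rw [hV, card_VV hs0, ← hQQ]
  have hx : ∀ x ∈ V, x ^ Q F ^ (2 * s) = x := fun x h => (mem_VV hs0).1 (hV ▸ h)
  obtain ⟨f, hf⟩ : ∃ t : KK F → ℂ, t = fun x => jac W (cc x (2 * s)) := ⟨_, rfl⟩
  have hfx : ∀ x, f x = jac W (cc x (2 * s)) := fun x => by rw [hf]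
  have c1 := cnt 1 (V.filter fun x => f x = 1) (hV ▸ filter_subset _ _) fun x h =>
    (jac_cc hF W (hx x (mem_filter.1 h).1) hs0).1 (hfx x ▸ (mem_filter.1 h).2)
  have c2 := cnt (-1) (V.filter fun x => f x = -1) (hV ▸ filter_subset _ _) fun x h =>
    (jac_cc hF W (hx x (mem_filter.1 h).1) hs0).2.1 (hfx x ▸ (mem_filter.1 h).2)
  have c0 : (V.filter fun x => f x = 0).card ≤ W.natDegree := by
    rw [← hd']
    refine card_le_degree_of_subset_roots fun x h => ?_
    have h' := mem_filter.1 (mem_def.2 h)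
    rw [mem_roots hm'.ne_zero, IsRoot.def, hev]
    exact (jac_cc hF W (hx x h'.1) hs0).2.2 (hfx x ▸ h'.2)
  have tri : ∀ x, f x = 0 ∨ f x = 1 ∨ f x = -1 := fun x => hfx x ▸ jac_tri _ _
  have n1 : (1 : ℂ) ≠ -1 := by norm_num
  have s1 : SS (jac W) (2 * s) = (((V.filter fun x => f x = 1).card : ℝ) -
      ((V.filter fun x => f x = -1).card : ℝ) : ℝ) := by
    rw [SS, ← hV, card_filter, card_filter]
    push_cast
    rw [← sum_sub_distrib]
    refine sum_congr rfl fun x _ => ?_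
    rw [← hfx]
    rcases tri x with h | h | h <;> simp [h, n1, n1.symm]
  have s2 : (V.filter fun x => f x = 1).card + (V.filter fun x => f x = -1).card +
      (V.filter fun x => f x = 0).card = V.card := by
    rw [card_filter, card_filter, card_filter, ← sum_add_distrib, ← sum_add_distrib,
      card_eq_sum_ones]
    refine sum_congr rfl fun x _ => ?_
    rcases tri x with h | h | h <;> simp [h, n1, n1.symm]
  have hq : (Q F : ℝ) ^ s = 2 * m + 1 := by exact_mod_cast hm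
  rw [s1, Complex.norm_real, Real.norm_eq_abs, hq]
  rw [hVc] at s2
  generalize (V.filter fun x => f x = 1).card = a at *
  generalize (V.filter fun x => f x = -1).card = b at *
  generalize (V.filter fun x => f x = 0).card = z at *
  generalize W.natDegree = d at *
  have r1 : (2 * a : ℝ) ≤ (2 * m + 1) * (2 * m + 1) + (4 * d + 2) * (2 * m + 1) := by
    exact_mod_cast c1
  have r2 : (2 * b : ℝ) ≤ (2 * m + 1) * (2 * m + 1) + (4 * d + 2) * (2 * m + 1) := by
    exact_mod_cast c2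
  have r0 : (z : ℝ) ≤ d := by exact_mod_cast c0
  have r3 : (a : ℝ) + b + z = (2 * m + 1) * (2 * m + 1) := by exact_mod_cast s2
  have r4 : (0 : ℝ) ≤ d * m := by positivity
  rw [abs_le]
  constructor <;> nlinarith

end Pool.Agent.MP_dd7250_nt
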