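import Mathlib
import Pool.Agent.MP_dd7250_nt.Step
import Pool.Agent.MP_dd7250_nt.FE

/- The Riemann hypothesis for quadratic characters and sums over primes. -/

set_option autoImplicit false

namespace Pool.Agent.MP_dd7250_nt

open Polynomial Finset Pool.Agent.MP_d232b3_nt
open scoped Classical

variable {F : Type*} [Field F] [Fintype F]

theorem weil_AA_zero {χ : F[X] → ℂ} (h : CM χ) : AA χ 0 = 1 := by
  have : monF F 0 = {1} := by
    ext f
    rw [mem_monF, mem_singleton]
    exact ⟨fun ⟨h1, h2⟩ => h1.natDegree_eq_zero.1 h2, fun h => by simp [h]⟩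
  rw [AA, this, sum_singleton, h.one]

theorem weil_sum_dvd {χ : F[X] → ℂ} (h : CM χ) {c : F[X]} (hc : c.Monic) {m : ℕ}
    (hm : c.natDegree ≤ m) :
    ∑ f ∈ monF F m, (if c ∣ f then χ f else 0) = χ c * AA χ (m - c.natDegree) := by
  rw [← sum_filter, AA, mul_sum]
  symm
  refine sum_nbij (fun g => c * g) ?_ ?_ ?_ ?_
  · intro g hg
    rw [mem_monF] at hg
    rw [mem_filter, mem_monF, hc.natDegree_mul hg.1, hg.2]
    exact ⟨⟨hc.mul hg.1, by omega⟩, dvd_mul_right _ _⟩
  · intro a _ b _ hab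
    exact mul_left_cancel₀ hc.ne_zero hab
  · intro f hf
    rw [coe_filter, Set.mem_ofPred_eq, mem_monF] at hf
    obtain ⟨⟨h1, h2⟩, g, rfl⟩ := hf
    have hg := hc.of_mul_monic_left h1
    refine ⟨g, ?_, rfl⟩
    rw [mem_coe, mem_monF]
    rw [hc.natDegree_mul hg] at h2
    exact ⟨hg, by omega⟩
  · intro g hg
    exact (h.mul _ _ hc (mem_monF.1 hg).1).symm

theorem weil_rec {χ : F[X] → ℂ} (h : CM χ) (m : ℕ) :
    (m : ℂ) * AA χ m = ∑ j ∈ Icc 1 m, SS χ j * AA χ (m - j) := by
  calc _ = ∑ f ∈ monF F m, ∑ j ∈ Icc 1 m, ∑ x ∈ VV F j, if cc x j ∣ f then χ f else 0 := by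
        rw [AA, mul_sum]
        refine sum_congr rfl fun f hf => ?_
        obtain ⟨h1, rfl⟩ := mem_monF.1 hf
        nth_rewrite 1 [← degree_count h1]
        rw [Nat.cast_sum, sum_mul]
        refine sum_congr rfl fun j _ => ?_
        rw [← sum_filter, sum_const, nsmul_eq_mul]
    _ = _ := by
        rw [sum_comm]
        refine sum_congr rfl fun j hj => ?_
        rw [mem_Icc] at hj
        rw [sum_comm, SS, sum_mul]
        refine sum_congr rfl fun x hx => ?_
        have hx' := (mem_VV (by omega)).1 hx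
        rw [weil_sum_dvd h (monic_cc x j) (by rw [natDegree_cc hx']; exact hj.2), natDegree_cc hx']

theorem weil_zeros {χ : F[X] → ℂ} (h : CM χ) {n : ℕ} (hn : ∀ m, n < m → AA χ m = 0)
    {c : ℝ} {s0 : ℕ} (hc : ∀ s ≥ s0, ‖SS χ (2 * s)‖ ≤ c * (Q F : ℝ) ^ s) {j : ℕ} (hj : j ≠ 0) :
    ‖SS χ j‖ ≤ n * qp F (j / 2) := by
  set R : ℂ[X] := ∑ i ∈ range (n + 1), monomial i (AA χ (n - i)) with hR
  have hRc : ∀ i, R.coeff i = if i ≤ n then AA χ (n - i) else 0 := by
    intro i
    simp [hR, coeff_monomial]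
  have hRd : R.natDegree ≤ n := natDegree_le_iff_coeff_eq_zero.2 fun i hi => by
    rw [hRc, if_neg (by omega)]
  have hRn : R.coeff n = 1 := by rw [hRc, if_pos le_rfl, Nat.sub_self, weil_AA_zero h]
  have hRm : R.Monic := monic_of_natDegree_le_of_coeff_eq_one n hRd hRn
  have hcard : R.roots.card = n := by
    rw [IsAlgClosed.card_roots_eq_natDegree]
    exact natDegree_eq_of_le_of_coeff_ne_zero hRd (by rw [hRn]; exact one_ne_zero)
  have h1 : ∀ m, PowerSeries.coeff m (PP R.roots) = AA χ m := by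
    intro m
    by_cases hm : m ≤ n
    · rw [coeff_PP _ (hcard ▸ hm), prod_multiset_X_sub_C_of_monic_of_roots_card_eq hRm
        IsAlgClosed.card_roots_eq_natDegree, hcard, hRc, if_pos (by omega)]
      congr 1
      omega
    · rw [coeff_PP_eq_zero _ (by omega), hn _ (by omega)]
  have h2 : PP R.roots * TT R.roots =
      PP R.roots * PowerSeries.mk fun j => if j = 0 then 0 else SS χ j := by
    rw [← X_deriv_PP]
    ext m
    rw [mul_comm (PP _), PowerSeries.coeff_mul _ (PowerSeries.mk _),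
      Finset.Nat.sum_antidiagonal_eq_sum_range_succ_mk, sum_range_succ']
    simp only [PowerSeries.coeff_mk, h1, if_true, zero_mul, add_zero, Nat.succ_ne_zero, if_false]
    have h3 := weil_rec h m
    rw [← Finset.Ico_add_one_right_eq_Icc, sum_Ico_eq_sum_range, Nat.add_sub_cancel] at h3
    simp only [add_comm 1] at h3
    rw [← h3]
    cases m with
    | zero => simp
    | succ m =>
      rw [PowerSeries.coeff_succ_X_mul, PowerSeries.coeff_derivative, h1]
      push_cast
      ring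
  have h3 : PP R.roots ≠ 0 := fun h0 => by simpa [h0] using constantCoeff_PP R.roots
  have h4 : ∀ j, j ≠ 0 → SS χ j = -(R.roots.map (· ^ j)).sum := by
    intro j hj
    have := congrArg (PowerSeries.coeff j) (mul_left_cancel₀ h3 h2)
    simpa [TT, hj] using this.symm
  have h7 : ∀ w ∈ R.roots, ‖w‖ ^ 2 ≤ Q F := by
    intro w hw
    set M := R.roots.map (· ^ 2) with hM
    have h5 : w ^ 2 ∈ M.toFinset := Multiset.mem_toFinset.2 (Multiset.mem_map_of_mem _ hw)
    rw [← norm_pow]
    refine norm_le_of_sum_pow_le (by exact_mod_cast Fintype.card_pos) (M.toFinset.erase (w ^ 2))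
      (notMem_erase _ _) (fun v => M.count v) c (s0 + 1) ?_ fun s hs => ?_
    · rw [insert_erase h5]
      intro v hv
      exact_mod_cast Multiset.count_ne_zero.2 (Multiset.mem_toFinset.1 hv)
    · rw [insert_erase h5]
      have h6 := hc s (by omega)
      rw [h4 _ (by omega), norm_neg] at h6
      refine le_of_eq_of_le ?_ h6
      have := Finset.sum_multiset_map_count M (· ^ s)
      simp only [nsmul_eq_mul] at this
      rw [← this, hM, Multiset.map_map]
      simp [pow_mul]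
  rw [h4 j hj, norm_neg]
  refine (norm_multiset_sum_le _).trans ((Multiset.sum_le_card_nsmul _ (qp F (j / 2)) ?_).trans_eq
    (by rw [Multiset.card_map, Multiset.card_map, hcard, nsmul_eq_mul]))
  intro y hy
  obtain ⟨z, hz, rfl⟩ := Multiset.mem_map.1 hy
  obtain ⟨w, hw, rfl⟩ := Multiset.mem_map.1 hz
  have h8 : ‖w‖ ≤ qp F (1 / 2) := by
    refine le_of_sq_le_sq ?_ (qp_pos _).le
    rw [qp_pow]
    norm_num
    rw [qp_one]
    exact h7 w hw
  rw [norm_pow, show (j : ℝ) / 2 = 1 / 2 * j by ring, ← qp_pow]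
  exact pow_le_pow_left₀ (norm_nonneg _) h8 _

theorem weil_full (χ : F[X] → ℂ) {d : ℕ} (hd : d ≠ 0) :
    ∑ x ∈ (VV F d).filter (fun x => (minpoly F x).natDegree = d), χ (cc x d) =
      d * ∑ P ∈ prD F d, χ P := by
  rw [← sum_fiberwise_of_maps_to (t := prD F d) (g := fun x => minpoly F x) fun x hx =>
    mem_prD.2 ⟨minpoly.monic (integral x), minpoly.irreducible (integral x), (mem_filter.1 hx).2⟩,
    mul_sum]
  refine sum_congr rfl fun P hP => ?_
  obtain ⟨h1, h2, h3⟩ := mem_prD.1 hP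
  have h4 : ((VV F d).filter fun x => (minpoly F x).natDegree = d).filter
      (fun x => minpoly F x = P) = (P.map (algebraMap F (KK F))).roots.toFinset := by
    ext x
    rw [mem_filter, mem_filter, mem_VV hd, fix_iff, Multiset.mem_toFinset,
      mem_roots (h1.map _).ne_zero, IsRoot.def, eval_map_algebraMap]
    refine ⟨fun h => h.2 ▸ minpoly.aeval F x, fun h => ?_⟩
    rw [← minpoly.eq_of_irreducible_of_monic h2 h h1, h3]
    exact ⟨⟨dvd_rfl, rfl⟩, rfl⟩
  rw [sum_congr rfl (g := fun _ => χ P), sum_const, nsmul_eq_mul, h4,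
    Multiset.toFinset_card_of_nodup (nodup_roots (PerfectField.separable_of_irreducible h2).map),
    IsAlgClosed.card_roots_eq_natDegree, h1.natDegree_map, h3]
  intro x hx
  rw [cc, (mem_filter.1 hx).2, h3, Nat.div_self (Nat.pos_of_ne_zero hd), pow_one]

theorem weil_rest {d : ℕ} (hd : d ≠ 0) :
    (((VV F d).filter fun x => ¬ (minpoly F x).natDegree = d).card : ℝ) ≤ d * qp F (d / 2) := by
  have h1 : ((VV F d).filter fun x => ¬ (minpoly F x).natDegree = d) ⊆
      d.properDivisors.biUnion (VV F) := by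
    intro x hx
    obtain ⟨h2, h3⟩ := mem_filter.1 hx
    rw [mem_VV hd, fix_iff] at h2
    refine mem_biUnion.2 ⟨_, Nat.mem_properDivisors.2 ⟨h2,
      lt_of_le_of_ne (Nat.le_of_dvd (Nat.pos_of_ne_zero hd) h2) h3⟩, ?_⟩
    rw [mem_VV (minpoly.natDegree_pos (integral x)).ne', fix_iff]
  have h2 : ∀ e ∈ d.properDivisors, ((VV F e).card : ℝ) ≤ qp F (d / 2) := by
    intro e he
    obtain ⟨⟨c, rfl⟩, h3⟩ := Nat.mem_properDivisors.1 he
    have h4 : e ≠ 0 := left_ne_zero_of_mul hd
    have h5 : 2 ≤ c := by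
      by_contra h
      have := Nat.mul_le_mul_left e (show c ≤ 1 by omega)
      omega
    rw [card_VV h4, Nat.cast_pow, ← qp_nat]
    refine qp_mono ?_
    rw [le_div_iff₀ two_pos]
    exact_mod_cast Nat.mul_le_mul_left e h5
  have h3 : d.properDivisors.card ≤ d :=
    (card_le_card fun e he => mem_range.2 (Nat.mem_properDivisors.1 he).2).trans_eq (card_range d)
  calc _ ≤ ((∑ e ∈ d.properDivisors, (VV F e).card : ℕ) : ℝ) :=
        Nat.cast_le.2 ((card_le_card h1).trans card_biUnion_le)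
    _ ≤ d.properDivisors.card • qp F (d / 2) := by
        rw [Nat.cast_sum]
        exact sum_le_card_nsmul _ _ _ h2
    _ ≤ _ := by
        rw [nsmul_eq_mul]
        exact mul_le_mul_of_nonneg_right (Nat.cast_le.2 h3) (qp_pos _).le

theorem weil_prD_zero : prD F 0 = ∅ :=
  eq_empty_of_forall_notMem fun _ hP => (deg_pos (mem_prD.1 hP).2.1).ne' (mem_prD.1 hP).2.2

theorem weil_sqfree (hF : ringChar F ≠ 2) {W : F[X]} (hW : W.Monic) (hs : Squarefree W)
    (h0 : 0 < W.natDegree) (d : ℕ) :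
    ‖∑ P ∈ prD F d, jac W P‖ ≤ W.natDegree * qp F (d / 2) := by
  have hq := (qp_pos (F := F) (d / 2)).le
  rcases eq_or_ne d 0 with rfl | hd
  · rw [weil_prD_zero, sum_empty, norm_zero]
    positivity
  obtain ⟨c, s0, hc⟩ := norm_SS_jac hF hW hs h0
  obtain ⟨n, hn⟩ : ∃ n, W.natDegree = n + 1 := ⟨W.natDegree - 1, by omega⟩
  have h1 := weil_zeros (jac_cm W) (n := n) (fun m hm => AA_jac_vanish hF hW hs h0 (by omega)) hc hd
  have h2 : ‖∑ x ∈ (VV F d).filter (fun x => ¬ (minpoly F x).natDegree = d), jac W (cc x d)‖ ≤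
      d * qp F (d / 2) := by
    refine (norm_sum_le _ _).trans ((sum_le_card_nsmul _ _ 1 fun x _ => norm_jac_le _ _).trans ?_)
    rw [nsmul_eq_mul, mul_one]
    exact weil_rest hd
  have h3 := sum_filter_add_sum_filter_not (VV F d) (fun x => (minpoly F x).natDegree = d)
    fun x => jac W (cc x d)
  rw [weil_full _ hd, ← eq_sub_iff_add_eq] at h3
  have h4 := (congrArg norm h3).trans_le ((norm_sub_le _ _).trans (add_le_add h1 h2))
  rw [norm_mul, Complex.norm_natCast] at h4
  have h5 : (1 : ℝ) ≤ d := by exact_mod_cast Nat.pos_of_ne_zero hd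
  refine le_of_mul_le_mul_left (h4.trans ?_) (zero_lt_one.trans_le h5)
  rw [hn]
  push_cast
  nlinarith [mul_le_mul_of_nonneg_right h5 (mul_nonneg (Nat.cast_nonneg (α := ℝ) n) hq)]

theorem weil_card {W : F[X]} (hW : W ≠ 0) (d : ℕ) :
    ((prD F d).filter fun P => P ∣ W).card ≤ W.natDegree := by
  set T := (prD F d).filter fun P => P ∣ W with hT
  have h1 : ∀ P ∈ T, P.Monic ∧ Irreducible P := fun P hP =>
    ⟨(mem_prD.1 (mem_filter.1 hP).1).1, (mem_prD.1 (mem_filter.1 hP).1).2.1⟩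
  have h2 : ∏ P ∈ T, P ∣ W := by
    refine Finset.prod_dvd_of_coprime (fun a ha b hb hab => ?_) fun P hP => (mem_filter.1 hP).2
    exact (h1 a ha).2.coprime_iff_not_dvd.2 fun h => hab (eq_of_monic_of_associated (h1 a ha).1
      (h1 b hb).1 ((h1 a ha).2.associated_of_dvd (h1 b hb).2 h))
  refine le_trans ?_ (natDegree_le_of_dvd h2 hW)
  rw [natDegree_prod_of_monic _ _ fun P hP => (h1 P hP).1, card_eq_sum_ones]
  exact sum_le_sum fun P hP => deg_pos (h1 P hP).2

theorem weil_one_le (d : ℕ) : 1 ≤ qp F (d / 2) :=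
  qp_zero.symm.trans_le (qp_mono (by positivity))

omit [Fintype F] in
theorem weil_decomp (n : ℕ) : ∀ W : F[X], W.Monic → W.natDegree ≤ n →
    ∃ U V : F[X], U.Monic ∧ Squarefree U ∧ W = U * (V * V) := by
  induction n using Nat.strong_induction_on with
  | _ n ih =>
  intro W hW hn
  by_cases hs : Squarefree W
  · exact ⟨W, 1, hW, hs, by simp⟩
  rw [Squarefree] at hs
  push Not at hs
  obtain ⟨x, ⟨y, hy⟩, hx⟩ := hs
  have hx0 : x ≠ 0 := by
    rintro rfl
    exact hW.ne_zero (by simpa using hy)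
  have hm := monic_mul_leadingCoeff_inv hx0
  set P := x * C x.leadingCoeff⁻¹ with hP
  have h1 : x = P * C x.leadingCoeff := by
    rw [hP, mul_assoc, ← C_mul, inv_mul_cancel₀ (leadingCoeff_ne_zero.2 hx0), C_1, mul_one]
  have h2 : W = P * P * (C x.leadingCoeff * C x.leadingCoeff * y) := by
    rw [hy]
    nth_rewrite 1 2 [h1]
    ring
  have h3 := (hm.mul hm).of_mul_monic_left (h2 ▸ hW)
  have h4 : P.natDegree ≠ 0 := fun h => hx (by
    rw [h1, hm.natDegree_eq_zero.1 h, one_mul]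
    exact isUnit_C.2 (leadingCoeff_ne_zero.2 hx0).isUnit)
  have h5 := congrArg natDegree h2
  rw [(hm.mul hm).natDegree_mul h3, hm.natDegree_mul hm] at h5
  obtain ⟨U, V, h6, h7, h8⟩ := ih _ (by omega) _ h3 le_rfl
  exact ⟨U, P * V, h6, h7, by rw [h2, h8]; ring⟩

theorem small_jac (hF : ringChar F ≠ 2) {W : F[X]} (hW : W.Monic) (hs : ¬ IsSquare W) :
    Small (jac W) (2 * W.natDegree + 2) := by
  refine ⟨norm_jac_le W, fun d => ?_⟩
  obtain ⟨U, V, hm, hUs, h2⟩ := weil_decomp _ W hW le_rfl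
  have hU0 : 0 < U.natDegree := Nat.pos_of_ne_zero fun h => hs ⟨V, by
    rw [h2, hm.natDegree_eq_zero.1 h, one_mul]⟩
  have hUW : U ∣ W := ⟨_, h2⟩
  have h3 := weil_sqfree hF hm hUs hU0 d
  have h4 : ‖∑ P ∈ prD F d, (jac W P - jac U P)‖ ≤ W.natDegree := by
    refine (norm_sum_le _ _).trans (le_trans (sum_le_sum (g := fun P => if P ∣ W then 1 else 0)
      fun P hP => ?_) ?_)
    · obtain ⟨h5, h6, -⟩ := mem_prD.1 hP
      have h7 : jac W P = jac U P * if P ∣ V * V then 0 else 1 := by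
        rw [h2, jac_mul_left hF _ _ h5, jac_of_isSquare ⟨V, rfl⟩ h5 h6]
      by_cases h8 : P ∣ V * V
      · rw [h7, if_pos h8, mul_zero, zero_sub, norm_neg, if_pos (h2 ▸ h8.mul_left U)]
        exact norm_jac_le _ _
      · rw [h7, if_neg h8, mul_one, sub_self, norm_zero]
        split_ifs <;> norm_num
    · rw [sum_boole]
      exact Nat.cast_le.2 (weil_card hW.ne_zero d)
  rw [sum_sub_distrib] at h4
  have h5 := norm_le_norm_add_norm_sub' (∑ P ∈ prD F d, jac W P) (∑ P ∈ prD F d, jac U P)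
  have h6 : (U.natDegree : ℝ) ≤ W.natDegree := Nat.cast_le.2 (natDegree_le_of_dvd hUW hW.ne_zero)
  have h7 := weil_one_le (F := F) d
  nlinarith [mul_le_mul_of_nonneg_right h6 (zero_le_one.trans h7),
    mul_le_mul_of_nonneg_left h7 (Nat.cast_nonneg (α := ℝ) W.natDegree)]

theorem small_dvd {W : F[X]} (hW : W.Monic) (S : Finset F[X]) :
    Small (fun P => if P ∣ W ∧ P ∉ S then 1 else 0) W.natDegree := by
  refine ⟨fun P => by dsimp only; split_ifs <;> simp, fun d => ?_⟩
  rw [sum_boole, Complex.norm_natCast]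
  refine le_trans (Nat.cast_le.2 ((card_le_card (monotone_filter_right _ fun P _ h => h.1)).trans
    (weil_card hW.ne_zero d))) (le_mul_of_one_le_right (Nat.cast_nonneg _) (weil_one_le d))

theorem small_zero : Small (fun _ : F[X] => 0) 0 := ⟨fun _ => by simp, fun _ => by simp⟩

end Pool.Agent.MP_dd7250_nt
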