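import Mathlib
import Pool.Agent.MP_dd7250_nt.Core

/- Convergent power series and the solution of the recurrence. -/

set_option autoImplicit false

namespace Pool.Agent.MP_dd7250_nt

open Polynomial Finset Pool.Agent.MP_d232b3_nt
open scoped Classical

variable {F : Type*} [Field F] [Fintype F]

theorem an2_coeff (z : ℂ) (f g : PowerSeries ℂ) (n : ℕ) :
    PowerSeries.coeff n (f * g) * z ^ n = ∑ p ∈ antidiagonal n,
      PowerSeries.coeff p.1 f * z ^ p.1 * (PowerSeries.coeff p.2 g * z ^ p.2) := by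
  rw [PowerSeries.coeff_mul, sum_mul]
  refine sum_congr rfl fun p hp => ?_
  rw [← mem_antidiagonal.1 hp]
  ring

theorem an2_step {δ Θ B : ℝ} (hδ : 0 < δ) (hΘ : 0 < Θ) {l : ℂ} (hl : (1 + δ) * Θ ≤ ‖l‖)
    {H : PowerSeries ℂ} (h : ∀ g, ‖PowerSeries.coeff g H‖ ≤ B * Θ ^ g) :
    ∃ (c : ℂ) (H1 : PowerSeries ℂ),
      H = PowerSeries.C c + (1 - PowerSeries.C l * PowerSeries.X) * H1 ∧
      ∀ g, ‖PowerSeries.coeff g H1‖ ≤ B / δ * Θ ^ g := by
  have hB : 0 ≤ B := by simpa using (norm_nonneg _).trans (h 0)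
  have hl0 : 0 < ‖l‖ := lt_of_lt_of_le (by positivity) hl
  have hl1 : l ≠ 0 := norm_pos_iff.1 hl0
  have hr0 : 0 ≤ (1 + δ)⁻¹ := by positivity
  have hr1 : (1 + δ)⁻¹ < 1 := inv_lt_one_of_one_lt₀ (by linarith)
  have hb : ∀ g j, ‖PowerSeries.coeff (j + (g + 1)) H * l⁻¹ ^ (j + 1)‖ ≤
      B * Θ ^ g * (1 + δ)⁻¹ * (1 + δ)⁻¹ ^ j := fun g j => by
    have h1 : Θ * ‖l‖⁻¹ ≤ (1 + δ)⁻¹ := by
      rw [mul_inv_le_iff₀ hl0, le_inv_mul_iff₀ (by positivity)]
      exact hl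
    have h2 := pow_le_pow_left₀ (by positivity) h1 (j + 1)
    rw [norm_mul, norm_pow, norm_inv]
    calc _ ≤ B * Θ ^ (j + (g + 1)) * ‖l‖⁻¹ ^ (j + 1) :=
          mul_le_mul_of_nonneg_right (h _) (by positivity)
      _ = B * Θ ^ g * (Θ * ‖l‖⁻¹) ^ (j + 1) := by ring
      _ ≤ B * Θ ^ g * (1 + δ)⁻¹ ^ (j + 1) := mul_le_mul_of_nonneg_left h2 (by positivity)
      _ = _ := by ring
  have hs : ∀ g, HasSum (fun j => B * Θ ^ g * (1 + δ)⁻¹ * (1 + δ)⁻¹ ^ j) (B / δ * Θ ^ g) :=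
    fun g => by
      have h1 := (hasSum_geometric_of_lt_one hr0 hr1).mul_left (B * Θ ^ g * (1 + δ)⁻¹)
      have h2 : 1 - (1 + δ)⁻¹ = δ / (1 + δ) := by
        field_simp
        ring
      have h3 : B * Θ ^ g * (1 + δ)⁻¹ * (1 - (1 + δ)⁻¹)⁻¹ = B / δ * Θ ^ g := by
        rw [h2]
        field_simp
      exact h3 ▸ h1
  have hsm : ∀ g, Summable fun j => PowerSeries.coeff (j + (g + 1)) H * l⁻¹ ^ (j + 1) :=
    fun g => Summable.of_norm_bounded (hs g).summable (hb g)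
  set u : ℕ → ℂ := fun g => -∑' j, PowerSeries.coeff (j + (g + 1)) H * l⁻¹ ^ (j + 1) with hu
  refine ⟨PowerSeries.coeff 0 H - u 0, PowerSeries.mk u, ?_, fun g => ?_⟩
  · ext n
    rw [sub_mul, one_mul, mul_assoc]
    cases n with
    | zero => simp
    | succ n =>
      rw [map_add, PowerSeries.coeff_C, if_neg n.succ_ne_zero, map_sub, PowerSeries.coeff_C_mul,
        PowerSeries.coeff_succ_X_mul, PowerSeries.coeff_mk, PowerSeries.coeff_mk]
      simp only [hu]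
      rw [(hsm n).tsum_eq_zero_add]
      have : ∀ j, PowerSeries.coeff (j + 1 + (n + 1)) H * l⁻¹ ^ (j + 1 + 1) =
          l⁻¹ * (PowerSeries.coeff (j + (n + 1 + 1)) H * l⁻¹ ^ (j + 1)) := fun j => by
        rw [show j + 1 + (n + 1) = j + (n + 1 + 1) by ring]
        ring
      simp only [this, tsum_mul_left, zero_add, pow_one]
      field_simp
      ring
  · rw [PowerSeries.coeff_mk, hu, norm_neg]
    exact tsum_of_norm_bounded (hs g) (hb g)

theorem Sm.mul {z : ℂ} {f g : PowerSeries ℂ} (hf : Sm z f) (hg : Sm z g) : Sm z (f * g) := by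
  have := summable_norm_sum_mul_antidiagonal_of_summable_norm hf hg
  simpa only [Sm, an2_coeff] using this

theorem evs_mul {z : ℂ} {f g : PowerSeries ℂ} (hf : Sm z f) (hg : Sm z g) :
    evs z (f * g) = evs z f * evs z g := by
  rw [evs, evs, evs, tsum_mul_tsum_eq_tsum_sum_antidiagonal_of_summable_norm hf hg]
  simp only [an2_coeff]

theorem Sm.add {z : ℂ} {f g : PowerSeries ℂ} (hf : Sm z f) (hg : Sm z g) : Sm z (f + g) := by
  refine Summable.of_nonneg_of_le (fun _ => norm_nonneg _) (fun n => ?_) (Summable.add hf hg)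
  rw [map_add, add_mul]
  exact norm_add_le _ _

theorem evs_add {z : ℂ} {f g : PowerSeries ℂ} (hf : Sm z f) (hg : Sm z g) :
    evs z (f + g) = evs z f + evs z g := by
  rw [evs, evs, evs, ← Summable.tsum_add hf.of_norm hg.of_norm]
  simp only [map_add, add_mul]

theorem Sm_coe (z : ℂ) (p : ℂ[X]) : Sm z (p : PowerSeries ℂ) := by
  refine summable_of_ne_finset_zero (s := range (p.natDegree + 1)) fun n hn => ?_
  rw [Polynomial.coeff_coe, coeff_eq_zero_of_natDegree_lt (by simpa using hn), zero_mul, norm_zero]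

theorem evs_coe (z : ℂ) (p : ℂ[X]) : evs z (p : PowerSeries ℂ) = p.eval z := by
  rw [evs, tsum_eq_sum (s := range (p.natDegree + 1)), eval_eq_sum_range]
  · simp only [Polynomial.coeff_coe]
  · intro n hn
    rw [Polynomial.coeff_coe, coeff_eq_zero_of_natDegree_lt (by simpa using hn), zero_mul]

theorem Sm_of_bound {z : ℂ} {f : PowerSeries ℂ} {B Θ : ℝ} (hΘ : 0 ≤ Θ) (hz : Θ * ‖z‖ < 1)
    (h : ∀ n, ‖PowerSeries.coeff n f‖ ≤ B * Θ ^ n) : Sm z f := by
  refine Summable.of_nonneg_of_le (fun _ => norm_nonneg _) (fun n => ?_)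
    ((summable_geometric_of_lt_one (by positivity) hz).mul_left B)
  rw [norm_mul, norm_pow, mul_pow, ← mul_assoc]
  exact mul_le_mul_of_nonneg_right (h n) (by positivity)

theorem Sm.hasSum {z : ℂ} {f : PowerSeries ℂ} (hf : Sm z f) :
    HasSum (fun n => PowerSeries.coeff n f * z ^ n) (evs z f) := by
  exact (Summable.of_norm hf).hasSum

theorem solve4 {δ : ℝ} (hδ : 0 < δ) : ∃ K : ℝ, ∀ (Θ B : ℝ) (l : Fin 4 → ℂ)
    (W H : PowerSeries ℂ), 0 < Θ → Function.Injective l → (∀ i, (1 + δ) * Θ ≤ ‖l i‖) →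
    (∏ i, (1 - PowerSeries.C (l i) * PowerSeries.X)) * W = H →
    (∀ g, ‖PowerSeries.coeff g H‖ ≤ B * Θ ^ g) → ∀ g, ‖PowerSeries.coeff g W -
      ∑ i, evs (l i)⁻¹ H / (∏ j ∈ univ.erase i, (1 - l j / l i)) * l i ^ g‖ ≤ K * B * Θ ^ g := by
  refine ⟨(δ ^ 4)⁻¹, fun Θ B l W H hΘ hl hΘl hW hH g => ?_⟩
  have hl0 : ∀ i, l i ≠ 0 := fun i => norm_pos_iff.1 (lt_of_lt_of_le (by positivity) (hΘl i))
  have hz : ∀ i, Θ * ‖(l i)⁻¹‖ < 1 := fun i => by
    rw [norm_inv, mul_inv_lt_iff₀ (norm_pos_iff.2 (hl0 i)), one_mul]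
    nlinarith [hΘl i]
  obtain ⟨c0, H1, e0, b1⟩ := an2_step hδ hΘ (hΘl 0) hH
  obtain ⟨c1, H2, e1, b2⟩ := an2_step hδ hΘ (hΘl 1) b1
  obtain ⟨c2, H3, e2, b3⟩ := an2_step hδ hΘ (hΘl 2) b2
  obtain ⟨c3, H4, e3, b4⟩ := an2_step hδ hΘ (hΘl 3) b3
  set φ : Fin 4 → ℂ[X] := fun i => 1 - C (l i) * X with hφ
  have hd : ∀ i, (φ i).natDegree ≤ 1 := fun i => by
    simp only [hφ]
    compute_degree
  have hc : ∀ i, ((φ i : ℂ[X]) : PowerSeries ℂ) = 1 - PowerSeries.C (l i) * PowerSeries.X :=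
    fun i => by simp [hφ]
  have hcp : ∀ s : Finset (Fin 4), ((∏ i ∈ s, φ i : ℂ[X]) : PowerSeries ℂ) =
      ∏ i ∈ s, (1 - PowerSeries.C (l i) * PowerSeries.X) := fun s => by
    rw [← Polynomial.coeToPowerSeries.ringHom_apply, map_prod]
    simp only [Polynomial.coeToPowerSeries.ringHom_apply, hc]
  set R : ℂ[X] := C c0 + φ 0 * (C c1 + φ 1 * (C c2 + φ 2 * C c3)) with hR
  have hRd : R.natDegree ≤ 3 := by
    simp only [hR, hφ]
    compute_degree
  have hHR : H = (R : PowerSeries ℂ) + ((∏ i, φ i : ℂ[X]) : PowerSeries ℂ) * H4 := by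
    rw [hcp, Fin.prod_univ_four, e0, e1, e2, e3, hR]
    simp only [Polynomial.coe_add, Polynomial.coe_mul, hc, Polynomial.coe_C]
    ring
  have hev : ∀ i, (φ i).eval (l i)⁻¹ = 0 := fun i => by simp [hφ, hl0 i]
  have hval : ∀ i, evs (l i)⁻¹ H = R.eval (l i)⁻¹ := fun i => by
    have h4 := Sm_of_bound hΘ.le (hz i) b4
    rw [hHR, evs_add (Sm_coe _ _) ((Sm_coe _ _).mul h4), evs_mul (Sm_coe _ _) h4, evs_coe,
      evs_coe, eval_prod, prod_eq_zero (mem_univ i) (hev i), zero_mul, add_zero]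
  set c : Fin 4 → ℂ := fun i => evs (l i)⁻¹ H / ∏ j ∈ univ.erase i, (1 - l j / l i) with hcc
  have hRS : R = ∑ i, C (c i) * ∏ j ∈ univ.erase i, φ j := by
    refine eq_of_natDegree_lt_card_of_eval_eq _ _ (f := fun i => (l i)⁻¹)
      (fun i j h => hl (inv_injective h)) (fun k => ?_) ?_
    · rw [eval_finsetSum, sum_eq_single k]
      · have hne : ∏ j ∈ univ.erase k, (1 - l j / l k) ≠ 0 := prod_ne_zero_iff.2 fun j hj h =>
          (mem_erase.1 hj).1 (hl ((div_eq_one_iff_eq (hl0 k)).1 (sub_eq_zero.1 h).symm))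
        rw [eval_mul, eval_C, eval_prod, ← hval, hcc]
        simp only [hφ, eval_sub, eval_one, eval_mul, eval_C, eval_X, ← div_eq_mul_inv]
        rw [div_mul_cancel₀ _ hne]
      · intro i _ hik
        rw [eval_mul, eval_prod, prod_eq_zero (mem_erase.2 ⟨hik.symm, mem_univ k⟩) (hev k),
          mul_zero]
      · simp
    · rw [Fintype.card_fin, max_lt_iff]
      refine ⟨by omega, Nat.lt_succ_of_le (natDegree_sum_le_of_forall_le _ _ fun i _ => ?_)⟩
      refine (natDegree_C_mul_le _ _).trans ((natDegree_prod_le _ _).trans ?_)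
      refine (sum_le_card_nsmul _ _ 1 fun j _ => hd j).trans ?_
      simp
  have hΦ : (∏ i, (1 - PowerSeries.C (l i) * PowerSeries.X) : PowerSeries ℂ) ≠ 0 := by
    refine prod_ne_zero_iff.2 fun i _ h => ?_
    have := geo_mul (l i)
    rw [h, mul_zero] at this
    exact zero_ne_one this
  have hWe : W = ∑ i, PowerSeries.C (c i) * geo (l i) + H4 := by
    refine mul_left_cancel₀ hΦ ?_
    rw [hW, hHR, mul_add, hcp, hRS, mul_sum, ← Polynomial.coeToPowerSeries.ringHom_apply, map_sum]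
    congr 1
    refine sum_congr rfl fun i _ => ?_
    rw [Polynomial.coeToPowerSeries.ringHom_apply, Polynomial.coe_mul, Polynomial.coe_C, hcp,
      ← mul_prod_erase univ _ (mem_univ i)]
    linear_combination (-(PowerSeries.C (c i) *
      ∏ j ∈ univ.erase i, (1 - PowerSeries.C (l j) * PowerSeries.X))) * geo_mul (l i)
  have hg : PowerSeries.coeff g W - ∑ i, c i * l i ^ g = PowerSeries.coeff g H4 := by
    rw [hWe, map_add, map_sum]
    simp [geo]
  rw [hg]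
  refine (b4 g).trans_eq ?_
  field_simp

end Pool.Agent.MP_dd7250_nt
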