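import Mathlib
import Pool.Agent.MP_dd7250_nt.Euler
import Pool.Agent.MP_dd7250_nt.FE

/- Expansion of the ratio and the sum over squarefree D. -/

set_option autoImplicit false

namespace Pool.Agent.MP_dd7250_nt

open Polynomial Finset Pool.Agent.MP_d232b3_nt
open scoped Classical

variable {F : Type*} [Field F] [Fintype F]
variable {A : Type*} [CommRing A] [Algebra ℂ A]

omit [Algebra ℂ A] in
theorem form1_nil {M d : ℕ} {z : A} (hz : z ^ (M + 1) = 0) (hd : 0 < d) :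
    ((z ^ d) ^ 2) ^ (M + 1) = 0 := by
  rw [← pow_mul z, ← pow_mul z, mul_comm, pow_mul, hz, zero_pow (by omega)]

theorem form1_gam {M d : ℕ} {z : A} (hz : z ^ (M + 1) = 0) (hd : 0 < d) :
    gam M ((z ^ d) ^ 2) * (1 - (z ^ d) ^ 2) = 1 := gam_mul (form1_nil hz hd)

theorem form1_local {M : ℕ} {a : Fin 4 → A} {x : ℂ} (hx : x = 0 ∨ x = 1 ∨ x = -1)
    (h0 : gam M (a 0 ^ 2) * (1 - a 0 ^ 2) = 1) (h1 : gam M (a 1 ^ 2) * (1 - a 1 ^ 2) = 1) :
    (1 - algebraMap ℂ A x * a 2) * (1 - algebraMap ℂ A x * a 3) =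
      (1 - algebraMap ℂ A x * a 0) * (1 - algebraMap ℂ A x * a 1) *
        (algebraMap ℂ A x * Od M a + (1 + algebraMap ℂ A x ^ 2 * Ev M a)) := by
  have h : gam M (a 0 ^ 2) * gam M (a 1 ^ 2) * ((1 - a 0 ^ 2) * (1 - a 1 ^ 2)) = 1 := by
    linear_combination (gam M (a 1 ^ 2) * (1 - a 1 ^ 2)) * h0 + h1
  rcases hx with rfl | rfl | rfl
  · simp
  · rw [map_one, Od, Ev]
    linear_combination (-((1 - a 2) * (1 - a 3))) * h
  · rw [map_neg, map_one, Od, Ev]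
    linear_combination (-((1 + a 2) * (1 + a 3))) * h

theorem expand_ratio (D : F[X]) {M I : ℕ} (hI : M ≤ I) {U : Fin 4 → A}
    (hU : ∀ i, U i ^ (M + 1) = 0) :
    Lt (jac D) I (U 0) * Lt (jac D) I (U 1) * (Li (jac D) I (U 2) * Li (jac D) I (U 3)) =
      ∑ S₀ ∈ (pr F M).powerset, ∑ S₁ ∈ (pr F M \ S₀).powerset,
        (∏ P ∈ S₀, Od M (pw U P.natDegree)) * (∏ P ∈ S₁, Ev M (pw U P.natDegree)) *
          algebraMap ℂ A ((∏ P ∈ S₀, jac D P) * ∏ P ∈ S₁, jac D P ^ 2) := by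
  have e0 := Lt_mul_prod (jac_cm D) hI (hU 0)
  have e1 := Lt_mul_prod (jac_cm D) hI (hU 1)
  have key : (∏ P ∈ pr F M, (1 - algebraMap ℂ A (jac D P) * U 2 ^ P.natDegree)) *
      (∏ P ∈ pr F M, (1 - algebraMap ℂ A (jac D P) * U 3 ^ P.natDegree)) =
      (∏ P ∈ pr F M, (1 - algebraMap ℂ A (jac D P) * U 0 ^ P.natDegree)) *
      (∏ P ∈ pr F M, (1 - algebraMap ℂ A (jac D P) * U 1 ^ P.natDegree)) *
      ∏ P ∈ pr F M, (algebraMap ℂ A (jac D P) * Od M (pw U P.natDegree) +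
        (1 + algebraMap ℂ A (jac D P) ^ 2 * Ev M (pw U P.natDegree))) := by
    rw [← prod_mul_distrib, ← prod_mul_distrib, ← prod_mul_distrib]
    refine prod_congr rfl fun P hP => ?_
    have hd := deg_pos (mem_pr.1 hP).2.1
    exact form1_local (a := pw U P.natDegree) (jac_tri D P) (form1_gam (hU 0) hd)
      (form1_gam (hU 1) hd)
  rw [Li_eq_prod (jac_cm D) hI (hU 2), Li_eq_prod (jac_cm D) hI (hU 3), key]
  have e2 : ∀ a b c d e : A, a * c = 1 → b * d = 1 → a * b * (c * d * e) = e := by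
    intro a b c d e h1 h2
    linear_combination (b * d * e) * h1 + e * h2
  rw [e2 _ _ _ _ _ e0 e1, prod_add]
  refine sum_congr rfl fun S₀ _ => ?_
  rw [prod_one_add, mul_sum]
  refine sum_congr rfl fun S₁ _ => ?_
  simp only [prod_mul_distrib, map_mul, map_prod, map_pow]
  ring

omit [Fintype F] in
theorem form1_dvd {P R : F[X]} (hP : P.Monic) (hP' : Irreducible P) (hR : R.Monic)
    (hR' : Irreducible R) : P ∣ R ↔ P = R :=
  ⟨fun h => eq_of_monic_of_associated hP hR (hP'.associated_of_dvd hR' h), fun h => h ▸ dvd_rfl⟩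

theorem form1_sq_prod {I : ℕ} {S : Finset F[X]} (hS : S ⊆ pr F I) {R : F[X]}
    (hR : R ∈ pr F I) : ∏ P ∈ S, jac R P ^ 2 = if R ∈ S then 0 else 1 := by
  have h : ∀ P ∈ S, jac R P ^ 2 = if P = R then 0 else 1 := fun P hP => by
    have h1 := mem_pr.1 (hS hP)
    have h2 := mem_pr.1 hR
    rw [jac_sq_prime R h1.1 h1.2.1]
    simp only [form1_dvd h1.1 h1.2.1 h2.1 h2.2.1]
  rw [prod_congr rfl h]
  split_ifs with hm
  · exact prod_eq_zero hm (if_pos rfl)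
  · exact prod_eq_one fun P hP => if_neg fun e : P = R => hm (e ▸ hP)

theorem sieve_gen (hF : ringChar F ≠ 2) {I : ℕ} {S₀ S₁ : Finset F[X]} (h0 : S₀ ⊆ pr F I)
    (h1 : S₁ ⊆ pr F I \ S₀) {y : A} (hy : y ^ (I + 1) = 0) :
    ∑ N ∈ range (I + 1), y ^ N * algebraMap ℂ A
        (∑ D ∈ sqF F N, (∏ P ∈ S₀, jac D P) * ∏ P ∈ S₁, jac D P ^ 2) =
      (1 - qA F A * y ^ 2) * Lt (fun f => jac f (∏ P ∈ S₀, P)) I y *
        ((∏ P ∈ S₀, rho I y P.natDegree) * ∏ P ∈ S₁, rho I y P.natDegree *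
          (1 - algebraMap ℂ A (jac P (∏ P ∈ S₀, P)) * y ^ P.natDegree)) := by
  have h1' : S₁ ⊆ pr F I := h1.trans sdiff_subset
  have m0 : ∀ P ∈ S₀, P.Monic := fun P hP => (mem_pr.1 (h0 hP)).1
  have m1 : ∀ P ∈ S₁, P.Monic := fun P hP => (mem_pr.1 (h1' hP)).1
  have hcm : CM fun D : F[X] => (∏ P ∈ S₀, jac D P) * ∏ P ∈ S₁, jac D P ^ 2 := by
    constructor
    · rw [prod_eq_one fun P hP => jac_one_left (m0 P hP),
        prod_eq_one fun P hP => by rw [jac_one_left (m1 P hP), one_pow], one_mul]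
    · intro f g _ _
      have a0 : ∏ P ∈ S₀, jac (f * g) P = (∏ P ∈ S₀, jac f P) * ∏ P ∈ S₀, jac g P := by
        rw [← prod_mul_distrib]
        exact prod_congr rfl fun P hP => jac_mul_left hF f g (m0 P hP)
      have a1 : ∏ P ∈ S₁, jac (f * g) P ^ 2 =
          (∏ P ∈ S₁, jac f P ^ 2) * ∏ P ∈ S₁, jac g P ^ 2 := by
        rw [← prod_mul_distrib]
        exact prod_congr rfl fun P hP => by rw [jac_mul_left hF f g (m1 P hP), mul_pow]
      rw [a0, a1]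
      ring
  have hm : (∏ P ∈ S₀, P).Monic := monic_prod_of_monic _ _ m0
  have e0 := Lt_mul_prod (jac_cm_left hF hm) le_rfl hy
  have hy2 : (y ^ 2) ^ (I + 1) = 0 := by
    have := form1_nil hy Nat.one_pos
    rwa [pow_one] at this
  have key : (∏ P ∈ pr F I, (1 + algebraMap ℂ A ((∏ R ∈ S₀, jac P R) * ∏ R ∈ S₁, jac P R ^ 2) *
      y ^ P.natDegree)) * ∏ P ∈ pr F I, (1 - algebraMap ℂ A (jac P (∏ P ∈ S₀, P)) *
        y ^ P.natDegree) = (∏ P ∈ pr F I, (1 - (y ^ 2) ^ P.natDegree)) *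
      ((∏ P ∈ pr F I, if P ∈ S₀ then rho I y P.natDegree else 1) *
        ∏ P ∈ pr F I, if P ∈ S₁ then rho I y P.natDegree *
          (1 - algebraMap ℂ A (jac P (∏ P ∈ S₀, P)) * y ^ P.natDegree) else 1) := by
    rw [← prod_mul_distrib, ← prod_mul_distrib, ← prod_mul_distrib]
    refine prod_congr rfl fun P hP => ?_
    have hr : rho I y P.natDegree * (1 - (y ^ P.natDegree) ^ 2) = 1 :=
      form1_gam hy (deg_pos (mem_pr.1 hP).2.1)
    have hx : jac P (∏ R ∈ S₀, R) ^ 2 = if P ∈ S₀ then 0 else 1 := by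
      rw [(jac_cm P).prod S₀ m0, ← prod_pow, form1_sq_prod h0 hP]
    rw [← (jac_cm P).prod S₀ m0, form1_sq_prod h1' hP, pow_right_comm]
    by_cases p0 : P ∈ S₀
    · have p1 : P ∉ S₁ := fun h => (mem_sdiff.1 (h1 h)).2 p0
      rw [if_pos p0] at hx
      rw [pow_eq_zero_iff two_ne_zero |>.1 hx, if_pos p0, if_neg p1, if_neg p1, zero_mul, map_zero]
      linear_combination -hr
    · rw [if_neg p0] at hx
      rw [if_neg p0]
      by_cases p1 : P ∈ S₁
      · rw [if_pos p1, if_pos p1, mul_zero, map_zero]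
        linear_combination
          (-(1 - algebraMap ℂ A (jac P (∏ R ∈ S₀, R)) * y ^ P.natDegree)) * hr
      · have hx' : algebraMap ℂ A (jac P (∏ R ∈ S₀, R)) ^ 2 = 1 := by
          rw [← map_pow, hx, map_one]
        rw [if_neg p1, if_neg p1, mul_one]
        linear_combination (-(y ^ P.natDegree) ^ 2) * hx'
  rw [prod_zeta hy2, prod_ite_mem, prod_ite_mem, inter_eq_right.2 h0, inter_eq_right.2 h1'] at key
  rw [sqF_gen hcm hy]
  have e2 : ∀ a b c d e : A, a * b = 1 → c * b = d * e → c = d * a * e := by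
    intro a b c d e h1 h2
    linear_combination a * h2 - c * h1
  exact e2 _ _ _ _ _ e0 key

theorem dvd_Od {t : A} {U : Fin 4 → A} (hU : ∀ i, t ∣ U i) (M d : ℕ) :
    t ^ d ∣ Od M (pw U d) := by
  have h : ∀ i, t ^ d ∣ pw U d i := fun i => pow_dvd_pow_of_dvd (hU i) d
  refine Dvd.dvd.mul_left ?_ _
  exact ((((h 0).add (h 1)).sub ((h 2).add (h 3))).sub (((h 2).add (h 3)).mul_left _)).add
    (((h 0).add (h 1)).mul_left _)

theorem form1_k (d : ℕ) : algebraMap ℂ A (1 + ((Q F : ℂ) ^ d)⁻¹)⁻¹ *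
    (1 + algebraMap ℂ A ((Q F : ℂ) ^ d)⁻¹) = 1 := by
  have h : (1 + ((Q F : ℂ) ^ d)⁻¹) ≠ 0 := by
    have h1 : (0 : ℝ) < 1 + ((Q F : ℝ) ^ d)⁻¹ := by positivity
    have h2 := Complex.ofReal_ne_zero.2 h1.ne'
    push_cast at h2
    exact h2
  rw [← map_one (algebraMap ℂ A), ← map_add, ← map_mul, inv_mul_cancel₀ h]

theorem prod_BP {M : ℕ} {U : Fin 4 → A} (hU : ∀ i, U i ^ (M + 1) = 0) :
    (1 - qA F A * U 0 ^ 2) * (1 - qA F A * U 1 ^ 2) * (1 - qA F A * (U 0 * U 1)) *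
      ∏ P ∈ pr F M, (1 + algebraMap ℂ A (1 + ((Q F : ℂ) ^ P.natDegree)⁻¹)⁻¹ *
        Ev M (pw U P.natDegree)) = ∏ P ∈ pr F M, BP F P.natDegree (pw U P.natDegree) := by
  have h2 : ∀ i, (U i ^ 2) ^ (M + 1) = 0 := fun i => by
    have := form1_nil (hU i) Nat.one_pos
    rwa [pow_one] at this
  have h3 : (U 0 * U 1) ^ (M + 1) = 0 := by rw [mul_pow, hU 0, zero_mul]
  rw [← prod_zeta (h2 0), ← prod_zeta (h2 1), ← prod_zeta h3, ← prod_mul_distrib,
    ← prod_mul_distrib, ← prod_mul_distrib]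
  refine prod_congr rfl fun P hP => ?_
  have hd := deg_pos (mem_pr.1 hP).2.1
  have g0 := form1_gam (hU 0) hd
  have g1 := form1_gam (hU 1) hd
  have hk := form1_k (F := F) (A := A) P.natDegree
  rw [pow_right_comm (U 0), pow_right_comm (U 1), mul_pow, BP, Ev]
  simp only [pw]
  generalize algebraMap ℂ A (1 + ((Q F : ℂ) ^ P.natDegree)⁻¹)⁻¹ = k at *
  generalize algebraMap ℂ A ((Q F : ℂ) ^ P.natDegree)⁻¹ = p at *
  generalize U 0 ^ P.natDegree = a at *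
  generalize U 1 ^ P.natDegree = b at *
  generalize U 2 ^ P.natDegree = c at *
  generalize U 3 ^ P.natDegree = e at *
  generalize gam M (a ^ 2) = ga at *
  generalize gam M (b ^ 2) = gb at *
  linear_combination (k * (1 + a * b + c * e - (a + b) * (c + e) + a * b * (c * e)) * (1 - a * b)) *
    ((gb * (1 - b ^ 2)) * g0 + g1) - ((1 - a ^ 2) * (1 - b ^ 2) * (1 - a * b)) * hk

end Pool.Agent.MP_dd7250_nt
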