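import Mathlib
import Pool.Agent.MP_dd7250_nt.Form1

/- The decomposition of the generating function. -/

set_option autoImplicit false
set_option maxHeartbeats 400000

namespace Pool.Agent.MP_dd7250_nt

open Polynomial Finset Pool.Agent.MP_d232b3_nt
open scoped Classical

variable {F : Type*} [Field F] [Fintype F]
variable {A : Type*} [CommRing A] [Algebra ℂ A]

theorem form2_swap {ι B : Type*} [DecidableEq ι] [CommRing B] (T : Finset ι) (o x z : ι → B)
    (c : Finset ι → B) (j : ι → Finset ι → B) (k : Finset ι → ι → B)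
    (h : ∀ S ⊆ T, ∀ e ⊆ T, c S * ∏ P ∈ e, j P S = ∏ P ∈ S, k e P) :
    ∑ S ∈ T.powerset, (∏ P ∈ S, o P) * c S * ∏ P ∈ T \ S, (z P * j P S + x P) =
      ∑ e ∈ T.powerset, (∏ P ∈ e, z P) * ∏ P ∈ T \ e, (x P + k e P * o P) := by
  simp only [add_comm (x _), prod_add, mul_sum]
  rw [sum_comm' (s' := fun e => (T \ e).powerset) (t' := T.powerset)]
  · refine sum_congr rfl fun e he => sum_congr rfl fun S hS => ?_
    rw [mem_powerset] at he hS
    rw [prod_mul_distrib, prod_mul_distrib, ← h S (hS.trans sdiff_subset) e he,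
      sdiff_sdiff_comm]
    ring
  · intro S e
    simp only [mem_powerset, subset_sdiff]
    exact ⟨fun ⟨h1, h2, h3⟩ => ⟨⟨h1, h3.symm⟩, h2⟩, fun ⟨⟨h1, h3⟩, h2⟩ => ⟨h1, h2, h3.symm⟩⟩

theorem form2_Zs (hF : ringChar F ≠ 2) {M I : ℕ} (hI : M ≤ I) {y : A} {U : Fin 4 → A}
    (hU : ∀ i, U i ^ (M + 1) = 0) (hy : y ^ (I + 1) = 0) :
    Zs F I U y = (1 - qA F A * y ^ 2) * ∑ S ∈ (pr F M).powerset,
      (∏ P ∈ S, Od M (pw U P.natDegree) * rho I y P.natDegree) *
        Lt (fun f => jac f (∏ P ∈ S, P)) I y * ∏ P ∈ pr F M \ S,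
          (lE M I U y P.natDegree * algebraMap ℂ A (jac P (∏ P ∈ S, P)) +
            (1 + Ev M (pw U P.natDegree) * rho I y P.natDegree)) := by
  rw [Zs]
  simp only [expand_ratio _ hI hU]
  rw [mul_sum]
  simp only [mul_sum]
  simp only [sum_comm (s := sqF F _) (t := (pr F M).powerset)]
  rw [sum_comm]
  refine sum_congr rfl fun S hS => ?_
  rw [mem_powerset] at hS
  have h1 : ∀ P ∈ pr F M \ S, lE M I U y P.natDegree * algebraMap ℂ A (jac P (∏ P ∈ S, P)) +
      (1 + Ev M (pw U P.natDegree) * rho I y P.natDegree) =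
      1 + Ev M (pw U P.natDegree) * (rho I y P.natDegree *
        (1 - algebraMap ℂ A (jac P (∏ P ∈ S, P)) * y ^ P.natDegree)) := by
    intro P _
    rw [lE]
    ring
  rw [prod_congr rfl h1, prod_one_add, mul_sum, mul_sum]
  simp only [sum_comm (s := sqF F _) (t := (pr F M \ S).powerset)]
  rw [sum_comm]
  refine sum_congr rfl fun S₁ hS₁ => ?_
  rw [mem_powerset] at hS₁
  have h2 := sieve_gen hF (hS.trans (pr_mono hI))
    (hS₁.trans (sdiff_subset_sdiff (pr_mono hI) Subset.rfl)) hy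
  rw [prod_mul_distrib, prod_mul_distrib]
  calc _ = (∏ P ∈ S, Od M (pw U P.natDegree)) * (∏ P ∈ S₁, Ev M (pw U P.natDegree)) *
        ∑ N ∈ range (I + 1), y ^ N * algebraMap ℂ A
          (∑ D ∈ sqF F N, (∏ P ∈ S, jac D P) * ∏ P ∈ S₁, jac D P ^ 2) := by
        rw [mul_sum]
        refine sum_congr rfl fun N _ => ?_
        rw [map_sum, mul_sum, mul_sum]
        exact sum_congr rfl fun D _ => by ring
    _ = _ := by rw [h2]; ring

theorem form2_all (hF : ringChar F ≠ 2) {M I : ℕ} (hI : M ≤ I) {t y : A} {U : Fin 4 → A}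
    (hU : ∀ i, t ∣ U i) (ht : t ^ (M + 1) = 0) (hy : y ^ (I + 1) = 0) :
    y ^ (M + 1) * ((1 - qA F A * y) * Zs F I U y) = (1 - qA F A * y ^ 2) *
      ((∑ σ ∈ ({1, -1} : Finset ℂ), kap F σ y * ∑ V ∈ monLe F M,
        ∑ e ∈ (pr F M).powerset, wV F M y V * ((∏ P ∈ e, lE M I U y P.natDegree) *
          ∏ P ∈ pr F M \ e, lO M I U y σ (V * ∏ P ∈ e, P) P)) + Pd F M I U y) := by
  have hU' : ∀ i, U i ^ (M + 1) = 0 := fun i => by
    obtain ⟨c, hc⟩ := hU i
    rw [hc, mul_pow, ht, zero_mul]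
  rw [form2_Zs hF hI hU' hy]
  set o : F[X] → A := fun P => Od M (pw U P.natDegree) * rho I y P.natDegree with ho
  set R : Finset F[X] → A := fun S => ∏ P ∈ pr F M \ S,
    (lE M I U y P.natDegree * algebraMap ℂ A (jac P (∏ P ∈ S, P)) +
      (1 + Ev M (pw U P.natDegree) * rho I y P.natDegree)) with hR
  have h1 : ∀ S ∈ (pr F M).powerset, y ^ (M + 1) * (1 - qA F A * y) *
      ((∏ P ∈ S, o P) * Lt (fun f => jac f (∏ P ∈ S, P)) I y * R S) =
      (∑ σ ∈ ({1, -1} : Finset ℂ), kap F σ y * ∑ V ∈ monLe F M, wV F M y V *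
        ((∏ P ∈ S, o P * dy F σ y ^ P.natDegree) * algebraMap ℂ A (jac V (∏ P ∈ S, P)) * R S)) +
        if S = ∅ then R S else 0 := by
    intro S hS
    rw [mem_powerset] at hS
    obtain ⟨h2, h3, h4, h5⟩ := monic_sqfree_prod hS
    by_cases hd : (∏ P ∈ S, P).natDegree ≤ M
    · have h6 := lam_eq hF h2 h3 hd hI y hy
      calc _ = (∏ P ∈ S, o P) * R S * (y ^ (M + 1) * ((1 - qA F A * y) *
            Lt (fun f => jac f (∏ P ∈ S, P)) I y)) := by ring
        _ = _ := by
          rw [h6, mul_add, mul_sum]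
          congr 1
          · refine sum_congr rfl fun σ _ => ?_
            rw [prod_mul_distrib (f := o), prod_pow_eq_pow_sum, ← h4]
            simp only [mul_sum]
            exact sum_congr rfl fun V _ => by ring
          · by_cases hS0 : S = ∅
            · simp [hS0]
            · simp [hS0, h5.not.2 hS0]
    · have h6 : ∏ P ∈ S, o P = 0 := by
        have h7 : t ^ (∑ P ∈ S, P.natDegree) ∣ ∏ P ∈ S, o P := by
          rw [← prod_pow_eq_pow_sum]
          exact prod_dvd_prod_of_dvd _ _ fun P _ => (dvd_Od hU M _).mul_right _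
        obtain ⟨c, hc⟩ := (pow_dvd_pow t (by omega : M + 1 ≤ ∑ P ∈ S, P.natDegree)).trans h7
        rw [hc, ht, zero_mul]
      have hS0 : S ≠ ∅ := by
        rintro rfl
        simp at hd
      simp only [prod_mul_distrib (f := o), h6, hS0, if_false, zero_mul, mul_zero,
        sum_const_zero, add_zero]
  calc _ = (1 - qA F A * y ^ 2) * ∑ S ∈ (pr F M).powerset, y ^ (M + 1) * (1 - qA F A * y) *
        ((∏ P ∈ S, o P) * Lt (fun f => jac f (∏ P ∈ S, P)) I y * R S) := by
        rw [← mul_sum]; ring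
    _ = _ := by
      rw [sum_congr rfl h1, sum_add_distrib, sum_comm, sum_ite_eq']
      congr 2
      · refine sum_congr rfl fun σ _ => ?_
        rw [← mul_sum, sum_comm]
        congr 1
        refine sum_congr rfl fun V hV => ?_
        rw [← mul_sum, ← mul_sum, hR]
        congr 1
        have key := form2_swap (pr F M) (fun P => o P * dy F σ y ^ P.natDegree)
          (fun P => 1 + Ev M (pw U P.natDegree) * rho I y P.natDegree)
          (fun P => lE M I U y P.natDegree)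
          (fun S => algebraMap ℂ A (jac V (∏ P ∈ S, P)))
          (fun P S => algebraMap ℂ A (jac P (∏ P ∈ S, P)))
          (fun e P => algebraMap ℂ A (jac (V * ∏ P ∈ e, P) P)) fun S hS e he => by
            have h2 := (monic_sqfree_prod hS).1
            have h3 := (jac_cm_left hF h2).prod e fun P hP => (mem_pr.1 (he hP)).1
            have h4 := (jac_cm (V * ∏ P ∈ e, P)).prod S fun P hP => (mem_pr.1 (hS hP)).1
            rw [← map_prod (algebraMap ℂ A), ← map_prod (algebraMap ℂ A), ← map_mul, ← h4,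
              jac_mul_left hF _ _ h2, h3]
        exact key
      · rw [if_pos (empty_mem_powerset _), hR, Pd]
        simp only [sdiff_empty, prod_empty, (jac_cm _).one, map_one, lE]
        exact prod_congr rfl fun P _ => by ring

theorem form2_mid {M : ℕ} {t y : A} {U : Fin 4 → A} (hU : ∀ i, t ∣ U i) (ht : t ^ (M + 1) = 0)
    {σ : ℂ} (hσ : σ ^ 2 = 1) :
    mid F U y = (1 + qA F A * (dy F σ y * U 0)) * (1 + qA F A * (dy F σ y * U 1)) *
      ((1 - qA F A * (dy F σ y * U 2)) * (1 - qA F A * (dy F σ y * U 3))) *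
        ∏ P ∈ pr F M, om F M U y σ P.natDegree := by
  have hU' : ∀ i, (dy F σ y * U i) ^ (M + 1) = 0 := fun i => by
    obtain ⟨c, hc⟩ := hU i
    rw [hc, mul_pow, mul_pow, ht, zero_mul, mul_zero]
  have h1 : ∀ i, (1 - qA F A * (dy F σ y * U i)) *
      ∏ P ∈ pr F M, gam M ((dy F σ y * U i) ^ P.natDegree) = 1 := fun i => by
    rw [← prod_zeta (hU' i), ← prod_mul_distrib]
    refine prod_eq_one fun P hP => ?_
    rw [mul_comm]
    refine gam_mul ?_
    rw [← pow_mul, mul_comm P.natDegree, pow_mul, hU' i, zero_pow (deg_pos (mem_pr.1 hP).2.1).ne']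
  have h2 : dy F σ y ^ 2 = qA F A * y ^ 2 := by
    rw [dy, mul_pow, ← map_pow, mul_pow, hσ, one_mul, sq_sq, map_natCast]
  simp only [om, prod_mul_distrib, prod_zeta (hU' 0), prod_zeta (hU' 1)]
  have h3 := h1 2
  have h4 := h1 3
  generalize ∏ P ∈ pr F M, gam M ((dy F σ y * U 2) ^ P.natDegree) = g2 at h3 ⊢
  generalize ∏ P ∈ pr F M, gam M ((dy F σ y * U 3) ^ P.natDegree) = g3 at h4 ⊢
  calc _ = (1 - qA F A ^ 2 * U 0 ^ 2 * dy F σ y ^ 2) * (1 - qA F A ^ 2 * U 1 ^ 2 * dy F σ y ^ 2) *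
        (((1 - qA F A * (dy F σ y * U 2)) * g2) * ((1 - qA F A * (dy F σ y * U 3)) * g3)) := by
        rw [h3, h4, h2, mid]; ring
    _ = _ := by ring

theorem key (hF : ringChar F ≠ 2) {M I : ℕ} (hI : M ≤ I) {t y : A} {U : Fin 4 → A}
    (hU : ∀ i, t ∣ U i) (ht : t ^ (M + 1) = 0) (hy : y ^ (I + 1) = 0) :
    y ^ (M + 1) * (Ph F (U 0) (U 1) (y ^ 2) * Zs F I U y) =
      pre F U y * (mid F U y * (Pr F M I U y + Pd F M I U y)) + pre F U y * Ps F M I U y := by
  have h1 := form2_all hF hI hU ht hy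
  have h0 : ∑ σ ∈ ({1, -1} : Finset ℂ), kap F σ y * ∑ V ∈ monLe F M,
      ∑ e ∈ (pr F M).powerset, wV F M y V * ((∏ P ∈ e, lE M I U y P.natDegree) *
        ∏ P ∈ pr F M \ e, lO M I U y σ (V * ∏ P ∈ e, P) P) =
      ∑ σ ∈ ({1, -1} : Finset ℂ), kap F σ y * ∑ V ∈ monLe F M,
      ∑ e ∈ (pr F M).powerset with IsSquare (V * ∏ P ∈ e, P), wV F M y V *
        ((∏ P ∈ e, lE M I U y P.natDegree) *
          ∏ P ∈ pr F M \ e, lO M I U y σ (V * ∏ P ∈ e, P) P) + Pr F M I U y := by
    rw [Pr, ← sum_add_distrib]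
    refine sum_congr rfl fun σ _ => ?_
    rw [← mul_add, ← sum_add_distrib]
    congr 1
    exact sum_congr rfl fun V _ => (sum_filter_add_sum_filter_not _ _ _).symm
  rw [h0] at h1
  have h2 : mid F U y * ∑ σ ∈ ({1, -1} : Finset ℂ), kap F σ y * ∑ V ∈ monLe F M,
      ∑ e ∈ (pr F M).powerset with IsSquare (V * ∏ P ∈ e, P), wV F M y V *
        ((∏ P ∈ e, lE M I U y P.natDegree) *
          ∏ P ∈ pr F M \ e, lO M I U y σ (V * ∏ P ∈ e, P) P) = Ps F M I U y := by
    rw [Ps, mul_sum]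
    refine sum_congr rfl fun σ hσ => ?_
    have hσ2 : σ ^ 2 = 1 := by
      rcases mem_insert.1 hσ with rfl | h
      · simp
      · rw [mem_singleton.1 h]; simp
    rw [form2_mid hU ht hσ2]
    simp only [mul_sum]
    refine sum_congr rfl fun V _ => sum_congr rfl fun e he => ?_
    rw [prod_mul_distrib, prod_mul_distrib,
      ← prod_sdiff (mem_powerset.1 (mem_filter.1 he).1)]
    ring
  rw [← h2]
  calc _ = (1 + qA F A * y) * (1 - qA F A ^ 4 * U 0 ^ 2 * U 1 ^ 2 * y ^ 2) * mid F U y *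
        (y ^ (M + 1) * ((1 - qA F A * y) * Zs F I U y)) := by rw [Ph, mid]; ring
    _ = _ := by rw [h1, pre]; ring

end Pool.Agent.MP_dd7250_nt
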