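import Mathlib
import Pool.Agent.MP_dd7250_nt.Core

/- Extraction of coefficients. -/

set_option autoImplicit false

namespace Pool.Agent.MP_dd7250_nt

open Polynomial Finset Pool.Agent.MP_d232b3_nt
open scoped Classical

variable {F : Type*} [Field F] [Fintype F]

theorem an1_orth {K : ℕ} {ω : ℂ} (hω : IsPrimitiveRoot ω K) {a n : ℕ} (ha : a < K)
    (hn : n < K) :
    ∑ j ∈ range K, (ω ^ (a + (K - n))) ^ j = if a = n then (K : ℂ) else 0 := by
  split_ifs with h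
  · subst h
    rw [Nat.add_sub_cancel' ha.le, hω.pow_eq_one]
    simp
  · have h1 : ω ^ (a + (K - n)) ≠ 1 := by
      intro h1
      obtain ⟨c, hc⟩ := (hω.pow_eq_one_iff_dvd _).1 h1
      rcases c with _ | _ | c
      · omega
      · omega
      · have : K * (c + 1 + 1) = K * c + K + K := by ring
        omega
    have h2 : (ω ^ (a + (K - n))) ^ K = 1 := by
      rw [← pow_mul, mul_comm, pow_mul, hω.pow_eq_one, one_pow]
    have h3 := geom_sum_mul (ω ^ (a + (K - n))) K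
    rw [h2, sub_self] at h3
    exact (mul_eq_zero.1 h3).resolve_right (sub_ne_zero.2 h1)

theorem extract_fam {ι : Type*} (s : Finset ι) (w : ι → ℂ) (e : ι → ℕ) {r B : ℝ} (hr : 0 < r)
    (h : ∀ z : ℂ, ‖z‖ = r → ‖∑ i ∈ s, w i * z ^ e i‖ ≤ B) (n : ℕ) :
    ‖∑ i ∈ s with e i = n, w i‖ * r ^ n ≤ B := by
  obtain ⟨K, hKn, hKe⟩ : ∃ K : ℕ, n < K ∧ ∀ i ∈ s, e i < K :=
    ⟨s.sup e + n + 1, by omega, fun i hi => by
      have := Finset.le_sup (f := e) hi
      omega⟩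
  have hK0 : K ≠ 0 := by omega
  obtain ⟨ω, hω⟩ : ∃ ω : ℂ, IsPrimitiveRoot ω K := ⟨_, Complex.isPrimitiveRoot_exp K hK0⟩
  have hn1 : ‖ω‖ = 1 := hω.norm'_eq_one hK0
  have key : ∑ j ∈ range K, (ω ^ (K - n)) ^ j * ∑ i ∈ s, w i * ((r : ℂ) * ω ^ j) ^ e i =
      (K : ℂ) * ((∑ i ∈ s with e i = n, w i) * (r : ℂ) ^ n) := by
    have h1 : ∀ j ∈ range K, (ω ^ (K - n)) ^ j * ∑ i ∈ s, w i * ((r : ℂ) * ω ^ j) ^ e i =
        ∑ i ∈ s, w i * (r : ℂ) ^ e i * (ω ^ (e i + (K - n))) ^ j := by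
      intro j _
      rw [mul_sum]
      refine sum_congr rfl fun i _ => ?_
      rw [pow_add, mul_pow, mul_pow, ← pow_mul ω j (e i), ← pow_mul ω (e i) j, mul_comm j (e i)]
      ring
    rw [sum_congr rfl h1, sum_comm, sum_filter, sum_mul, mul_sum]
    refine sum_congr rfl fun i hi => ?_
    rw [← mul_sum, an1_orth hω (hKe i hi) hKn]
    split_ifs with hi'
    · rw [hi']; ring
    · simp
  have hle : ‖∑ j ∈ range K, (ω ^ (K - n)) ^ j * ∑ i ∈ s, w i * ((r : ℂ) * ω ^ j) ^ e i‖ ≤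
      K * B := by
    refine (norm_sum_le _ _).trans ?_
    have : ∀ j ∈ range K,
        ‖(ω ^ (K - n)) ^ j * ∑ i ∈ s, w i * ((r : ℂ) * ω ^ j) ^ e i‖ ≤ B := by
      intro j _
      rw [norm_mul, norm_pow, norm_pow, hn1, one_pow, one_pow, one_mul]
      refine h _ ?_
      rw [norm_mul, norm_pow, hn1, one_pow, mul_one, Complex.norm_real, Real.norm_of_nonneg hr.le]
    refine (sum_le_sum this).trans ?_
    simp
  rw [key, norm_mul, norm_mul, norm_pow, Complex.norm_real, Real.norm_of_nonneg hr.le,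
    Complex.norm_natCast] at hle
  have hKpos : (0 : ℝ) < K := by exact_mod_cast Nat.pos_of_ne_zero hK0
  exact le_of_mul_le_mul_left hle hKpos

theorem extract1 (p : ℂ[X]) {r B : ℝ} (hr : 0 < r)
    (h : ∀ z : ℂ, ‖z‖ = r → ‖aeval z p‖ ≤ B) (n : ℕ) : ‖p.coeff n‖ * r ^ n ≤ B := by
  have h1 := extract_fam (range (p.natDegree + n + 1)) p.coeff id hr (B := B) (fun z hz => by
    have h2 := h z hz
    rw [coe_aeval_eq_eval, eval_eq_sum_range' (n := p.natDegree + n + 1) (by omega)] at h2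
    exact h2) n
  have h2 : (range (p.natDegree + n + 1)).filter (fun i => id i = n) = {n} := by
    ext i
    simp only [mem_filter, mem_range, id, mem_singleton]
    omega
  rwa [h2, sum_singleton] at h1

theorem extract2 (p : ℂ[X][X]) {r₁ r₂ B : ℝ} (hr₁ : 0 < r₁) (hr₂ : 0 < r₂)
    (h : ∀ t y : ℂ, ‖t‖ = r₁ → ‖y‖ = r₂ → ‖aevalAeval t y p‖ ≤ B) (N m : ℕ) :
    ‖(p.coeff N).coeff m‖ * r₁ ^ m * r₂ ^ N ≤ B := by
  have hp : 0 < r₂ ^ N := pow_pos hr₂ N
  rw [← le_div_iff₀ hp]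
  refine extract1 (p.coeff N) hr₁ (fun t ht => ?_) m
  rw [le_div_iff₀ hp]
  have h1 := extract1 (p.map (evalRingHom t)) hr₂ (B := B) (fun y hy => by
    have h2 := h t y ht hy
    rw [coe_aevalAeval_eq_evalEval, ← map_evalRingHom_eval] at h2
    rw [coe_aeval_eq_eval]
    exact h2) N
  rw [coeff_map, coe_evalRingHom] at h1
  rw [coe_aeval_eq_eval]
  exact h1

theorem transfer1 (p p' : ℂ[X]) (M : ℕ)
    (h : ∀ (A : Type) [CommRing A] [Algebra ℂ A] (φ : ℂ[X] →ₐ[ℂ] A),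
      φ X ^ (M + 1) = 0 → φ p = φ p') {m : ℕ} (hm : m ≤ M) : p.coeff m = p'.coeff m := by
  have h1 := h (ℂ[X] ⧸ Ideal.span {(X : ℂ[X]) ^ (M + 1)})
    (Ideal.Quotient.mkₐ ℂ (Ideal.span {(X : ℂ[X]) ^ (M + 1)})) (by
      rw [← map_pow, Ideal.Quotient.mkₐ_eq_mk, Ideal.Quotient.eq_zero_iff_mem]
      exact Ideal.mem_span_singleton_self _)
  rw [Ideal.Quotient.mkₐ_eq_mk, Ideal.Quotient.eq, Ideal.mem_span_singleton, X_pow_dvd_iff] at h1
  have h2 := h1 m (by omega)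
  rwa [coeff_sub, sub_eq_zero] at h2

theorem transfer2 (p p' : ℂ[X][X]) (M I : ℕ)
    (h : ∀ (A : Type) [CommRing A] [Algebra ℂ A] (φ : ℂ[X][X] →ₐ[ℂ] A),
      φ (C X) ^ (M + 1) = 0 → φ X ^ (I + 1) = 0 → φ p = φ p') {N m : ℕ} (hN : N ≤ I)
    (hm : m ≤ M) : (p.coeff N).coeff m = (p'.coeff N).coeff m := by
  have h1 := h (ℂ[X][X] ⧸ Ideal.span {(C X : ℂ[X][X]) ^ (M + 1), (X : ℂ[X][X]) ^ (I + 1)})
    (Ideal.Quotient.mkₐ ℂ (Ideal.span {(C X : ℂ[X][X]) ^ (M + 1), (X : ℂ[X][X]) ^ (I + 1)}))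
    (by
      rw [← map_pow (Ideal.Quotient.mkₐ ℂ _), Ideal.Quotient.mkₐ_eq_mk,
        Ideal.Quotient.eq_zero_iff_mem]
      exact Ideal.subset_span (by simp))
    (by
      rw [← map_pow (Ideal.Quotient.mkₐ ℂ _), Ideal.Quotient.mkₐ_eq_mk,
        Ideal.Quotient.eq_zero_iff_mem]
      exact Ideal.subset_span (by simp))
  rw [Ideal.Quotient.mkₐ_eq_mk, Ideal.Quotient.eq, Ideal.mem_span_pair] at h1
  obtain ⟨a, b, hab⟩ := h1
  have h2 := congrArg (fun q : ℂ[X][X] => (q.coeff N).coeff m) hab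
  simp only [coeff_add, coeff_sub] at h2
  rw [← C_pow, coeff_mul_C, coeff_mul_X_pow', coeff_mul_X_pow', if_neg (by omega),
    if_neg (by omega), coeff_zero, add_zero] at h2
  exact sub_eq_zero.1 h2.symm

theorem poly_limit (p : ℕ → ℂ[X]) (α : ℕ → ℂ) {r B : ℝ} (hr : 1 < r)
    (h : ∀ M, ∀ z : ℂ, ‖z‖ = r → ‖aeval z (p M)‖ ≤ B)
    (hα : ∀ m M, m ≤ M → (p M).coeff m = α m) :
    Summable α ∧ Filter.Tendsto (fun M => aeval (1 : ℂ) (p M)) Filter.atTop (nhds (∑' m, α m)) := by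
  have hr0 : 0 < r := zero_lt_one.trans hr
  have hb : ∀ M m, ‖(p M).coeff m‖ ≤ B * r⁻¹ ^ m := by
    intro M m
    rw [inv_pow, ← div_eq_mul_inv, le_div_iff₀ (pow_pos hr0 m)]
    exact extract1 (p M) hr0 (h M) m
  have hs : Summable fun m : ℕ => B * r⁻¹ ^ m :=
    (summable_geometric_of_lt_one (inv_nonneg.2 hr0.le) (inv_lt_one_of_one_lt₀ hr)).mul_left B
  refine ⟨Summable.of_norm_bounded hs fun m => ?_, ?_⟩
  · rw [← hα m m le_rfl]
    exact hb m m
  · have h1 : ∀ M, aeval (1 : ℂ) (p M) = ∑' m, (p M).coeff m := by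
      intro M
      rw [coe_aeval_eq_eval, eval_eq_sum_range,
        tsum_eq_sum (s := range ((p M).natDegree + 1))]
      · simp
      · intro m hm
        exact coeff_eq_zero_of_natDegree_lt (by simpa using hm)
    simp only [h1]
    refine tendsto_tsum_of_dominated_convergence hs (fun m => ?_)
      (Filter.Eventually.of_forall hb)
    refine tendsto_const_nhds.congr' ?_
    filter_upwards [Filter.eventually_ge_atTop m] with M hM
    exact (hα m M hM).symm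

end Pool.Agent.MP_dd7250_nt
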