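import Mathlib
import Pool.Agent.MP_dd7250_nt.FE
import Pool.Agent.MP_dd7250_nt.An1

/- From the generating function to the homogeneous parts. -/

set_option autoImplicit false

namespace Pool.Agent.MP_dd7250_nt

open Polynomial Finset Pool.Agent.MP_d232b3_nt
open scoped Classical

variable {F : Type*} [Field F] [Fintype F]
variable {A : Type*} [CommRing A] [Algebra ℂ A]

theorem link_Li_coeff (χ : F[X] → ℂ) (v : ℂ) {m I : ℕ} (hm : m ≤ I) :
    (Li χ I (C v * X : ℂ[X])).coeff m = ainv χ m * v ^ m := by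
  have h : ∀ n : ℕ, (algebraMap ℂ ℂ[X] (ainv χ n) * (C v * X) ^ n).coeff m =
      if m = n then ainv χ n * v ^ n else 0 := by
    intro n
    rw [Polynomial.algebraMap_apply, Algebra.algebraMap_self, RingHom.id_apply, mul_pow, ← C_pow,
      ← mul_assoc, ← C_mul, coeff_C_mul, coeff_X_pow]
    split_ifs <;> simp
  rw [Li, finsetSum_coeff]
  simp only [h]
  rw [sum_ite_eq, if_pos (mem_range.2 (by omega))]

theorem link_beta (D : F[X]) (v₁ v₂ : ℂ) {m I : ℕ} (hm : m ≤ I) :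
    (Li (jac D) I (C v₁ * X : ℂ[X]) * Li (jac D) I (C v₂ * X)).coeff m = beta v₁ v₂ m D := by
  rw [coeff_mul, beta]
  refine sum_congr rfl fun p hp => ?_
  have := mem_antidiagonal.1 hp
  rw [link_Li_coeff _ _ (by omega), link_Li_coeff _ _ (by omega)]

/-- The odd part of a polynomial, as a power series. -/
noncomputable def linkOdd {R : Type*} [CommRing R] (z : R[X]) : PowerSeries R :=
  PowerSeries.mk fun g => z.coeff (2 * g + 1)

theorem link_odd_mul {R : Type*} [CommRing R] (c : R) (z : R[X]) :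
    linkOdd ((1 - C c * X ^ 2) * z) = (1 - PowerSeries.C c * PowerSeries.X) * linkOdd z := by
  ext g
  rw [sub_mul, sub_mul, one_mul, one_mul, map_sub, linkOdd, linkOdd, PowerSeries.coeff_mk,
    PowerSeries.coeff_mk, coeff_sub, mul_assoc, mul_assoc, coeff_C_mul, PowerSeries.coeff_C_mul]
  congr 2
  cases g with
  | zero => rw [PowerSeries.coeff_zero_X_mul, coeff_X_pow_mul', if_neg (by omega)]
  | succ g =>
    rw [PowerSeries.coeff_succ_X_mul, PowerSeries.coeff_mk,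
      show 2 * (g + 1) + 1 = (2 * g + 1) + 2 by ring, coeff_X_pow_mul]

omit [Field F] in
theorem link_odd_Ph {R : Type*} [CommRing R] (a b : R) (z : R[X]) :
    linkOdd (Ph F (C a) (C b) (X ^ 2) * z) =
      Ph F (PowerSeries.C a) (PowerSeries.C b) PowerSeries.X * linkOdd z := by
  have h1 : Ph F (C a : R[X]) (C b) (X ^ 2) * z = (1 - C ((Q F : R) ^ 2) * X ^ 2) *
      ((1 - C ((Q F : R) ^ 3 * a ^ 2) * X ^ 2) * ((1 - C ((Q F : R) ^ 3 * b ^ 2) * X ^ 2) *
        ((1 - C ((Q F : R) ^ 4 * a ^ 2 * b ^ 2) * X ^ 2) * z))) := by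
    simp only [Ph, map_mul, map_pow, map_natCast]
    ring
  rw [h1, link_odd_mul, link_odd_mul, link_odd_mul, link_odd_mul]
  simp only [Ph, map_mul, map_pow, map_natCast]
  ring

theorem link_Zs_coeff (U : Fin 4 → A) {I N : ℕ} (hN : N ≤ I) :
    (Zs F I (fun i => (C (U i) : A[X])) X).coeff N = ∑ D ∈ sqF F N,
      Lt (jac D) I (U 0) * Lt (jac D) I (U 1) * (Li (jac D) I (U 2) * Li (jac D) I (U 3)) := by
  have hLt : ∀ (χ : F[X] → ℂ) (z : A), Lt χ I (C z : A[X]) = C (Lt χ I z) := fun χ z =>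
    (map_Lt (CAlgHom (R := ℂ) (A := A)) χ I z).symm
  have hLi : ∀ (χ : F[X] → ℂ) (z : A), Li χ I (C z : A[X]) = C (Li χ I z) := fun χ z =>
    (map_Li (CAlgHom (R := ℂ) (A := A)) χ I z).symm
  rw [Zs, finsetSum_coeff]
  simp only [hLt, hLi, ← C_mul, ← map_sum C]
  have h : ∀ (n : ℕ) (w : A), (X ^ n * C w : A[X]).coeff N = if N = n then w else 0 := by
    intro n w
    rw [mul_comm, coeff_C_mul, coeff_X_pow]
    split_ifs <;> simp
  simp only [h]
  rw [sum_ite_eq, if_pos (mem_range.2 (by omega))]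

theorem link_HW_smul (c : ℂ) (w : F[X] → ℂ) (U₀ U₁ : A) (g : ℕ) :
    HW (fun D => c * w D) U₀ U₁ g = algebraMap ℂ A c * HW w U₀ U₁ g := by
  simp only [HW, TW, PowerSeries.coeff_mul, PowerSeries.coeff_mk, mul_sum, map_mul]
  refine sum_congr rfl fun p _ => sum_congr rfl fun D _ => ?_
  ring

theorem link_beta_smul (m v₁ v₂ : ℂ) (k : ℕ) :
    beta (F := F) (m * v₁) (m * v₂) k = fun D => m ^ k * beta v₁ v₂ k D := by
  funext D
  rw [beta, beta, mul_sum]
  refine sum_congr rfl fun p hp => ?_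
  rw [← mem_antidiagonal.1 hp]
  ring

theorem link_rescale_C (c a : ℂ) :
    PowerSeries.rescale c (PowerSeries.C a) = PowerSeries.C a := by
  ext n
  rw [PowerSeries.coeff_rescale, PowerSeries.coeff_C]
  split_ifs with h
  · rw [h, pow_zero, one_mul]
  · rw [mul_zero]

theorem link0 (u : Fin 4 → ℂ) {M I : ℕ} (h1 : M ≤ I) (g : ℕ) :
    ∑ p ∈ antidiagonal M, ff F u p.1 p.2 g =
      (PowerSeries.coeff g (Ph F (PowerSeries.C (C (u 0) * X)) (PowerSeries.C (C (u 1) * X))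
        PowerSeries.X * PowerSeries.mk fun g => ∑ D ∈ sqF F (2 * g + 1),
          Lt (jac D) (2 * g) (C (u 0) * X : ℂ[X]) * Lt (jac D) (2 * g) (C (u 1) * X) *
            (Li (jac D) I (C (u 2) * X) * Li (jac D) I (C (u 3) * X)))).coeff M := by
  simp only [ff, HW, TW, PowerSeries.coeff_mul, PowerSeries.coeff_mk, finsetSum_coeff, mul_sum]
  rw [sum_comm]
  refine sum_congr rfl fun q _ => ?_
  rw [sum_comm]
  refine sum_congr rfl fun D _ => ?_
  rw [← mul_assoc, coeff_mul (_ * _) (_ * _)]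
  refine sum_congr rfl fun p hp => ?_
  have := mem_antidiagonal.1 hp
  rw [link_beta _ _ _ (by omega), mul_left_comm, Polynomial.algebraMap_apply, Algebra.algebraMap_self,
    RingHom.id_apply, coeff_C_mul, mul_comm]

theorem link (hF : ringChar F ≠ 2) (u : Fin 4 → ℂ) {M g I : ℕ} (h1 : M ≤ I)
    (h2 : 2 * g + 1 ≤ I) :
    ((Ph F (C (C (u 0) * X)) (C (C (u 1) * X)) (X ^ 2) *
      Zs F I (fun i => (C (C (u i) * X) : ℂ[X][X])) X).coeff (2 * g + 1)).coeff M =
      ∑ p ∈ antidiagonal M, ff F u p.1 p.2 g := by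
  rw [link0 u h1 g]
  refine congrArg (fun s : ℂ[X] => s.coeff M) ?_
  have h := congrArg (PowerSeries.coeff g) (link_odd_Ph (F := F) (C (u 0) * X : ℂ[X])
    (C (u 1) * X) (Zs F I (fun i => (C (C (u i) * X) : ℂ[X][X])) X))
  rw [linkOdd, PowerSeries.coeff_mk] at h
  rw [h, PowerSeries.coeff_mul, PowerSeries.coeff_mul]
  refine sum_congr rfl fun p hp => ?_
  have := mem_antidiagonal.1 hp
  rw [linkOdd, PowerSeries.coeff_mk, PowerSeries.coeff_mk,
    link_Zs_coeff (fun i => (C (u i) * X : ℂ[X])) (by omega)]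
  refine congrArg _ (sum_congr rfl fun D hD => ?_)
  rw [Lt_trunc hF hD (by omega), Lt_trunc hF hD (I := I) (by omega)]

theorem ff_smul (u : Fin 4 → ℂ) (l m : ℂ) (n k g : ℕ) :
    ff F ![l * u 0, l * u 1, m * u 2, m * u 3] n k g = l ^ n * m ^ k * ff F u n k g := by
  change (HW (F := F) (beta (m * u 2) (m * u 3) k) (C (l * u 0) * X : ℂ[X])
    (C (l * u 1) * X) g).coeff n = _
  have h : ∀ v : ℂ, (C (l * v) * X : ℂ[X]) = aeval (C l * X : ℂ[X]) (C v * X : ℂ[X]) := by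
    intro v
    simp only [map_mul, aeval_C, aeval_X, Polynomial.algebraMap_apply, Algebra.algebraMap_self,
      RingHom.id_apply]
    ring
  rw [link_beta_smul, link_HW_smul, h, h, ← map_HW, ← comp_eq_aeval, Polynomial.algebraMap_apply,
    Algebra.algebraMap_self, RingHom.id_apply, coeff_C_mul, comp_C_mul_X_coeff, ff]
  ring

theorem HW_comm (w : F[X] → ℂ) (U₀ U₁ : A) (g : ℕ) : HW w U₀ U₁ g = HW w U₁ U₀ g := by
  have h1 : TW w U₀ U₁ = TW w U₁ U₀ := by
    funext n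
    simp only [TW, mul_comm (Lt _ _ U₀)]
  have h2 : ∀ a b y : PowerSeries A, Ph F a b y = Ph F b a y := by
    intro a b y
    simp only [Ph]
    ring
  rw [HW, HW, h1, h2]

theorem HW_symm (hF : ringChar F ≠ 2) (w : F[X] → ℂ) {u₀ : ℂ} (h : u₀ ≠ 0) (u₁ : ℂ) (g : ℕ) :
    HW w u₀ u₁ g = (Q F * u₀ ^ 2) ^ g * HW w (Q F * u₀)⁻¹ u₁ g := by
  have hq : (Q F : ℂ) ≠ 0 := Q_ne
  have h1 : PowerSeries.mk (TW w u₀ u₁) =
      PowerSeries.rescale (Q F * u₀ ^ 2) (PowerSeries.mk (TW w (Q F * u₀)⁻¹ u₁)) := by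
    rw [PowerSeries.rescale_mk]
    congr 1
    funext n
    rw [TW, TW, mul_sum]
    refine sum_congr rfl fun D hD => ?_
    rw [Lt_symm hF hD h]
    ring
  have h2 : Ph F (PowerSeries.C u₀) (PowerSeries.C u₁) PowerSeries.X =
      PowerSeries.rescale (Q F * u₀ ^ 2)
        (Ph F (PowerSeries.C (Q F * u₀)⁻¹) (PowerSeries.C u₁) PowerSeries.X) := by
    have h3 : (PowerSeries.C (Q F * u₀)⁻¹ : PowerSeries ℂ) *
        ((Q F : PowerSeries ℂ) * PowerSeries.C u₀) = 1 := by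
      rw [← map_natCast (PowerSeries.C (R := ℂ)), ← map_mul, ← map_mul,
        inv_mul_cancel₀ (mul_ne_zero hq h), map_one]
    simp only [Ph, map_mul, map_sub, map_one, map_pow, map_natCast, link_rescale_C,
      PowerSeries.rescale_X]
    generalize (PowerSeries.C (Q F * u₀)⁻¹ : PowerSeries ℂ) = a at h3 ⊢
    have e1 : (Q F : PowerSeries ℂ) ^ 3 * a ^ 2 *
        ((Q F : PowerSeries ℂ) * PowerSeries.C u₀ ^ 2 * PowerSeries.X) =
        (Q F : PowerSeries ℂ) ^ 2 * PowerSeries.X := by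
      linear_combination ((Q F : PowerSeries ℂ) ^ 2 * PowerSeries.X *
        (a * ((Q F : PowerSeries ℂ) * PowerSeries.C u₀) + 1)) * h3
    have e2 : (Q F : PowerSeries ℂ) ^ 4 * a ^ 2 * PowerSeries.C u₁ ^ 2 *
        ((Q F : PowerSeries ℂ) * PowerSeries.C u₀ ^ 2 * PowerSeries.X) =
        (Q F : PowerSeries ℂ) ^ 3 * PowerSeries.C u₁ ^ 2 * PowerSeries.X := by
      linear_combination ((Q F : PowerSeries ℂ) * PowerSeries.C u₁ ^ 2) * e1
    rw [e1, e2]
    ring
  rw [HW, HW, h1, h2, ← map_mul, PowerSeries.coeff_rescale]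

theorem ff_symm (hF : ringChar F ≠ 2) {u : Fin 4 → ℂ} (h0 : u 0 ≠ 0) (h1 : u 1 ≠ 0)
    (n k g : ℕ) : ff F u n k g = if n ≤ 4 * g then (Q F * u 0 ^ 2) ^ g * (Q F * u 1 ^ 2) ^ g *
      ff F ![(Q F * u 0)⁻¹, (Q F * u 1)⁻¹, u 2, u 3] (4 * g - n) k g else 0 := by
  change (HW (F := F) (beta (u 2) (u 3) k) (C (u 0) * X : ℂ[X]) (C (u 1) * X) g).coeff n =
    if n ≤ 4 * g then (Q F * u 0 ^ 2) ^ g * (Q F * u 1 ^ 2) ^ g *
      (HW (F := F) (beta (u 2) (u 3) k) (C (Q F * u 0)⁻¹ * X : ℂ[X])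
        (C (Q F * u 1)⁻¹ * X) g).coeff (4 * g - n) else 0
  generalize beta (F := F) (u 2) (u 3) k = w
  have hev : ∀ (a b z : ℂ), eval z (HW w (C a * X : ℂ[X]) (C b * X) g) =
      HW w (a * z) (b * z) g := by
    intro a b z
    rw [← coe_aeval_eq_eval, map_HW]
    simp
  set p := HW w (C (u 0) * X : ℂ[X]) (C (u 1) * X) g with hp
  set r := HW w (C (Q F * u 0)⁻¹ * X : ℂ[X]) (C (Q F * u 1)⁻¹ * X) g with hr
  set c : ℂ := (Q F * u 0 ^ 2) ^ g * (Q F * u 1 ^ 2) ^ g with hc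
  have key : ∀ z : ℂ, z ≠ 0 → eval z p = c * z ^ (4 * g) * eval z⁻¹ r := by
    intro z hz
    rw [hp, hr, hev, hev, HW_symm hF w (mul_ne_zero h0 hz), HW_comm,
      HW_symm hF w (mul_ne_zero h1 hz), HW_comm, ← mul_inv, ← mul_inv, mul_assoc (Q F : ℂ),
      mul_assoc (Q F : ℂ), hc]
    simp only [mul_pow, ← pow_mul]
    ring
  have hpoly : X ^ (r.natDegree + 4 * g) * p =
      C c * (X ^ (4 * g) * reflect (r.natDegree + 4 * g) r) := by
    refine eq_of_infinite_eval_eq _ _ (Set.Infinite.mono (s := {z : ℂ | z ≠ 0}) ?_ ?_)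
    · intro z hz
      have hz' : z ≠ 0 := hz
      let _ : Invertible z⁻¹ := invertibleOfNonzero (inv_ne_zero hz')
      have h3 := eval₂_reflect_mul_pow (RingHom.id ℂ) z⁻¹ (r.natDegree + 4 * g) r (by omega)
      rw [invOf_eq_inv, inv_inv, eval₂_id, eval₂_id] at h3
      simp only [Set.mem_ofPred_eq, eval_mul, eval_pow, eval_X, eval_C]
      rw [key z hz', ← h3, inv_pow]
      field_simp
    · exact (Set.finite_singleton (0 : ℂ)).infinite_compl
  have h4 := congrArg (fun s : ℂ[X] => s.coeff (n + (r.natDegree + 4 * g))) hpoly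
  simp only [coeff_X_pow_mul, coeff_C_mul] at h4
  rw [h4, ← add_assoc, coeff_X_pow_mul, coeff_reflect]
  split_ifs with h5
  · rw [revAt_le (by omega)]
    congr 2
    omega
  · rw [revAt_eq_self_of_lt (by omega), coeff_eq_zero_of_natDegree_lt (by omega), mul_zero]

end Pool.Agent.MP_dd7250_nt
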