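import Mathlib
import Pool.Agent.MP_dd7250_nt.Core

/- Local estimates. -/

set_option autoImplicit false

namespace Pool.Agent.MP_dd7250_nt

open Polynomial Finset Pool.Agent.MP_d232b3_nt
open scoped Classical

variable {F : Type*} [Field F] [Fintype F]

theorem loc_geom {n : ℕ} {z : ℂ} {r : ℝ} (hr : r < 1) (hz : ‖z‖ ≤ r) :
    ‖∑ l ∈ range n, z ^ l‖ ≤ (1 - r)⁻¹ := by
  have h0 : 0 ≤ r := (norm_nonneg z).trans hz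
  calc ‖∑ l ∈ range n, z ^ l‖ ≤ ∑ l ∈ range n, r ^ l :=
        norm_sum_le_of_le _ fun l _ => by
          rw [norm_pow]; exact pow_le_pow_left₀ (norm_nonneg z) hz l
    _ ≤ ∑' l, r ^ l :=
        (summable_geometric_of_lt_one h0 hr).sum_le_tsum _ fun l _ => pow_nonneg h0 l
    _ = (1 - r)⁻¹ := tsum_geometric_of_lt_one h0 hr

theorem norm_gam_le {I : ℕ} {z : ℂ} {r : ℝ} (hr : r < 1) (hz : ‖z‖ ≤ r) :
    ‖gam I z‖ ≤ (1 - r)⁻¹ := by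
  exact loc_geom hr hz

theorem loc_gam_sub (I : ℕ) (z : ℂ) : gam I z - 1 = (∑ l ∈ range I, z ^ l) * z := by
  rw [gam, sum_range_succ', sum_mul]
  simp [pow_succ]

theorem norm_gam_sub_one {I : ℕ} {z : ℂ} {r : ℝ} (hr : r < 1) (hz : ‖z‖ ≤ r) :
    ‖gam I z - 1‖ ≤ (1 - r)⁻¹ * ‖z‖ := by
  rw [loc_gam_sub, norm_mul]
  exact mul_le_mul_of_nonneg_right (loc_geom hr hz) (norm_nonneg z)

theorem norm_gam_sub_sub {I : ℕ} (hI : 1 ≤ I) {z : ℂ} {r : ℝ} (hr : r < 1) (hz : ‖z‖ ≤ r) :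
    ‖gam I z - 1 - z‖ ≤ (1 - r)⁻¹ * ‖z‖ ^ 2 := by
  obtain ⟨J, rfl⟩ : ∃ J, I = J + 1 := ⟨I - 1, by omega⟩
  have h : gam (J + 1) z - 1 - z = (∑ l ∈ range J, z ^ l) * z ^ 2 := by
    have h1 := loc_gam_sub J z
    rw [loc_gam_sub]
    change gam J z * z - z = _
    linear_combination z * h1
  rw [h, norm_mul, norm_pow]
  exact mul_le_mul_of_nonneg_right (loc_geom hr hz) (by positivity)

theorem loc_G (M : ℕ) {a b : ℂ} {τ : ℝ} (hτ : τ ≤ 3 / 5) (ha : ‖a‖ ≤ τ) (hb : ‖b‖ ≤ τ) :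
    ‖gam M (a ^ 2) * gam M (b ^ 2)‖ ≤ 5 / 2 ∧
      ‖gam M (a ^ 2) * gam M (b ^ 2) - 1‖ ≤ 5 * τ ^ 2 := by
  have key : ∀ c : ℂ, ‖c‖ ≤ τ →
      ‖gam M (c ^ 2)‖ ≤ 25 / 16 ∧ ‖gam M (c ^ 2) - 1‖ ≤ 25 / 16 * τ ^ 2 := by
    intro c hc
    have h1 : ‖c ^ 2‖ ≤ τ ^ 2 := by
      rw [norm_pow]; exact pow_le_pow_left₀ (norm_nonneg c) hc 2
    have h0 : 0 ≤ τ := (norm_nonneg c).trans hc
    have h2 : ‖c ^ 2‖ ≤ 9 / 25 := h1.trans (by nlinarith)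
    have h3 := norm_gam_le (I := M) (by norm_num : (9 / 25 : ℝ) < 1) h2
    have h4 := norm_gam_sub_one (I := M) (by norm_num : (9 / 25 : ℝ) < 1) h2
    norm_num at h3 h4
    refine ⟨h3, h4.trans ?_⟩
    rw [norm_pow] at h1
    linarith
  obtain ⟨a1, a2⟩ := key a ha
  obtain ⟨b1, b2⟩ := key b hb
  have hτ2 : 0 ≤ τ ^ 2 := sq_nonneg τ
  constructor
  · rw [norm_mul]
    calc _ ≤ (25 / 16 : ℝ) * (25 / 16) :=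
          mul_le_mul a1 b1 (norm_nonneg _) (by norm_num)
      _ ≤ 5 / 2 := by norm_num
  · have e : gam M (a ^ 2) * gam M (b ^ 2) - 1 =
        (gam M (a ^ 2) - 1) * gam M (b ^ 2) + (gam M (b ^ 2) - 1) := by ring
    rw [e]
    refine (norm_add_le _ _).trans ?_
    rw [norm_mul]
    have : ‖gam M (a ^ 2) - 1‖ * ‖gam M (b ^ 2)‖ ≤ 25 / 16 * τ ^ 2 * (25 / 16) :=
      mul_le_mul a2 b1 (norm_nonneg _) (by positivity)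
    linarith

theorem loc_mul {x y : ℂ} {s t : ℝ} (hx : ‖x‖ ≤ s) (hy : ‖y‖ ≤ t) : ‖x * y‖ ≤ s * t := by
  rw [norm_mul]; exact mul_le_mul hx hy (norm_nonneg _) ((norm_nonneg _).trans hx)

theorem loc_add {x y : ℂ} {s t : ℝ} (hx : ‖x‖ ≤ s) (hy : ‖y‖ ≤ t) : ‖x + y‖ ≤ s + t :=
  (norm_add_le _ _).trans (add_le_add hx hy)

theorem loc_sub {x y : ℂ} {s t : ℝ} (hx : ‖x‖ ≤ s) (hy : ‖y‖ ≤ t) : ‖x - y‖ ≤ s + t :=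
  (norm_sub_le _ _).trans (add_le_add hx hy)

theorem norm_Ev_le (M : ℕ) {a : Fin 4 → ℂ} {τ : ℝ} (hτ : τ ≤ 3 / 5) (h : ∀ i, ‖a i‖ ≤ τ) :
    ‖Ev M a‖ ≤ 40 * τ ^ 2 := by
  have h0 : 0 ≤ τ := (norm_nonneg _).trans (h 0)
  obtain ⟨g1, g2⟩ := loc_G M hτ (h 0) (h 1)
  have e : Ev M a = (gam M (a 0 ^ 2) * gam M (a 1 ^ 2) - 1) + gam M (a 0 ^ 2) * gam M (a 1 ^ 2) *
      (a 0 * a 1 + a 2 * a 3 - (a 0 + a 1) * (a 2 + a 3) + a 0 * a 1 * (a 2 * a 3)) := by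
    rw [Ev]; ring
  have h1 := loc_add (loc_sub (loc_add (loc_mul (h 0) (h 1)) (loc_mul (h 2) (h 3)))
    (loc_mul (loc_add (h 0) (h 1)) (loc_add (h 2) (h 3))))
    (loc_mul (loc_mul (h 0) (h 1)) (loc_mul (h 2) (h 3)))
  rw [e]
  refine (loc_add g2 (loc_mul g1 h1)).trans ?_
  have h2 : τ * τ ≤ 1 := by nlinarith
  have h3 : τ * τ * (τ * τ) ≤ τ * τ := by nlinarith [mul_nonneg h0 h0]
  nlinarith [mul_nonneg h0 h0]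

theorem loc_cub {a : Fin 4 → ℂ} {τ : ℝ} (h : ∀ i, ‖a i‖ ≤ τ) :
    ‖a 0 + a 1 - (a 2 + a 3)‖ ≤ 4 * τ ∧
      ‖a 2 * a 3 * (a 0 + a 1) - a 0 * a 1 * (a 2 + a 3)‖ ≤ 4 * τ ^ 3 := by
  constructor
  · exact (loc_sub (loc_add (h 0) (h 1)) (loc_add (h 2) (h 3))).trans_eq (by ring)
  · exact (loc_sub (loc_mul (loc_mul (h 2) (h 3)) (loc_add (h 0) (h 1)))
      (loc_mul (loc_mul (h 0) (h 1)) (loc_add (h 2) (h 3)))).trans_eq (by ring)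

theorem norm_Od_le (M : ℕ) {a : Fin 4 → ℂ} {τ : ℝ} (hτ : τ ≤ 3 / 5) (h : ∀ i, ‖a i‖ ≤ τ) :
    ‖Od M a‖ ≤ 40 * τ := by
  have h0 : 0 ≤ τ := (norm_nonneg _).trans (h 0)
  obtain ⟨g1, -⟩ := loc_G M hτ (h 0) (h 1)
  obtain ⟨l1, l3⟩ := loc_cub h
  have e : Od M a = gam M (a 0 ^ 2) * gam M (a 1 ^ 2) * ((a 0 + a 1 - (a 2 + a 3)) +
      (a 2 * a 3 * (a 0 + a 1) - a 0 * a 1 * (a 2 + a 3))) := by
    rw [Od]; ring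
  rw [e]
  refine (loc_mul g1 (loc_add l1 l3)).trans ?_
  have h2 : τ ^ 2 ≤ 1 := by nlinarith
  have h3 : τ ^ 3 ≤ τ := by nlinarith
  linarith

theorem norm_Od_sub (M : ℕ) {a : Fin 4 → ℂ} {τ : ℝ} (hτ : τ ≤ 3 / 5) (h : ∀ i, ‖a i‖ ≤ τ) :
    ‖Od M a - (a 0 + a 1 - (a 2 + a 3))‖ ≤ 40 * τ ^ 3 := by
  have h0 : 0 ≤ τ := (norm_nonneg _).trans (h 0)
  obtain ⟨g1, g2⟩ := loc_G M hτ (h 0) (h 1)
  obtain ⟨l1, l3⟩ := loc_cub h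
  have e : Od M a - (a 0 + a 1 - (a 2 + a 3)) =
      (gam M (a 0 ^ 2) * gam M (a 1 ^ 2) - 1) * (a 0 + a 1 - (a 2 + a 3)) +
        gam M (a 0 ^ 2) * gam M (a 1 ^ 2) *
          (a 2 * a 3 * (a 0 + a 1) - a 0 * a 1 * (a 2 + a 3)) := by
    rw [Od]; ring
  rw [e]
  refine (loc_add (loc_mul g2 l1) (loc_mul g1 l3)).trans ?_
  have h3 : 0 ≤ τ ^ 3 := by positivity
  nlinarith

theorem qp_le_of (hF : ringChar F ≠ 2) {x : ℝ} (hx : x ≤ -(1 / 2)) : qp F x ≤ 3 / 5 := by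
  refine (qp_mono hx).trans ?_
  have h3 := three_le_Q hF
  have hp := qp_pos (F := F) (1 / 2)
  have h2 : qp F (1 / 2) ^ 2 = Q F := by
    rw [qp_pow]; norm_num [qp_one]
  have h5 : 5 / 3 ≤ qp F (1 / 2) := by nlinarith
  rw [qp_neg, inv_le_comm₀ hp (by norm_num)]
  linarith

theorem loc_one_le_sq : 1 ≤ ‖sq F‖ := by
  rw [norm_sq]
  exact (qp_zero (F := F)).symm.le.trans (qp_mono (by norm_num))

theorem loc_norm_q : ‖qA F ℂ‖ = Q F := Complex.norm_natCast _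

theorem norm_kap_le {σ y : ℂ} (hσ : ‖σ‖ = 1) (hy : ‖y‖ ≤ 1) : ‖kap F σ y‖ ≤ 2 + Q F := by
  have hq : (1 : ℝ) < Q F := one_lt_Q
  have h1 : ‖σ / sq F‖ ≤ 1 := by
    rw [norm_div, hσ]
    exact div_le_one_of_le₀ loc_one_le_sq (norm_nonneg _)
  have h2 : ‖-(1 - y)‖ ≤ 1 + 1 := by
    rw [norm_neg]; exact loc_sub norm_one.le hy
  have h3 : ‖1 - qA F ℂ * y‖ ≤ 1 + Q F * 1 :=
    loc_sub norm_one.le (loc_mul loc_norm_q.le hy)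
  have h4 : ‖(1 / 2 : ℂ)‖ ≤ 1 / 2 := by norm_num
  have := loc_mul h4 (loc_add h2 (loc_mul h1 h3))
  refine le_trans (le_of_eq ?_) (this.trans (by linarith))
  simp only [kap, Algebra.algebraMap_self, RingHom.id_apply]

theorem norm_dy {σ : ℂ} (hσ : ‖σ‖ = 1) (y : ℂ) : ‖dy F σ y‖ = qp F (1 / 2) * ‖y‖ := by
  simp only [dy, Algebra.algebraMap_self, RingHom.id_apply, norm_mul, hσ, one_mul, norm_sq]

theorem loc_pow {x : ℂ} {s : ℝ} (hx : ‖x‖ ≤ s) (n : ℕ) : ‖x ^ n‖ ≤ s ^ n := by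
  rw [norm_pow]; exact pow_le_pow_left₀ (norm_nonneg _) hx n

theorem norm_pre_le {U : Fin 4 → ℂ} {y : ℂ} (hU : ∀ i, ‖U i‖ ≤ 1) (hy : ‖y‖ ≤ 1) :
    ‖pre F U y‖ ≤ (1 + (Q F : ℝ) ^ 4) ^ 3 ∧ ‖mid F U y‖ ≤ (1 + (Q F : ℝ) ^ 4) ^ 2 := by
  have hq : (1 : ℝ) ≤ Q F := one_lt_Q.le
  have q1 : (Q F : ℝ) ≤ (Q F : ℝ) ^ 4 := le_self_pow₀ hq (by norm_num)
  have q3 : (Q F : ℝ) ^ 3 ≤ (Q F : ℝ) ^ 4 := pow_le_pow_right₀ hq (by norm_num)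
  have nq := (loc_norm_q (F := F)).le
  have y2 : ‖y ^ 2‖ ≤ 1 := (loc_pow hy 2).trans_eq (one_pow 2)
  have u2 : ∀ i, ‖U i ^ 2‖ ≤ 1 := fun i => (loc_pow (hU i) 2).trans_eq (one_pow 2)
  have a1 : ‖1 - qA F ℂ * y ^ 2‖ ≤ 1 + (Q F : ℝ) ^ 4 :=
    (loc_sub norm_one.le (loc_mul nq y2)).trans (by linarith)
  have a2 : ‖1 + qA F ℂ * y‖ ≤ 1 + (Q F : ℝ) ^ 4 :=
    (loc_add norm_one.le (loc_mul nq hy)).trans (by linarith)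
  have a3 : ‖1 - qA F ℂ ^ 4 * U 0 ^ 2 * U 1 ^ 2 * y ^ 2‖ ≤ 1 + (Q F : ℝ) ^ 4 :=
    (loc_sub norm_one.le (loc_mul (loc_mul (loc_mul (loc_pow nq 4) (u2 0)) (u2 1)) y2)).trans
      (by linarith)
  have a4 : ∀ i, ‖1 - qA F ℂ ^ 3 * U i ^ 2 * y ^ 2‖ ≤ 1 + (Q F : ℝ) ^ 4 := fun i =>
    (loc_sub norm_one.le (loc_mul (loc_mul (loc_pow nq 3) (u2 i)) y2)).trans (by linarith)
  exact ⟨(loc_mul (loc_mul a1 a2) a3).trans_eq (by ring),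
    (loc_mul (a4 0) (a4 1)).trans_eq (by ring)⟩

end Pool.Agent.MP_dd7250_nt
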