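import Mathlib
import Pool.Agent.MP_dd7250_nt.Weil
import Pool.Agent.MP_dd7250_nt.Euler
import Pool.Agent.MP_dd7250_nt.An1
import Pool.Agent.MP_dd7250_nt.Loc

/- Bounds for Euler products. -/

set_option autoImplicit false

namespace Pool.Agent.MP_dd7250_nt

open Polynomial Finset Pool.Agent.MP_d232b3_nt
open scoped Classical

variable {F : Type*} [Field F] [Fintype F]

theorem ep_geom {ρ : ℝ} (h0 : 0 ≤ ρ) (h1 : ρ < 1) (N : ℕ) : ∑ d ∈ range N, ρ ^ d ≤ (1 - ρ)⁻¹ := by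
  rw [← tsum_geometric_of_lt_one h0 h1]
  exact (summable_geometric_of_lt_one h0 h1).sum_le_tsum _ fun _ _ => pow_nonneg h0 _

theorem ep_norm (z : ℂ) : ‖1 + z‖ ≤ Real.exp (z.re + ‖z‖ ^ 2 / 2) := by
  refine (sq_le_sq₀ (norm_nonneg _) (Real.exp_pos _).le).1 ?_
  rw [← Real.exp_nat_mul]
  refine le_trans (le_of_eq ?_) (Real.add_one_le_exp _)
  rw [Complex.sq_norm, Complex.sq_norm, Complex.normSq_apply, Complex.normSq_apply]
  simp only [Complex.add_re, Complex.add_im, Complex.one_re, Complex.one_im, Nat.cast_ofNat]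
  ring

theorem sum_pr_le {ε : ℝ} (hε : 0 < ε) :
    ∃ C : ℝ, ∀ M, ∑ P ∈ pr F M, qp F (-(1 + ε) * P.natDegree) ≤ C := by
  refine ⟨(1 - qp F (-ε))⁻¹, fun M => le_trans ?_
    (ep_geom (qp_pos _).le (qp_lt_one (neg_neg_of_pos hε)) (M + 1))⟩
  rw [sum_pr]
  refine Finset.sum_le_sum fun d _ => ?_
  rw [Finset.sum_congr rfl fun P hP => by rw [(mem_prD.1 hP).2.2], Finset.sum_const, nsmul_eq_mul]
  refine (mul_le_mul_of_nonneg_right (c := qp F d) ?_ (qp_pos (F := F) _).le).trans_eq ?_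
  · rw [qp_nat]
    exact_mod_cast card_prD_le d
  · rw [← qp_add, qp_pow]
    congr 1
    ring

theorem sum_powerset_le {ε κ : ℝ} (hε : 0 < ε) (hκ : 0 ≤ κ) : ∃ C : ℝ, ∀ M,
    ∑ e ∈ (pr F M).powerset, ∏ P ∈ e, κ * qp F (-(1 + ε) * P.natDegree) ≤ C := by
  obtain ⟨C, hC⟩ := sum_pr_le (F := F) hε
  refine ⟨Real.exp (κ * C), fun M => ?_⟩
  rw [← Finset.prod_one_add]
  refine (Real.prod_one_add_le_exp_sum _ fun P => mul_nonneg hκ (qp_pos _).le).trans
    (Real.exp_le_exp.2 ?_)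
  rw [← Finset.mul_sum]
  exact mul_le_mul_of_nonneg_left (hC M) hκ

theorem ep_lin {ε κ η : ℝ} (hε : 0 < ε) (hκ : 0 ≤ κ) (hη : 0 < η) : ∃ K : ℝ,
    ∀ (M : ℕ) (x : F[X] → ℂ) (n : ℝ) (φ : ℕ → ℂ), 0 ≤ n → Small x n →
      (∀ d : ℕ, 1 ≤ d → ‖φ d‖ ≤ κ * qp F (-(1 / 2 + ε) * d)) →
      ‖∑ P ∈ pr F M, x P * φ P.natDegree‖ ≤ K + η * n := by
  have h0 := qp_pos (F := F) (-ε)
  have h1 := qp_lt_one (F := F) (neg_neg_of_pos hε)
  obtain ⟨d₀, hd₀⟩ := exists_pow_lt_of_lt_one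
    (show 0 < η * (1 - qp F (-ε)) / (κ + 1) from div_pos (mul_pos hη (sub_pos.2 h1)) (by linarith)) h1
  refine ⟨∑ d ∈ range d₀, κ * qp F d, fun M x n φ hn hx hφ => ?_⟩
  have key : ∀ (d : ℕ) (B : ℝ), ‖∑ P ∈ prD F d, x P‖ ≤ B →
      ‖∑ P ∈ prD F d, x P * φ P.natDegree‖ ≤ κ * qp F (-(1 / 2 + ε) * d) * B := by
    intro d B hB
    rw [Finset.sum_congr rfl fun P hP => by rw [(mem_prD.1 hP).2.2], ← Finset.sum_mul, norm_mul,
      mul_comm]
    have hq := mul_nonneg hκ (qp_pos (F := F) (-(1 / 2 + ε) * d)).le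
    rcases Nat.eq_zero_or_pos d with rfl | hd
    · rw [Finset.sum_eq_zero fun P hP => absurd (mem_prD.1 hP).2.2 (deg_pos (mem_prD.1 hP).2.1).ne',
        norm_zero, mul_zero]
      exact mul_nonneg hq ((norm_nonneg _).trans hB)
    · exact mul_le_mul (hφ d hd) hB (norm_nonneg _) hq
  rw [sum_pr]
  refine (norm_sum_le _ _).trans ((Finset.sum_le_sum_of_subset_of_nonneg
    (Finset.range_mono (Nat.le_add_left (M + 1) d₀)) fun _ _ _ => norm_nonneg _).trans ?_)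
  rw [Finset.sum_range_add]
  refine add_le_add (Finset.sum_le_sum fun d _ => (key d (qp F d) ?_).trans ?_) ?_
  · refine (norm_sum_le _ _).trans ((Finset.sum_le_card_nsmul _ _ 1 fun P _ => hx.1 P).trans ?_)
    rw [nsmul_eq_mul, mul_one, qp_nat]
    exact_mod_cast card_prD_le d
  · refine mul_le_mul_of_nonneg_right (mul_le_of_le_one_right hκ (qp_le_one ?_)) (qp_pos _).le
    exact mul_nonpos_of_nonpos_of_nonneg (by linarith) (Nat.cast_nonneg d)
  · calc _ ≤ ∑ j ∈ range (M + 1), κ * n * qp F (-ε) ^ d₀ * qp F (-ε) ^ j := by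
          refine Finset.sum_le_sum fun j _ => (key _ _ (hx.2 _)).trans_eq ?_
          rw [mul_assoc (κ * n), ← pow_add, qp_pow, mul_mul_mul_comm, ← qp_add]
          congr 2
          ring
      _ ≤ κ * n * qp F (-ε) ^ d₀ * (1 - qp F (-ε))⁻¹ := by
          rw [← Finset.mul_sum]
          exact mul_le_mul_of_nonneg_left (ep_geom h0.le h1 _) (by positivity)
      _ ≤ η * n := by
          rw [← div_eq_mul_inv, div_le_iff₀ (sub_pos.2 h1)]
          rw [lt_div_iff₀ (by linarith)] at hd₀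
          have h2 := pow_pos h0 d₀
          nlinarith [mul_le_mul_of_nonneg_left hd₀.le hn, mul_nonneg hn h2.le]

theorem EP {ε κ η : ℝ} (hε : 0 < ε) (hκ : 0 ≤ κ) (hη : 0 < η) : ∃ C : ℝ, 0 ≤ C ∧
    ∀ (M : ℕ) (x : F[X] → ℂ) (n : ℝ) (φ : ℕ → ℂ) (r : F[X] → ℂ), 0 ≤ n → Small x n →
      (∀ d : ℕ, 1 ≤ d → ‖φ d‖ ≤ κ * qp F (-(1 / 2 + ε) * d)) →
      (∀ P ∈ pr F M, ‖r P‖ ≤ κ * qp F (-(1 + ε) * P.natDegree)) →
      ‖∏ P ∈ pr F M, (1 + x P * φ P.natDegree + r P)‖ ≤ C * qp F (η * n) := by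
  obtain ⟨C, hC⟩ := sum_pr_le (F := F) hε
  obtain ⟨K, hK⟩ := ep_lin (F := F) hε hκ (mul_pos hη (Real.log_pos (one_lt_Q (F := F))))
  refine ⟨Real.exp (K + (κ + 2 * κ ^ 2) * C), (Real.exp_pos _).le,
    fun M x n φ r hn hx hφ hr => ?_⟩
  have h1 : ∀ P ∈ pr F M, ‖1 + x P * φ P.natDegree + r P‖ ≤ Real.exp ((x P * φ P.natDegree).re +
      (κ + 2 * κ ^ 2) * qp F (-(1 + ε) * P.natDegree)) := by
    intro P hP
    have hd := deg_pos (mem_pr.1 hP).2.1
    have hd' : (0 : ℝ) ≤ P.natDegree := Nat.cast_nonneg _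
    have h2 : ‖x P * φ P.natDegree + r P‖ ≤ 2 * κ * qp F (-(1 / 2 + ε) * P.natDegree) := by
      have h3 : ‖x P * φ P.natDegree‖ ≤ κ * qp F (-(1 / 2 + ε) * P.natDegree) := by
        rw [norm_mul]
        exact (mul_le_of_le_one_left (norm_nonneg _) (hx.1 P)).trans (hφ _ hd)
      have h4 := (hr P hP).trans (mul_le_mul_of_nonneg_left
        (qp_mono (y := -(1 / 2 + ε) * P.natDegree) (by nlinarith)) hκ)
      linarith [norm_add_le (x P * φ P.natDegree) (r P)]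
    have h5 : qp F (-(1 / 2 + ε) * P.natDegree) ^ 2 ≤ qp F (-(1 + ε) * P.natDegree) := by
      rw [qp_pow]
      exact qp_mono (by push_cast; nlinarith)
    have h6 := pow_le_pow_left₀ (norm_nonneg _) h2 2
    rw [mul_pow] at h6
    have h7 := mul_le_mul_of_nonneg_left h5 (sq_nonneg (2 * κ))
    have h8 := (Complex.re_le_norm (r P)).trans (hr P hP)
    rw [add_assoc]
    refine (ep_norm _).trans (Real.exp_le_exp.2 ?_)
    rw [Complex.add_re]
    nlinarith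
  rw [norm_prod]
  refine (Finset.prod_le_prod (fun _ _ => norm_nonneg _) h1).trans ?_
  rw [← Real.exp_sum, qp, Real.rpow_def_of_pos (zero_lt_one.trans one_lt_Q), ← Real.exp_add,
    Real.exp_le_exp, Finset.sum_add_distrib, ← Complex.re_sum, ← Finset.mul_sum]
  have h2 := (Complex.re_le_norm _).trans (hK M x n φ hn hx hφ)
  have h3 := mul_le_mul_of_nonneg_left (hC M) (show 0 ≤ κ + 2 * κ ^ 2 by positivity)
  linarith

theorem ep_coeff (a : ℕ → ℂ) (n : ℕ) :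
    (∑ k ∈ range (n + 1), algebraMap ℂ ℂ[X] (a k) * X ^ k).coeff n = a n := by
  simp [finsetSum_coeff, coeff_C_mul, coeff_X_pow]

theorem AA_bound (hF : ringChar F ≠ 2) {ε : ℝ} (hε : 0 < ε) : ∃ C : ℝ, 0 ≤ C ∧
    ∀ D : F[X], D.Monic → ¬ IsSquare D → ∀ n : ℕ,
      ‖AA (jac D) n‖ ≤ C * qp F ((1 / 2 + ε) * n + ε * D.natDegree) ∧
      ‖ainv (jac D) n‖ ≤ C * qp F ((1 / 2 + ε) * n + ε * D.natDegree) := by
  obtain ⟨C, hC0, hC⟩ := EP (F := F) hε (κ := 5 / 2) (by norm_num) (half_pos hε)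
  refine ⟨C * qp F ε, mul_nonneg hC0 (qp_pos _).le, fun D hD hs n => ?_⟩
  have hS := small_jac hF hD hs
  have hN : (0 : ℝ) ≤ 2 * D.natDegree + 2 := by positivity
  have fin : ∀ a : ℂ, ‖a‖ * qp F (-(1 / 2 + ε)) ^ n ≤ C * qp F (ε / 2 * (2 * D.natDegree + 2)) →
      ‖a‖ ≤ C * qp F ε * qp F ((1 / 2 + ε) * n + ε * D.natDegree) := by
    intro a ha
    refine le_of_mul_le_mul_right (ha.trans_eq ?_) (pow_pos (qp_pos (F := F) (-(1 / 2 + ε))) n)
    rw [qp_pow, mul_assoc, mul_assoc, ← qp_add, ← qp_add]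
    congr 2
    ring
  have hz : ∀ z : ℂ, ‖z‖ = qp F (-(1 / 2 + ε)) → ∀ d : ℕ,
      ‖z ^ d‖ = qp F (-(1 / 2 + ε) * d) := fun z hz d => by rw [norm_pow, hz, qp_pow]
  constructor
  · have h1 := transfer1 (Lt (jac D) n X)
      (∏ P ∈ pr F n, gam n (algebraMap ℂ ℂ[X] (jac D P) * X ^ P.natDegree)) n
      (fun A _ _ φ h => ?_) le_rfl
    · refine fin _ ?_
      rw [← ep_coeff (AA (jac D)) n, ← Lt, h1]
      refine extract1 _ (qp_pos _) (fun z hz' => ?_) n
      have h2 := hC n (jac D) _ (fun d => z ^ d)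
        (fun P => gam n (jac D P * z ^ P.natDegree) - 1 - jac D P * z ^ P.natDegree) hN hS
        (fun d _ => by linarith [hz z hz' d, qp_pos (F := F) (-(1 / 2 + ε) * d)]) fun P hP => ?_
      · simpa [map_prod, map_gam] using h2
      · have hd := deg_pos (mem_pr.1 hP).2.1
        have hd' : (1 : ℝ) ≤ P.natDegree := by exact_mod_cast hd
        have h3 : ‖jac D P * z ^ P.natDegree‖ ≤ qp F (-(1 / 2 + ε) * P.natDegree) := by
          rw [norm_mul, hz z hz']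
          exact mul_le_of_le_one_left (qp_pos _).le (hS.1 P)
        refine (norm_gam_sub_sub (hd.trans_le (mem_pr.1 hP).2.2) (r := 3 / 5) (by norm_num)
          (h3.trans (qp_le_of hF (by nlinarith)))).trans ?_
        refine mul_le_mul (by norm_num) ((pow_le_pow_left₀ (norm_nonneg _) h3 2).trans ?_)
          (sq_nonneg _) (by norm_num)
        rw [qp_pow]
        exact qp_mono (by push_cast; nlinarith)
    · have h2 := Lt_mul_prod (jac_cm D) le_rfl h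
      have h3 : (∏ P ∈ pr F n, gam n (algebraMap ℂ A (jac D P) * φ X ^ P.natDegree)) *
          ∏ P ∈ pr F n, (1 - algebraMap ℂ A (jac D P) * φ X ^ P.natDegree) = 1 := by
        rw [← Finset.prod_mul_distrib]
        refine Finset.prod_eq_one fun P hP => gam_mul ?_
        rw [mul_pow, ← pow_mul, mul_comm P.natDegree, pow_mul, h,
          zero_pow (deg_pos (mem_pr.1 hP).2.1).ne', mul_zero]
      simp only [map_Lt, map_prod, map_gam, map_mul, map_pow, AlgHom.commutes]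
      rw [← mul_one (Lt _ _ _), ← h3, mul_left_comm, h2, mul_one]
  · have h1 := transfer1 (Li (jac D) n X)
      (∏ P ∈ pr F n, (1 - algebraMap ℂ ℂ[X] (jac D P) * X ^ P.natDegree)) n
      (fun A _ _ φ h => ?_) le_rfl
    · refine fin _ ?_
      rw [← ep_coeff (ainv (jac D)) n, ← Li, h1]
      refine extract1 _ (qp_pos _) (fun z hz' => ?_) n
      have h2 := hC n (jac D) _ (fun d => -z ^ d) (fun _ => 0) hN hS
        (fun d _ => by
          rw [norm_neg]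
          linarith [hz z hz' d, qp_pos (F := F) (-(1 / 2 + ε) * d)]) fun P _ => by
            rw [norm_zero]
            exact mul_nonneg (by norm_num) (qp_pos _).le
      simpa [map_prod, sub_eq_add_neg] using h2
    · simp only [map_Li, map_prod, map_sub, map_one, map_mul, map_pow, AlgHom.commutes]
      exact Li_eq_prod (jac_cm D) le_rfl h

theorem nat_le_qp {ε : ℝ} (hε : 0 < ε) : ∃ C : ℝ, 0 ≤ C ∧ ∀ n : ℕ, (n + 1 : ℝ) ≤ C * qp F (ε * n) := by
  have h0 : 0 < qp F ε - 1 := sub_pos.2 (Real.one_lt_rpow one_lt_Q hε)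
  refine ⟨1 + (qp F ε - 1)⁻¹, by positivity, fun n => ?_⟩
  have h1 := one_add_mul_le_pow (a := qp F ε - 1) (by linarith) n
  rw [add_sub_cancel, qp_pow] at h1
  refine le_trans ?_ (mul_le_mul_of_nonneg_left h1 (by positivity))
  have h2 := inv_mul_cancel₀ h0.ne'
  have h3 := inv_pos.2 h0
  have h4 : (0 : ℝ) ≤ n := Nat.cast_nonneg n
  nlinarith [mul_nonneg h4 h0.le]

end Pool.Agent.MP_dd7250_nt
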