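import Mathlib
import Pool.Agent.MP_dd7250_nt.EP
import Pool.Agent.MP_dd7250_nt.Loc

/- The nonsquare dual terms and the diagonal correction. -/

set_option autoImplicit false

namespace Pool.Agent.MP_dd7250_nt

open Polynomial Finset Pool.Agent.MP_d232b3_nt
open scoped Classical

variable {F : Type*} [Field F] [Fintype F]

theorem prpd_k_pos {ε : ℝ} (hε : 0 < ε) : 0 < (1 - qp F (-(2 * ε)))⁻¹ :=
  inv_pos.2 (sub_pos.2 (qp_lt_one (by linarith)))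

theorem prpd_rho {ε : ℝ} (hε : 0 < ε) (I : ℕ) {y : ℂ} (hy : ‖y‖ ≤ qp F (-ε)) {d : ℕ}
    (hd : 1 ≤ d) : ‖rho I y d‖ ≤ (1 - qp F (-(2 * ε)))⁻¹ := by
  refine norm_gam_le (qp_lt_one (by linarith)) ?_
  rw [← pow_mul, norm_pow]
  refine (pow_le_pow_left₀ (norm_nonneg _) hy _).trans ?_
  rw [qp_pow]
  refine qp_mono ?_
  have h1 : (1 : ℝ) ≤ d := by exact_mod_cast hd
  push_cast
  nlinarith

theorem prpd_Ev (hF : ringChar F ≠ 2) {ε : ℝ} (hε : 0 < ε) (M : ℕ) {U : Fin 4 → ℂ}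
    (hU : ∀ i, ‖U i‖ ≤ qp F (-(1 / 2 + ε))) {d : ℕ} (hd : 1 ≤ d) :
    ‖Ev M (pw U d)‖ ≤ 40 * qp F (-(1 + 2 * ε) * d) := by
  have h1 : (1 : ℝ) ≤ d := by exact_mod_cast hd
  have h2 : ∀ i, ‖pw U d i‖ ≤ qp F (-(1 / 2 + ε) * d) := fun i => by
    rw [pw, norm_pow, ← qp_pow]
    exact pow_le_pow_left₀ (norm_nonneg _) (hU i) _
  refine (norm_Ev_le M (qp_le_of hF (by nlinarith)) h2).trans_eq ?_
  rw [qp_pow]
  congr 2
  push_cast
  ring

theorem prpd_Evrho (hF : ringChar F ≠ 2) {ε : ℝ} (hε : 0 < ε) (M I : ℕ) {U : Fin 4 → ℂ} {y : ℂ}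
    (hU : ∀ i, ‖U i‖ ≤ qp F (-(1 / 2 + ε))) (hy : ‖y‖ ≤ qp F (-ε)) {d : ℕ} (hd : 1 ≤ d) :
    ‖Ev M (pw U d) * rho I y d‖ ≤
      40 * (1 - qp F (-(2 * ε)))⁻¹ * qp F (-(1 + 2 * ε) * d) := by
  rw [norm_mul, mul_right_comm]
  exact mul_le_mul (prpd_Ev hF hε M hU hd) (prpd_rho hε I hy hd) (norm_nonneg _)
    (mul_nonneg (by norm_num) (qp_pos _).le)

theorem prpd_Od (hF : ringChar F ≠ 2) {ε : ℝ} (hε : 0 < ε) (M I : ℕ) {U : Fin 4 → ℂ} {y σ : ℂ}
    (hσ : ‖σ‖ = 1) (hU : ∀ i, ‖U i‖ ≤ qp F (-(1 / 2 + ε))) (hy : ‖y‖ ≤ qp F (-ε))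
    (hUy : ∀ i, qp F (1 / 2) * ‖y‖ * ‖U i‖ ≤ qp F (-(1 / 2 + ε))) {d : ℕ} (hd : 1 ≤ d) :
    ‖Od M (pw U d) * rho I y d * dy F σ y ^ d‖ ≤
      40 * (1 - qp F (-(2 * ε)))⁻¹ * qp F (-(1 / 2 + ε) * d) := by
  have h1 : (1 : ℝ) ≤ d := by exact_mod_cast hd
  obtain ⟨i₀, -, hi⟩ := exists_max_image (univ : Finset (Fin 4)) (fun i => ‖U i‖) univ_nonempty
  have h2 : ∀ i, ‖pw U d i‖ ≤ ‖U i₀‖ ^ d := fun i => by
    rw [pw, norm_pow]
    exact pow_le_pow_left₀ (norm_nonneg _) (hi i (mem_univ _)) _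
  have h3 : ‖U i₀‖ ^ d ≤ 3 / 5 := by
    refine (pow_le_pow_left₀ (norm_nonneg _) (hU i₀) _).trans ?_
    rw [qp_pow]
    exact qp_le_of hF (by nlinarith)
  have h4 := norm_Od_le M h3 h2
  have h5 : ‖U i₀‖ ^ d * ‖dy F σ y ^ d‖ ≤ qp F (-(1 / 2 + ε) * d) := by
    rw [norm_pow, norm_dy hσ, ← mul_pow, mul_comm, ← qp_pow]
    exact pow_le_pow_left₀
      (mul_nonneg (mul_nonneg (qp_pos _).le (norm_nonneg _)) (norm_nonneg _)) (hUy i₀) _
  have h6 := prpd_rho hε I hy hd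
  have h7 := prpd_k_pos (F := F) hε
  rw [norm_mul, norm_mul]
  calc ‖Od M (pw U d)‖ * ‖rho I y d‖ * ‖dy F σ y ^ d‖
      ≤ 40 * ‖U i₀‖ ^ d * (1 - qp F (-(2 * ε)))⁻¹ * ‖dy F σ y ^ d‖ := by gcongr
    _ = 40 * (1 - qp F (-(2 * ε)))⁻¹ * (‖U i₀‖ ^ d * ‖dy F σ y ^ d‖) := by ring
    _ ≤ _ := by gcongr

theorem prpd_wV {ε : ℝ} (hε : 0 < ε) (M : ℕ) {y : ℂ} (hy : ‖y‖ ≤ qp F (-ε)) :
    ∑ V ∈ monLe F M, ‖wV F M y V‖ ≤ M + 1 := by
  have hy1 : ‖y‖ ≤ 1 := hy.trans (qp_le_one (by linarith))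
  have hq : (0 : ℝ) < Q F := zero_lt_one.trans one_lt_Q
  rw [sum_monLe]
  calc ∑ d ∈ range (M + 1), ∑ V ∈ monF F d, ‖wV F M y V‖
      ≤ ∑ _d ∈ range (M + 1), (1 : ℝ) := by
        refine sum_le_sum fun d _ => ?_
        calc ∑ V ∈ monF F d, ‖wV F M y V‖ ≤ ∑ _V ∈ monF F d, ((Q F : ℝ) ^ d)⁻¹ := by
              refine sum_le_sum fun V hV => ?_
              rw [wV, (mem_monF.1 hV).2, norm_mul, norm_pow]
              simp only [Algebra.algebraMap_self, RingHom.id_apply, norm_inv, norm_pow,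
                Complex.norm_natCast]
              exact mul_le_of_le_one_right (by positivity) (pow_le_one₀ (norm_nonneg _) hy1)
          _ = 1 := by
              rw [sum_const, card_monF, nsmul_eq_mul]
              push_cast
              exact mul_inv_cancel₀ (by positivity)
    _ = M + 1 := by simp

theorem prpd_lO (M I : ℕ) (U : Fin 4 → ℂ) (y σ : ℂ) (V : F[X]) {e : Finset F[X]}
    (he : e ⊆ pr F M) :
    ∏ P ∈ pr F M \ e, lO M I U y σ (V * ∏ P ∈ e, P) P =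
      ∏ P ∈ pr F M, (1 + jac (V * ∏ P ∈ e, P) P *
        (fun d => Od M (pw U d) * rho I y d * dy F σ y ^ d) P.natDegree +
        (fun P : F[X] => if P ∈ e then 0 else
          Ev M (pw U P.natDegree) * rho I y P.natDegree) P) := by
  rw [← prod_sdiff he]
  have h1 : ∏ P ∈ e, (1 + jac (V * ∏ P ∈ e, P) P *
        (fun d => Od M (pw U d) * rho I y d * dy F σ y ^ d) P.natDegree +
        (fun P : F[X] => if P ∈ e then 0 else
          Ev M (pw U P.natDegree) * rho I y P.natDegree) P) = 1 := by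
    refine prod_eq_one fun P hP => ?_
    have h2 := mem_pr.1 (he hP)
    have h3 := jac_sq_prime (V * ∏ P ∈ e, P) h2.1 h2.2.1
    rw [if_pos ((dvd_prod_of_mem (fun P => P) hP).mul_left V)] at h3
    have h4 : jac (V * ∏ P ∈ e, P) P = 0 := pow_eq_zero_iff two_ne_zero |>.1 h3
    simp only [h4, if_pos hP, zero_mul, add_zero]
  rw [h1, mul_one]
  refine prod_congr rfl fun P hP => ?_
  simp only [lO, if_neg (mem_sdiff.1 hP).2, Algebra.algebraMap_self, RingHom.id_apply]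
  ring

theorem prpd_qp_sum {ι : Type*} (s : Finset ι) (f : ι → ℝ) :
    qp F (∑ i ∈ s, f i) = ∏ i ∈ s, qp F (f i) := by
  induction s using Finset.induction_on with
  | empty => simp [qp_zero]
  | insert a s ha ih => rw [sum_insert ha, prod_insert ha, qp_add, ih]

theorem Pr_bound (hF : ringChar F ≠ 2) {ε : ℝ} (hε : 0 < ε) : ∃ C : ℝ,
    ∀ (M I : ℕ) (U : Fin 4 → ℂ) (y : ℂ), (∀ i, ‖U i‖ ≤ qp F (-(1 / 2 + ε))) →
      ‖y‖ ≤ qp F (-ε) → (∀ i, qp F (1 / 2) * ‖y‖ * ‖U i‖ ≤ qp F (-(1 / 2 + ε))) →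
      ‖Pr F M I U y‖ ≤ C * qp F (ε * M) := by
  set κ : ℝ := 40 * (1 - qp F (-(2 * ε)))⁻¹ with hκ
  have hκ0 : 0 ≤ κ := mul_nonneg (by norm_num) (prpd_k_pos hε).le
  obtain ⟨C₁, hC₁, h₁⟩ := EP (F := F) hε hκ0 (η := ε / 4) (by linarith)
  obtain ⟨C₂, h₂⟩ := sum_powerset_le (F := F) hε hκ0
  obtain ⟨C₃, hC₃, h₃⟩ := nat_le_qp (F := F) (ε := ε / 2) (by linarith)
  refine ⟨2 * ((2 + Q F) * (C₃ * (C₁ * qp F (ε / 2) * C₂))), fun M I U y hU hy hUy => ?_⟩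
  have hy1 : ‖y‖ ≤ 1 := hy.trans (qp_le_one (by linarith))
  have hC₂ : 0 ≤ C₂ := le_trans
    (sum_nonneg fun e _ => prod_nonneg fun P _ => mul_nonneg hκ0 (qp_pos _).le) (h₂ M)
  have key : ∀ σ : ℂ, ‖σ‖ = 1 → ∀ V ∈ monLe F M, ∀ e ∈ (pr F M).powerset,
      ¬ IsSquare (V * ∏ P ∈ e, P) →
      ‖(∏ P ∈ e, lE M I U y P.natDegree) *
        ∏ P ∈ pr F M \ e, lO M I U y σ (V * ∏ P ∈ e, P) P‖ ≤
      C₁ * qp F (ε / 2) * qp F (ε / 2 * M) *
        ∏ P ∈ e, κ * qp F (-(1 + ε) * P.natDegree) := by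
    intro σ hσ V hV e he hs
    have he' := mem_powerset.1 he
    obtain ⟨hm, -, hd, -⟩ := monic_sqfree_prod he'
    obtain ⟨hVm, hVd⟩ := mem_monLe.1 hV
    have hW := hVm.mul hm
    have hdW : ((V * ∏ P ∈ e, P).natDegree : ℝ) ≤ M + ∑ P ∈ e, (P.natDegree : ℝ) := by
      rw [hVm.natDegree_mul hm, hd]
      push_cast
      have : (V.natDegree : ℝ) ≤ M := by exact_mod_cast hVd
      linarith
    have h4 := h₁ M (jac (V * ∏ P ∈ e, P)) _
      (fun d => Od M (pw U d) * rho I y d * dy F σ y ^ d)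
      (fun P : F[X] => if P ∈ e then 0 else Ev M (pw U P.natDegree) * rho I y P.natDegree)
      (by positivity) (small_jac hF hW hs) (fun d hd => prpd_Od hF hε M I hσ hU hy hUy hd)
      (fun P hP => by
        have h5 := deg_pos (mem_pr.1 hP).2.1
        split_ifs
        · rw [norm_zero]
          exact mul_nonneg hκ0 (qp_pos _).le
        · refine (prpd_Evrho hF hε M I hU hy h5).trans
            (mul_le_mul_of_nonneg_left (qp_mono ?_) hκ0)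
          have : (0 : ℝ) ≤ P.natDegree := Nat.cast_nonneg _
          nlinarith)
    rw [← prpd_lO M I U y σ V he'] at h4
    have h5 : qp F (ε / 4 * (2 * ((V * ∏ P ∈ e, P).natDegree : ℝ) + 2)) ≤
        qp F (ε / 2) * qp F (ε / 2 * M) * ∏ P ∈ e, qp F (ε / 2 * P.natDegree) := by
      rw [← prpd_qp_sum, ← qp_add, ← qp_add, ← mul_sum]
      exact qp_mono (by nlinarith)
    have h6 : ‖∏ P ∈ e, lE M I U y P.natDegree‖ * ∏ P ∈ e, qp F (ε / 2 * P.natDegree) ≤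
        ∏ P ∈ e, κ * qp F (-(1 + ε) * P.natDegree) := by
      rw [norm_prod, ← prod_mul_distrib]
      refine prod_le_prod (fun P _ => mul_nonneg (norm_nonneg _) (qp_pos _).le) fun P hP => ?_
      have h7 := deg_pos (mem_pr.1 (he' hP)).2.1
      have h8 : ‖lE M I U y P.natDegree‖ ≤ κ * qp F (-(1 + 2 * ε) * P.natDegree) := by
        rw [lE, norm_neg, norm_mul, norm_pow]
        exact (mul_le_of_le_one_right (norm_nonneg _) (pow_le_one₀ (norm_nonneg _) hy1)).trans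
          (prpd_Evrho hF hε M I hU hy h7)
      refine (mul_le_mul_of_nonneg_right h8 (qp_pos _).le).trans ?_
      rw [mul_assoc, ← qp_add]
      refine mul_le_mul_of_nonneg_left (qp_mono ?_) hκ0
      have : (0 : ℝ) ≤ P.natDegree := Nat.cast_nonneg _
      nlinarith
    have h9 : 0 ≤ C₁ * qp F (ε / 2) * qp F (ε / 2 * M) :=
      mul_nonneg (mul_nonneg hC₁ (qp_pos _).le) (qp_pos _).le
    rw [norm_mul]
    calc _ ≤ ‖∏ P ∈ e, lE M I U y P.natDegree‖ * (C₁ * (qp F (ε / 2) * qp F (ε / 2 * M) *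
          ∏ P ∈ e, qp F (ε / 2 * P.natDegree))) :=
          mul_le_mul_of_nonneg_left (h4.trans (mul_le_mul_of_nonneg_left h5 hC₁)) (norm_nonneg _)
      _ = C₁ * qp F (ε / 2) * qp F (ε / 2 * M) *
          (‖∏ P ∈ e, lE M I U y P.natDegree‖ * ∏ P ∈ e, qp F (ε / 2 * P.natDegree)) := by ring
      _ ≤ _ := mul_le_mul_of_nonneg_left h6 h9
  have key2 : ∀ σ : ℂ, ‖σ‖ = 1 → ‖kap F σ y * ∑ V ∈ monLe F M,
      ∑ e ∈ (pr F M).powerset with ¬ IsSquare (V * ∏ P ∈ e, P), wV F M y V *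
        ((∏ P ∈ e, lE M I U y P.natDegree) *
          ∏ P ∈ pr F M \ e, lO M I U y σ (V * ∏ P ∈ e, P) P)‖ ≤
      (2 + Q F) * (C₃ * (C₁ * qp F (ε / 2) * C₂)) * qp F (ε * M) := by
    intro σ hσ
    have h9 : 0 ≤ C₁ * qp F (ε / 2) * qp F (ε / 2 * M) :=
      mul_nonneg (mul_nonneg hC₁ (qp_pos _).le) (qp_pos _).le
    have h4 : ∀ V ∈ monLe F M,
        ‖∑ e ∈ (pr F M).powerset with ¬ IsSquare (V * ∏ P ∈ e, P), wV F M y V *
          ((∏ P ∈ e, lE M I U y P.natDegree) *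
            ∏ P ∈ pr F M \ e, lO M I U y σ (V * ∏ P ∈ e, P) P)‖ ≤
        ‖wV F M y V‖ * (C₁ * qp F (ε / 2) * qp F (ε / 2 * M) * C₂) := by
      intro V hV
      rw [← mul_sum, norm_mul]
      refine mul_le_mul_of_nonneg_left ((norm_sum_le _ _).trans ?_) (norm_nonneg _)
      calc _ ≤ ∑ e ∈ (pr F M).powerset with ¬ IsSquare (V * ∏ P ∈ e, P),
            C₁ * qp F (ε / 2) * qp F (ε / 2 * M) *
              ∏ P ∈ e, κ * qp F (-(1 + ε) * P.natDegree) :=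
            sum_le_sum fun e he => key σ hσ V hV e (mem_filter.1 he).1 (mem_filter.1 he).2
        _ ≤ ∑ e ∈ (pr F M).powerset, C₁ * qp F (ε / 2) * qp F (ε / 2 * M) *
              ∏ P ∈ e, κ * qp F (-(1 + ε) * P.natDegree) :=
            sum_le_sum_of_subset_of_nonneg (filter_subset _ _) fun e _ _ =>
              mul_nonneg h9 (prod_nonneg fun P _ => mul_nonneg hκ0 (qp_pos _).le)
        _ ≤ _ := by
            rw [← mul_sum]
            exact mul_le_mul_of_nonneg_left (h₂ M) h9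
    have h5 := (norm_sum_le _ _).trans (sum_le_sum h4)
    rw [← sum_mul] at h5
    have h6 := h5.trans (mul_le_mul_of_nonneg_right ((prpd_wV hε M hy).trans (h₃ M))
      (mul_nonneg h9 hC₂))
    have h7 : qp F (ε * M) = qp F (ε / 2 * M) * qp F (ε / 2 * M) := by
      rw [← qp_add]
      congr 1
      ring
    rw [norm_mul, h7]
    refine (mul_le_mul (norm_kap_le hσ hy1) h6 (norm_nonneg _) (by positivity)).trans_eq ?_
    ring
  rw [Pr, sum_pair (by norm_num : (1 : ℂ) ≠ -1)]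
  refine (norm_add_le _ _).trans ((add_le_add (key2 1 norm_one) (key2 (-1) (by simp))).trans_eq ?_)
  ring

theorem Pd_bound (hF : ringChar F ≠ 2) {ε : ℝ} (hε : 0 < ε) : ∃ C : ℝ,
    ∀ (M I : ℕ) (U : Fin 4 → ℂ) (y : ℂ), (∀ i, ‖U i‖ ≤ qp F (-(1 / 2 + ε))) →
      ‖y‖ ≤ qp F (-ε) → ‖Pd F M I U y‖ ≤ C := by
  set κ : ℝ := 40 * (1 - qp F (-(2 * ε)))⁻¹ with hκ
  have hκ0 : 0 ≤ κ := mul_nonneg (by norm_num) (prpd_k_pos hε).le
  obtain ⟨C₁, -, h₁⟩ := EP (F := F) hε (κ := 2 * κ) (by linarith) hε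
  refine ⟨C₁, fun M I U y hU hy => ?_⟩
  have hy1 : ‖y‖ ≤ 1 := hy.trans (qp_le_one (by linarith))
  have h4 := h₁ M (fun _ => 0) 0 (fun _ => 0)
    (fun P : F[X] => Ev M (pw U P.natDegree) * rho I y P.natDegree * (1 - y ^ P.natDegree))
    le_rfl small_zero
    (fun d _ => by
      rw [norm_zero]
      exact mul_nonneg (by linarith) (qp_pos _).le)
    (fun P hP => by
      have h5 := deg_pos (mem_pr.1 hP).2.1
      have h6 : ‖1 - y ^ P.natDegree‖ ≤ 2 := by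
        refine (norm_sub_le _ _).trans ?_
        rw [norm_one, norm_pow]
        linarith [pow_le_one₀ (n := P.natDegree) (norm_nonneg _) hy1]
      have h7 : ‖Ev M (pw U P.natDegree) * rho I y P.natDegree‖ ≤
          κ * qp F (-(1 + ε) * P.natDegree) := by
        refine (prpd_Evrho hF hε M I hU hy h5).trans
          (mul_le_mul_of_nonneg_left (qp_mono ?_) hκ0)
        have : (0 : ℝ) ≤ P.natDegree := Nat.cast_nonneg _
        nlinarith
      rw [norm_mul]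
      refine (mul_le_mul h7 h6 (norm_nonneg _) (mul_nonneg hκ0 (qp_pos _).le)).trans_eq ?_
      ring)
  simpa only [Pd, mul_zero, add_zero, qp_zero, mul_one] using h4

end Pool.Agent.MP_dd7250_nt
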