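import Mathlib
import Pool.Agent.MP_dd7250_nt.EP
import Pool.Agent.MP_dd7250_nt.Loc

/- The square dual terms. -/

set_option autoImplicit false

namespace Pool.Agent.MP_dd7250_nt

open Polynomial Finset Pool.Agent.MP_d232b3_nt
open scoped Classical

variable {F : Type*} [Field F] [Fintype F]

theorem psb_om (M : ℕ) {z₀ z₁ w₂ w₃ : ℂ} {θ : ℝ} (hθ : θ ≤ 3 / 5) (h₀ : ‖z₀‖ ≤ θ) (h₁ : ‖z₁‖ ≤ θ)
    (h₂ : ‖w₂‖ ≤ θ) (h₃ : ‖w₃‖ ≤ θ) :
    ‖(1 - z₀) * (1 - z₁) * (gam M w₂ * gam M w₃)‖ ≤ 16 ∧ (1 ≤ M →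
      ‖(1 - z₀) * (1 - z₁) * (gam M w₂ * gam M w₃) - (1 - (z₀ + z₁ - (w₂ + w₃)))‖ ≤
        35 * θ ^ 2) := by
  have h0 : 0 ≤ θ := (norm_nonneg _).trans h₀
  have g : ∀ w : ℂ, ‖w‖ ≤ θ → ‖gam M w‖ ≤ 5 / 2 ∧ ‖gam M w - 1‖ ≤ 5 / 2 * θ ∧
      (1 ≤ M → ‖gam M w - 1 - w‖ ≤ 5 / 2 * θ ^ 2) := by
    intro w hw
    have e : (1 - 3 / 5 : ℝ)⁻¹ = 5 / 2 := by norm_num
    refine ⟨e ▸ norm_gam_le (by norm_num) (hw.trans hθ), ?_, fun hM => ?_⟩
    · exact (norm_gam_sub_one (r := 3 / 5) (by norm_num) (hw.trans hθ)).trans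
        (e ▸ mul_le_mul_of_nonneg_left hw (by norm_num))
    · exact (norm_gam_sub_sub hM (r := 3 / 5) (by norm_num) (hw.trans hθ)).trans
        (e ▸ mul_le_mul_of_nonneg_left (pow_le_pow_left₀ (norm_nonneg _) hw 2) (by norm_num))
  obtain ⟨a1, a2, a3⟩ := g w₂ h₂
  obtain ⟨b1, b2, b3⟩ := g w₃ h₃
  constructor
  · exact (loc_mul (loc_mul (loc_sub norm_one.le (h₀.trans hθ)) (loc_sub norm_one.le (h₁.trans hθ)))
      (loc_mul a1 b1)).trans (by norm_num)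
  · intro hM
    have e : (1 - z₀) * (1 - z₁) * (gam M w₂ * gam M w₃) - (1 - (z₀ + z₁ - (w₂ + w₃))) =
        (gam M w₂ - 1 - w₂) + (gam M w₃ - 1 - w₃) + (gam M w₂ - 1) * (gam M w₃ - 1) -
          (z₀ + z₁) * ((gam M w₂ - 1) * gam M w₃ + (gam M w₃ - 1)) +
          z₀ * z₁ * (gam M w₂ * gam M w₃) := by ring
    rw [e]
    refine (loc_add (loc_sub (loc_add (loc_add (a3 hM) (b3 hM)) (loc_mul a2 b2))
      (loc_mul (loc_add h₀ h₁) (loc_add (loc_mul a2 b1) b2)))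
      (loc_mul (loc_mul h₀ h₁) (loc_mul a1 b1))).trans_eq (by ring)

theorem psb_loc (hF : ringChar F ≠ 2) {ε : ℝ} (hε : 0 < ε) (hε' : ε ≤ 1 / 4) (M I : ℕ)
    {U : Fin 4 → ℂ} {y σ : ℂ} (hσ : ‖σ‖ = 1) (hU : ∀ i, ‖U i‖ ≤ qp F (-(1 / 2 + 2 * ε)))
    (hy : ‖y‖ = qp F (-(1 / 2 - ε))) {d : ℕ} (hd : 1 ≤ d) :
    ‖om F M U y σ d * (Od M (pw U d) * rho I y d * dy F σ y ^ d)‖ ≤
        5000 * qp F (-(1 / 2 + ε) * d) ∧
      ‖om F M U y σ d * lE M I U y d‖ * qp F ((1 / 2 + ε) * d) ≤ 5000 * qp F (-(1 + ε) * d) ∧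
      (1 ≤ M → ‖om F M U y σ d * (1 + Ev M (pw U d) * rho I y d +
        Od M (pw U d) * rho I y d * dy F σ y ^ d) - 1‖ ≤ 5000 * qp F (-(1 + ε) * d)) := by
  have hd' : (1 : ℝ) ≤ d := by exact_mod_cast hd
  set τ := qp F (-(1 / 2 + 2 * ε) * d) with hτ
  set θ := qp F (-(1 / 2 + ε) * d) with hθ
  set η := qp F (-(1 / 2 - ε) * d) with hη
  set μ := qp F (-(1 + ε) * d) with hμ
  have τ0 : 0 < τ := qp_pos _
  have θ0 : 0 < θ := qp_pos _
  have η0 : 0 < η := qp_pos _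
  have μ0 : 0 < μ := qp_pos _
  have τ1 : τ ≤ 3 / 5 := qp_le_of hF (by nlinarith)
  have θ1 : θ ≤ 3 / 5 := qp_le_of hF (by nlinarith)
  have ha : ∀ i, ‖pw U d i‖ ≤ τ := fun i => (loc_pow (hU i) d).trans_eq (qp_pow _ _)
  have hδ : ‖dy F σ y ^ d‖ ≤ qp F (ε * d) := by
    rw [norm_pow, norm_dy hσ, hy, ← qp_add, qp_pow]
    exact le_of_eq (by congr 2; ring)
  have hτδ : τ * qp F (ε * d) = θ := by
    rw [hτ, ← qp_add]
    congr 1
    ring
  have hz : ∀ i, (dy F σ y * U i) ^ d = pw U d i * dy F σ y ^ d := fun i => by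
    rw [mul_pow, mul_comm, pw]
  have hz' : ∀ i, ‖(dy F σ y * U i) ^ d‖ ≤ θ := fun i => by
    rw [hz, ← hτδ]
    exact loc_mul (ha i) hδ
  have hyd : ‖y ^ d‖ ≤ η := (loc_pow hy.le d).trans_eq (qp_pow _ _)
  have η1 : η ^ 2 ≤ 3 / 5 := by
    rw [hη, qp_pow]
    exact qp_le_of hF (by push_cast; nlinarith)
  have hy2 := loc_pow hyd 2
  have e5 : (1 - 3 / 5 : ℝ)⁻¹ = 5 / 2 := by norm_num
  have ρ1 : ‖rho I y d‖ ≤ 5 / 2 := e5 ▸ norm_gam_le (by norm_num) (hy2.trans η1)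
  have ρ2 : ‖rho I y d - 1‖ ≤ 5 / 2 * η ^ 2 :=
    (norm_gam_sub_one (r := 3 / 5) (by norm_num) (hy2.trans η1)).trans
      (e5 ▸ mul_le_mul_of_nonneg_left hy2 (by norm_num))
  obtain ⟨o1, o2⟩ := psb_om M θ1 (hz' 0) (hz' 1) (hz' 2) (hz' 3)
  change ‖om F M U y σ d‖ ≤ 16 at o1
  have hE := norm_Ev_le M τ1 ha
  have hO := norm_Od_le M τ1 ha
  have hO' := norm_Od_sub M τ1 ha
  have m1 : τ ^ 2 ≤ μ := by
    rw [hτ, qp_pow]
    exact qp_mono (by push_cast; nlinarith)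
  have m2 : θ ^ 2 ≤ μ := by
    rw [hθ, qp_pow]
    exact qp_mono (by push_cast; nlinarith)
  have m3 : θ * η ^ 2 ≤ μ := by
    rw [hθ, hη, qp_pow, ← qp_add]
    exact qp_mono (by push_cast; nlinarith)
  have m4 : τ ^ 2 * η * qp F ((1 / 2 + ε) * d) ≤ μ := by
    rw [hτ, hη, qp_pow, ← qp_add, ← qp_add]
    exact qp_mono (by push_cast; nlinarith)
  refine ⟨?_, ?_, fun hM => ?_⟩
  · refine (loc_mul o1 (loc_mul (loc_mul hO ρ1) hδ)).trans ?_
    calc _ = 1600 * (τ * qp F (ε * d)) := by ring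
      _ ≤ _ := by rw [hτδ]; linarith
  · have h1 : ‖lE M I U y d‖ ≤ 40 * τ ^ 2 * (5 / 2) * η := by
      rw [lE, norm_neg]
      exact loc_mul (loc_mul hE ρ1) hyd
    refine (mul_le_mul_of_nonneg_right (loc_mul o1 h1) (qp_pos _).le).trans ?_
    calc _ = 1600 * (τ ^ 2 * η * qp F ((1 / 2 + ε) * d)) := by ring
      _ ≤ _ := by linarith
  · replace o2 := o2 hM
    change ‖om F M U y σ d - _‖ ≤ _ at o2
    have hs := loc_sub (loc_add (hz' 0) (hz' 1)) (loc_add (hz' 2) (hz' 3))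
    set s := (dy F σ y * U 0) ^ d + (dy F σ y * U 1) ^ d -
      ((dy F σ y * U 2) ^ d + (dy F σ y * U 3) ^ d) with hs'
    have e : om F M U y σ d * (1 + Ev M (pw U d) * rho I y d +
        Od M (pw U d) * rho I y d * dy F σ y ^ d) - 1 =
        (om F M U y σ d - (1 - s)) * (1 + s) - s * s + om F M U y σ d * (Ev M (pw U d) * rho I y d +
          (Od M (pw U d) - (pw U d 0 + pw U d 1 - (pw U d 2 + pw U d 3))) * dy F σ y ^ d +
          Od M (pw U d) * dy F σ y ^ d * (rho I y d - 1)) := by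
      rw [hs', hz, hz, hz, hz]
      ring
    rw [e]
    refine (loc_add (loc_sub (loc_mul o2 (loc_add norm_one.le hs)) (loc_mul hs hs))
      (loc_mul o1 (loc_add (loc_add (loc_mul hE ρ1) (loc_mul hO' hδ))
        (loc_mul (loc_mul hO hδ) ρ2)))).trans ?_
    have n1 : θ ^ 2 * θ ≤ μ := by nlinarith
    have n2 : τ ^ 2 * θ ≤ μ := by nlinarith
    calc _ = 51 * θ ^ 2 + 140 * (θ ^ 2 * θ) + 1600 * τ ^ 2 + 640 * (τ ^ 2 * (τ * qp F (ε * d))) +
          1600 * (τ * qp F (ε * d) * η ^ 2) := by ring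
      _ ≤ _ := by rw [hτδ]; linarith

theorem psb_lO (M I : ℕ) (U : Fin 4 → ℂ) (y σ : ℂ) {W : F[X]} (hW : IsSquare W)
    {e : Finset F[X]} (he : e ⊆ pr F M) :
    ∏ P ∈ pr F M \ e, om F M U y σ P.natDegree * lO M I U y σ W P =
      ∏ P ∈ pr F M, (1 + (fun P : F[X] => if P ∣ W ∧ P ∉ e then (1 : ℂ) else 0) P *
        (fun d => -(om F M U y σ d * (Od M (pw U d) * rho I y d * dy F σ y ^ d))) P.natDegree +
        (fun P : F[X] => if P ∈ e then 0 else om F M U y σ P.natDegree *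
          (1 + Ev M (pw U P.natDegree) * rho I y P.natDegree + Od M (pw U P.natDegree) *
            rho I y P.natDegree * dy F σ y ^ P.natDegree) - 1) P) := by
  rw [← prod_sdiff he, prod_eq_one (s := e) fun P hP => by simp [hP], mul_one]
  refine prod_congr rfl fun P hP => ?_
  obtain ⟨h1, h2⟩ := mem_sdiff.1 hP
  obtain ⟨h3, h4, -⟩ := mem_pr.1 h1
  simp only [lO, jac_of_isSquare hW h3 h4, h2, Algebra.algebraMap_self, RingHom.id_apply,
    not_false_eq_true, and_true, if_false]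
  split_ifs <;> ring

theorem psb_sq {ε : ℝ} (hε : 0 < ε) (M : ℕ) {E : F[X]} (hE : E.Monic) :
    ∑ V ∈ monLe F M with IsSquare (V * E), qp F (-(1 / 2 + ε / 2) * (V * E).natDegree) ≤
      (1 - qp F (-ε))⁻¹ := by
  have h1 := sum_image (s := (monLe F M).filter fun V => IsSquare (V * E)) (g := fun V => V * E)
    (f := fun W : F[X] => qp F (-(1 / 2 + ε / 2) * W.natDegree))
    fun V _ V' _ h => mul_right_cancel₀ hE.ne_zero h
  rw [← h1]
  refine (sum_le_sum_of_subset_of_nonneg (t := (monLe F (M + E.natDegree)).image fun Y => Y * Y)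
    (fun W hW => ?_) fun _ _ _ => (qp_pos _).le).trans
      ((sum_image_le_of_nonneg fun _ _ => (qp_pos _).le).trans ?_)
  · obtain ⟨V, hV, rfl⟩ := mem_image.1 hW
    obtain ⟨hV, Z, hZ⟩ := mem_filter.1 hV
    obtain ⟨hm, hd⟩ := mem_monLe.1 hV
    have h2 : Z.leadingCoeff * Z.leadingCoeff = 1 := by
      rw [← leadingCoeff_mul, ← hZ]
      exact hm.mul hE
    have h3 : (C Z.leadingCoeff * Z).Monic := monic_C_mul_of_mul_leadingCoeff_eq_one h2
    have h4 : C Z.leadingCoeff * Z * (C Z.leadingCoeff * Z) = V * E := by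
      rw [mul_mul_mul_comm, ← C_mul, h2, C_1, one_mul, hZ]
    refine mem_image.2 ⟨_, mem_monLe.2 ⟨h3, ?_⟩, h4⟩
    have h5 := congrArg natDegree h4
    rw [h3.natDegree_mul h3, hm.natDegree_mul hE] at h5
    omega
  · refine le_trans ?_ (ep_geom (qp_pos _).le (qp_lt_one (neg_neg_of_pos hε))
      (M + E.natDegree + 1))
    rw [sum_monLe]
    refine sum_le_sum fun d _ => le_of_eq ?_
    rw [sum_congr rfl fun Y hY => by
      rw [(mem_monF.1 hY).1.natDegree_mul (mem_monF.1 hY).1, (mem_monF.1 hY).2], sum_const,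
      card_monF, nsmul_eq_mul, Nat.cast_pow, ← qp_nat, ← qp_add, qp_pow]
    congr 1
    push_cast
    ring

theorem psb_qp_sum {ι : Type*} (s : Finset ι) (f : ι → ℝ) :
    qp F (∑ i ∈ s, f i) = ∏ i ∈ s, qp F (f i) := by
  induction s using Finset.induction_on with
  | empty => simp [qp_zero]
  | insert a s ha ih => rw [sum_insert ha, prod_insert ha, qp_add, ih]

theorem psb_wV {ε : ℝ} {M : ℕ} {y : ℂ} (hy : ‖y‖ = qp F (-(1 / 2 - ε))) {V : F[X]}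
    (hV : V.natDegree ≤ M) :
    ‖wV F M y V‖ = ‖y‖ ^ M * qp F (-(1 / 2 + ε) * V.natDegree) := by
  rw [wV, norm_mul, norm_pow, hy, qp_pow, qp_pow, ← qp_add, Nat.cast_sub hV]
  simp only [Algebra.algebraMap_self, RingHom.id_apply, norm_inv, norm_pow, Complex.norm_natCast]
  rw [← qp_nat, ← qp_neg, ← qp_add]
  congr 1
  ring

theorem Ps_bound (hF : ringChar F ≠ 2) {ε : ℝ} (hε : 0 < ε) (hε' : ε ≤ 1 / 4) : ∃ C : ℝ,
    ∀ (M I : ℕ) (U : Fin 4 → ℂ) (y : ℂ), (∀ i, ‖U i‖ ≤ qp F (-(1 / 2 + 2 * ε))) →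
      ‖y‖ = qp F (-(1 / 2 - ε)) → ‖Ps F M I U y‖ ≤ C * ‖y‖ ^ M := by
  obtain ⟨C₁, hC₁, h₁⟩ := EP (F := F) hε (κ := 5000) (by norm_num) (half_pos hε)
  obtain ⟨C₂, h₂⟩ := sum_powerset_le (F := F) hε (κ := 5000) (by norm_num)
  refine ⟨2 * ((2 + Q F) * (1 + Q F) ^ 4 * (C₁ * (1 - qp F (-ε))⁻¹ * C₂)),
    fun M I U y hU hy => ?_⟩
  have hy1 : ‖y‖ ≤ 1 := hy.trans_le (qp_le_one (by linarith))
  have hk : 0 ≤ (1 - qp F (-ε))⁻¹ := (inv_pos.2 (sub_pos.2 (qp_lt_one (by linarith)))).le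
  have hp : ∀ e : Finset F[X], 0 ≤ ∏ P ∈ e, 5000 * qp F (-(1 + ε) * P.natDegree) := fun e =>
    prod_nonneg fun P _ => mul_nonneg (by norm_num) (qp_pos _).le
  have key : ∀ σ : ℂ, ‖σ‖ = 1 → ∀ V ∈ monLe F M, ∀ e ∈ (pr F M).powerset,
      IsSquare (V * ∏ P ∈ e, P) →
      ‖wV F M y V * ((∏ P ∈ e, om F M U y σ P.natDegree * lE M I U y P.natDegree) *
        ∏ P ∈ pr F M \ e, om F M U y σ P.natDegree * lO M I U y σ (V * ∏ P ∈ e, P) P)‖ ≤
      (‖y‖ ^ M * C₁ * ∏ P ∈ e, 5000 * qp F (-(1 + ε) * P.natDegree)) *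
        qp F (-(1 / 2 + ε / 2) * (V * ∏ P ∈ e, P).natDegree) := by
    intro σ hσ V hV e he hs
    have he' := mem_powerset.1 he
    obtain ⟨hm, -, hd, -⟩ := monic_sqfree_prod he'
    obtain ⟨hVm, hVd⟩ := mem_monLe.1 hV
    have hW := hVm.mul hm
    have h4 := h₁ M _ _
      (fun d => -(om F M U y σ d * (Od M (pw U d) * rho I y d * dy F σ y ^ d)))
      (fun P : F[X] => if P ∈ e then 0 else om F M U y σ P.natDegree *
        (1 + Ev M (pw U P.natDegree) * rho I y P.natDegree + Od M (pw U P.natDegree) *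
          rho I y P.natDegree * dy F σ y ^ P.natDegree) - 1)
      (Nat.cast_nonneg _) (small_dvd hW e)
      (fun d hd => (norm_neg _).trans_le (psb_loc hF hε hε' M I hσ hU hy hd).1)
      (fun P hP => by
        have h5 := deg_pos (mem_pr.1 hP).2.1
        split_ifs
        · rw [norm_zero]
          exact mul_nonneg (by norm_num) (qp_pos _).le
        · exact (psb_loc hF hε hε' M I hσ hU hy h5).2.2 (h5.trans_le (mem_pr.1 hP).2.2))
    rw [← psb_lO M I U y σ hs he'] at h4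
    have h5 : qp F (-(1 / 2 + ε) * V.natDegree) * qp F (ε / 2 * (V * ∏ P ∈ e, P).natDegree) =
        (∏ P ∈ e, qp F ((1 / 2 + ε) * P.natDegree)) *
          qp F (-(1 / 2 + ε / 2) * (V * ∏ P ∈ e, P).natDegree) := by
      rw [← psb_qp_sum, ← qp_add, ← qp_add, ← mul_sum, hVm.natDegree_mul hm, hd]
      congr 1
      push_cast
      ring
    have h6 : ‖∏ P ∈ e, om F M U y σ P.natDegree * lE M I U y P.natDegree‖ *
        ∏ P ∈ e, qp F ((1 / 2 + ε) * P.natDegree) ≤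
        ∏ P ∈ e, 5000 * qp F (-(1 + ε) * P.natDegree) := by
      rw [norm_prod, ← prod_mul_distrib]
      exact prod_le_prod (fun P _ => mul_nonneg (norm_nonneg _) (qp_pos _).le) fun P hP =>
        (psb_loc hF hε hε' M I hσ hU hy (deg_pos (mem_pr.1 (he' hP)).2.1)).2.1
    have h7 := qp_pos (F := F) (-(1 / 2 + ε) * V.natDegree)
    have h8 := qp_pos (F := F) (-(1 / 2 + ε / 2) * (V * ∏ P ∈ e, P).natDegree)
    rw [norm_mul, norm_mul, psb_wV hy hVd]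
    calc _ ≤ ‖y‖ ^ M * qp F (-(1 / 2 + ε) * V.natDegree) *
          (‖∏ P ∈ e, om F M U y σ P.natDegree * lE M I U y P.natDegree‖ *
            (C₁ * qp F (ε / 2 * (V * ∏ P ∈ e, P).natDegree))) := by gcongr
      _ = ‖y‖ ^ M * C₁ * ‖∏ P ∈ e, om F M U y σ P.natDegree * lE M I U y P.natDegree‖ *
          (qp F (-(1 / 2 + ε) * V.natDegree) * qp F (ε / 2 * (V * ∏ P ∈ e, P).natDegree)) := by
          ring
      _ = ‖y‖ ^ M * C₁ * (‖∏ P ∈ e, om F M U y σ P.natDegree * lE M I U y P.natDegree‖ *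
          ∏ P ∈ e, qp F ((1 / 2 + ε) * P.natDegree)) *
          qp F (-(1 / 2 + ε / 2) * (V * ∏ P ∈ e, P).natDegree) := by rw [h5]; ring
      _ ≤ _ := by gcongr
  have key2 : ∀ σ : ℂ, ‖σ‖ = 1 → ‖∑ V ∈ monLe F M,
      ∑ e ∈ (pr F M).powerset with IsSquare (V * ∏ P ∈ e, P), wV F M y V *
        ((∏ P ∈ e, om F M U y σ P.natDegree * lE M I U y P.natDegree) *
          ∏ P ∈ pr F M \ e, om F M U y σ P.natDegree * lO M I U y σ (V * ∏ P ∈ e, P) P)‖ ≤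
      C₁ * (1 - qp F (-ε))⁻¹ * C₂ * ‖y‖ ^ M := by
    intro σ hσ
    calc _ ≤ ∑ V ∈ monLe F M, ∑ e ∈ (pr F M).powerset with IsSquare (V * ∏ P ∈ e, P),
          (‖y‖ ^ M * C₁ * ∏ P ∈ e, 5000 * qp F (-(1 + ε) * P.natDegree)) *
            qp F (-(1 / 2 + ε / 2) * (V * ∏ P ∈ e, P).natDegree) :=
          norm_sum_le_of_le _ fun V hV => norm_sum_le_of_le _ fun e he =>
            key σ hσ V hV e (mem_filter.1 he).1 (mem_filter.1 he).2
      _ = ∑ e ∈ (pr F M).powerset, (‖y‖ ^ M * C₁ * ∏ P ∈ e, 5000 * qp F (-(1 + ε) * P.natDegree)) *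
          ∑ V ∈ monLe F M with IsSquare (V * ∏ P ∈ e, P),
            qp F (-(1 / 2 + ε / 2) * (V * ∏ P ∈ e, P).natDegree) := by
          simp only [mul_sum, sum_filter]
          rw [sum_comm]
          simp only [mul_ite, mul_zero]
      _ ≤ ∑ e ∈ (pr F M).powerset, (‖y‖ ^ M * C₁ * ∏ P ∈ e, 5000 * qp F (-(1 + ε) * P.natDegree)) *
          (1 - qp F (-ε))⁻¹ := sum_le_sum fun e he => mul_le_mul_of_nonneg_left
            (psb_sq hε M (monic_sqfree_prod (mem_powerset.1 he)).1)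
            (mul_nonneg (by positivity) (hp e))
      _ ≤ ‖y‖ ^ M * C₁ * C₂ * (1 - qp F (-ε))⁻¹ := by
          rw [← sum_mul, ← mul_sum]
          exact mul_le_mul_of_nonneg_right (mul_le_mul_of_nonneg_left (h₂ M) (by positivity)) hk
      _ = _ := by ring
  have key3 : ∀ σ : ℂ, ‖σ‖ = 1 → ‖kap F σ y *
      ((1 + qA F ℂ * (dy F σ y * U 0)) * (1 + qA F ℂ * (dy F σ y * U 1)) *
        ((1 - qA F ℂ * (dy F σ y * U 2)) * (1 - qA F ℂ * (dy F σ y * U 3))))‖ ≤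
      (2 + Q F) * (1 + Q F) ^ 4 := by
    intro σ hσ
    have h3 : ∀ i, ‖qA F ℂ * (dy F σ y * U i)‖ ≤ Q F := fun i => by
      refine (loc_mul loc_norm_q.le (loc_mul (norm_dy hσ y).le (hU i))).trans
        (mul_le_of_le_one_right (Nat.cast_nonneg _) ?_)
      rw [hy, ← qp_add, ← qp_add]
      exact qp_le_one (by linarith)
    exact (loc_mul (norm_kap_le hσ hy1) (loc_mul
      (loc_mul (loc_add norm_one.le (h3 0)) (loc_add norm_one.le (h3 1)))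
      (loc_mul (loc_sub norm_one.le (h3 2)) (loc_sub norm_one.le (h3 3))))).trans_eq (by ring)
  have hn : ‖(-1 : ℂ)‖ = 1 := by simp
  rw [Ps, sum_pair (by norm_num : (1 : ℂ) ≠ -1)]
  exact (loc_add (loc_mul (key3 1 norm_one) (key2 1 norm_one))
    (loc_mul (key3 _ hn) (key2 _ hn))).trans_eq (by ring)

end Pool.Agent.MP_dd7250_nt
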