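import Mathlib
import Pool.Agent.MP_dd7250_nt.Link
import Pool.Agent.MP_dd7250_nt.Form2
import Pool.Agent.MP_dd7250_nt.PrPd
import Pool.Agent.MP_dd7250_nt.PsB

/- The two bounds for the homogeneous parts. -/

set_option autoImplicit false

namespace Pool.Agent.MP_dd7250_nt

open Polynomial Finset Pool.Agent.MP_d232b3_nt
open scoped Classical

variable {F : Type*} [Field F] [Fintype F]

/-- The four variables in the ring of polynomials in `t` and `y`. -/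
noncomputable def bfU (u : Fin 4 → ℂ) : Fin 4 → ℂ[X][X] := fun i => C (C (u i) * X)

theorem bf_split (hF : ringChar F ≠ 2) (u : Fin 4 → ℂ) (M g : ℕ) :
    ∑ p ∈ antidiagonal M, ff F u p.1 p.2 g =
      ((pre F (bfU u) X * (mid F (bfU u) X * (Pr F M (2 * g + 1 + (M + 1)) (bfU u) X +
        Pd F M (2 * g + 1 + (M + 1)) (bfU u) X))).coeff (2 * g + 1 + (M + 1))).coeff M +
      ((pre F (bfU u) X * Ps F M (2 * g + 1 + (M + 1)) (bfU u) X).coeff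
        (2 * g + 1 + (M + 1))).coeff M := by
  have h1 := link hF u (M := M) (g := g) (I := 2 * g + 1 + (M + 1)) (by omega) (by omega)
  rw [← h1, ← coeff_X_pow_mul _ (M + 1) (2 * g + 1), ← coeff_add, ← coeff_add]
  refine transfer2 _ _ M (2 * g + 1 + (M + 1)) ?_ le_rfl le_rfl
  intro A _ _ φ ht hy
  have hU : ∀ i, φ (C X) ∣ (φ ∘ bfU u) i := by
    intro i
    refine ⟨φ (C (C (u i))), ?_⟩
    rw [Function.comp, bfU, ← map_mul φ, ← map_mul, mul_comm]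
  have hk := key hF (M := M) (I := 2 * g + 1 + (M + 1)) (by omega) hU ht hy
  simp only [map_mul φ, map_add φ, map_pow φ, map_Ph, map_Zs, map_pre, map_mid, map_Pr, map_Pd,
    map_Ps]
  exact hk

theorem bf_norm_U {u : Fin 4 → ℂ} (hu : ∀ i, ‖u i‖ ≤ 1) (t y : ℂ) (i : Fin 4) :
    ‖((aevalAeval t y : ℂ[X][X] →ₐ[ℂ] ℂ) ∘ bfU u) i‖ ≤ ‖t‖ := by
  have : ((aevalAeval t y : ℂ[X][X] →ₐ[ℂ] ℂ) ∘ bfU u) i = u i * t := by
    simp [bfU]
  rw [this, norm_mul]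
  exact mul_le_of_le_one_left (norm_nonneg _) (hu i)

theorem bf_le_of_mul {x B a b : ℝ} (h : x * qp F a ≤ B * qp F b) : x ≤ B * qp F (b - a) := by
  have h1 : qp F b = qp F (b - a) * qp F a := by
    rw [← qp_add]
    congr 1
    ring
  rw [h1, ← mul_assoc] at h
  exact le_of_mul_le_mul_right h (qp_pos a)

theorem bf_first (hF : ringChar F ≠ 2) {ε : ℝ} (hε : 0 < ε) : ∃ K : ℝ, 0 ≤ K ∧
    ∀ u : Fin 4 → ℂ, (∀ i, ‖u i‖ ≤ 1) → ∀ M g I : ℕ,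
      ‖((pre F (bfU u) X * (mid F (bfU u) X * (Pr F M I (bfU u) X +
        Pd F M I (bfU u) X))).coeff (2 * g + 1 + (M + 1))).coeff M‖ ≤
        K * qp F ((1 + 3 * ε) * M + 2 * ε * g) := by
  obtain ⟨C1, h1⟩ := Pr_bound hF hε
  obtain ⟨C2, h2⟩ := Pd_bound hF hε
  set L : ℝ := 1 + (Q F : ℝ) ^ 4 with hL
  have hL0 : 0 ≤ L := by positivity
  refine ⟨L ^ 3 * (L ^ 2 * (|C1| + |C2|)) * qp F (2 * ε), by have := qp_pos (F := F) (2 * ε); positivity,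
    fun u hu M g I => ?_⟩
  have hb := extract2 (pre F (bfU u) X * (mid F (bfU u) X * (Pr F M I (bfU u) X +
      Pd F M I (bfU u) X))) (B := L ^ 3 * (L ^ 2 * (|C1| + |C2|)) * qp F (ε * M))
      (qp_pos (F := F) (-(1 + ε))) (qp_pos (F := F) (-ε)) ?_ (2 * g + 1 + (M + 1)) M
  · rw [qp_pow, qp_pow, mul_assoc, ← qp_add] at hb
    refine (bf_le_of_mul hb).trans (le_of_eq ?_)
    rw [mul_assoc _ (qp F (2 * ε)), ← qp_add]
    congr 2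
    push_cast
    ring
  · intro t y ht hy
    have hU := bf_norm_U hu t y
    rw [ht] at hU
    have hU1 : ∀ i, ‖((aevalAeval t y : ℂ[X][X] →ₐ[ℂ] ℂ) ∘ bfU u) i‖ ≤ qp F (-(1 / 2 + ε)) :=
      fun i => (hU i).trans (qp_mono (by linarith))
    have hU2 : ∀ i, ‖((aevalAeval t y : ℂ[X][X] →ₐ[ℂ] ℂ) ∘ bfU u) i‖ ≤ 1 :=
      fun i => (hU i).trans (qp_le_one (by linarith))
    have hU3 : ∀ i, qp F (1 / 2) * ‖y‖ * ‖((aevalAeval t y : ℂ[X][X] →ₐ[ℂ] ℂ) ∘ bfU u) i‖ ≤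
        qp F (-(1 / 2 + ε)) := by
      intro i
      rw [hy, ← qp_add]
      refine (mul_le_mul_of_nonneg_left (hU i) (qp_pos _).le).trans ?_
      rw [← qp_add]
      exact qp_mono (by linarith)
    have hy1 : ‖y‖ ≤ 1 := hy.trans_le (qp_le_one (by linarith))
    have e1 := h1 M I _ y hU1 hy.le hU3
    have e2 := h2 M I _ y hU1 hy.le
    obtain ⟨e3, e4⟩ := norm_pre_le (F := F) hU2 hy1
    have hq : 1 ≤ qp F (ε * M) := by
      rw [← qp_zero (F := F)]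
      exact qp_mono (by positivity)
    have e5 : ‖Pr F M I ((aevalAeval t y : ℂ[X][X] →ₐ[ℂ] ℂ) ∘ bfU u) y +
        Pd F M I ((aevalAeval t y : ℂ[X][X] →ₐ[ℂ] ℂ) ∘ bfU u) y‖ ≤
        (|C1| + |C2|) * qp F (ε * M) := by
      refine (norm_add_le _ _).trans ?_
      have a1 := mul_le_mul_of_nonneg_right (le_abs_self C1) (qp_pos (F := F) (ε * M)).le
      have a2 := mul_le_mul_of_nonneg_left hq (abs_nonneg C2)
      have a3 := le_abs_self C2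
      linarith
    simp only [map_mul, map_add, map_pre, map_mid, map_Pr, map_Pd, aevalAeval_Y]
    rw [norm_mul, norm_mul, mul_assoc, mul_assoc]
    gcongr

theorem bf_second (hF : ringChar F ≠ 2) {ε : ℝ} (hε : 0 < ε) (hε' : ε ≤ 1 / 4) : ∃ K : ℝ, 0 ≤ K ∧
    ∀ u : Fin 4 → ℂ, (∀ i, ‖u i‖ ≤ 1) → ∀ M g I : ℕ,
      ‖((pre F (bfU u) X * Ps F M I (bfU u) X).coeff (2 * g + 1 + (M + 1))).coeff M‖ ≤
        K * qp F ((1 / 2 + 2 * ε) * M + g) := by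
  obtain ⟨C1, h1⟩ := Ps_bound hF hε hε'
  set L : ℝ := 1 + (Q F : ℝ) ^ 4 with hL
  have hL0 : 0 ≤ L := by positivity
  refine ⟨L ^ 3 * |C1| * qp F 1, by have := qp_pos (F := F) 1; positivity,
    fun u hu M g I => ?_⟩
  have hb := extract2 (pre F (bfU u) X * Ps F M I (bfU u) X)
      (B := L ^ 3 * |C1| * qp F (-(1 / 2 - ε) * M))
      (qp_pos (F := F) (-(1 / 2 + 2 * ε))) (qp_pos (F := F) (-(1 / 2 - ε))) ?_
      (2 * g + 1 + (M + 1)) M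
  · rw [qp_pow, qp_pow, mul_assoc, ← qp_add] at hb
    refine (bf_le_of_mul hb).trans ?_
    rw [mul_assoc _ (qp F 1), ← qp_add]
    refine mul_le_mul_of_nonneg_left (qp_mono ?_) (by positivity)
    push_cast
    have : 0 ≤ ε * g := by positivity
    nlinarith
  · intro t y ht hy
    have hU := bf_norm_U hu t y
    rw [ht] at hU
    have hU2 : ∀ i, ‖((aevalAeval t y : ℂ[X][X] →ₐ[ℂ] ℂ) ∘ bfU u) i‖ ≤ 1 :=
      fun i => (hU i).trans (qp_le_one (by linarith))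
    have hy1 : ‖y‖ ≤ 1 := hy.trans_le (qp_le_one (by linarith))
    have e1 := h1 M I _ y hU hy
    rw [hy, qp_pow] at e1
    have e2 := e1.trans (mul_le_mul_of_nonneg_right (le_abs_self C1) (qp_pos _).le)
    obtain ⟨e3, -⟩ := norm_pre_le (F := F) hU2 hy1
    simp only [map_mul, map_pre, map_Ps, aevalAeval_Y]
    rw [norm_mul, mul_assoc]
    gcongr

theorem ff_dual (hF : ringChar F ≠ 2) {ε : ℝ} (hε : 0 < ε) (hε' : ε ≤ 1 / 4) : ∃ C : ℝ, 0 ≤ C ∧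
    ∀ (u : Fin 4 → ℂ) (ρ ρ' : ℝ), 0 < ρ → 0 < ρ' → ‖u 0‖ ≤ ρ → ‖u 1‖ ≤ ρ → ‖u 2‖ ≤ ρ' →
      ‖u 3‖ ≤ ρ' → ∀ n k g : ℕ, ‖ff F u n k g‖ ≤ C * ρ ^ n * ρ' ^ k *
        (qp F ((1 + 3 * ε) * (n + k) + 2 * ε * g) + qp F ((1 / 2 + 2 * ε) * (n + k) + g)) := by
  obtain ⟨K1, hK1, h1⟩ := bf_first hF hε
  obtain ⟨K2, hK2, h2⟩ := bf_second hF hε hε'
  refine ⟨K1 + K2, by positivity, fun u ρ ρ' hρ hρ' u0 u1 u2 u3 n k g => ?_⟩
  set S : ℝ := qp F ((1 + 3 * ε) * (n + k) + 2 * ε * g) + qp F ((1 / 2 + 2 * ε) * (n + k) + g)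
    with hS
  have hsum : ∀ v : Fin 4 → ℂ, (∀ i, ‖v i‖ ≤ 1) →
      ‖∑ p ∈ antidiagonal (n + k), ff F v p.1 p.2 g‖ ≤ (K1 + K2) * S := by
    intro v hv
    rw [bf_split hF]
    refine (norm_add_le _ _).trans ((add_le_add (h1 v hv _ _ _) (h2 v hv _ _ _)).trans ?_)
    have a1 := mul_nonneg hK1 (qp_pos (F := F) ((1 / 2 + 2 * ε) * (n + k) + g)).le
    have a2 := mul_nonneg hK2 (qp_pos (F := F) ((1 + 3 * ε) * (n + k) + 2 * ε * g)).le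
    rw [hS]
    push_cast
    linarith
  have hb := extract_fam (antidiagonal (n + k))
    (fun p => ((ρ'⁻¹ : ℝ) : ℂ) ^ p.2 * ff F u p.1 p.2 g) (fun p => p.1) (B := (K1 + K2) * S)
    (inv_pos.2 hρ) ?_ n
  · have hf : (antidiagonal (n + k)).filter (fun p => p.1 = n) = {(n, k)} := by
      ext ⟨a, b⟩
      simp only [mem_filter, HasAntidiagonal.mem_antidiagonal, mem_singleton, Prod.mk.injEq]
      omega
    rw [hf, sum_singleton, norm_mul, norm_pow, Complex.norm_real,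
      Real.norm_of_nonneg (inv_pos.2 hρ').le, inv_pow, inv_pow] at hb
    have p1 := pow_pos hρ n
    have p2 := pow_pos hρ' k
    have e : ‖ff F u n k g‖ = (ρ' ^ k)⁻¹ * ‖ff F u n k g‖ * (ρ ^ n)⁻¹ * (ρ ^ n * ρ' ^ k) := by
      field_simp
    rw [e]
    refine (mul_le_mul_of_nonneg_right hb (mul_pos p1 p2).le).trans (le_of_eq ?_)
    ring
  · intro z hz
    have hm : ‖((ρ'⁻¹ : ℝ) : ℂ)‖ = ρ'⁻¹ := by
      rw [Complex.norm_real, Real.norm_of_nonneg (inv_pos.2 hρ').le]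
    have hv : ∀ i, ‖(![z * u 0, z * u 1, ((ρ'⁻¹ : ℝ) : ℂ) * u 2, ((ρ'⁻¹ : ℝ) : ℂ) * u 3] :
        Fin 4 → ℂ) i‖ ≤ 1 := by
      intro i
      fin_cases i
      · change ‖z * u 0‖ ≤ 1
        rw [norm_mul, hz]
        exact (inv_mul_le_one₀ hρ).2 u0
      · change ‖z * u 1‖ ≤ 1
        rw [norm_mul, hz]
        exact (inv_mul_le_one₀ hρ).2 u1
      · change ‖((ρ'⁻¹ : ℝ) : ℂ) * u 2‖ ≤ 1
        rw [norm_mul, hm]
        exact (inv_mul_le_one₀ hρ').2 u2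
      · change ‖((ρ'⁻¹ : ℝ) : ℂ) * u 3‖ ≤ 1
        rw [norm_mul, hm]
        exact (inv_mul_le_one₀ hρ').2 u3
    refine le_of_eq_of_le ?_ (hsum _ hv)
    congr 1
    refine sum_congr rfl fun p _ => ?_
    rw [ff_smul]
    ring

theorem bf_peel {c : ℂ} {f : PowerSeries ℂ} {B Θ L : ℝ} (hΘ : 1 ≤ Θ) (hc : ‖c‖ ≤ L)
    (h : ∀ g, ‖PowerSeries.coeff g f‖ ≤ B * Θ ^ g) (g : ℕ) :
    ‖PowerSeries.coeff g ((1 - PowerSeries.C c * PowerSeries.X) * f)‖ ≤ (1 + L) * B * Θ ^ g := by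
  have hB : 0 ≤ B := by simpa using (norm_nonneg _).trans (h 0)
  have hL : 0 ≤ L := (norm_nonneg _).trans hc
  rw [sub_mul, one_mul, map_sub, mul_assoc, PowerSeries.coeff_C_mul]
  refine (norm_sub_le _ _).trans ?_
  have h2 : ‖PowerSeries.coeff g (PowerSeries.X * f)‖ ≤ B * Θ ^ g := by
    rcases g with _ | g
    · simpa using hB
    · rw [PowerSeries.coeff_succ_X_mul]
      exact (h g).trans (mul_le_mul_of_nonneg_left (pow_le_pow_right₀ hΘ (by omega)) hB)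
  have h3 : ‖c * PowerSeries.coeff g (PowerSeries.X * f)‖ ≤ L * (B * Θ ^ g) := by
    rw [norm_mul]
    exact mul_le_mul hc h2 (norm_nonneg _) hL
  have h4 := h g
  linarith

theorem bf_HW_le {w : F[X] → ℂ} {U₀ U₁ : ℂ} {B Θ : ℝ} (hΘ : 1 ≤ Θ) (h0 : ‖U₀‖ ≤ 1)
    (h1 : ‖U₁‖ ≤ 1) (h : ∀ g, ‖TW w U₀ U₁ g‖ ≤ B * Θ ^ g) (g : ℕ) :
    ‖HW w U₀ U₁ g‖ ≤ (1 + (Q F : ℝ) ^ 4) ^ 4 * B * Θ ^ g := by
  have hq : (1 : ℝ) ≤ Q F := one_lt_Q.le
  have hn : ∀ (a : ℕ) (x : ℂ), a ≤ 4 → ‖x‖ ≤ 1 → ‖(Q F : ℂ) ^ a * x‖ ≤ (Q F : ℝ) ^ 4 := by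
    intro a x ha hx
    rw [norm_mul, norm_pow, Complex.norm_natCast]
    exact (mul_le_of_le_one_right (by positivity) hx).trans (pow_le_pow_right₀ hq ha)
  have s0 : ‖U₀ ^ 2‖ ≤ 1 := by
    rw [norm_pow]
    exact pow_le_one₀ (norm_nonneg _) h0
  have s1 : ‖U₁ ^ 2‖ ≤ 1 := by
    rw [norm_pow]
    exact pow_le_one₀ (norm_nonneg _) h1
  have s2 : ‖U₀ ^ 2 * U₁ ^ 2‖ ≤ 1 := by
    rw [norm_mul]
    exact mul_le_one₀ s0 (norm_nonneg _) s1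
  have k0 : ∀ g, ‖PowerSeries.coeff g (PowerSeries.mk (TW w U₀ U₁))‖ ≤ B * Θ ^ g := by
    intro g
    rw [PowerSeries.coeff_mk]
    exact h g
  have k1 := bf_peel hΘ (hn 4 _ le_rfl s2) k0
  have k2 := bf_peel hΘ (hn 3 _ (by norm_num) s1) k1
  have k3 := bf_peel hΘ (hn 3 _ (by norm_num) s0) k2
  have k4 := bf_peel hΘ (hn 2 1 (by norm_num) (by simp)) k3 g
  refine le_of_eq_of_le ?_ (k4.trans (le_of_eq (by ring)))
  rw [HW]
  congr 2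
  simp only [Ph, map_mul, map_pow, map_natCast, map_one]
  ring

theorem bf_Lt_le {χ : F[X] → ℂ} {C η b : ℝ} (hC : 0 ≤ C)
    (h : ∀ n : ℕ, ‖AA χ n‖ ≤ C * qp F ((1 / 2 + η) * n + b)) {U : ℂ}
    (hU : ‖U‖ ≤ qp F (-(1 / 2 + η))) (I : ℕ) : ‖Lt χ I U‖ ≤ (I + 1) * (C * qp F b) := by
  have hs : ∀ n ∈ range (I + 1), ‖algebraMap ℂ ℂ (AA χ n) * U ^ n‖ ≤ C * qp F b := by
    intro n _
    have e1 : ‖U ^ n‖ ≤ qp F (-(1 / 2 + η) * n) := by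
      rw [norm_pow, ← qp_pow]
      exact pow_le_pow_left₀ (norm_nonneg _) hU n
    rw [Algebra.algebraMap_self_apply, norm_mul]
    refine (mul_le_mul (h n) e1 (norm_nonneg _) (mul_nonneg hC (qp_pos _).le)).trans (le_of_eq ?_)
    rw [mul_assoc, ← qp_add]
    congr 2
    ring
  refine (norm_sum_le _ _).trans ((sum_le_card_nsmul _ _ _ hs).trans (le_of_eq ?_))
  rw [card_range, nsmul_eq_mul]
  push_cast
  ring

theorem bf_beta_le {D : F[X]} {C η b ρ : ℝ} (hC : 0 ≤ C)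
    (h : ∀ n : ℕ, ‖ainv (jac D) n‖ ≤ C * qp F ((1 / 2 + η) * n + b)) {v₁ v₂ : ℂ}
    (h1 : ‖v₁‖ ≤ ρ) (h2 : ‖v₂‖ ≤ ρ) (k : ℕ) :
    ‖beta v₁ v₂ k D‖ ≤ (k + 1) * (C ^ 2 * ρ ^ k * qp F ((1 / 2 + η) * k + 2 * b)) := by
  have hρ : 0 ≤ ρ := (norm_nonneg _).trans h1
  have hs : ∀ p ∈ antidiagonal k,
      ‖ainv (jac D) p.1 * v₁ ^ p.1 * (ainv (jac D) p.2 * v₂ ^ p.2)‖ ≤
        C ^ 2 * ρ ^ k * qp F ((1 / 2 + η) * k + 2 * b) := by
    intro p hp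
    have hk : p.1 + p.2 = k := mem_antidiagonal.1 hp
    have a1 := h p.1
    have a2 := h p.2
    have q1 := qp_pos (F := F) ((1 / 2 + η) * p.1 + b)
    have q2 := qp_pos (F := F) ((1 / 2 + η) * p.2 + b)
    have e : qp F ((1 / 2 + η) * k + 2 * b) =
        qp F ((1 / 2 + η) * p.1 + b) * qp F ((1 / 2 + η) * p.2 + b) := by
      rw [← qp_add, ← hk]
      congr 1
      push_cast
      ring
    rw [norm_mul, norm_mul, norm_mul, norm_pow, norm_pow]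
    calc _ ≤ C * qp F ((1 / 2 + η) * p.1 + b) * ρ ^ p.1 *
          (C * qp F ((1 / 2 + η) * p.2 + b) * ρ ^ p.2) := by gcongr
      _ = _ := by
        rw [e, ← hk, pow_add]
        ring
  refine (norm_sum_le _ _).trans ((sum_le_card_nsmul _ _ _ hs).trans (le_of_eq ?_))
  rw [Nat.card_antidiagonal, nsmul_eq_mul]
  push_cast
  ring

theorem bf_TW_le (hF : ringChar F ≠ 2) {η : ℝ} (hη : 0 < η) : ∃ K : ℝ, 0 ≤ K ∧
    ∀ (U₀ U₁ v₁ v₂ : ℂ) (ρ : ℝ), ‖U₀‖ ≤ qp F (-(1 / 2 + η)) → ‖U₁‖ ≤ qp F (-(1 / 2 + η)) →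
      ‖v₁‖ ≤ ρ → ‖v₂‖ ≤ ρ → ∀ k g : ℕ, ‖TW (F := F) (beta v₁ v₂ k) U₀ U₁ g‖ ≤
        K * ρ ^ k * qp F ((1 / 2 + 2 * η) * k) * qp F (2 + 12 * η) ^ g := by
  obtain ⟨C, hC, hA⟩ := AA_bound hF hη
  obtain ⟨E, hE, hN⟩ := nat_le_qp (F := F) hη
  refine ⟨E ^ 3 * C ^ 4 * qp F (1 + 4 * η), by have := qp_pos (F := F) (1 + 4 * η); positivity,
    fun U₀ U₁ v₁ v₂ ρ h0 h1 h2 h3 k g => ?_⟩
  have hρ : 0 ≤ ρ := (norm_nonneg _).trans h2
  set b : ℝ := η * ((2 * g + 1 : ℕ) : ℝ) with hb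
  have q1 := qp_pos (F := F) b
  have q2 := qp_pos (F := F) ((1 / 2 + η) * k + 2 * b)
  have q3 := qp_pos (F := F) (η * k)
  have q4 := qp_pos (F := F) (η * ((2 * g : ℕ) : ℝ))
  have hs : ∀ D ∈ sqF F (2 * g + 1), ‖algebraMap ℂ ℂ (beta v₁ v₂ k D) *
      (Lt (jac D) (2 * g) U₀ * Lt (jac D) (2 * g) U₁)‖ ≤
      E * qp F (η * k) * (C ^ 2 * ρ ^ k * qp F ((1 / 2 + η) * k + 2 * b)) *
        (E * qp F (η * ((2 * g : ℕ) : ℝ)) * (C * qp F b) *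
          (E * qp F (η * ((2 * g : ℕ) : ℝ)) * (C * qp F b))) := by
    intro D hD
    have hD' := mem_sqF.1 hD
    have hAD := hA D hD'.1 (not_isSquare_of_mem hD)
    rw [hD'.2.2] at hAD
    have a1 := bf_beta_le hC (fun n => (hAD n).2) h2 h3 k
    have a2 := bf_Lt_le hC (fun n => (hAD n).1) h0 (2 * g)
    have a3 := bf_Lt_le hC (fun n => (hAD n).1) h1 (2 * g)
    have n1 := hN k
    have n2 := hN (2 * g)
    rw [Algebra.algebraMap_self_apply, norm_mul, norm_mul]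
    refine mul_le_mul (a1.trans ?_) (mul_le_mul (a2.trans ?_) (a3.trans ?_) (norm_nonneg _)
      (by positivity)) (by positivity) (by positivity)
    · gcongr
    · gcongr
    · gcongr
  have hcard : ((sqF F (2 * g + 1)).card : ℝ) ≤ qp F ((2 * g + 1 : ℕ) : ℝ) := by
    rw [qp_nat]
    exact_mod_cast card_sqF_le (F := F) (2 * g + 1)
  refine (norm_sum_le _ _).trans ((sum_le_card_nsmul _ _ _ hs).trans ?_)
  rw [nsmul_eq_mul]
  refine (mul_le_mul_of_nonneg_right hcard (by positivity)).trans (le_of_eq ?_)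
  have e : qp F ((2 * g + 1 : ℕ) : ℝ) * qp F (η * k) * qp F ((1 / 2 + η) * k + 2 * b) *
      qp F (η * ((2 * g : ℕ) : ℝ)) * qp F b * qp F (η * ((2 * g : ℕ) : ℝ)) * qp F b =
      qp F (1 + 4 * η) * qp F ((1 / 2 + 2 * η) * k) * qp F (2 + 12 * η) ^ g := by
    rw [qp_pow]
    simp only [← qp_add]
    congr 1
    rw [hb]
    push_cast
    ring
  calc _ = E ^ 3 * C ^ 4 * ρ ^ k * (qp F ((2 * g + 1 : ℕ) : ℝ) * qp F (η * k) *
        qp F ((1 / 2 + η) * k + 2 * b) * qp F (η * ((2 * g : ℕ) : ℝ)) * qp F b *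
        qp F (η * ((2 * g : ℕ) : ℝ)) * qp F b) := by ring
    _ = _ := by
      rw [e]
      ring

theorem ff_direct (hF : ringChar F ≠ 2) {ε : ℝ} (hε : 0 < ε) : ∃ C : ℝ, 0 ≤ C ∧
    ∀ (u : Fin 4 → ℂ) (ρ ρ' : ℝ), 0 < ρ → 0 < ρ' → ‖u 0‖ ≤ ρ → ‖u 1‖ ≤ ρ → ‖u 2‖ ≤ ρ' →
      ‖u 3‖ ≤ ρ' → ∀ n k g : ℕ, ‖ff F u n k g‖ ≤ C * ρ ^ n * ρ' ^ k *
        qp F ((1 / 2 + ε) * (n + k) + (2 + ε) * g) := by
  obtain ⟨K, hK, hT⟩ := bf_TW_le hF (η := ε / 12) (by positivity)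
  refine ⟨(1 + (Q F : ℝ) ^ 4) ^ 4 * K, by positivity,
    fun u ρ ρ' hρ hρ' u0 u1 u2 u3 n k g => ?_⟩
  have hΘ : 1 ≤ qp F (2 + 12 * (ε / 12)) := by
    rw [← qp_zero (F := F)]
    exact qp_mono (by positivity)
  have hr := qp_pos (F := F) (-(1 / 2 + ε / 12))
  have hb := extract1 (HW (F := F) (beta (u 2) (u 3) k) (C (u 0) * X : ℂ[X]) (C (u 1) * X) g)
    (B := (1 + (Q F : ℝ) ^ 4) ^ 4 * (K * ρ' ^ k * qp F ((1 / 2 + 2 * (ε / 12)) * k)) *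
      qp F (2 + 12 * (ε / 12)) ^ g) (mul_pos (inv_pos.2 hρ) hr) ?_ n
  · have p1 := pow_pos hρ n
    rw [mul_pow, qp_pow, qp_pow, inv_pow, ← mul_assoc] at hb
    have hb2 := bf_le_of_mul hb
    have e : ‖ff F u n k g‖ = ‖ff F u n k g‖ * (ρ ^ n)⁻¹ * ρ ^ n := by field_simp
    rw [e]
    refine (mul_le_mul_of_nonneg_right hb2 p1.le).trans ?_
    have hq : qp F ((1 / 2 + 2 * (ε / 12)) * k) *
        qp F ((2 + 12 * (ε / 12)) * g - -(1 / 2 + ε / 12) * n) ≤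
        qp F ((1 / 2 + ε) * (n + k) + (2 + ε) * g) := by
      rw [← qp_add]
      refine qp_mono ?_
      have a1 : 0 ≤ ε * n := by positivity
      have a2 : 0 ≤ ε * k := by positivity
      nlinarith
    calc _ = (1 + (Q F : ℝ) ^ 4) ^ 4 * K * ρ ^ n * ρ' ^ k *
          (qp F ((1 / 2 + 2 * (ε / 12)) * k) *
            qp F ((2 + 12 * (ε / 12)) * g - -(1 / 2 + ε / 12) * n)) := by ring
      _ ≤ _ := mul_le_mul_of_nonneg_left hq (by positivity)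
  · intro z hz
    have hU : ∀ x : ℂ, ‖x‖ ≤ ρ → ‖aeval z (C x * X : ℂ[X])‖ ≤ qp F (-(1 / 2 + ε / 12)) := by
      intro x hx
      have : aeval z (C x * X : ℂ[X]) = x * z := by simp
      rw [this, norm_mul, hz, ← mul_assoc]
      exact mul_le_of_le_one_left hr.le ((mul_inv_le_iff₀ hρ).2 (by rwa [one_mul]))
    have h1 : qp F (-(1 / 2 + ε / 12)) ≤ 1 := qp_le_one (by linarith)
    rw [map_HW]
    exact bf_HW_le hΘ ((hU _ u0).trans h1) ((hU _ u1).trans h1)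
      (hT _ _ _ _ ρ' (hU _ u0) (hU _ u1) u2 u3 k) g

end Pool.Agent.MP_dd7250_nt
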