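import Mathlib
import Pool.Agent.MP_dd7250_nt.Bf
import Pool.Agent.MP_dd7250_nt.An2

/- Interpolation between the bounds. -/

set_option autoImplicit false

namespace Pool.Agent.MP_dd7250_nt

open Polynomial Finset Pool.Agent.MP_d232b3_nt
open scoped Classical

variable {F : Type*} [Field F] [Fintype F]

theorem abs_half (hF : ringChar F ≠ 2) {ε e : ℝ} (he : 0 < e) (he1 : e ≤ 1 / 16)
    (he2 : 16 * e ≤ ε) : ∃ C : ℝ, 0 ≤ C ∧
    ∀ (c a₀ a₁ : ℝ) (u : Fin 4 → ℂ), Rng F ε c a₀ a₁ u → ∀ n k g : ℕ, n ≤ 2 * g →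
      ‖ff F u n k g‖ ≤ C * qp F ((ex c a₀ a₁ + ε) * g) * qp F (-e) ^ k := by
  obtain ⟨C₁, hC₁, h₁⟩ := ff_dual hF he (by linarith)
  obtain ⟨C₂, hC₂, h₂⟩ := ff_direct hF he
  refine ⟨2 * C₁ + C₂, by positivity, fun c a₀ a₁ u h n k g hn => ?_⟩
  obtain ⟨M, hM⟩ : ∃ M, M = max 0 (-a₀) + max 0 (-a₁) := ⟨_, rfl⟩
  have m0 := le_max_left 0 (-a₀)
  have m1 := le_max_left 0 (-a₁)
  have m2 := le_max_right 0 (-a₀)
  have m3 := le_max_right 0 (-a₁)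
  have hM0 : 0 ≤ M := by linarith
  have hex : ex c a₀ a₁ = 2 - 2 * c + 2 * M := by rw [hM, ex]; ring
  have hc := h.hc
  have hc' : ε ≤ c := by linarith [h.ha, abs_nonneg a₀, abs_nonneg a₁]
  have u0 : ‖u 0‖ ≤ qp F (M - 1 / 2) := h.h0.trans_le (qp_mono (by linarith))
  have u1 : ‖u 1‖ ≤ qp F (M - 1 / 2) := h.h1.trans_le (qp_mono (by linarith))
  have hn' : (n : ℝ) ≤ 2 * g := by exact_mod_cast hn
  have n0 : (0 : ℝ) ≤ n := Nat.cast_nonneg n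
  have k0 : (0 : ℝ) ≤ k := Nat.cast_nonneg k
  have g0 : (0 : ℝ) ≤ g := Nat.cast_nonneg g
  have key : ∀ C x : ℝ, 0 ≤ C →
      (M - 1 / 2) * n + -(1 / 2 + c) * k + x ≤ (2 - 2 * c + 2 * M + ε) * g + -e * k →
      C * qp F (M - 1 / 2) ^ n * qp F (-(1 / 2 + c)) ^ k * qp F x ≤
        C * (qp F ((ex c a₀ a₁ + ε) * g) * qp F (-e) ^ k) := by
    intro C x hC hx
    rw [qp_pow, qp_pow, qp_pow, mul_assoc, mul_assoc, ← qp_add, ← qp_add, ← qp_add, hex]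
    exact mul_le_mul_of_nonneg_left (qp_mono (by linarith)) hC
  have hp : 0 ≤ qp F ((ex c a₀ a₁ + ε) * g) * qp F (-e) ^ k :=
    (mul_pos (qp_pos _) (pow_pos (qp_pos _) k)).le
  have a1 := mul_le_mul_of_nonneg_left hn' hM0
  have a2 := mul_le_mul_of_nonneg_left hn' he.le
  have a3 := mul_le_mul_of_nonneg_right he2 g0
  have a4 := mul_nonneg he.le g0
  rw [mul_assoc]
  rcases le_total k (2 * g) with hk | hk
  · have hk' : (k : ℝ) ≤ 2 * g := by exact_mod_cast hk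
    have b1 := mul_le_mul_of_nonneg_left hk' (show 0 ≤ 1 / 2 - c + 4 * e by linarith)
    have b2 := mul_nonneg (show 0 ≤ c - 3 * e by linarith) k0
    have b3 := mul_nonneg (show 0 ≤ 1 / 2 - c by linarith) g0
    have e1 := key C₁ ((1 + 3 * e) * (n + k) + 2 * e * g) hC₁ (by linarith)
    have e2 := key C₁ ((1 / 2 + 2 * e) * (n + k) + g) hC₁ (by linarith)
    refine (h₁ u _ _ (qp_pos _) (qp_pos _) u0 u1 h.h2 h.h3 n k g).trans ?_
    rw [mul_add]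
    linarith [mul_nonneg hC₂ hp]
  · have hk' : 2 * (g : ℝ) ≤ k := by exact_mod_cast hk
    have b1 := mul_le_mul_of_nonneg_left hk' (show 0 ≤ c - 2 * e by linarith)
    have e1 := key C₂ ((1 / 2 + e) * (n + k) + (2 + e) * g) hC₂ (by linarith)
    refine (h₂ u _ _ (qp_pos _) (qp_pos _) u0 u1 h.h2 h.h3 n k g).trans ?_
    linarith [mul_nonneg hC₁ hp]

theorem abs_ne {v : ℂ} {x : ℝ} (h : ‖v‖ = qp F x) : v ≠ 0 :=
  norm_pos_iff.1 (h ▸ qp_pos x)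

theorem abs_inv {v : ℂ} {a : ℝ} (h : ‖v‖ = qp F (-(1 / 2 + a))) :
    ‖(Q F * v)⁻¹‖ = qp F (-(1 / 2 + -a)) := by
  rw [norm_inv, norm_mul, Complex.norm_natCast, h, ← qp_one, ← qp_add, ← qp_neg]
  congr 1
  ring

theorem abs_sq {v : ℂ} {a : ℝ} (h : ‖v‖ = qp F (-(1 / 2 + a))) (g : ℕ) :
    ‖(Q F * v ^ 2) ^ g‖ = qp F (-2 * a * g) := by
  rw [norm_pow, norm_mul, norm_pow, Complex.norm_natCast, h, ← qp_one, qp_pow, ← qp_add, qp_pow]
  congr 1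
  push_cast
  ring

theorem ff_abs (hF : ringChar F ≠ 2) {ε : ℝ} (hε : 0 < ε) : ∃ C θ : ℝ, 0 ≤ C ∧ 0 ≤ θ ∧ θ < 1 ∧
    ∀ (c a₀ a₁ : ℝ) (u : Fin 4 → ℂ), Rng F ε c a₀ a₁ u → ∀ n k g : ℕ,
      ‖ff F u n k g‖ ≤ C * qp F ((ex c a₀ a₁ + ε) * g) * θ ^ k := by
  have he : 0 < min ε 1 / 16 := div_pos (lt_min hε one_pos) (by norm_num)
  obtain ⟨C, hC, H⟩ := abs_half (ε := ε) hF he (by linarith [min_le_right ε 1])
    (by linarith [min_le_left ε 1])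
  refine ⟨C, qp F (-(min ε 1 / 16)), hC, (qp_pos _).le, qp_lt_one (neg_neg_of_pos he),
    fun c a₀ a₁ u h n k g => ?_⟩
  rcases le_or_gt n (2 * g) with hn | hn
  · exact H c a₀ a₁ u h n k g hn
  rw [ff_symm hF (abs_ne h.h0) (abs_ne h.h1)]
  split_ifs with h4
  · have h' : Rng F ε c (-a₀) (-a₁) ![(Q F * u 0)⁻¹, (Q F * u 1)⁻¹, u 2, u 3] :=
      ⟨h.hc, by simpa only [abs_neg] using h.ha, abs_inv h.h0, abs_inv h.h1, h.h2, h.h3⟩
    rw [norm_mul, norm_mul, abs_sq h.h0, abs_sq h.h1, ← qp_add]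
    refine (mul_le_mul_of_nonneg_left (H c _ _ _ h' (4 * g - n) k g (by omega))
      (qp_pos _).le).trans (le_of_eq ?_)
    have e : ∀ a : ℝ, max 0 (- -a) = a + max 0 (-a) := fun a => by
      rw [neg_neg]
      rcases le_total 0 a with ha | ha
      · rw [max_eq_right ha, max_eq_left (neg_nonpos.2 ha), add_zero]
      · rw [max_eq_left ha, max_eq_right (neg_nonneg.2 ha), add_neg_cancel]
    rw [← mul_assoc, mul_left_comm, ← qp_add]
    congr 3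
    unfold ex
    rw [e, e]
    ring
  · rw [norm_zero]
    exact mul_nonneg (mul_nonneg hC (qp_pos _).le) (pow_pos (qp_pos _) k).le

theorem abs_inv_series (hF : ringChar F ≠ 2) {ε c : ℝ} (hε : 0 < ε) (hc : ε ≤ c) {v : ℂ}
    (hv : ‖v‖ ≤ qp F (-(1 / 2 + c))) {D : F[X]} {g : ℕ} (hD : D ∈ sqF F (2 * g + 1)) :
    (Summable fun n => ‖ainv (jac D) n * v ^ n‖) ∧
      ∑' n, ainv (jac D) n * v ^ n = (Lt (jac D) D.natDegree v)⁻¹ := by
  obtain ⟨C, -, H⟩ := AA_bound hF (half_pos hε)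
  obtain ⟨h1, h2, h3⟩ := mem_sqF.1 hD
  have H' := H D h1 (not_isSquare_of_mem hD)
  have hz : qp F (1 / 2 + ε / 2) * ‖v‖ < 1 := by
    refine (mul_le_mul_of_nonneg_left hv (qp_pos _).le).trans_lt ?_
    rw [← qp_add]
    exact qp_lt_one (by linarith)
  have e : ∀ n : ℕ, C * qp F ((1 / 2 + ε / 2) * n + ε / 2 * D.natDegree) =
      C * qp F (ε / 2 * D.natDegree) * qp F (1 / 2 + ε / 2) ^ n := fun n => by
    rw [qp_pow, qp_add]
    ring
  have s1 : Sm v (PowerSeries.mk (AA (jac D))) :=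
    Sm_of_bound (qp_pos _).le hz fun n => by
      rw [PowerSeries.coeff_mk]
      exact (H' n).1.trans_eq (e n)
  have s2 : Sm v (PowerSeries.mk (AA (jac D)))⁻¹ :=
    Sm_of_bound (qp_pos _).le hz fun n => (H' n).2.trans_eq (e n)
  refine ⟨s2, ?_⟩
  have h0 : PowerSeries.constantCoeff (PowerSeries.mk (AA (jac D))) ≠ 0 := by
    have e0 : monF F 0 = {1} := by
      ext f
      rw [mem_monF, mem_singleton]
      exact ⟨fun h => h.1.natDegree_eq_zero.1 h.2, fun h => h ▸ ⟨monic_one, natDegree_one⟩⟩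
    rw [← PowerSeries.coeff_zero_eq_constantCoeff_apply, PowerSeries.coeff_mk, AA, e0,
      sum_singleton, (jac_cm D).one]
    exact one_ne_zero
  have h4 := evs_mul s1 s2
  have h5 := evs_coe v 1
  rw [Polynomial.coe_one, eval_one] at h5
  have h6 : evs v (PowerSeries.mk (AA (jac D))) = Lt (jac D) D.natDegree v := by
    unfold evs Lt
    rw [tsum_eq_sum (s := range (D.natDegree + 1)) fun n hn => by
      rw [PowerSeries.coeff_mk, AA_jac_vanish hF h1 h2 (by omega)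
        (by rw [mem_range] at hn; omega), zero_mul]]
    simp
  rw [PowerSeries.mul_inv_cancel _ h0, h5, h6] at h4
  exact eq_inv_of_mul_eq_one_right h4.symm

theorem abs_beta (hF : ringChar F ≠ 2) {ε c : ℝ} (hε : 0 < ε) (hc : ε ≤ c) {v₁ v₂ : ℂ}
    (h₁ : ‖v₁‖ ≤ qp F (-(1 / 2 + c))) (h₂ : ‖v₂‖ ≤ qp F (-(1 / 2 + c))) {D : F[X]} {g : ℕ}
    (hD : D ∈ sqF F (2 * g + 1)) : HasSum (fun k => beta v₁ v₂ k D) (wt v₁ v₂ D) := by
  obtain ⟨s1, e1⟩ := abs_inv_series hF hε hc h₁ hD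
  obtain ⟨s2, e2⟩ := abs_inv_series hF hε hc h₂ hD
  rw [wt, mul_inv, ← e1, ← e2, tsum_mul_tsum_eq_tsum_sum_antidiagonal_of_summable_norm s1 s2]
  exact (summable_norm_sum_mul_antidiagonal_of_summable_norm s1 s2).of_norm.hasSum

theorem hasSum_HW (hF : ringChar F ≠ 2) {ε c a₀ a₁ : ℝ} (hε : 0 < ε) {u : Fin 4 → ℂ}
    (h : Rng F ε c a₀ a₁ u) (g : ℕ) :
    HasSum (fun k => ∑ n ∈ range (4 * g + 1), ff F u n k g)
      (HW (F := F) (wt (u 2) (u 3)) (u 0) (u 1) g) := by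
  have hc : ε ≤ c := by linarith [h.ha, abs_nonneg a₀, abs_nonneg a₁]
  have e : ∀ k, ∑ n ∈ range (4 * g + 1), ff F u n k g =
      HW (F := F) (beta (u 2) (u 3) k) (u 0) (u 1) g := fun k => by
    have h1 := map_HW (F := F) (aeval (1 : ℂ) : ℂ[X] →ₐ[ℂ] ℂ) (beta (u 2) (u 3) k)
      (C (u 0) * X) (C (u 1) * X) g
    have h2 : (HW (F := F) (beta (u 2) (u 3) k) (C (u 0) * X : ℂ[X]) (C (u 1) * X) g).natDegree <
        4 * g + 1 := Nat.lt_succ_of_le (natDegree_le_iff_coeff_eq_zero.2 fun n hn =>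
      (ff_symm hF (abs_ne h.h0) (abs_ne h.h1) n k g).trans (if_neg hn.not_ge))
    rw [aeval_eq_sum_range' h2] at h1
    simpa [ff] using h1
  simp only [e, HW, PowerSeries.coeff_mul, PowerSeries.coeff_mk, TW]
  exact hasSum_sum fun p _ => HasSum.mul_left _ (hasSum_sum fun D hD =>
    HasSum.mul_right _ (abs_beta hF hε hc h.h2 h.h3 hD))

theorem HW_bound (hF : ringChar F ≠ 2) {ε : ℝ} (hε : 0 < ε) : ∃ C : ℝ,
    ∀ (c a₀ a₁ : ℝ) (u : Fin 4 → ℂ), Rng F ε c a₀ a₁ u → ∀ g : ℕ,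
      ‖HW (F := F) (wt (u 2) (u 3)) (u 0) (u 1) g‖ ≤ C * qp F (ex c a₀ a₁ + ε) ^ g := by
  obtain ⟨C, θ, hC, h0, h1, H⟩ := ff_abs hF (half_pos hε)
  obtain ⟨K, hK, HK⟩ := nat_le_qp (F := F) (half_pos hε)
  refine ⟨4 * K * C * (1 - θ)⁻¹, fun c a₀ a₁ u h g => ?_⟩
  have h' : Rng F (ε / 2) c a₀ a₁ u := ⟨h.hc, by linarith [h.ha], h.h0, h.h1, h.h2, h.h3⟩
  have hs := (hasSum_geometric_of_lt_one h0 h1).mul_left (4 * K * C * qp F (ex c a₀ a₁ + ε) ^ g)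
  rw [mul_right_comm]
  refine (hasSum_HW hF hε h g).norm_le_of_bounded hs fun k => ?_
  have hp : 0 ≤ C * qp F ((ex c a₀ a₁ + ε / 2) * g) * θ ^ k :=
    mul_nonneg (mul_nonneg hC (qp_pos _).le) (pow_nonneg h0 k)
  calc _ ≤ ∑ _n ∈ range (4 * g + 1), C * qp F ((ex c a₀ a₁ + ε / 2) * g) * θ ^ k :=
        norm_sum_le_of_le _ fun n _ => H c a₀ a₁ u h' n k g
    _ = (4 * g + 1) * (C * qp F ((ex c a₀ a₁ + ε / 2) * g) * θ ^ k) := by
        rw [sum_const, card_range, nsmul_eq_mul]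
        push_cast
        rfl
    _ ≤ 4 * (K * qp F (ε / 2 * g)) * (C * qp F ((ex c a₀ a₁ + ε / 2) * g) * θ ^ k) :=
        mul_le_mul_of_nonneg_right (by linarith [HK g]) hp
    _ = _ := by
        rw [qp_pow, show (ex c a₀ a₁ + ε) * g = ε / 2 * g + (ex c a₀ a₁ + ε / 2) * g by ring, qp_add]
        ring

end Pool.Agent.MP_dd7250_nt
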