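import Mathlib
import Pool.Agent.MP_dd7250_nt.Form1
import Pool.Agent.MP_dd7250_nt.An1
import Pool.Agent.MP_dd7250_nt.An2

/- Equidistribution of squarefree D in residue classes. -/

set_option autoImplicit false

namespace Pool.Agent.MP_dd7250_nt

open Polynomial Finset Pool.Agent.MP_d232b3_nt
open scoped Classical

variable {F : Type*} [Field F] [Fintype F]

theorem blim_tr (b : ℕ → ℂ) (p r : ℂ[X]) (I₀ : ℕ)
    (h : ∀ I, I₀ ≤ I → ∀ (A : Type) [CommRing A] [Algebra ℂ A] (y : A), y ^ (I + 1) = 0 →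
      aeval y p * ∑ N ∈ range (I + 1), y ^ N * algebraMap ℂ A (b N) = aeval y r) :
    (p : PowerSeries ℂ) * PowerSeries.mk b = r := by
  ext n
  obtain ⟨I, h1, h2⟩ : ∃ I, I₀ ≤ I ∧ n ≤ I := ⟨max I₀ n, le_max_left _ _, le_max_right _ _⟩
  have h3 := transfer1 (p * ∑ N ∈ range (I + 1), X ^ N * C (b N)) r I (fun A _ _ φ hφ => by
    have e : ∀ s : ℂ[X], φ s = aeval (φ X) s := fun s => by
      rw [aeval_algHom_apply, aeval_X_left, AlgHom.id_apply]
    rw [e r, ← h I h1 A (φ X) hφ, map_mul, e p, map_sum]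
    refine congrArg _ (sum_congr rfl fun N _ => ?_)
    rw [map_mul, map_pow, ← φ.commutes (b N)]
    rfl) h2
  rw [coeff_coe, ← h3, PowerSeries.coeff_mul, coeff_mul]
  refine sum_congr rfl fun ij hij => ?_
  have h4 : ij.2 ≤ I := by have := mem_antidiagonal.1 hij; omega
  rw [coeff_coe, PowerSeries.coeff_mk, finsetSum_coeff]
  simp only [coeff_mul_C, coeff_X_pow, ite_mul, one_mul, zero_mul]
  rw [sum_ite_eq, if_pos (mem_range.2 (by omega))]

theorem blim_rec (q : ℂ) (b : ℕ → ℂ) (n : ℕ) :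
    PowerSeries.coeff (n + 1) (((1 - C q * X : ℂ[X]) : PowerSeries ℂ) * PowerSeries.mk b) =
      b (n + 1) - q * b n := by
  simp [sub_mul, mul_assoc, PowerSeries.coeff_succ_X_mul]

theorem blim_rec0 (q : ℂ) (b : ℕ → ℂ) :
    PowerSeries.coeff 0 (((1 - C q * X : ℂ[X]) : PowerSeries ℂ) * PowerSeries.mk b) = b 0 := by
  simp [sub_mul, mul_assoc]

theorem blim_step {z : ℂ} (hz : ‖z‖ < 1) {k : ℕ} (hk : 0 < k) {x : PowerSeries ℂ}
    (hx : Sm z (x * (1 - PowerSeries.X ^ k))) : Sm z x := by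
  obtain ⟨G, hG⟩ : ∃ G : PowerSeries ℂ, G = PowerSeries.mk fun n => if k ∣ n then 1 else 0 :=
    ⟨_, rfl⟩
  have h1 : G * (1 - PowerSeries.X ^ k) = 1 := by
    ext n
    rw [mul_sub, mul_one, map_sub, PowerSeries.coeff_mul_X_pow', PowerSeries.coeff_one, hG,
      PowerSeries.coeff_mk, PowerSeries.coeff_mk]
    by_cases h : k ≤ n
    · rw [if_pos h, if_neg (by omega : ¬ n = 0), sub_eq_zero]
      exact if_congr (Nat.dvd_sub_iff_left h dvd_rfl).symm rfl rfl
    · rw [if_neg h, sub_zero]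
      refine if_congr ⟨fun hd => ?_, fun hn => hn ▸ dvd_zero k⟩ rfl rfl
      exact Nat.eq_zero_of_dvd_of_lt hd (by omega)
  have h2 : Sm z G := Sm_of_bound (B := 1) (Θ := 1) zero_le_one (by rwa [one_mul]) fun n => by
    rw [hG, PowerSeries.coeff_mk]
    split_ifs <;> simp
  have h3 := hx.mul h2
  rwa [mul_assoc, mul_comm _ G, h1, mul_one] at h3

theorem blim_steps {ι : Type*} {z : ℂ} (hz : ‖z‖ < 1) (k : ι → ℕ) (S : Finset ι)
    (hk : ∀ i ∈ S, 0 < k i) {x : PowerSeries ℂ}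
    (hx : Sm z (x * ((∏ i ∈ S, (1 - X ^ k i) : ℂ[X]) : PowerSeries ℂ))) : Sm z x := by
  induction S using Finset.induction_on generalizing x with
  | empty => simpa using hx
  | insert a S ha ih =>
    rw [prod_insert ha, Polynomial.coe_mul, ← mul_assoc] at hx
    have h1 := ih (fun i hi => hk i (mem_insert_of_mem hi)) hx
    refine blim_step hz (hk a (mem_insert_self a S)) ?_
    simpa using h1

theorem blim_sum {q : ℂ} (hq : q ≠ 0) (b : ℕ → ℂ) (N : ℕ) :
    ∑ j ∈ range (N + 1), PowerSeries.coeff j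
      (((1 - C q * X : ℂ[X]) : PowerSeries ℂ) * PowerSeries.mk b) * q⁻¹ ^ j = b N * q⁻¹ ^ N := by
  induction N with
  | zero => rw [sum_range_one, blim_rec0]
  | succ N ih =>
    rw [sum_range_succ, ih, blim_rec, pow_succ]
    field_simp
    ring

theorem blim_lim {q : ℂ} (hq : q ≠ 0) (b : ℕ → ℂ)
    (h : Sm q⁻¹ (((1 - C q * X : ℂ[X]) : PowerSeries ℂ) * PowerSeries.mk b)) :
    Filter.Tendsto (fun g : ℕ => b (2 * g + 1) / q ^ (2 * g)) Filter.atTop
      (nhds (q * evs q⁻¹ (((1 - C q * X : ℂ[X]) : PowerSeries ℂ) * PowerSeries.mk b))) := by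
  have h1 : Filter.Tendsto (fun g : ℕ => 2 * g + 1 + 1) Filter.atTop Filter.atTop :=
    Filter.tendsto_atTop_mono (f := fun g : ℕ => g) (fun g => by omega) Filter.tendsto_id
  refine ((h.hasSum.tendsto_sum_nat.comp h1).const_mul q).congr fun g => ?_
  rw [Function.comp_apply, blim_sum hq, pow_succ, inv_pow]
  field_simp

theorem card_sqF {g : ℕ} (hg : 1 ≤ g) :
    ((sqF F (2 * g + 1)).card : ℂ) = (Q F - 1) * (Q F : ℂ) ^ (2 * g) := by
  have h := blim_tr (fun N => ∑ _D ∈ sqF F N, (1 : ℂ)) (1 - C (Q F : ℂ) * X)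
    (1 - C (Q F : ℂ) * X ^ 2) 0 fun I _ A _ _ y hy => by
      have h2 : (y ^ 2) ^ (I + 1) = 0 := by
        rw [← pow_mul, mul_comm, pow_mul, hy, zero_pow two_ne_zero]
      rw [sqF_gen (χ := fun _ : F[X] => 1) ⟨rfl, fun _ _ _ _ => (one_mul _).symm⟩ hy]
      simp only [map_sub, map_one, map_mul, aeval_X, map_pow, map_natCast, one_mul]
      rw [← prod_zeta (F := F) hy, ← prod_zeta (F := F) h2, ← prod_mul_distrib]
      exact prod_congr rfl fun P _ => by ring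
  have h0 := blim_rec0 (Q F : ℂ) fun N => ∑ _D ∈ sqF F N, (1 : ℂ)
  have h1 := blim_rec (Q F : ℂ) fun N => ∑ _D ∈ sqF F N, (1 : ℂ)
  rw [h] at h0 h1
  simp only [coeff_coe, coeff_sub, coeff_C_mul, coeff_X_pow, coeff_one, sum_const,
    nsmul_eq_mul, mul_one] at h0 h1
  have h2 : ∀ n, ((sqF F (n + 2)).card : ℂ) = (Q F - 1) * (Q F : ℂ) ^ (n + 1) := fun n => by
    induction n with
    | zero =>
      have e1 := h1 0
      have e2 := h1 1
      rw [if_neg (by omega), if_neg (by omega)] at e1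
      rw [if_neg (by omega), if_pos rfl] at e2
      rw [if_pos trivial, if_neg (by omega)] at h0
      simp only [zero_add] at e1 ⊢
      linear_combination -e2 - Q F * e1 - (Q F : ℂ) ^ 2 * h0
    | succ n ih =>
      have e := h1 (n + 2)
      rw [if_neg (by omega), if_neg (by omega), ih] at e
      rw [show n + 1 + 2 = n + 2 + 1 from rfl]
      linear_combination -e
  obtain ⟨k, rfl⟩ := Nat.exists_eq_add_of_le hg
  rw [show 2 * (1 + k) + 1 = 2 * k + 1 + 2 by ring, h2]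
  ring

theorem blim (hF : ringChar F ≠ 2) {M : ℕ} {S₀ S₁ : Finset F[X]} (h0 : S₀ ⊆ pr F M)
    (h1 : S₁ ⊆ pr F M \ S₀) :
    Filter.Tendsto (fun g : ℕ => (∑ D ∈ sqF F (2 * g + 1),
        (∏ P ∈ S₀, jac D P) * ∏ P ∈ S₁, jac D P ^ 2) / (Q F : ℂ) ^ (2 * g)) Filter.atTop
      (nhds (if S₀ = ∅ then (Q F - 1) * ∏ P ∈ S₁, (1 + ((Q F : ℂ) ^ P.natDegree)⁻¹)⁻¹
        else 0)) := by
  obtain ⟨m, hm⟩ : ∃ m, m = ∏ P ∈ S₀, P := ⟨_, rfl⟩
  obtain ⟨hm1, hm2, -, hm4⟩ := monic_sqfree_prod h0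
  rw [← hm] at hm1 hm2 hm4
  have hS₀ : ∀ P ∈ S₀, 0 < 2 * P.natDegree := fun P hP => by
    have := deg_pos (mem_pr.1 (h0 hP)).2.1
    omega
  have hS₁ : ∀ P ∈ S₁, 0 < 2 * P.natDegree := fun P hP => by
    have := deg_pos (mem_pr.1 (mem_sdiff.1 (h1 hP)).1).2.1
    omega
  obtain ⟨Λ, hΛ⟩ : ∃ Λ : ℂ[X], Λ = if S₀ = ∅ then 1 else
      (1 - C (Q F : ℂ) * X) * Lt (fun f => jac f m) m.natDegree X := ⟨_, rfl⟩
  obtain ⟨b, hb⟩ : ∃ b : ℕ → ℂ,
      b = fun N => ∑ D ∈ sqF F N, (∏ P ∈ S₀, jac D P) * ∏ P ∈ S₁, jac D P ^ 2 := ⟨_, rfl⟩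
  have h := blim_tr b ((1 - C (Q F : ℂ) * X) * ((∏ P ∈ S₀, (1 - X ^ (2 * P.natDegree))) *
      ∏ P ∈ S₁, (1 - X ^ (2 * P.natDegree))))
    ((1 - C (Q F : ℂ) * X ^ 2) * Λ * ∏ P ∈ S₁, (1 - C (jac P m) * X ^ P.natDegree))
    (max M m.natDegree) fun I hI A _ _ y hy => by
      have hMI : M ≤ I := (le_max_left _ _).trans hI
      have hrho : ∀ d, 0 < 2 * d → (1 - y ^ (2 * d)) * rho I y d = 1 := fun d hd => by
        rw [mul_comm, pow_mul', rho]
        refine gam_mul ?_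
        rw [← pow_mul, ← pow_mul, ← mul_assoc, pow_mul', hy, zero_pow (by omega)]
      have hL : (1 - qA F A * y) * Lt (fun f => jac f m) I y = aeval y Λ := by
        rw [hΛ]
        split_ifs with h
        · rw [hm4.2 h, map_one]
          exact (congrArg (fun χ : F[X] → ℂ => (1 - qA F A * y) * Lt χ I y)
            (funext fun f => (jac_cm f).one)).trans (Lt_one hy)
        · have hd : 0 < m.natDegree :=
            Nat.pos_of_ne_zero fun h' => h (hm4.1 (hm1.natDegree_eq_zero.1 h'))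
          rw [map_mul, map_Lt, aeval_X]
          simp only [map_sub, map_one, map_mul, aeval_X, map_natCast]
          refine congrArg _ (sum_subset (range_subset_range.2
            (Nat.succ_le_succ ((le_max_right _ _).trans hI))) fun n _ hn => ?_).symm
          rw [AA_vanish hF hm1 hm2 hd (by rw [mem_range] at hn; omega), map_zero, zero_mul]
      have e0 : (∏ P ∈ S₀, (1 - y ^ (2 * P.natDegree))) * ∏ P ∈ S₀, rho I y P.natDegree = 1 := by
        rw [← prod_mul_distrib]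
        exact prod_eq_one fun P hP => hrho _ (hS₀ P hP)
      have e1 : (∏ P ∈ S₁, (1 - y ^ (2 * P.natDegree))) * ∏ P ∈ S₁, rho I y P.natDegree *
          (1 - algebraMap ℂ A (jac P m) * y ^ P.natDegree) =
          ∏ P ∈ S₁, (1 - algebraMap ℂ A (jac P m) * y ^ P.natDegree) := by
        rw [← prod_mul_distrib]
        exact prod_congr rfl fun P hP => by rw [← mul_assoc, hrho _ (hS₁ P hP), one_mul]
      rw [hb, sieve_gen hF (h0.trans (pr_mono hMI))
        (h1.trans (sdiff_subset_sdiff (pr_mono hMI) subset_rfl)) hy, ← hm]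
      simp only [map_sub, map_one, map_mul, map_prod, aeval_X, aeval_C, map_pow, map_natCast]
      rw [← hL, ← e1]
      linear_combination (1 - qA F A * y) * (1 - qA F A * y ^ 2) * Lt (fun f => jac f m) I y *
        (∏ P ∈ S₁, (1 - y ^ (2 * P.natDegree))) * (∏ P ∈ S₁, rho I y P.natDegree *
          (1 - algebraMap ℂ A (jac P m) * y ^ P.natDegree)) * e0
  have hz : ‖(Q F : ℂ)⁻¹‖ < 1 := by
    rw [norm_inv, Complex.norm_natCast]
    exact inv_lt_one_of_one_lt₀ one_lt_Q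
  have hne : ∀ k, 0 < k → 1 - (Q F : ℂ)⁻¹ ^ k ≠ 0 := fun k hk e => by
    have h2 : ‖(Q F : ℂ)⁻¹ ^ k‖ < 1 := by
      rw [norm_pow]
      exact pow_lt_one₀ (norm_nonneg _) hz hk.ne'
    rw [← sub_eq_zero.1 e, norm_one] at h2
    exact lt_irrefl _ h2
  rw [Polynomial.coe_mul, mul_right_comm] at h
  have hx : Sm (Q F : ℂ)⁻¹ (((1 - C (Q F : ℂ) * X : ℂ[X]) : PowerSeries ℂ) *
      PowerSeries.mk b) := by
    refine blim_steps hz _ S₀ hS₀ (blim_steps hz _ S₁ hS₁ ?_)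
    rw [mul_assoc, ← Polynomial.coe_mul, h]
    exact Sm_coe _ _
  have h2 := evs_mul hx (Sm_coe _ ((∏ P ∈ S₀, (1 - X ^ (2 * P.natDegree))) *
      ∏ P ∈ S₁, (1 - X ^ (2 * P.natDegree))))
  rw [h, evs_coe, evs_coe] at h2
  simp only [eval_mul, eval_prod, eval_sub, eval_one, eval_pow, eval_X, eval_C] at h2
  have h3 := blim_lim Q_ne b hx
  convert h3 using 2
  · rw [hb]
  have n0 := prod_ne_zero_iff.2 fun P hP => hne _ (hS₀ P hP)
  have n1 := prod_ne_zero_iff.2 fun P hP => hne _ (hS₁ P hP)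
  refine mul_right_cancel₀ (mul_ne_zero n0 n1) ?_
  rw [mul_assoc (Q F : ℂ), ← h2, hΛ]
  split_ifs with h
  · rw [hm4.2 h, h, prod_empty, one_mul, eval_one, mul_one, mul_assoc, ← prod_mul_distrib,
      ← mul_assoc]
    refine congrArg₂ _ ?_ (prod_congr rfl fun P hP => ?_)
    · have := Q_ne (F := F)
      field_simp
    · have e := hne _ (hS₁ P hP)
      have e' : ∀ w : ℂ, 1 - w ^ 2 = (1 + w) * (1 - w) := fun w => by ring
      rw [pow_mul', e'] at e ⊢
      rw [(jac_cm P).one, ← inv_pow, ← mul_assoc, inv_mul_cancel₀ (left_ne_zero_of_mul e), one_mul,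
        one_mul]
  · rw [eval_mul, eval_sub, eval_mul, eval_C, eval_X, mul_inv_cancel₀ Q_ne, eval_one, sub_self]
    simp

end Pool.Agent.MP_dd7250_nt
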