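import Mathlib
import Pool.Agent.MP_dd7250_nt.Blim
import Pool.Agent.MP_dd7250_nt.Link

/- The homogeneous parts of the first main term. -/

set_option autoImplicit false
set_option maxHeartbeats 400000

namespace Pool.Agent.MP_dd7250_nt

open Polynomial Finset Pool.Agent.MP_d232b3_nt Filter
open scoped Classical

variable {F : Type*} [Field F] [Fintype F]

/-- Coefficientwise convergence after normalisation. -/
def Cv (r : ℂ) (M : ℕ) (W : PowerSeries ℂ[X]) (x : ℂ[X]) : Prop :=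
  ∀ m ≤ M, Tendsto (fun g => (PowerSeries.coeff g W).coeff m * r ^ g) atTop (nhds (x.coeff m))

theorem hm_coeff_succ (c : ℂ[X]) (W : PowerSeries ℂ[X]) (g : ℕ) :
    PowerSeries.coeff (g + 1) ((1 - PowerSeries.C c * PowerSeries.X) * W) =
      PowerSeries.coeff (g + 1) W - c * PowerSeries.coeff g W := by
  rw [sub_mul, one_mul, map_sub, mul_assoc, PowerSeries.coeff_C_mul, PowerSeries.coeff_succ_X_mul]

theorem Cv.step {r : ℂ} {M : ℕ} {W : PowerSeries ℂ[X]} {x : ℂ[X]} (h : Cv r M W x) (c : ℂ[X]) :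
    Cv r M ((1 - PowerSeries.C c * PowerSeries.X) * W) ((1 - C r * c) * x) := by
  intro m hm
  rw [← tendsto_add_atTop_iff_nat 1]
  have h1 := (tendsto_add_atTop_iff_nat 1).2 (h m hm)
  have h2 : Tendsto (fun g => r * ∑ p ∈ antidiagonal m, c.coeff p.1 *
      ((PowerSeries.coeff g W).coeff p.2 * r ^ g)) atTop
      (nhds (r * ∑ p ∈ antidiagonal m, c.coeff p.1 * x.coeff p.2)) :=
    (tendsto_finsetSum _ fun p hp =>
      (h p.2 (by have := mem_antidiagonal.1 hp; omega)).const_mul _).const_mul r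
  rw [sub_mul 1 _ x, one_mul, coeff_sub, mul_assoc (C r), coeff_C_mul, coeff_mul]
  refine (h1.sub h2).congr fun g => ?_
  rw [hm_coeff_succ, coeff_sub, coeff_mul, sub_mul, sum_mul, mul_sum]
  congr 1
  exact sum_congr rfl fun p _ => by ring

theorem hm_tele {r c : ℂ} (hr : c * r = 1) (W : PowerSeries ℂ[X]) (m G : ℕ) :
    ∑ g ∈ range (G + 1), (PowerSeries.coeff g ((1 - PowerSeries.C (C c) * PowerSeries.X) *
      W)).coeff m * r ^ g = (PowerSeries.coeff G W).coeff m * r ^ G := by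
  induction G with
  | zero => simp [sub_mul, mul_assoc]
  | succ G ih =>
    rw [sum_range_succ, ih, hm_coeff_succ, coeff_sub, coeff_C_mul]
    linear_combination (-(PowerSeries.coeff G W).coeff m * r ^ G) * hr

theorem hm_base (hF : ringChar F ≠ 2) (U : Fin 4 → ℂ[X]) (hU : ∀ i, X ∣ U i) (M : ℕ) :
    Cv ((Q F : ℂ) ^ 2)⁻¹ M (PowerSeries.mk fun g => ∑ D ∈ sqF F (2 * g + 1),
      Lt (jac D) (2 * g) (U 0) * Lt (jac D) (2 * g) (U 1) *
        (Li (jac D) M (U 2) * Li (jac D) M (U 3)))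
      (C (Q F - 1 : ℂ) * ∏ P ∈ pr F M, (1 + algebraMap ℂ ℂ[X] (1 + ((Q F : ℂ) ^ P.natDegree)⁻¹)⁻¹ *
        Ev M (pw U P.natDegree))) := by
  intro m hm
  set w : Finset F[X] → Finset F[X] → ℂ[X] := fun S₀ S₁ =>
    (∏ P ∈ S₀, Od M (pw U P.natDegree)) * ∏ P ∈ S₁, Ev M (pw U P.natDegree) with hw
  have h1 : ∀ g, (∑ D ∈ sqF F (2 * g + 1), Lt (jac D) (2 * g) (U 0) * Lt (jac D) (2 * g) (U 1) *
      (Li (jac D) M (U 2) * Li (jac D) M (U 3))).coeff m =
      (∑ D ∈ sqF F (2 * g + 1), ∑ S₀ ∈ (pr F M).powerset, ∑ S₁ ∈ (pr F M \ S₀).powerset,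
        w S₀ S₁ * C ((∏ P ∈ S₀, jac D P) * ∏ P ∈ S₁, jac D P ^ 2)).coeff m := by
    intro g
    refine transfer1 _ _ M (fun A _ _ φ hφ => ?_) hm
    have h2 : ∀ i, (φ ∘ U) i ^ (M + 1) = 0 := fun i => by
      obtain ⟨c, hc⟩ := hU i
      rw [Function.comp, hc, map_mul, mul_pow, hφ, zero_mul]
    rw [map_sum, map_sum]
    refine sum_congr rfl fun D hD => ?_
    have h3 := expand_ratio D (le_add_right le_rfl : M ≤ M + 2 * g) h2
    rw [Lt_trunc hF hD (I := M + 2 * g) (by omega), Lt_trunc hF hD (I := M + 2 * g) (by omega),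
      Li_eq_prod (jac_cm D) (le_add_right le_rfl) (h2 2),
      Li_eq_prod (jac_cm D) (le_add_right le_rfl) (h2 3),
      ← Li_eq_prod (jac_cm D) le_rfl (h2 2), ← Li_eq_prod (jac_cm D) le_rfl (h2 3)] at h3
    simp only [map_mul φ, map_Lt, map_Li, map_sum φ, map_prod φ, hw, map_Od, map_Ev,
      ← algebraMap_eq, AlgHom.commutes]
    exact h3
  have h2 : Tendsto (fun g : ℕ => ∑ S₀ ∈ (pr F M).powerset, ∑ S₁ ∈ (pr F M \ S₀).powerset,
      (w S₀ S₁).coeff m * ((∑ D ∈ sqF F (2 * g + 1),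
        (∏ P ∈ S₀, jac D P) * ∏ P ∈ S₁, jac D P ^ 2) / (Q F : ℂ) ^ (2 * g))) atTop
      (nhds (∑ S₀ ∈ (pr F M).powerset, ∑ S₁ ∈ (pr F M \ S₀).powerset, (w S₀ S₁).coeff m *
        (if S₀ = ∅ then (Q F - 1) * ∏ P ∈ S₁, (1 + ((Q F : ℂ) ^ P.natDegree)⁻¹)⁻¹ else 0))) :=
    tendsto_finsetSum _ fun S₀ h0 => tendsto_finsetSum _ fun S₁ h1 =>
      (blim hF (mem_powerset.1 h0) (mem_powerset.1 h1)).const_mul _
  have h3 : ∑ S₀ ∈ (pr F M).powerset, ∑ S₁ ∈ (pr F M \ S₀).powerset, (w S₀ S₁).coeff m *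
      (if S₀ = ∅ then (Q F - 1) * ∏ P ∈ S₁, (1 + ((Q F : ℂ) ^ P.natDegree)⁻¹)⁻¹ else 0) =
      (C (Q F - 1 : ℂ) * ∏ P ∈ pr F M, (1 + algebraMap ℂ ℂ[X] (1 + ((Q F : ℂ) ^ P.natDegree)⁻¹)⁻¹ *
        Ev M (pw U P.natDegree))).coeff m := by
    rw [sum_eq_single ∅ (fun S _ hS => by simp [hS]) (fun h => absurd (empty_mem_powerset _) h),
      sdiff_empty, prod_one_add, mul_sum, finsetSum_coeff]
    refine sum_congr rfl fun S _ => ?_
    rw [if_pos rfl, prod_mul_distrib, ← map_prod, algebraMap_eq, coeff_C_mul, coeff_C_mul, hw]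
    simp only [prod_empty, one_mul]
    ring
  rw [← h3]
  refine h2.congr fun g => ?_
  rw [PowerSeries.coeff_mk, h1, sum_comm, finsetSum_coeff, sum_mul]
  refine sum_congr rfl fun S₀ _ => ?_
  rw [sum_comm, finsetSum_coeff, sum_mul]
  refine sum_congr rfl fun S₁ _ => ?_
  rw [← mul_sum, ← map_sum, coeff_mul_C, inv_pow, ← pow_mul, mul_assoc, div_eq_mul_inv]

theorem hM_lim (hF : ringChar F ≠ 2) (u : Fin 4 → ℂ) {M M' : ℕ} (h : M ≤ M') :
    Filter.Tendsto (fun G : ℕ => ∑ g ∈ range G,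
        (∑ p ∈ antidiagonal M, ff F u p.1 p.2 g) * (((Q F : ℂ) ^ 2)⁻¹) ^ g) Filter.atTop
      (nhds ((C (Q F - 1 : ℂ) * (1 + C (Q F * (u 0 * u 1)) * X ^ 2) *
        ∏ P ∈ pr F M', BP F P.natDegree (pw (fun i => (C (u i) * X : ℂ[X])) P.natDegree)).coeff
          M)) := by
  set U : Fin 4 → ℂ[X] := fun i => C (u i) * X with hUd
  have hU : ∀ i, X ∣ U i := fun i => dvd_mul_left _ _
  have hq : (Q F : ℂ) ≠ 0 := Q_ne
  have h1 := ((((hm_base hF U hU M').step (qA F ℂ[X] ^ 4 * U 0 ^ 2 * U 1 ^ 2)).step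
    (qA F ℂ[X] ^ 3 * U 1 ^ 2)).step (qA F ℂ[X] ^ 3 * U 0 ^ 2)) M h
  rw [← tendsto_add_atTop_iff_nat 1]
  convert h1 using 2 with G
  · rw [← hm_tele (mul_inv_cancel₀ (pow_ne_zero 2 hq))]
    refine sum_congr rfl fun g _ => ?_
    rw [link0 u h g]
    congr 3
    simp only [Ph, map_mul, map_pow, map_natCast, hUd]
    ring
  · refine transfer1 _ _ M' (fun A _ _ φ hφ => ?_) h
    have h2 : ∀ i, (φ ∘ U) i ^ (M' + 1) = 0 := fun i => by
      obtain ⟨c, hc⟩ := hU i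
      rw [Function.comp, hc, map_mul, mul_pow, hφ, zero_mul]
    have h3 : algebraMap ℂ A ((Q F : ℂ) ^ 2)⁻¹ * qA F A ^ 2 = 1 := by
      rw [show qA F A = algebraMap ℂ A (Q F) from (map_natCast _ _).symm, ← map_pow, ← map_mul,
        inv_mul_cancel₀ (pow_ne_zero 2 hq), map_one]
    have h4 : φ (C (Q F * (u 0 * u 1)) * X ^ 2) = qA F A * ((φ ∘ U) 0 * (φ ∘ U) 1) := by
      simp only [Function.comp, hUd, map_mul, map_natCast, map_pow]
      ring
    rw [map_mul φ, map_mul φ, map_add φ, h4]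
    simp only [map_mul φ, map_prod φ, map_add φ, map_sub φ, map_one φ, map_BP, map_Ev,
      ← algebraMap_eq, AlgHom.commutes, map_natCast φ, map_pow φ]
    rw [← prod_BP h2]
    generalize ∏ P ∈ pr F M', (1 + algebraMap ℂ A (1 + ((Q F : ℂ) ^ P.natDegree)⁻¹)⁻¹ *
      Ev M' (pw (φ ∘ U) P.natDegree)) = E
    simp only [Function.comp]
    generalize algebraMap ℂ A ((Q F : ℂ) ^ 2)⁻¹ = r at h3 ⊢
    have h5 : ∀ z : A, r * (qA F A ^ 3 * z) = qA F A * z := fun z => by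
      linear_combination (qA F A * z) * h3
    have h6 : ∀ z z' : A, r * (qA F A ^ 4 * z * z') = qA F A ^ 2 * z * z' := fun z z' => by
      linear_combination (qA F A ^ 2 * z * z') * h3
    rw [h5, h5, h6]
    ring

end Pool.Agent.MP_dd7250_nt
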