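import Mathlib
import Pool.Agent.MP_dd7250_nt.EP

/- Infinite Euler products. -/

set_option autoImplicit false

namespace Pool.Agent.MP_dd7250_nt

open Polynomial Finset Pool.Agent.MP_d232b3_nt
open scoped Classical

variable {F : Type*} [Field F] [Fintype F]

theorem inf_summable {ε : ℝ} (hε : 0 < ε) :
    Summable fun P : Prm F => qp F (-(1 + ε) * P.1.natDegree) := by
  obtain ⟨C, hC⟩ := sum_pr_le (F := F) hε
  refine summable_of_sum_le (c := C) (fun P => (qp_pos _).le) fun u => ?_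
  refine le_trans ?_ (hC (u.sup fun P => P.1.natDegree))
  rw [← sum_subtype_of_mem (p := fun P : F[X] => P.Monic ∧ Irreducible P) _
    fun P hP => ⟨(mem_pr.1 hP).1, (mem_pr.1 hP).2.1⟩]
  refine sum_le_sum_of_subset_of_nonneg (fun P hP => ?_) fun _ _ _ => (qp_pos _).le
  exact mem_subtype.2 (mem_pr.2 ⟨P.2.1, P.2.2, le_sup (f := fun P : Prm F => P.1.natDegree) hP⟩)

theorem hasProd_of_bound {ε κ : ℝ} (hε : 0 < ε) (f : ℕ → ℂ)
    (h : ∀ d : ℕ, 1 ≤ d → ‖f d - 1‖ ≤ κ * qp F (-(1 + ε) * d)) :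
    ∃ b : ℂ, HasProd (fun P : Prm F => f P.1.natDegree) b ∧
      Filter.Tendsto (fun M => ∏ P ∈ pr F M, f P.natDegree) Filter.atTop (nhds b) := by
  have h1 : Summable fun P : Prm F => ‖f P.1.natDegree - 1‖ :=
    Summable.of_nonneg_of_le (fun _ => norm_nonneg _) (fun P => h _ (deg_pos P.2.2))
      ((inf_summable hε).mul_left κ)
  have h2 := multipliable_one_add_of_summable h1
  simp only [add_sub_cancel] at h2
  refine ⟨_, h2.hasProd, ?_⟩
  have h3 : Filter.Tendsto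
      (fun M => (pr F M).subtype fun P : F[X] => P.Monic ∧ Irreducible P) Filter.atTop
      Filter.atTop :=
    Filter.tendsto_atTop_finset_of_monotone (fun _ _ hM => subtype_mono (pr_mono hM)) fun P =>
      ⟨P.1.natDegree, mem_subtype.2 (mem_pr.2 ⟨P.2.1, P.2.2, le_rfl⟩)⟩
  refine (Filter.Tendsto.comp h2.hasProd h3).congr fun M => ?_
  exact prod_subtype_of_mem (fun P : F[X] => f P.natDegree)
    fun P hP => ⟨(mem_pr.1 hP).1, (mem_pr.1 hP).2.1⟩

theorem inf_eps {z : ℂ} (hz : Q F * ‖z‖ < 1) : ∃ ε : ℝ, 0 < ε ∧ ‖z‖ ≤ qp F (-(1 + 2 * ε)) := by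
  rcases (norm_nonneg z).eq_or_lt with h0 | h0
  · exact ⟨1, one_pos, h0 ▸ (qp_pos _).le⟩
  have hQ := one_lt_Q (F := F)
  have hQ0 : (0 : ℝ) < Q F := zero_lt_one.trans hQ
  have h1 : Real.logb (Q F) ‖z‖ < -1 := by
    rw [Real.logb_lt_iff_lt_rpow hQ h0, Real.rpow_neg_one, ← one_div, lt_div_iff₀' hQ0]
    exact hz
  refine ⟨(-1 - Real.logb (Q F) ‖z‖) / 2, by linarith, le_of_eq ?_⟩
  rw [show -(1 + 2 * ((-1 - Real.logb (Q F) ‖z‖) / 2)) = Real.logb (Q F) ‖z‖ by ring, qp,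
    Real.rpow_logb hQ0 hQ.ne' h0]

theorem inf_pw {w z : ℂ} {x y : ℝ} (hw : ‖w‖ ≤ qp F x) (hz : ‖z‖ ≤ qp F y) (d : ℕ) :
    ‖(w * z) ^ d‖ ≤ qp F ((x + y) * d) := by
  rw [norm_pow, norm_mul, ← qp_pow, qp_add]
  exact pow_le_pow_left₀ (by positivity) (mul_le_mul hw hz (norm_nonneg _) (qp_pos _).le) d

theorem hasProd_zeta {z : ℂ} (hz : Q F * ‖z‖ < 1) :
    HasProd (fun P : Prm F => 1 - z ^ P.1.natDegree) (1 - Q F * z) := by
  obtain ⟨ε, hε, hz'⟩ := inf_eps hz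
  obtain ⟨b, hb, hlim⟩ := hasProd_of_bound (F := F) (κ := 1) hε (fun d => 1 - z ^ d) fun d _ => by
    rw [sub_sub_cancel_left, norm_neg, norm_pow, one_mul, ← qp_pow]
    exact pow_le_pow_left₀ (norm_nonneg _) (hz'.trans (qp_mono (by linarith))) d
  obtain ⟨C₀, hC⟩ := sum_pr_le (F := F) hε
  have hr : 1 < qp F ε := Real.one_lt_rpow one_lt_Q hε
  have key := (poly_limit (fun M => ∏ P ∈ pr F M, (1 - (C z * X : ℂ[X]) ^ P.natDegree))
    (fun m => (1 - qA F ℂ[X] * (C z * X) : ℂ[X]).coeff m) (B := Real.exp C₀) hr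
    (fun M w hw => ?_) fun m M hm => ?_).2
  · have e1 : ∑' m, (1 - qA F ℂ[X] * (C z * X) : ℂ[X]).coeff m = 1 - Q F * z := by
      rw [tsum_eq_sum (s := (1 - qA F ℂ[X] * (C z * X) : ℂ[X]).support)
        fun m hm => notMem_support_iff.1 hm]
      have := eval_eq_sum (p := (1 - qA F ℂ[X] * (C z * X) : ℂ[X])) (x := 1)
      simp only [Polynomial.sum, one_pow, mul_one] at this
      rw [← this]
      simp
    rw [e1] at key
    have e2 : b = 1 - Q F * z := by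
      refine tendsto_nhds_unique hlim (key.congr fun M => ?_)
      simp
    exact e2 ▸ hb
  · rw [map_prod, norm_prod]
    refine le_trans (prod_le_prod (fun _ _ => norm_nonneg _)
      (g := fun P => Real.exp (qp F (-(1 + ε) * P.natDegree))) fun P _ => ?_) ?_
    · have h1 := inf_pw hz' hw.le P.natDegree
      rw [show -(1 + 2 * ε) + ε = -(1 + ε) by ring] at h1
      have h2 : aeval w (1 - (C z * X : ℂ[X]) ^ P.natDegree) = 1 - (z * w) ^ P.natDegree := by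
        simp
      have h3 := norm_sub_le (1 : ℂ) ((z * w) ^ P.natDegree)
      have h4 := Real.add_one_le_exp (qp F (-(1 + ε) * P.natDegree))
      rw [norm_one] at h3
      rw [h2]
      linarith
    · rw [← Real.exp_sum]
      exact Real.exp_le_exp.2 (hC M)
  · refine transfer1 _ _ M (fun A _ _ φ hφ => ?_) hm
    have h1 : φ (C z * X) ^ (M + 1) = 0 := by rw [map_mul, mul_pow, hφ, mul_zero]
    simp only [map_prod, map_sub, map_one, map_pow]
    rw [prod_zeta h1, map_mul φ (qA F ℂ[X]), map_natCast]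

theorem inf_three {x y w : ℂ} {δ : ℝ} (hδ : δ ≤ 1) (hx : ‖x‖ ≤ δ) (hy : ‖y‖ ≤ δ)
    (hw : ‖w‖ ≤ δ) : ‖(1 - x) * (1 - y) * (1 - w) - 1‖ ≤ 7 * δ := by
  have k : ∀ v : ℂ, ‖v‖ ≤ δ → ‖1 - v‖ ≤ 2 := fun v hv => by
    have := norm_sub_le 1 v
    rw [norm_one] at this
    linarith
  have h0 : 0 ≤ δ := (norm_nonneg _).trans hx
  have h1 : ‖x * ((1 - y) * (1 - w))‖ ≤ δ * (2 * 2) := by
    rw [norm_mul, norm_mul]
    exact mul_le_mul hx (mul_le_mul (k y hy) (k w hw) (norm_nonneg _) zero_le_two)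
      (by positivity) h0
  have h2 : ‖y * (1 - w)‖ ≤ δ * 2 := by
    rw [norm_mul]
    exact mul_le_mul hy (k w hw) (norm_nonneg _) h0
  have h3 := norm_add₃_le (a := x * ((1 - y) * (1 - w))) (b := y * (1 - w)) (c := w)
  rw [show (1 - x) * (1 - y) * (1 - w) - 1 = -(x * ((1 - y) * (1 - w)) + y * (1 - w) + w) by ring,
    norm_neg]
  linarith

theorem inf_alg {a b c e : ℂ} {p δ : ℝ} (hp : 0 ≤ p) (hδ : δ ≤ 1) (h1 : ‖a * b‖ ≤ δ)
    (h2 : ‖a * a‖ ≤ δ) (h3 : ‖b * b‖ ≤ δ) (h4 : ‖a * b * (a * b)‖ ≤ p * δ) (h5 : ‖a * c‖ ≤ p * δ)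
    (h6 : ‖a * e‖ ≤ p * δ) (h7 : ‖b * c‖ ≤ p * δ) (h8 : ‖b * e‖ ≤ p * δ) (h9 : ‖c * e‖ ≤ p * δ) :
    ‖(1 + (p : ℂ))⁻¹ * (1 + a * b + c * e - (a + b) * (c + e) + a * b * (c * e) +
      p * ((1 - a ^ 2) * (1 - b ^ 2))) * (1 - a * b) - 1‖ ≤ 20 * (p * δ) := by
  have hk : (1 + (p : ℂ)) ≠ 0 := by exact_mod_cast (by positivity : (1 + p : ℝ) ≠ 0)
  have hk1 : ‖(1 + (p : ℂ))⁻¹‖ ≤ 1 := by
    rw [norm_inv]
    refine inv_le_one_of_one_le₀ ?_
    rw [← Complex.ofReal_one, ← Complex.ofReal_add, Complex.norm_real,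
      Real.norm_of_nonneg (by positivity)]
    linarith
  have e1 : (1 + (p : ℂ))⁻¹ * (1 + a * b + c * e - (a + b) * (c + e) + a * b * (c * e) +
      p * ((1 - a ^ 2) * (1 - b ^ 2))) * (1 - a * b) - 1 = (1 + (p : ℂ))⁻¹ *
      (-(a * b * (a * b)) + (c * e - (a * c + a * e + (b * c + b * e)) + a * b * (c * e)) *
        (1 - a * b) + p * ((1 - a * a) * (1 - b * b) * (1 - a * b) - 1)) := by
    field_simp
    ring
  have h10 : ‖a * b * (c * e)‖ ≤ p * δ := by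
    rw [norm_mul]
    exact (mul_le_of_le_one_left (norm_nonneg _) (h1.trans hδ)).trans h9
  have h11 : ‖c * e - (a * c + a * e + (b * c + b * e)) + a * b * (c * e)‖ ≤ 6 * (p * δ) := by
    have i1 := norm_add_le (c * e - (a * c + a * e + (b * c + b * e))) (a * b * (c * e))
    have i2 := norm_sub_le (c * e) (a * c + a * e + (b * c + b * e))
    have i3 := norm_add₃_le (a := a * c) (b := a * e) (c := b * c + b * e)
    have i4 := norm_add_le (b * c) (b * e)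
    linarith
  have h12 : ‖1 - a * b‖ ≤ 2 := by
    have := norm_sub_le 1 (a * b)
    rw [norm_one] at this
    linarith
  have h13 : ‖(c * e - (a * c + a * e + (b * c + b * e)) + a * b * (c * e)) * (1 - a * b)‖ ≤
      6 * (p * δ) * 2 := by
    rw [norm_mul]
    exact mul_le_mul h11 h12 (norm_nonneg _) ((norm_nonneg _).trans h11)
  have h14 : ‖(p : ℂ) * ((1 - a * a) * (1 - b * b) * (1 - a * b) - 1)‖ ≤ p * (7 * δ) := by
    rw [norm_mul, Complex.norm_real, Real.norm_of_nonneg hp]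
    exact mul_le_mul_of_nonneg_left (inf_three hδ h2 h3 h1) hp
  have h15 := norm_add₃_le (a := -(a * b * (a * b)))
    (b := (c * e - (a * c + a * e + (b * c + b * e)) + a * b * (c * e)) * (1 - a * b))
    (c := (p : ℂ) * ((1 - a * a) * (1 - b * b) * (1 - a * b) - 1))
  rw [norm_neg] at h15
  rw [e1, norm_mul]
  refine (mul_le_of_le_one_left (norm_nonneg _) hk1).trans ?_
  linarith

theorem inf_mul {w z : ℂ} {x y s : ℝ} {d : ℕ} (hw : ‖w‖ ≤ qp F (x * d)) (hz : ‖z‖ ≤ qp F (y * d))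
    (h : x + y ≤ s) : ‖w * z‖ ≤ qp F (s * d) := by
  rw [norm_mul]
  refine (mul_le_mul hw hz (norm_nonneg _) (qp_pos _).le).trans ?_
  rw [← qp_add, ← add_mul]
  exact qp_mono (mul_le_mul_of_nonneg_right h (Nat.cast_nonneg d))

theorem BP_bound (hF : ringChar F ≠ 2) : ∃ κ : ℝ, 0 ≤ κ ∧ ∀ (ε c a₀ a₁ : ℝ) (u : Fin 4 → ℂ)
    (z : ℂ), 0 < ε → Rng F ε c a₀ a₁ u → ‖z‖ ≤ qp F (ε / 8) → ∀ d : ℕ, 1 ≤ d →
      ‖BP F d (pw (fun i => u i * z) d) - 1‖ ≤ κ * qp F (-(1 + ε / 2) * d) := by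
  refine ⟨20, by norm_num, fun ε c a₀ a₁ u z hε h hz d _ => ?_⟩
  have n0 := inf_pw h.h0.le hz d
  have n1 := inf_pw h.h1.le hz d
  have n2 := inf_pw h.h2 hz d
  have n3 := inf_pw h.h3 hz d
  have hc := h.hc
  have ha := h.ha
  have b0 := neg_abs_le a₀
  have b1 := neg_abs_le a₁
  have c0 := abs_nonneg a₀
  have c1 := abs_nonneg a₁
  have e1 : qp F (-(1 + ε / 2) * d) = qp F (-d) * qp F (-(ε / 2) * d) := by
    rw [← qp_add]
    congr 1
    ring
  have e2 : ((Q F : ℂ) ^ d)⁻¹ = (qp F (-d) : ℝ) := by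
    rw [qp_neg, qp_nat]
    push_cast
    rfl
  have m01 := inf_mul n0 n1 le_rfl
  have key := inf_alg (p := qp F (-d)) (δ := qp F (-(ε / 2) * d)) (qp_pos _).le
    (qp_le_one (mul_nonpos_of_nonpos_of_nonneg (by linarith) (Nat.cast_nonneg d)))
    (inf_mul n0 n1 (by linarith)) (inf_mul n0 n0 (by linarith)) (inf_mul n1 n1 (by linarith))
    (e1 ▸ inf_mul m01 m01 (by linarith)) (e1 ▸ inf_mul n0 n2 (by linarith))
    (e1 ▸ inf_mul n0 n3 (by linarith)) (e1 ▸ inf_mul n1 n2 (by linarith))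
    (e1 ▸ inf_mul n1 n3 (by linarith)) (e1 ▸ inf_mul n2 n3 (by linarith))
  rw [e1, BP, e2]
  exact key

end Pool.Agent.MP_dd7250_nt
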