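import Mathlib
import Pool.Agent.MP_dd7250_nt.HM
import Pool.Agent.MP_dd7250_nt.Abs
import Pool.Agent.MP_dd7250_nt.Inf

/- The first main term. -/

set_option autoImplicit false

namespace Pool.Agent.MP_dd7250_nt

open Polynomial Finset Pool.Agent.MP_d232b3_nt
open scoped Classical

variable {F : Type*} [Field F] [Fintype F]

theorem main0_ne {ε c a₀ a₁ : ℝ} {u : Fin 4 → ℂ} (h : Rng F ε c a₀ a₁ u) :
    u 0 ≠ 0 ∧ u 1 ≠ 0 :=
  ⟨norm_pos_iff.1 (h.h0 ▸ qp_pos _), norm_pos_iff.1 (h.h1 ▸ qp_pos _)⟩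

theorem main0_zero (hF : ringChar F ≠ 2) {ε c a₀ a₁ : ℝ} {u : Fin 4 → ℂ}
    (h : Rng F ε c a₀ a₁ u) {n k g : ℕ} (hn : ¬ n ≤ 4 * g) : ff F u n k g = 0 := by
  rw [ff_symm hF (main0_ne h).1 (main0_ne h).2, if_neg hn]

theorem main0_summable (hF : ringChar F ≠ 2) {ε c a₀ a₁ : ℝ} (hε : 0 < ε) {u : Fin 4 → ℂ}
    (h : Rng F ε c a₀ a₁ u) :
    Summable fun x : ℕ × (ℕ × ℕ) => ff F u x.2.1 x.2.2 x.1 * (((Q F : ℂ) ^ 2)⁻¹) ^ x.1 := by
  obtain ⟨C, θ, hC, hθ, hθ1, H⟩ := ff_abs hF hε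
  have hs0 := (qp_pos (F := F) (-(ε / 8))).le
  have hs1 : qp F (-(ε / 8)) < 1 := qp_lt_one (by linarith)
  have g1 := summable_geometric_of_lt_one hs0 hs1
  have g2 := summable_geometric_of_lt_one hθ hθ1
  have g3 : Summable fun p : ℕ × ℕ => qp F (-(ε / 8)) ^ p.1 * θ ^ p.2 :=
    g1.mul_of_nonneg g2 (fun _ => pow_nonneg hs0 _) fun _ => pow_nonneg hθ _
  have g4 : Summable fun x : ℕ × (ℕ × ℕ) =>
      qp F (-(ε / 8)) ^ x.1 * (qp F (-(ε / 8)) ^ x.2.1 * θ ^ x.2.2) :=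
    g1.mul_of_nonneg g3 (fun _ => pow_nonneg hs0 _)
      fun _ => mul_nonneg (pow_nonneg hs0 _) (pow_nonneg hθ _)
  refine Summable.of_norm_bounded (g4.mul_left C) ?_
  rintro ⟨g, n, k⟩
  dsimp only
  by_cases hn : n ≤ 4 * g
  swap
  · rw [main0_zero hF h hn, zero_mul, norm_zero]
    positivity
  have e1 : ‖(((Q F : ℂ) ^ 2)⁻¹) ^ g‖ = qp F (-2 * g) := by
    rw [norm_pow, norm_inv, norm_pow, Complex.norm_natCast, ← qp_nat, ← qp_neg, qp_pow]
    norm_num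
  have e2 : ex c a₀ a₁ + ε ≤ 2 - ε := by
    have b0 : max 0 (-a₀) ≤ |a₀| := max_le (abs_nonneg _) (neg_le_abs _)
    have b1 : max 0 (-a₁) ≤ |a₁| := max_le (abs_nonneg _) (neg_le_abs _)
    have := h.ha
    unfold ex
    linarith
  have e3 : qp F ((ex c a₀ a₁ + ε) * g) * qp F (-2 * g) ≤
      qp F (-(ε / 8)) ^ g * qp F (-(ε / 8)) ^ n := by
    rw [qp_pow, qp_pow, ← qp_add, ← qp_add]
    refine qp_mono ?_
    have hn' : (n : ℝ) ≤ 4 * g := by exact_mod_cast hn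
    have hg : (0 : ℝ) ≤ g := Nat.cast_nonneg g
    nlinarith [mul_le_mul_of_nonneg_right e2 hg, mul_le_mul_of_nonneg_left hn' hε.le,
      mul_nonneg hε.le hg]
  rw [norm_mul, e1]
  calc ‖ff F u n k g‖ * qp F (-2 * g)
      ≤ C * qp F ((ex c a₀ a₁ + ε) * g) * θ ^ k * qp F (-2 * g) :=
        mul_le_mul_of_nonneg_right (H c a₀ a₁ u h n k g) (qp_pos _).le
    _ = C * (qp F ((ex c a₀ a₁ + ε) * g) * qp F (-2 * g)) * θ ^ k := by ring
    _ ≤ C * (qp F (-(ε / 8)) ^ g * qp F (-(ε / 8)) ^ n) * θ ^ k := by gcongr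
    _ = _ := by ring

theorem main0_aeval (u : Fin 4 → ℂ) (M : ℕ) (z : ℂ) :
    aeval z (C (Q F - 1 : ℂ) * (1 + C (Q F * (u 0 * u 1)) * X ^ 2) *
        ∏ P ∈ pr F M, BP F P.natDegree (pw (fun i => (C (u i) * X : ℂ[X])) P.natDegree)) =
      (Q F - 1) * (1 + Q F * (u 0 * u 1) * z ^ 2) *
        ∏ P ∈ pr F M, BP F P.natDegree (pw (fun i => u i * z) P.natDegree) := by
  have e : (aeval z : ℂ[X] →ₐ[ℂ] ℂ) ∘ (fun i => (C (u i) * X : ℂ[X])) = fun i => u i * z := by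
    funext i
    simp
  rw [map_mul, map_prod]
  simp only [map_BP, e]
  simp

theorem main0 (hF : ringChar F ≠ 2) {ε c a₀ a₁ : ℝ} (hε : 0 < ε) {u : Fin 4 → ℂ}
    (h : Rng F ε c a₀ a₁ u) :
    ∃ b : ℂ, HasProd (fun P : Prm F => BP F P.1.natDegree (pw u P.1.natDegree)) b ∧
      HasSum (fun g => HW (F := F) (wt (u 2) (u 3)) (u 0) (u 1) g * (((Q F : ℂ) ^ 2)⁻¹) ^ g)
        ((Q F - 1) * (1 + Q F * (u 0 * u 1)) * b) := by
  obtain ⟨κ, hκ, Hκ⟩ := BP_bound hF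
  have hr : 1 < qp F (ε / 8) := Real.one_lt_rpow one_lt_Q (by linarith)
  obtain ⟨b, hb, hb'⟩ := hasProd_of_bound (F := F) (half_pos hε) (κ := κ)
    (fun d => BP F d (pw u d)) fun d hd => by
      have := Hκ ε c a₀ a₁ u 1 hε h (by rw [norm_one]; exact hr.le) d hd
      simpa only [mul_one] using this
  refine ⟨b, hb, ?_⟩
  have hs := main0_summable hF hε h
  have ha := hs.hasSum
  set a := ∑' x : ℕ × (ℕ × ℕ), ff F u x.2.1 x.2.2 x.1 * (((Q F : ℂ) ^ 2)⁻¹) ^ x.1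
  have s1 : HasSum (fun g => HW (F := F) (wt (u 2) (u 3)) (u 0) (u 1) g *
      (((Q F : ℂ) ^ 2)⁻¹) ^ g) a := by
    refine ha.prod_fiberwise fun g => ?_
    have t1 := (hs.prod_factor g).hasSum
    have t2 := ((Equiv.prodComm ℕ ℕ).hasSum_iff.2 t1).prod_fiberwise
      (g := fun k => (∑ n ∈ range (4 * g + 1), ff F u n k g) * (((Q F : ℂ) ^ 2)⁻¹) ^ g)
      fun k => (hasSum_sum_of_ne_finset_zero (f := fun n => ff F u n k g)
        fun n hn => main0_zero hF h (by rw [mem_range] at hn; omega)).mul_right _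
    rw [((hasSum_HW hF hε h g).mul_right _).unique t2]
    exact t1
  have hs' : Summable fun x : (ℕ × ℕ) × ℕ =>
      ff F u x.1.1 x.1.2 x.2 * (((Q F : ℂ) ^ 2)⁻¹) ^ x.2 := hs.prod_symm
  have s2 : HasSum (fun p : ℕ × ℕ => ∑' g, ff F u p.1 p.2 g * (((Q F : ℂ) ^ 2)⁻¹) ^ g) a :=
    ((Equiv.prodComm (ℕ × ℕ) ℕ).hasSum_iff.2 ha).prod_fiberwise
      fun p => (hs'.prod_factor p).hasSum
  have s3 : HasSum (fun M => ∑ p ∈ antidiagonal M,
      ∑' g, ff F u p.1 p.2 g * (((Q F : ℂ) ^ 2)⁻¹) ^ g) a := by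
    refine (Finset.HasAntidiagonal.sigmaAntidiagonalEquivProd.hasSum_iff.2 s2).sigma fun M => ?_
    rw [← Finset.sum_coe_sort]
    exact hasSum_fintype _
  obtain ⟨K, hK⟩ := sum_pr_le (F := F) (half_pos hε)
  have s4 := (poly_limit (fun M => C (Q F - 1 : ℂ) * (1 + C (Q F * (u 0 * u 1)) * X ^ 2) *
      ∏ P ∈ pr F M, BP F P.natDegree (pw (fun i => (C (u i) * X : ℂ[X])) P.natDegree))
    (fun M => ∑ p ∈ antidiagonal M, ∑' g, ff F u p.1 p.2 g * (((Q F : ℂ) ^ 2)⁻¹) ^ g) hr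
    (B := ‖(Q F - 1 : ℂ)‖ * (1 + ‖Q F * (u 0 * u 1)‖ * qp F (ε / 8) ^ 2) * Real.exp (κ * K))
    (fun M z hz => by
      rw [main0_aeval, norm_mul, norm_mul]
      refine mul_le_mul (mul_le_mul_of_nonneg_left ((norm_add_le _ _).trans_eq ?_)
        (norm_nonneg _)) ?_ (norm_nonneg _) (by positivity)
      · rw [norm_one, norm_mul, norm_pow, hz]
      · rw [norm_prod]
        refine le_trans (prod_le_prod (fun _ _ => norm_nonneg _)
          (g := fun P => Real.exp (κ * qp F (-(1 + ε / 2) * P.natDegree))) fun P hP => ?_) ?_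
        · have t := Hκ ε c a₀ a₁ u z hε h hz.le _ (deg_pos (mem_pr.1 hP).2.1)
          have t' := norm_le_norm_add_norm_sub' (BP F P.natDegree
            (pw (fun i => u i * z) P.natDegree)) 1
          rw [norm_one] at t'
          linarith [Real.add_one_le_exp (κ * qp F (-(1 + ε / 2) * P.natDegree))]
        · rw [← Real.exp_sum, ← mul_sum]
          exact Real.exp_le_exp.2 (mul_le_mul_of_nonneg_left (hK M) hκ))
    fun m M hm => by
      refine tendsto_nhds_unique (hM_lim hF u hm) ?_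
      simp only [sum_mul]
      exact (hasSum_sum fun p _ => (hs'.prod_factor p).hasSum).tendsto_sum_nat).2
  simp only [main0_aeval, mul_one, one_pow] at s4
  rw [tendsto_nhds_unique (hb'.const_mul _) s4, s3.tsum_eq]
  exact s1

end Pool.Agent.MP_dd7250_nt
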