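import Mathlib
import Pool.Agent.MP_dd7250_nt.Main0

/- The four main terms. -/

set_option autoImplicit false
set_option maxHeartbeats 400000

namespace Pool.Agent.MP_dd7250_nt

open Polynomial Finset Pool.Agent.MP_d232b3_nt Filter
open scoped Classical

variable {F : Type*} [Field F] [Fintype F]

variable (F) in
/-- The main term in the variables `u`. -/
noncomputable def Gu (u : Fin 4 → ℂ) : ℂ :=
  (∏' P : Prm F, BP F P.1.natDegree (pw u P.1.natDegree)) /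
    ((1 - Q F * u 0 ^ 2) * (1 - Q F * u 1 ^ 2) * (1 - Q F * (u 0 * u 1)))

theorem asm_norm_Q : ‖(Q F : ℂ)‖ = qp F 1 := by rw [qp_one, Complex.norm_natCast]

theorem asm_dual {x : ℂ} {a : ℝ} (h : ‖x‖ = qp F (-(1 / 2 + a))) :
    ‖(Q F * x)⁻¹‖ = qp F (-(1 / 2 + -a)) := by
  rw [norm_inv, norm_mul, asm_norm_Q, h, ← qp_add, ← qp_neg]
  congr 1
  ring

theorem asm_ne {x : ℂ} {a : ℝ} (h : ‖x‖ = qp F a) : x ≠ 0 :=
  norm_pos_iff.1 (h ▸ qp_pos a)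

theorem asm_evs (hF : ringChar F ≠ 2) {ε c a₀ a₁ : ℝ} (hε : 0 < ε) {u : Fin 4 → ℂ}
    (h : Rng F ε c a₀ a₁ u) {H : PowerSeries ℂ} {s : ℂ} (hs : s ≠ 0)
    (hH : ∀ g, PowerSeries.coeff g H = s ^ g * HW (F := F) (wt (u 2) (u 3)) (u 0) (u 1) g)
    (h0 : (Q F : ℂ) ^ 2 * u 0 ^ 2 * u 1 ^ 2 ≠ 1) :
    evs ((Q F : ℂ) ^ 2 * s)⁻¹ H / ((1 - Q F * u 0 ^ 2) * (1 - Q F * u 1 ^ 2) *
      (1 - (Q F : ℂ) ^ 2 * u 0 ^ 2 * u 1 ^ 2)) = (Q F - 1) * Gu F u := by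
  obtain ⟨b, hb, hS⟩ := main0 hF hε h
  have h1 : evs ((Q F : ℂ) ^ 2 * s)⁻¹ H = (Q F - 1) * (1 + Q F * (u 0 * u 1)) * b := by
    rw [← hS.tsum_eq, evs]
    refine tsum_congr fun g => ?_
    rw [hH, mul_inv, mul_pow, inv_pow s]
    field_simp
  have h2 : 1 - (Q F : ℂ) ^ 2 * u 0 ^ 2 * u 1 ^ 2 =
      (1 + Q F * (u 0 * u 1)) * (1 - Q F * (u 0 * u 1)) := by ring
  have h3 : 1 + (Q F : ℂ) * (u 0 * u 1) ≠ 0 := fun h4 => h0 (by
    rw [h4, zero_mul] at h2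
    exact (sub_eq_zero.1 h2).symm)
  rw [h1, h2, Gu, hb.tprod_eq]
  generalize 1 + (Q F : ℂ) * (u 0 * u 1) = z at h3 ⊢
  field_simp

theorem asm_main (hF : ringChar F ≠ 2) {ε : ℝ} (hε : 0 < ε) : ∃ K : ℝ,
    ∀ (c a₀ a₁ : ℝ) (u : Fin 4 → ℂ), Rng F ε c a₀ a₁ u → Q F * u 0 ^ 2 ≠ 1 → Q F * u 1 ^ 2 ≠ 1 →
      (Q F : ℂ) ^ 2 * u 0 ^ 2 * u 1 ^ 2 ≠ 1 → u 0 ^ 2 ≠ u 1 ^ 2 → ∀ g : ℕ,
      ‖TW (F := F) (wt (u 2) (u 3)) (u 0) (u 1) g - (Q F - 1) * (Q F : ℂ) ^ (2 * g) *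
        (Gu F u + (Q F * u 1 ^ 2) ^ g * Gu F ![u 0, (Q F * u 1)⁻¹, u 2, u 3] +
          ((Q F * u 0 ^ 2) ^ g * Gu F ![(Q F * u 0)⁻¹, u 1, u 2, u 3] +
            (Q F * u 0 ^ 2) ^ g * (Q F * u 1 ^ 2) ^ g *
              Gu F ![(Q F * u 0)⁻¹, (Q F * u 1)⁻¹, u 2, u 3]))‖ ≤
        K * qp F (ex c a₀ a₁ + ε) ^ g := by
  have hδ : 0 < qp F ε - 1 := by
    have := Real.one_lt_rpow (one_lt_Q (F := F)) hε
    exact sub_pos.2 this
  obtain ⟨K, hK⟩ := solve4 hδ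
  obtain ⟨B, hB⟩ := HW_bound hF hε
  refine ⟨K * B, fun c a₀ a₁ u h h1 h2 h3 h4 g => ?_⟩
  have hq : (Q F : ℂ) ≠ 0 := Q_ne
  have hu0 := asm_ne h.h0
  have hu1 := asm_ne h.h1
  set l : Fin 4 → ℂ := ![(Q F : ℂ) ^ 2 * 1, (Q F : ℂ) ^ 2 * (Q F * u 0 ^ 2),
    (Q F : ℂ) ^ 2 * (Q F * u 1 ^ 2), (Q F : ℂ) ^ 2 * (Q F * u 0 ^ 2 * (Q F * u 1 ^ 2))] with hl
  set H := Ph F (PowerSeries.C (u 0)) (PowerSeries.C (u 1)) PowerSeries.X *
    PowerSeries.mk (TW (F := F) (wt (u 2) (u 3)) (u 0) (u 1)) with hH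
  have hHc : ∀ g, PowerSeries.coeff g H = HW (F := F) (wt (u 2) (u 3)) (u 0) (u 1) g :=
    fun g => rfl
  have hq2 := pow_ne_zero 2 hq
  have hx0 : (Q F : ℂ) * u 0 ^ 2 ≠ 0 := mul_ne_zero hq (pow_ne_zero 2 hu0)
  have hx1 : (Q F : ℂ) * u 1 ^ 2 ≠ 0 := mul_ne_zero hq (pow_ne_zero 2 hu1)
  have h3' : (Q F : ℂ) * u 0 ^ 2 * (Q F * u 1 ^ 2) ≠ 1 := fun h5 => h3 (by rw [← h5]; ring)
  have h4' : (Q F : ℂ) * u 0 ^ 2 ≠ Q F * u 1 ^ 2 := fun h5 => h4 (mul_left_cancel₀ hq h5)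
  have hinj : Function.Injective l := by
    have e1 : (Q F : ℂ) * u 0 ^ 2 ≠ Q F * u 0 ^ 2 * (Q F * u 1 ^ 2) := fun h5 =>
      h2 ((mul_eq_left₀ hx0).1 h5.symm)
    have e2 : (Q F : ℂ) * u 1 ^ 2 ≠ Q F * u 0 ^ 2 * (Q F * u 1 ^ 2) := fun h5 =>
      h1 ((mul_eq_right₀ hx1).1 h5.symm)
    intro i j hij
    fin_cases i <;> fin_cases j <;> first
      | rfl
      | (exfalso
         have h6 := mul_left_cancel₀ hq2 (show (Q F : ℂ) ^ 2 * _ = (Q F : ℂ) ^ 2 * _ from hij)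
         first
          | exact h1 h6 | exact h1 h6.symm | exact h2 h6 | exact h2 h6.symm
          | exact h3' h6 | exact h3' h6.symm | exact h4' h6 | exact h4' h6.symm
          | exact e1 h6 | exact e1 h6.symm | exact e2 h6 | exact e2 h6.symm)
  have hn0 : ‖(Q F : ℂ) * u 0 ^ 2‖ = qp F (-2 * a₀) := by
    rw [norm_mul, norm_pow, asm_norm_Q, h.h0, qp_pow, ← qp_add]; congr 1; push_cast; ring
  have hn1 : ‖(Q F : ℂ) * u 1 ^ 2‖ = qp F (-2 * a₁) := by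
    rw [norm_mul, norm_pow, asm_norm_Q, h.h1, qp_pow, ← qp_add]; congr 1; push_cast; ring
  have hn2 : ‖(Q F : ℂ) ^ 2‖ = qp F 2 := by
    rw [norm_pow, asm_norm_Q, qp_pow]; congr 1; push_cast; ring
  have hge : ∀ i, (1 + (qp F ε - 1)) * qp F (ex c a₀ a₁ + ε) ≤ ‖l i‖ := by
    have ha := h.ha
    have e0 : max 0 (-a₀) ≤ |a₀| ∧ max 0 (-a₀) ≤ |a₀| - a₀ := by
      rcases le_total 0 a₀ with h5 | h5
      · rw [abs_of_nonneg h5, max_eq_left (by linarith)]; constructor <;> linarith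
      · rw [abs_of_nonpos h5, max_eq_right (by linarith)]; constructor <;> linarith
    have e1 : max 0 (-a₁) ≤ |a₁| ∧ max 0 (-a₁) ≤ |a₁| - a₁ := by
      rcases le_total 0 a₁ with h5 | h5
      · rw [abs_of_nonneg h5, max_eq_left (by linarith)]; constructor <;> linarith
      · rw [abs_of_nonpos h5, max_eq_right (by linarith)]; constructor <;> linarith
    intro i
    rw [add_sub_cancel, ← qp_add]
    fin_cases i
    · change _ ≤ ‖(Q F : ℂ) ^ 2 * 1‖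
      rw [mul_one, hn2]
      exact qp_mono (by rw [ex]; linarith [e0.1, e1.1])
    · change _ ≤ ‖(Q F : ℂ) ^ 2 * (Q F * u 0 ^ 2)‖
      rw [norm_mul, hn2, hn0, ← qp_add]
      exact qp_mono (by rw [ex]; linarith [e0.2, e1.1])
    · change _ ≤ ‖(Q F : ℂ) ^ 2 * (Q F * u 1 ^ 2)‖
      rw [norm_mul, hn2, hn1, ← qp_add]
      exact qp_mono (by rw [ex]; linarith [e0.1, e1.2])
    · change _ ≤ ‖(Q F : ℂ) ^ 2 * (Q F * u 0 ^ 2 * (Q F * u 1 ^ 2))‖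
      rw [norm_mul, norm_mul (_ * _), hn2, hn0, hn1, ← qp_add, ← qp_add]
      exact qp_mono (by rw [ex]; linarith [e0.2, e1.2])
  have key := hK _ B l (PowerSeries.mk (TW (F := F) (wt (u 2) (u 3)) (u 0) (u 1))) H (qp_pos _)
    hinj hge (by
      rw [hH, Fin.prod_univ_four, Ph]
      simp only [hl, Matrix.cons_val_zero, Matrix.cons_val_one, Matrix.cons_val, map_mul, map_pow,
        map_natCast, map_one]
      ring) (fun g => hB c a₀ a₁ u h g) g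
  have r1 : Rng F ε c (-a₀) a₁ ![(Q F * u 0)⁻¹, u 1, u 2, u 3] :=
    ⟨h.hc, by rw [abs_neg]; exact h.ha, asm_dual h.h0, h.h1, h.h2, h.h3⟩
  have r2 : Rng F ε c a₀ (-a₁) ![u 0, (Q F * u 1)⁻¹, u 2, u 3] :=
    ⟨h.hc, by rw [abs_neg]; exact h.ha, h.h0, asm_dual h.h1, h.h2, h.h3⟩
  have r3 : Rng F ε c (-a₀) (-a₁) ![(Q F * u 0)⁻¹, (Q F * u 1)⁻¹, u 2, u 3] :=
    ⟨h.hc, by rw [abs_neg, abs_neg]; exact h.ha, asm_dual h.h0, asm_dual h.h1, h.h2, h.h3⟩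
  have c0 := asm_evs hF hε h (H := H) one_ne_zero (fun g => by rw [one_pow, one_mul, hHc]) h3
  have c1 := asm_evs hF hε r1 (H := H) hx0 (fun g => by rw [hHc, HW_symm hF _ hu0]; rfl) (by
    simp only [Matrix.cons_val_zero, Matrix.cons_val_one]
    intro h5
    field_simp at h5
    exact h4 h5.symm)
  have c2 := asm_evs hF hε r2 (H := H) hx1 (fun g => by
    rw [hHc, HW_comm, HW_symm hF _ hu1, HW_comm]; rfl) (by
    simp only [Matrix.cons_val_zero, Matrix.cons_val_one]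
    intro h5
    field_simp at h5
    exact h4 h5)
  have c3 := asm_evs hF hε r3 (H := H) (mul_ne_zero hx0 hx1) (fun g => by
    rw [hHc, HW_symm hF _ hu0, HW_comm, HW_symm hF _ hu1, HW_comm, mul_pow _ (Q F * u 1 ^ 2),
      mul_assoc]; rfl) (by
    simp only [Matrix.cons_val_zero, Matrix.cons_val_one]
    intro h5
    field_simp at h5
    exact h3 (by rw [← h5]))
  rw [PowerSeries.coeff_mk, Fin.sum_univ_four] at key
  have p0 : ∏ j ∈ univ.erase 0, (1 - l j / l 0) = (1 - Q F * u 0 ^ 2) * (1 - Q F * u 1 ^ 2) *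
      (1 - (Q F : ℂ) ^ 2 * u 0 ^ 2 * u 1 ^ 2) := by
    rw [show (univ.erase 0 : Finset (Fin 4)) = {1, 2, 3} by decide, prod_insert (by decide),
      prod_pair (by decide)]
    simp only [hl, Matrix.cons_val_zero, Matrix.cons_val_one, Matrix.cons_val]
    field_simp
  have p1 : ∏ j ∈ univ.erase 1, (1 - l j / l 1) = (1 - Q F * (Q F * u 0)⁻¹ ^ 2) *
      (1 - Q F * u 1 ^ 2) * (1 - (Q F : ℂ) ^ 2 * (Q F * u 0)⁻¹ ^ 2 * u 1 ^ 2) := by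
    rw [show (univ.erase 1 : Finset (Fin 4)) = {0, 2, 3} by decide, prod_insert (by decide),
      prod_pair (by decide)]
    simp only [hl, Matrix.cons_val_zero, Matrix.cons_val_one, Matrix.cons_val]
    field_simp
  have p2 : ∏ j ∈ univ.erase 2, (1 - l j / l 2) = (1 - Q F * u 0 ^ 2) *
      (1 - Q F * (Q F * u 1)⁻¹ ^ 2) * (1 - (Q F : ℂ) ^ 2 * u 0 ^ 2 * (Q F * u 1)⁻¹ ^ 2) := by
    rw [show (univ.erase 2 : Finset (Fin 4)) = {0, 1, 3} by decide, prod_insert (by decide),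
      prod_pair (by decide)]
    simp only [hl, Matrix.cons_val_zero, Matrix.cons_val_one, Matrix.cons_val]
    field_simp
  have p3 : ∏ j ∈ univ.erase 3, (1 - l j / l 3) = (1 - Q F * (Q F * u 0)⁻¹ ^ 2) *
      (1 - Q F * (Q F * u 1)⁻¹ ^ 2) *
      (1 - (Q F : ℂ) ^ 2 * (Q F * u 0)⁻¹ ^ 2 * (Q F * u 1)⁻¹ ^ 2) := by
    rw [show (univ.erase 3 : Finset (Fin 4)) = {0, 1, 2} by decide, prod_insert (by decide),
      prod_pair (by decide)]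
    simp only [hl, Matrix.cons_val_zero, Matrix.cons_val_one, Matrix.cons_val]
    field_simp
  rw [p0, p1, p2, p3] at key
  simp only [hl, Matrix.cons_val_zero, Matrix.cons_val_one, Matrix.cons_val] at key c1 c2 c3
  rw [c0, c1, c2, c3] at key
  refine le_of_eq_of_le ?_ key
  congr 2
  simp only [mul_pow ((Q F : ℂ) ^ 2), mul_pow ((Q F : ℂ) * u 0 ^ 2), ← pow_mul, one_pow]
  ring

end Pool.Agent.MP_dd7250_nt
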