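import Mathlib
import Pool.Agent.MP_dd7250_nt.Asm

/- Translation between the shifts and the variables `u`. -/

set_option autoImplicit false
set_option maxHeartbeats 400000

namespace Pool.Agent.MP_dd7250_nt

open Polynomial Finset Pool.Agent.MP_d232b3_nt Filter
open scoped Classical

variable {F : Type*} [Field F] [Fintype F]

variable (F) in
/-- The variable attached to a shift. -/
noncomputable def uu (α : ℂ) : ℂ := (Q F : ℂ) ^ (-(1 / 2 + α))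

theorem br_norm (s : ℂ) : ‖(Q F : ℂ) ^ s‖ = qp F s.re :=
  Complex.norm_natCast_cpow_of_pos Fintype.card_pos s

theorem norm_uu (α : ℂ) : ‖uu F α‖ = qp F (-(1 / 2 + α.re)) := by
  rw [uu, br_norm]
  simp

theorem br_pow (d : ℕ) (s : ℂ) : ((Q F : ℂ) ^ d) ^ s = ((Q F : ℂ) ^ s) ^ d := by
  rw [← Complex.natCast_cpow_natCast_mul, Complex.cpow_nat_mul]

theorem br_mul (α β : ℂ) : uu F α * uu F β = (Q F : ℂ) ^ (-1 - α - β) := by
  rw [uu, uu, ← Complex.cpow_add _ _ Q_ne]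
  congr 1
  ring

theorem br_Q_mul (α β : ℂ) : Q F * (uu F α * uu F β) = (Q F : ℂ) ^ (-(α + β)) := by
  rw [br_mul]
  nth_rewrite 1 [← Complex.cpow_one (Q F : ℂ)]
  rw [← Complex.cpow_add _ _ Q_ne]
  congr 1
  ring

theorem uu_neg (α : ℂ) : (Q F * uu F α)⁻¹ = uu F (-α) := by
  refine inv_eq_of_mul_eq_one_right ?_
  rw [mul_assoc, br_Q_mul]
  simp

theorem Lf_eq (hF : ringChar F ≠ 2) {D : F[X]} {g : ℕ} (hD : D ∈ sqF F (2 * g + 1)) (α : ℂ) :
    Lf D (1 / 2 + α) = Lt (jac D) (2 * g) (uu F α) := by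
  obtain ⟨h1, h2, h3⟩ := mem_sqF.1 hD
  rw [Lf, Lt, tsum_eq_sum (s := range (2 * g + 1))]
  · refine sum_congr rfl fun n _ => ?_
    rw [finsum_eq_AA, br_pow]
    rfl
  · intro n hn
    rw [finsum_eq_AA, AA_jac_vanish hF h1 h2 (by omega) (by simpa [h3] using hn), zero_mul]

theorem avg_eq {g : ℕ} (hg : 1 ≤ g) (Φ : F[X] → ℂ) :
    avg g Φ = (∑ D ∈ sqF F (2 * g + 1), Φ D) / ((Q F - 1) * (Q F : ℂ) ^ (2 * g)) := by
  rw [avg, ← card_sqF hg, ← finsum_mem_coe_finset]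
  simp only [mem_coe, mem_sqF]
  rw [Nat.subtype_card (sqF F (2 * g + 1)) fun D => mem_sqF]

theorem locA_eq (α β γ δ : ℂ) (d : ℕ) :
    locA ((Q F : ℂ) ^ d) α β γ δ =
      BP F d (pw ![uu F α, uu F β, uu F γ, uu F δ] d) * (1 - (uu F γ * uu F δ) ^ d) /
        ((1 - (uu F α * uu F γ) ^ d) * (1 - (uu F α * uu F δ) ^ d) *
          (1 - (uu F β * uu F γ) ^ d) * (1 - (uu F β * uu F δ) ^ d)) := by
  have hp : (Q F : ℂ) ^ d ≠ 0 := pow_ne_zero _ Q_ne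
  have h1 : ∀ x y : ℂ, ((Q F : ℂ) ^ d) ^ (-1 - x - y) = uu F x ^ d * uu F y ^ d := fun x y => by
    rw [br_pow, ← br_mul, mul_pow]
  have h2 : ∀ x : ℂ, ((Q F : ℂ) ^ d) ^ (-2 - 2 * x) =
      ((Q F : ℂ) ^ d)⁻¹ * (uu F x ^ d) ^ 2 := fun x => by
    rw [_root_.sq, ← h1, ← Complex.cpow_neg_one, ← Complex.cpow_add _ _ hp]
    congr 1
    ring
  have h3 : ((Q F : ℂ) ^ d) ^ (-2 - α - β - γ - δ) =
      uu F α ^ d * uu F β ^ d * (uu F γ ^ d * uu F δ ^ d) := by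
    rw [← h1, ← h1, ← Complex.cpow_add _ _ hp]
    congr 1
    ring
  have h4 : ((Q F : ℂ) ^ d) ^ (-3 - 2 * α - 2 * β) =
      ((Q F : ℂ) ^ d)⁻¹ * (uu F α ^ d) ^ 2 * (uu F β ^ d) ^ 2 := by
    rw [← h2, _root_.sq (uu F β ^ d), ← h1, ← Complex.cpow_add _ _ hp]
    congr 1
    ring
  rw [locA, h2, h2, h3, h4]
  simp only [h1, BP, pw, Matrix.cons_val_zero, Matrix.cons_val_one, Matrix.cons_val, mul_pow,
    Algebra.algebraMap_self, RingHom.id_apply, one_div]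
  ring

theorem GG_eq (hF : ringChar F ≠ 2) {ε c : ℝ} (hε : 0 < ε) {α β γ δ : ℂ} (hc : c ≤ 1 / 2)
    (hγ : c ≤ γ.re) (hδ : c ≤ δ.re) (ha : |α.re| + |β.re| + ε ≤ c) :
    Rng F ε c α.re β.re ![uu F α, uu F β, uu F γ, uu F δ] ∧
      GG F α β γ δ = Gu F ![uu F α, uu F β, uu F γ, uu F δ] := by
  have hR : Rng F ε c α.re β.re ![uu F α, uu F β, uu F γ, uu F δ] :=
    ⟨hc, ha, norm_uu α, norm_uu β, (norm_uu γ).trans_le (qp_mono (by linarith)),
      (norm_uu δ).trans_le (qp_mono (by linarith))⟩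
  refine ⟨hR, ?_⟩
  obtain ⟨b, hb, -⟩ := main0 hF hε hR
  have h1 : ∀ x y : ℂ, 0 < x.re + y.re → Q F * ‖uu F x * uu F y‖ < 1 := fun x y h => by
    rw [← Complex.norm_natCast, ← norm_mul, br_Q_mul, br_norm]
    exact qp_lt_one (by simp; linarith)
  have h2 : ∀ x y : ℂ, 0 < x.re + y.re → 1 - Q F * (uu F x * uu F y) ≠ 0 := fun x y h h0 => by
    have := h1 x y h
    rw [← Complex.norm_natCast, ← norm_mul, ← sub_eq_zero.1 h0, norm_one] at this
    exact lt_irrefl _ this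
  have e1 := neg_abs_le α.re
  have e2 := neg_abs_le β.re
  have e3 := abs_nonneg α.re
  have e4 := abs_nonneg β.re
  have z1 : 0 < γ.re + δ.re := by linarith
  have z2 : 0 < α.re + γ.re := by linarith
  have z3 : 0 < α.re + δ.re := by linarith
  have z4 : 0 < β.re + γ.re := by linarith
  have z5 : 0 < β.re + δ.re := by linarith
  have h3 := (hb.mul (hasProd_zeta (h1 _ _ z1))).div₀
    ((((hasProd_zeta (h1 _ _ z2)).mul (hasProd_zeta (h1 _ _ z3))).mul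
      (hasProd_zeta (h1 _ _ z4))).mul (hasProd_zeta (h1 _ _ z5)))
    (mul_ne_zero (mul_ne_zero (mul_ne_zero (h2 _ _ z2) (h2 _ _ z3)) (h2 _ _ z4)) (h2 _ _ z5))
  have h4 : ∀ x y : ℂ, zeta F (1 + x + y) = (1 - Q F * (uu F x * uu F y))⁻¹ := fun x y => by
    rw [zeta, br_Q_mul]
    congr 3
    ring
  have h5 : ∀ x : ℂ, zeta F (1 + 2 * x) = (1 - Q F * uu F x ^ 2)⁻¹ := fun x => by
    rw [two_mul, ← add_assoc, h4, _root_.sq]
  have h6 : AA4 F α β γ δ = _ := (tprod_congr fun P => locA_eq α β γ δ _).trans h3.tprod_eq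
  rw [GG, h6, Gu, hb.tprod_eq]
  simp only [h4, h5, Matrix.cons_val_zero, Matrix.cons_val_one]
  have := h2 _ _ z1
  have := h2 _ _ z2
  have := h2 _ _ z3
  have := h2 _ _ z4
  have := h2 _ _ z5
  generalize 1 - (Q F : ℂ) * (uu F γ * uu F δ) = x1 at *
  generalize 1 - (Q F : ℂ) * (uu F α * uu F γ) = x2 at *
  generalize 1 - (Q F : ℂ) * (uu F α * uu F δ) = x3 at *
  generalize 1 - (Q F : ℂ) * (uu F β * uu F γ) = x4 at *
  generalize 1 - (Q F : ℂ) * (uu F β * uu F δ) = x5 at *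
  field_simp

end Pool.Agent.MP_dd7250_nt
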